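import Pool.Agent.MP_f7db47_al.RegA

/-! Unipotent matrices over a regular ring are trivial. -/

namespace Pool.Agent.MP_f7db47_al

open Function Matrix

universe v w

variable {R : Type v} {L : Type w} [Ring R] [Ring L] {ρ : R →+* L}

/-- The properties of a class of matrices that are needed. -/
structure KT (L : Type w) [Ring L] where
  T : ∀ {n : Type} [Fintype n] [DecidableEq n], Matrix n n L → Prop
  one : ∀ (n : Type) [Fintype n] [DecidableEq n], T (1 : Matrix n n L)
  comm : ∀ {m n : Type} [Fintype m] [DecidableEq m] [Fintype n] [DecidableEq n]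
    (X : Matrix m n L) (Y : Matrix n m L), T (1 - Y * X) → T (1 - X * Y)
  tri : ∀ {m n : Type} [Fintype m] [DecidableEq m] [Fintype n] [DecidableEq n]
    (A : Matrix m m L) (C : Matrix n m L) (B : Matrix n n L), T A →
      (T (fromBlocks A 0 C B) ↔ T B)

namespace KT

variable (K : KT L)

/-- Triviality of an endomorphism of a finitely generated projective module. -/
def Triv (M : Type w) [AddCommGroup M] [Module L M] (ν : M →ₗ[L] M) : Prop :=
  ∃ (m : Type) (_ : Fintype m) (_ : DecidableEq m) (i : M →ₗ[L] (m → L)) (p : (m → L) →ₗ[L] M)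
    (N : Matrix m m L), (∀ x, p (i x) = x) ∧ (∀ v, v ᵥ* N = i (ν (p v))) ∧ K.T (1 - N)

/-- Endomorphisms with a finite resolution by trivial ones. -/
def Good : ℕ → (M : Type w) → [AddCommGroup M] → [Module L M] → (M →ₗ[L] M) → Prop
  | 0, M, _, _, ν => K.Triv M ν
  | k + 1, M, _, _, ν => ∃ (P : Type w) (_ : AddCommGroup P) (_ : Module L P) (π : P →ₗ[L] P)
      (q : P →ₗ[L] M) (κ : LinearMap.ker q →ₗ[L] LinearMap.ker q), Surjective q ∧
      (∀ x, q (π x) = ν (q x)) ∧ (∀ x, (κ x).1 = π x.1) ∧ K.Triv P π ∧ Good k (LinearMap.ker q) κ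

variable {K}

section
variable {M M' M'' : Type w} [AddCommGroup M] [Module L M] [AddCommGroup M'] [Module L M']
  [AddCommGroup M''] [Module L M''] {ν : M →ₗ[L] M} {ν' : M' →ₗ[L] M'} {ν'' : M'' →ₗ[L] M''}

theorem Triv.indep (h : K.Triv M ν) {m : Type} [Fintype m] [DecidableEq m]
    {i : M →ₗ[L] (m → L)} {p : (m → L) →ₗ[L] M} {N : Matrix m m L} (h1 : ∀ x, p (i x) = x)
    (h2 : ∀ v, v ᵥ* N = i (ν (p v))) : K.T (1 - N) := by
  obtain ⟨m₀, _, _, i₀, p₀, N₀, g1, g2, hT⟩ := h
  obtain ⟨X, hX⟩ := exists_mat (i₀ ∘ₗ p)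
  obtain ⟨Y, hY⟩ := exists_mat (i ∘ₗ ν ∘ₗ p₀)
  have e1 : N = X * Y := ext_vecMul fun v => by rw [← vecMul_vecMul, hX, hY, h2]; simp [g1]
  have e2 : N₀ = Y * X := ext_vecMul fun v => by rw [← vecMul_vecMul, hX, hY, g2]; simp [h1]
  rw [e1]
  exact K.comm X Y (e2 ▸ hT)

theorem Triv.projective (h : K.Triv M ν) : Module.Projective L M := by
  obtain ⟨m, _, _, i, p, N, h1, -⟩ := h
  exact Module.Projective.of_split i p (LinearMap.ext h1)

theorem Triv.finite (h : K.Triv M ν) : Module.Finite L M := by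
  obtain ⟨m, _, _, i, p, N, h1, -⟩ := h
  exact Module.Finite.of_surjective p fun x => ⟨i x, h1 x⟩

theorem Triv.tri {a : M' →ₗ[L] M} {b : M →ₗ[L] M''} (ha : Injective a) (hab : Exact a b)
    (hb : Surjective b) (h1 : ∀ x, a (ν' x) = ν (a x)) (h2 : ∀ x, b (ν x) = ν'' (b x))
    (h' : K.Triv M' ν') [Module.Projective L M''] [Module.Finite L M''] :
    K.Triv M ν ↔ K.Triv M'' ν'' := by
  obtain ⟨m', _, _, i', p', N', g1, g2, hT⟩ := h'
  obtain ⟨n, p'', hp''⟩ := Module.Finite.exists_fin' L M''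
  obtain ⟨i'', hi''⟩ := Module.projective_lifting_property p'' LinearMap.id hp''
  have k1 : ∀ y, p'' (i'' y) = y := fun y => congr($hi'' y)
  obtain ⟨N'', k2⟩ := exists_mat (i'' ∘ₗ ν'' ∘ₗ p'')
  obtain ⟨s, hs⟩ := Module.projective_lifting_property b LinearMap.id hb
  have hs' : ∀ y, b (s y) = y := fun y => congr($hs y)
  have hba : ∀ y, b (a y) = 0 := hab.apply_apply_eq_zero
  let r : M →ₗ[L] M' := (LinearEquiv.ofInjective a ha).symm.toLinearMap ∘ₗ
    (LinearMap.id - s ∘ₗ b).codRestrict (LinearMap.range a) fun x => (hab _).1 (by simp [hs'])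
  have hr : ∀ x, a (r x) = x - s (b x) := fun x => by simp [r]
  have hra : ∀ y, r (a y) = y := fun y => ha (by rw [hr, hba]; simp)
  have hrs : ∀ y, r (s y) = 0 := fun y => ha (by rw [hr, hs']; simp)
  obtain ⟨C, hC⟩ := exists_mat (i' ∘ₗ r ∘ₗ ν ∘ₗ s ∘ₗ p'')
  let i : M →ₗ[L] (m' ⊕ Fin n → L) :=
    (LinearEquiv.sumArrowLequivProdArrow m' (Fin n) L L).symm.toLinearMap ∘ₗ
      (i' ∘ₗ r).prod (i'' ∘ₗ b)
  let p : (m' ⊕ Fin n → L) →ₗ[L] M :=
    a ∘ₗ p' ∘ₗ LinearMap.funLeft L L Sum.inl + s ∘ₗ p'' ∘ₗ LinearMap.funLeft L L Sum.inr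
  have hi : ∀ x, i x = Sum.elim (i' (r x)) (i'' (b x)) := fun x => by
    ext (j | j) <;> rfl
  have hp : ∀ v, p v = a (p' (v ∘ Sum.inl)) + s (p'' (v ∘ Sum.inr)) := fun v => rfl
  have l1 : ∀ x, p (i x) = x := fun x => by
    rw [hp, hi, Sum.elim_comp_inl, Sum.elim_comp_inr, g1, k1, hr, sub_add_cancel]
  have l2 : ∀ v, v ᵥ* fromBlocks N' 0 C N'' = i (ν (p v)) := fun v => by
    rw [vecMul_fromBlocks, hi, hp, g2, hC, k2]
    simp [← h1, hra, h2, hba, hs']
  have e : 1 - fromBlocks N' 0 C N'' = fromBlocks (1 - N') 0 (-C) (1 - N'') := by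
    rw [← fromBlocks_one, sub_eq_add_neg, fromBlocks_neg, fromBlocks_add]
    simp [sub_eq_add_neg]
  constructor
  · intro h
    refine ⟨Fin n, inferInstance, inferInstance, i'', p'', N'', k1, k2, ?_⟩
    rw [← K.tri _ (-C) _ hT, ← e]
    exact h.indep l1 l2
  · intro h
    refine ⟨m' ⊕ Fin n, inferInstance, inferInstance, i, p, _, l1, l2, ?_⟩
    rw [e, K.tri _ _ _ hT]
    exact h.indep k1 k2

theorem Triv.zero [Module.Projective L M] [Module.Finite L M] : K.Triv M 0 := by
  obtain ⟨n, p, hp⟩ := Module.Finite.exists_fin' L M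
  obtain ⟨i, hi⟩ := Module.projective_lifting_property p LinearMap.id hp
  exact ⟨Fin n, inferInstance, inferInstance, i, p, 0, fun y => congr($hi y), by simp,
    by simpa using K.one _⟩

theorem Triv.of_subsingleton [Subsingleton M] : K.Triv M ν :=
  ⟨Empty, inferInstance, inferInstance, 0, 0, 0, fun _ => Subsingleton.elim _ _,
    fun _ => Subsingleton.elim _ _, by simpa using K.one _⟩

theorem Triv.ext {a : M' →ₗ[L] M} {b : M →ₗ[L] M''} (ha : Injective a) (hab : Exact a b)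
    (hb : Surjective b) (h1 : ∀ x, a (ν' x) = ν (a x)) (h2 : ∀ x, b (ν x) = 0)
    (h' : K.Triv M' ν') (h'' : Ind ρ M'') : K.Triv M ν :=
  have := h''.projective
  have := h''.finite
  (h'.tri (ν'' := 0) ha hab hb h1 h2).2 Triv.zero

end

theorem Good.succ {k : ℕ} : ∀ {M : Type w} [AddCommGroup M] [Module L M] {ν : M →ₗ[L] M},
    K.Good k M ν → K.Good (k + 1) M ν := by
  induction k with
  | zero =>
    intro M _ _ ν h
    have : Subsingleton (LinearMap.ker (LinearMap.id : M →ₗ[L] M)) :=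
      ⟨fun x y => Subtype.ext (x.2.trans y.2.symm)⟩
    refine ⟨M, _, _, ν, LinearMap.id, 0, surjective_id, fun _ => rfl, fun x => ?_, h,
      Triv.of_subsingleton⟩
    rw [Subsingleton.elim x 0, map_zero]; simp
  | succ k ih =>
    rintro M _ _ ν ⟨P, _, _, π, q, κ, h1, h2, h3, h4, h5⟩
    exact ⟨P, _, _, π, q, κ, h1, h2, h3, h4, ih h5⟩

theorem Good.mono {k l : ℕ} (hkl : k ≤ l) {M : Type w} [AddCommGroup M] [Module L M]
    {ν : M →ₗ[L] M} (h : K.Good k M ν) : K.Good l M ν := by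
  induction hkl with
  | refl => exact h
  | step _ ih => exact ih.succ

theorem Good.triv {k : ℕ} : ∀ {M : Type w} [AddCommGroup M] [Module L M] {ν : M →ₗ[L] M},
    K.Good k M ν → Module.Projective L M → K.Triv M ν := by
  induction k with
  | zero => intro M _ _ ν h _; exact h
  | succ k ih =>
    rintro M _ _ ν ⟨P, _, _, π, q, κ, h1, h2, h3, h4, h5⟩ _
    have := h4.projective
    have := h4.finite
    have : Module.Finite L M := Module.Finite.of_surjective q h1
    obtain ⟨s, hs⟩ := Module.projective_lifting_property q LinearMap.id h1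
    have hs' : ∀ y, q (s y) = y := fun y => congr($hs y)
    let r : P →ₗ[L] LinearMap.ker q :=
      (LinearMap.id - s ∘ₗ q).codRestrict _ fun v => by simp [hs']
    have : Module.Projective L (LinearMap.ker q) :=
      Module.Projective.of_split (LinearMap.ker q).subtype r (by
        ext x : 2
        simp [r])
    exact ((ih h5 this).tri Subtype.val_injective (LinearMap.exact_subtype_ker_map q) h1 h3
      h2).1 h4

theorem Good.ext {k : ℕ} : ∀ {M M' M'' : Type w} [AddCommGroup M] [Module L M] [AddCommGroup M']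
    [Module L M'] [AddCommGroup M''] [Module L M''] {ν : M →ₗ[L] M} {ν' : M' →ₗ[L] M'}
    {a : M' →ₗ[L] M} {b : M →ₗ[L] M''}, Injective a → Exact a b → Surjective b →
    (∀ x, a (ν' x) = ν (a x)) → (∀ x, b (ν x) = 0) → K.Good k M' ν' → FR ρ k M'' →
    K.Good k M ν := by
  induction k with
  | zero =>
    intro M M' M'' _ _ _ _ _ _ ν ν' a b ha hab hb h1 h2 h' h''
    exact Triv.ext ha hab hb h1 h2 h' h''
  | succ k ih =>
    rintro M M' M'' _ _ _ _ _ _ ν ν' a b ha hab hb h1 h2 ⟨P, _, _, π, q, κ, g1, g2, g3, g4, g5⟩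
      ⟨m, _, q'', hq'', h''⟩
    obtain ⟨l, hl⟩ := Module.projective_lifting_property b q'' hb
    obtain ⟨hq, a₁, b₁, k1, k2, k3, k4, k5⟩ := horseshoe ha hab g1 hq'' l fun y => congr($hl y)
    obtain ⟨θ, hθ⟩ := Module.projective_lifting_property (a.rangeRestrict ∘ₗ q)
      ((ν ∘ₗ l).codRestrict (LinearMap.range a) fun y => (hab _).1 (h2 _))
      (a.surjective_rangeRestrict.comp g1)
    have hθ' : ∀ y, a (q (θ y)) = ν (l y) := fun y => congr(($hθ y).1)
    let π₁ : P × (m → L) →ₗ[L] P × (m → L) := (π.coprod θ).prod 0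
    have hc : ∀ x, (a ∘ₗ q).coprod l (π₁ x) = ν ((a ∘ₗ q).coprod l x) := fun x => by
      simp [π₁, g2, h1, hθ']
    let κ₁ := π₁.restrict (p := LinearMap.ker ((a ∘ₗ q).coprod l))
      (q := LinearMap.ker ((a ∘ₗ q).coprod l)) fun x hx => by
        rw [LinearMap.mem_ker, hc, LinearMap.mem_ker.1 hx, map_zero]
    have hκ : ∀ x, (κ₁ x).1 = π₁ x.1 := fun _ => rfl
    refine ⟨P × (m → L), inferInstance, inferInstance, π₁, (a ∘ₗ q).coprod l, κ₁, hq, hc, hκ,
      Triv.ext (ρ := ρ) LinearMap.inl_injective Exact.inl_snd LinearMap.snd_surjective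
        (fun x => by simp [π₁]) (fun x => by simp [π₁]) g4 (Ind.free m),
      ih k1 k2 k3 (fun x => Subtype.ext ?_) (fun x => Subtype.ext ?_) g5 h''⟩
    · rw [k4, hκ, k4, g3]; simp [π₁]
    · rw [k5, hκ]; simp [π₁]

theorem good_of_nilpotent (h : Reg ρ) (n : ℕ) : ∀ (M : Type w) [AddCommGroup M] [Module L M]
    [Module.Finite L M] (ν : M →ₗ[L] M), ν ^ n = 0 → ∃ k, K.Good k M ν := by
  have := h.isNoetherianRing
  induction n with
  | zero =>
    intro M _ _ _ ν hν
    have : Subsingleton M := ⟨fun x y => by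
      have h1 : x = 0 := congr($hν x)
      have h2 : y = 0 := congr($hν y)
      rw [h1, h2]⟩
    exact ⟨0, Triv.of_subsingleton⟩
  | succ n ih =>
    intro M _ _ _ ν hν
    let ν' := ν.restrict (p := LinearMap.range ν) (q := LinearMap.range ν) fun x _ => ⟨x, rfl⟩
    obtain ⟨k, hk⟩ := ih (LinearMap.range ν) ν' (by
      ext ⟨_, x, rfl⟩
      rw [Module.End.pow_restrict]
      show (ν ^ n) (ν x) = 0
      rw [← Module.End.mul_apply, ← pow_succ, hν]; rfl)
    obtain ⟨l, hl⟩ := h.fr (M ⧸ LinearMap.range ν)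
    exact ⟨max k l, Good.ext Subtype.val_injective (LinearMap.exact_subtype_mkQ _)
      (Submodule.mkQ_surjective _) (fun _ => rfl)
      (fun x => (Submodule.Quotient.mk_eq_zero _).2 (LinearMap.mem_range_self ν x)) (hk.mono (le_max_left _ _))
      (hl.mono (le_max_right _ _))⟩

theorem unipotent (K : KT L) (h : Reg ρ) {J : Type} [Fintype J] [DecidableEq J] (N : Matrix J J L)
    (hN : IsNilpotent N) : K.T (1 - N) := by
  obtain ⟨n, hn⟩ := hN
  obtain ⟨k, hk⟩ := good_of_nilpotent (K := K) h n (J → L) N.vecMulLinear (by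
    have : ∀ n v, (N.vecMulLinear ^ n) v = v ᵥ* N ^ n := by
      intro n
      induction n with
      | zero => simp
      | succ n ih => intro v; rw [pow_succ', Module.End.mul_apply, ih, pow_succ]; simp
    refine LinearMap.ext fun v => ?_
    rw [this, hn]; simp)
  exact (hk.triv inferInstance).indep (i := LinearMap.id) (p := LinearMap.id) (fun _ => rfl)
    fun _ => rfl

end KT

end Pool.Agent.MP_f7db47_al
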