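import Pool.Agent.MP_f7db47_al.TDefs

/-!
The calculus of stably trivial matrices.
-/

namespace Pool.Agent.MP_f7db47_al

open Matrix

universe u v

variable {R : Type v} [Ring R] {G : Type u} [Group G]

section Basic

variable {J K L : Type}

lemma map_single_mul [Fintype K] (A : Matrix J K R) (B : Matrix K L R) (g h : G) :
    A.map (MonoidAlgebra.single g) * B.map (MonoidAlgebra.single h) =
      (A * B).map (MonoidAlgebra.single (g * h)) := by
  ext1 i j
  simp only [Matrix.mul_apply, Matrix.map_apply, MonoidAlgebra.single_mul_single]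
  exact (map_sum (MonoidAlgebra.singleAddHom (R := R) (g * h)) _ _).symm

lemma map_single_one_one [DecidableEq J] :
    (1 : Matrix J J R).map (MonoidAlgebra.single (1 : G)) = 1 := by
  ext1 i j
  by_cases h : i = j
  · subst h; simp [MonoidAlgebra.one_def]
  · simp [Matrix.one_apply_ne h]

lemma map_single_zero (g : G) : (0 : Matrix J K R).map (MonoidAlgebra.single g) = 0 := by
  ext1 i j; simp

lemma map_single_sub (A B : Matrix J K R) (g : G) :
    (A - B).map (MonoidAlgebra.single g) =
      A.map (MonoidAlgebra.single g) - B.map (MonoidAlgebra.single g) := by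
  ext1 i j
  simp only [Matrix.map_apply, Matrix.sub_apply]
  exact map_sub (MonoidAlgebra.singleAddHom (R := R) g) _ _

lemma idem_mul [Fintype J] [DecidableEq J] (e : Matrix J J R) (he : e * e = e) (g h : G) :
    (1 - e.map (MonoidAlgebra.single (1 : G)) + e.map (MonoidAlgebra.single g)) *
      (1 - e.map (MonoidAlgebra.single 1) + e.map (MonoidAlgebra.single h)) =
      1 - e.map (MonoidAlgebra.single 1) + e.map (MonoidAlgebra.single (g * h)) := by
  simp only [mul_add, add_mul, mul_sub, sub_mul, one_mul, mul_one, map_single_mul, he]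
  abel

end Basic

section HGlemmas

variable {J K : Type} [Fintype J] [DecidableEq J] [Fintype K] [DecidableEq K]

lemma gen_mem {M : Matrix J J (MonoidAlgebra R G)} (h : Gen R G J M) : M ∈ HG R G J :=
  Submonoid.subset_closure h

lemma gen_inv {M : Matrix J J (MonoidAlgebra R G)} (h : Gen R G J M) :
    ∃ N, Gen R G J N ∧ M * N = 1 ∧ N * M = 1 := by
  cases h with
  | elem i j hij c =>
    have key : ∀ c d : MonoidAlgebra R G, c + d = 0 →
        (1 + single i j c) * (1 + single i j d) = (1 : Matrix J J _) := by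
      intro c d hcd
      simp only [mul_add, add_mul, one_mul, mul_one, single_mul_single_of_ne _ _ _ _ hij.symm,
        add_zero]
      rw [add_assoc, ← single_add, hcd, single_zero, add_zero]
    exact ⟨_, Gen.elem i j hij (-c), key _ _ (add_neg_cancel c), key _ _ (neg_add_cancel c)⟩
  | base U V hUV hVU =>
    exact ⟨_, Gen.base V U hVU hUV, by rw [map_single_mul, hUV, mul_one, map_single_one_one],
      by rw [map_single_mul, hVU, mul_one, map_single_one_one]⟩
  | idem e he g =>
    exact ⟨_, Gen.idem e he g⁻¹, by rw [idem_mul e he]; simp, by rw [idem_mul e he]; simp⟩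

lemma HG_inv {M : Matrix J J (MonoidAlgebra R G)} (h : M ∈ HG R G J) :
    ∃ N ∈ HG R G J, M * N = 1 ∧ N * M = 1 := by
  induction h using Submonoid.closure_induction with
  | mem x hx =>
    obtain ⟨N, h1, h2⟩ := gen_inv hx
    exact ⟨N, gen_mem h1, h2⟩
  | one => exact ⟨1, one_mem _, one_mul _, one_mul _⟩
  | mul x y _ _ hx hy =>
    obtain ⟨N, h1, h2, h3⟩ := hx
    obtain ⟨N', h1', h2', h3'⟩ := hy
    refine ⟨N' * N, mul_mem h1' h1, ?_, ?_⟩
    · rw [mul_assoc, ← mul_assoc y, h2', one_mul, h2]
    · rw [mul_assoc, ← mul_assoc N, h3, one_mul, h3']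

lemma HG_submatrix (e : K ≃ J) {M : Matrix J J (MonoidAlgebra R G)} (h : M ∈ HG R G J) :
    M.submatrix e e ∈ HG R G K := by
  induction h using Submonoid.closure_induction with
  | mem x hx =>
    apply gen_mem
    cases hx with
    | elem i j hij c =>
      have : (1 + single i j c : Matrix J J _).submatrix e e =
          1 + single (e.symm i) (e.symm j) c := by
        rw [submatrix_add, Pi.add_apply, Pi.add_apply, submatrix_one_equiv,
          submatrix_single_equiv]
      rw [this]
      exact Gen.elem _ _ (fun h => hij (e.symm.injective h)) c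
    | base U V hUV hVU =>
      exact Gen.base (U.submatrix e e) (V.submatrix e e)
        (by rw [submatrix_mul_equiv, hUV, submatrix_one_equiv])
        (by rw [submatrix_mul_equiv, hVU, submatrix_one_equiv])
    | idem p hp g =>
      have : (1 - p.map (MonoidAlgebra.single (1 : G)) +
          p.map (MonoidAlgebra.single g)).submatrix e e =
          1 - (p.submatrix e e).map (MonoidAlgebra.single (1 : G)) +
          (p.submatrix e e).map (MonoidAlgebra.single g) := by
        ext1 i j
        simp [Matrix.one_apply]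
      rw [this]
      exact Gen.idem _ (by rw [submatrix_mul_equiv, hp]) g
  | one => rw [submatrix_one_equiv]; exact one_mem _
  | mul x y _ _ hx hy => rw [← submatrix_mul_equiv x y e e e]; exact mul_mem hx hy

lemma HG_stab {M : Matrix J J (MonoidAlgebra R G)} (h : M ∈ HG R G J) :
    fromBlocks M 0 0 (1 : Matrix K K _) ∈ HG R G (J ⊕ K) := by
  induction h using Submonoid.closure_induction with
  | mem x hx =>
    apply gen_mem
    cases hx with
    | elem i j hij c =>
      have : fromBlocks (1 + single i j c : Matrix J J (MonoidAlgebra R G)) 0 0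
          (1 : Matrix K K _) = 1 + single (Sum.inl i) (Sum.inl j) c := by
        ext1 a b
        rcases a with a | a <;> rcases b with b | b <;>
          simp [Matrix.one_apply, Matrix.single_apply]
      rw [this]
      exact Gen.elem _ _ (fun h => hij (Sum.inl_injective h)) c
    | base U V hUV hVU =>
      have : fromBlocks (U.map (MonoidAlgebra.single (1 : G))) 0 0 (1 : Matrix K K _) =
          (fromBlocks U 0 0 1).map (MonoidAlgebra.single (1 : G)) := by
        rw [fromBlocks_map, map_single_zero, map_single_zero, map_single_one_one]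
      rw [this]
      exact Gen.base _ (fromBlocks V 0 0 1) (by simp [fromBlocks_multiply, hUV])
        (by simp [fromBlocks_multiply, hVU])
    | idem p hp g =>
      have : fromBlocks (1 - p.map (MonoidAlgebra.single (1 : G)) +
          p.map (MonoidAlgebra.single g)) 0 0 (1 : Matrix K K _) =
          1 - (fromBlocks p 0 0 0).map (MonoidAlgebra.single (1 : G)) +
          (fromBlocks p 0 0 0).map (MonoidAlgebra.single g) := by
        ext1 a b
        rcases a with a | a <;> rcases b with b | b <;> simp [Matrix.one_apply]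
      rw [this]
      exact Gen.idem _ (by simp [fromBlocks_multiply, hp]) g
  | one => rw [fromBlocks_one]; exact one_mem _
  | mul x y _ _ hx hy =>
    have := mul_mem hx hy
    simpa [fromBlocks_multiply] using this

lemma HG_upper (X : Matrix J K (MonoidAlgebra R G)) :
    fromBlocks 1 X 0 1 ∈ HG R G (J ⊕ K) := by
  induction X using Matrix.induction_on' with
  | h_zero => rw [fromBlocks_one]; exact one_mem _
  | h_add X Y hX hY =>
    have := mul_mem hX hY
    simpa [fromBlocks_multiply, add_comm] using this
  | h_std_basis i j c =>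
    have : fromBlocks (1 : Matrix J J (MonoidAlgebra R G)) (single i j c) 0
        (1 : Matrix K K _) = 1 + single (Sum.inl i) (Sum.inr j) c := by
      ext1 a b
      rcases a with a | a <;> rcases b with b | b <;>
        simp [Matrix.one_apply, Matrix.single_apply]
    rw [this]
    exact gen_mem (Gen.elem _ _ Sum.inl_ne_inr c)

lemma HG_lower (X : Matrix K J (MonoidAlgebra R G)) :
    fromBlocks 1 0 X 1 ∈ HG R G (J ⊕ K) := by
  have := HG_submatrix (Equiv.sumComm J K) (HG_upper (J := K) (K := J) X)
  simpa using this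

lemma HG_map {G' : Type*} [Group G'] (f : G →* G') {M : Matrix J J (MonoidAlgebra R G)}
    (h : M ∈ HG R G J) : M.map (MonoidAlgebra.mapDomainRingHom R f) ∈ HG R G' J := by
  induction h using Submonoid.closure_induction with
  | mem x hx =>
    apply gen_mem
    cases hx with
    | elem i j hij c =>
      have : (1 + single i j c : Matrix J J _).map (MonoidAlgebra.mapDomainRingHom R f) =
          1 + single i j (MonoidAlgebra.mapDomainRingHom R f c) := by
        rw [Matrix.map_add _ (map_add _), Matrix.map_one _ (map_zero _) (map_one _),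
          Matrix.map_single]
      rw [this]
      exact Gen.elem _ _ hij _
    | base U V hUV hVU =>
      have : (U.map (MonoidAlgebra.single (1 : G))).map (MonoidAlgebra.mapDomainRingHom R f) =
          U.map (MonoidAlgebra.single (1 : G')) := by
        ext1 a b; simp
      rw [this]
      exact Gen.base U V hUV hVU
    | idem p hp g =>
      have : (1 - p.map (MonoidAlgebra.single (1 : G)) +
          p.map (MonoidAlgebra.single g)).map (MonoidAlgebra.mapDomainRingHom R f) =
          1 - p.map (MonoidAlgebra.single (1 : G')) + p.map (MonoidAlgebra.single (f g)) := by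
        rw [Matrix.map_add _ (map_add _), Matrix.map_sub _ (map_sub _),
          Matrix.map_one _ (map_zero _) (map_one _)]
        congr 1
        · congr 1; ext1 a b; simp
        · ext1 a b; simp
      rw [this]
      exact Gen.idem p hp _
  | one => rw [Matrix.map_one _ (map_zero _) (map_one _)]; exact one_mem _
  | mul x y _ _ hx hy => rw [Matrix.map_mul]; exact mul_mem hx hy

end HGlemmas

section Tlemmas

variable {J K : Type} [Fintype J] [DecidableEq J] [Fintype K] [DecidableEq K]

lemma T_of_mem {M : Matrix J J (MonoidAlgebra R G)} (h : M ∈ HG R G J) : T M :=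
  ⟨Empty, inferInstance, inferInstance, HG_stab h⟩

lemma T_gen {M : Matrix J J (MonoidAlgebra R G)} (h : Gen R G J M) : T M := T_of_mem (gen_mem h)

lemma T_one : T (1 : Matrix J J (MonoidAlgebra R G)) := T_of_mem (one_mem _)

lemma stab_left {ι κ : Type} [Fintype ι] [DecidableEq ι] [Fintype κ] [DecidableEq κ]
    {A : Matrix J J (MonoidAlgebra R G)}
    (h : fromBlocks A 0 0 (1 : Matrix ι ι _) ∈ HG R G (J ⊕ ι)) :
    fromBlocks A 0 0 (1 : Matrix (ι ⊕ κ) (ι ⊕ κ) _) ∈ HG R G (J ⊕ (ι ⊕ κ)) := by
  have := HG_submatrix (Equiv.sumAssoc J ι κ).symm (HG_stab (K := κ) h)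
  convert this using 1
  ext1 a b
  rcases a with a | a | a <;> rcases b with b | b | b <;> simp [Matrix.one_apply]

lemma stab_equiv {ι κ : Type} [Fintype ι] [DecidableEq ι] [Fintype κ] [DecidableEq κ]
    (e : κ ≃ ι) {A : Matrix J J (MonoidAlgebra R G)}
    (h : fromBlocks A 0 0 (1 : Matrix ι ι _) ∈ HG R G (J ⊕ ι)) :
    fromBlocks A 0 0 (1 : Matrix κ κ _) ∈ HG R G (J ⊕ κ) := by
  have := HG_submatrix (Equiv.sumCongr (Equiv.refl J) e) h
  convert this using 1
  ext1 a b
  rcases a with a | a <;> rcases b with b | b <;> simp [Matrix.one_apply]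

lemma T_mul {A B : Matrix J J (MonoidAlgebra R G)} (hA : T A) (hB : T B) : T (A * B) := by
  obtain ⟨ι, _, _, hA⟩ := hA
  obtain ⟨κ, _, _, hB⟩ := hB
  have := mul_mem (stab_left (κ := κ) hA) (stab_equiv (Equiv.sumComm ι κ) (stab_left hB))
  exact ⟨ι ⊕ κ, inferInstance, inferInstance, by simpa [fromBlocks_multiply] using this⟩

lemma T_unit {A : Matrix J J (MonoidAlgebra R G)} (hA : T A) :
    ∃ B, T B ∧ A * B = 1 ∧ B * A = 1 := by
  obtain ⟨ι, _, _, hA⟩ := hA
  obtain ⟨N, hN, h1, h2⟩ := HG_inv hA
  rw [← fromBlocks_toBlocks N] at hN h1 h2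
  rw [fromBlocks_multiply, ← fromBlocks_one, fromBlocks_inj] at h1 h2
  simp only [Matrix.zero_mul, Matrix.mul_zero, add_zero, zero_add, Matrix.one_mul,
    Matrix.mul_one] at h1 h2
  refine ⟨N.toBlocks₁₁, ⟨ι, inferInstance, inferInstance, ?_⟩, h1.1, h2.1⟩
  rw [h2.2.1, h1.2.2.1, h1.2.2.2] at hN
  exact hN

lemma T_inv {A B : Matrix J J (MonoidAlgebra R G)} (hA : T A) (h : A * B = 1) : T B := by
  obtain ⟨C, hC, -, h2⟩ := T_unit hA
  have : B = C := by rw [← one_mul B, ← h2, mul_assoc, h, mul_one]
  rwa [this]

lemma T_cancel_left {A B : Matrix J J (MonoidAlgebra R G)} (hA : T A) (h : T (A * B)) : T B := by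
  obtain ⟨C, hC, -, h2⟩ := T_unit hA
  have := T_mul hC h
  rwa [← mul_assoc, h2, one_mul] at this

lemma T_cancel_right {A B : Matrix J J (MonoidAlgebra R G)} (hB : T B) (h : T (A * B)) : T A := by
  obtain ⟨C, hC, h1, -⟩ := T_unit hB
  have := T_mul h hC
  rwa [mul_assoc, h1, mul_one] at this

lemma T_pow {A : Matrix J J (MonoidAlgebra R G)} (hA : T A) (n : ℕ) : T (A ^ n) := by
  induction n with
  | zero => rw [pow_zero]; exact T_one
  | succ n ih => rw [pow_succ]; exact T_mul ih hA

lemma T_submatrix (e : K ≃ J) {A : Matrix J J (MonoidAlgebra R G)} (hA : T A) :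
    T (A.submatrix e e) := by
  obtain ⟨ι, _, _, hA⟩ := hA
  refine ⟨ι, inferInstance, inferInstance, ?_⟩
  have := HG_submatrix (Equiv.sumCongr e (Equiv.refl ι)) hA
  convert this using 1
  ext1 a b
  rcases a with a | a <;> rcases b with b | b <;> simp [Matrix.one_apply]

lemma T_of_submatrix (e : K ≃ J) {A : Matrix J J (MonoidAlgebra R G)}
    (hA : T (A.submatrix e e)) : T A := by
  simpa using T_submatrix e.symm hA

lemma T_stab {A : Matrix J J (MonoidAlgebra R G)} (hA : T A) :
    T (fromBlocks A 0 0 (1 : Matrix K K _)) := by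
  obtain ⟨ι, _, _, hA⟩ := hA
  refine ⟨ι, inferInstance, inferInstance, ?_⟩
  have := HG_submatrix (Equiv.sumAssoc J K ι)
    (stab_equiv (Equiv.sumComm K ι) (stab_left (κ := K) hA))
  convert this using 1
  ext1 a b
  rcases a with (a | a) | a <;> rcases b with (b | b) | b <;> simp [Matrix.one_apply]

lemma T_of_stab {A : Matrix J J (MonoidAlgebra R G)}
    (hA : T (fromBlocks A 0 0 (1 : Matrix K K _))) : T A := by
  obtain ⟨ι, _, _, hA⟩ := hA
  refine ⟨K ⊕ ι, inferInstance, inferInstance, ?_⟩
  have := HG_submatrix (Equiv.sumAssoc J K ι).symm hA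
  convert this using 1
  ext1 a b
  rcases a with a | a | a <;> rcases b with b | b | b <;> simp [Matrix.one_apply]

lemma T_stab' {A : Matrix J J (MonoidAlgebra R G)} (hA : T A) :
    T (fromBlocks (1 : Matrix K K _) 0 0 A) := by
  simpa using T_submatrix (Equiv.sumComm K J) (T_stab (K := K) hA)

lemma T_of_stab' {A : Matrix J J (MonoidAlgebra R G)}
    (hA : T (fromBlocks (1 : Matrix K K _) 0 0 A)) : T A := by
  apply T_of_stab (K := K)
  simpa using T_submatrix (Equiv.sumComm J K) hA

lemma T_upper (X : Matrix J K (MonoidAlgebra R G)) : T (fromBlocks 1 X 0 1) :=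
  T_of_mem (HG_upper X)

lemma T_lower (X : Matrix K J (MonoidAlgebra R G)) : T (fromBlocks 1 0 X 1) :=
  T_of_mem (HG_lower X)

/-- Conjugation invariance, with rectangular conjugating matrices. -/
lemma T_conj {A : Matrix K K (MonoidAlgebra R G)} (X : Matrix J K (MonoidAlgebra R G))
    (Y : Matrix K J (MonoidAlgebra R G)) (hXY : X * Y = 1) (hYX : Y * X = 1) (hA : T A) :
    T (X * A * Y) := by
  have hW : ∀ (X : Matrix J K (MonoidAlgebra R G)) (Y : Matrix K J (MonoidAlgebra R G)),
      X * Y = 1 → Y * X = 1 → T (fromBlocks 0 X (-Y) 0) := by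
    intro X Y hXY hYX
    have := T_mul (T_mul (T_upper X) (T_lower (-Y))) (T_upper X)
    simpa [fromBlocks_multiply, hXY, hYX] using this
  have h1 := hW X Y hXY hYX
  have h2 := hW (-X) (-Y) (by simpa using hXY) (by simpa using hYX)
  have := T_mul (T_mul h1 (T_stab' (K := J) hA)) h2
  apply T_of_stab (K := K)
  simpa [fromBlocks_multiply, hYX] using this

/-- `1 - X Y` and `1 - Y X` are simultaneously trivial. -/
lemma T_one_sub_comm (X : Matrix J K (MonoidAlgebra R G)) (Y : Matrix K J (MonoidAlgebra R G))
    (h : T (1 - Y * X)) : T (1 - X * Y) := by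
  have := T_mul (T_mul (T_mul (T_mul (T_upper (-X)) (T_lower Y)) (T_stab' (K := J) h))
    (T_upper X)) (T_lower (-Y))
  apply T_of_stab (K := K)
  convert this using 1
  simp only [fromBlocks_multiply, fromBlocks_inj, Matrix.one_mul, Matrix.mul_one,
    Matrix.zero_mul, Matrix.mul_zero, add_zero, zero_add, Matrix.neg_mul, Matrix.mul_neg,
    Matrix.add_mul, Matrix.mul_sub, Matrix.sub_mul, Matrix.mul_assoc]
  refine ⟨?_, ?_, ?_, ?_⟩ <;> abel

lemma T_upper_block {A : Matrix J J (MonoidAlgebra R G)} {D : Matrix K K (MonoidAlgebra R G)}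
    (B : Matrix J K (MonoidAlgebra R G)) (hA : T A) (hD : T D) : T (fromBlocks A B 0 D) := by
  have := T_mul (T_mul (T_stab' (K := J) hD) (T_upper B)) (T_stab (K := K) hA)
  simpa [fromBlocks_multiply] using this

lemma T_lower_block {A : Matrix J J (MonoidAlgebra R G)} {D : Matrix K K (MonoidAlgebra R G)}
    (C : Matrix K J (MonoidAlgebra R G)) (hA : T A) (hD : T D) : T (fromBlocks A 0 C D) := by
  simpa using T_submatrix (Equiv.sumComm J K) (T_upper_block C hD hA)

lemma T_upper_block_right {A : Matrix J J (MonoidAlgebra R G)}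
    {D : Matrix K K (MonoidAlgebra R G)} {B : Matrix J K (MonoidAlgebra R G)}
    (h : T (fromBlocks A B 0 D)) (hA : T A) : T D := by
  apply T_of_stab' (K := J)
  apply T_cancel_right (T_mul (T_upper B) (T_stab (K := K) hA))
  simpa [fromBlocks_multiply] using h

lemma T_upper_block_left {A : Matrix J J (MonoidAlgebra R G)}
    {D : Matrix K K (MonoidAlgebra R G)} {B : Matrix J K (MonoidAlgebra R G)}
    (h : T (fromBlocks A B 0 D)) (hD : T D) : T A := by
  apply T_of_stab (K := K)
  apply T_cancel_left (T_mul (T_stab' (K := J) hD) (T_upper B))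
  simpa [fromBlocks_multiply] using h

lemma T_lower_block_right {A : Matrix J J (MonoidAlgebra R G)}
    {D : Matrix K K (MonoidAlgebra R G)} {C : Matrix K J (MonoidAlgebra R G)}
    (h : T (fromBlocks A 0 C D)) (hA : T A) : T D := by
  have := T_submatrix (Equiv.sumComm K J) h
  exact T_upper_block_left (B := C) (by simpa using this) hA

lemma T_lower_block_left {A : Matrix J J (MonoidAlgebra R G)}
    {D : Matrix K K (MonoidAlgebra R G)} {C : Matrix K J (MonoidAlgebra R G)}
    (h : T (fromBlocks A 0 C D)) (hD : T D) : T A := by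
  have := T_submatrix (Equiv.sumComm K J) h
  exact T_upper_block_right (B := C) (by simpa using this) hD

lemma T_map {G' : Type*} [Group G'] (f : G →* G') {A : Matrix J J (MonoidAlgebra R G)}
    (hA : T A) : T (A.map (MonoidAlgebra.mapDomainRingHom R f)) := by
  obtain ⟨ι, _, _, hA⟩ := hA
  refine ⟨ι, inferInstance, inferInstance, ?_⟩
  have := HG_map f hA
  rwa [fromBlocks_map, Matrix.map_zero _ (map_zero _), Matrix.map_zero _ (map_zero _),
    Matrix.map_one _ (map_zero _) (map_one _)] at this

lemma T_scalar (g : G) :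
    T ((1 : Matrix J J R).map (MonoidAlgebra.single g)) := by
  have := T_gen (Gen.idem (R := R) (1 : Matrix J J R) (one_mul _) g)
  rwa [map_single_one_one, sub_self, zero_add] at this

lemma k1Onto_of_G1 (h : G1 R G) : K1Onto R G := by
  intro n A B h1 h2
  obtain ⟨ι, _, _, hA⟩ := h _ A B h1 h2
  exact ⟨Fintype.card ι, stab_equiv (Fintype.equivFin ι).symm hA⟩

lemma k0Onto_of_G0 (h : G0 R G) : K0Onto R G := by
  intro n p hp
  obtain ⟨ι, _, _, κ, _, _, e, X, Y, he, h1, h2⟩ := h _ p hp
  let a := (Fintype.equivFin ι).symm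
  let b := (Fintype.equivFin κ).symm
  let c := Equiv.sumCongr (Equiv.refl (Fin n)) a
  refine ⟨Fintype.card ι, Fintype.card κ, e.submatrix b b, X.submatrix c b, Y.submatrix b c,
    by rw [submatrix_mul_equiv, he], ?_, ?_⟩
  · rw [submatrix_mul_equiv, h1]
    ext1 i j
    rcases i with i | i <;> rcases j with j | j <;> simp [c, Matrix.one_apply]
  · rw [submatrix_mul_equiv, h2]; rfl

end Tlemmas

end Pool.Agent.MP_f7db47_al
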