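import Pool.Agent.MP_f7db47_al.RegD
import Pool.Agent.MP_f7db47_al.RegE
import Pool.Agent.MP_f7db47_al.TCalc

/-! The base case: poly-`ℤ` groups over a regular ring. -/

namespace Pool.Agent.MP_f7db47_al

universe u v

variable {R : Type v} [Ring R] {G : Type u} [Group G]

theorem polyZ_base (hR : RegularRing R) (h : PolyZ G) : Unip R G ∧ G0 R G := by
  have hreg := h.reg hR
  constructor
  · intro J _ _ ν hν
    let K : KT (MonoidAlgebra R G) :=
      { T := fun A => T A
        one := fun _ _ _ => T_one
        comm := fun X Y h => T_one_sub_comm X Y h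
        tri := fun _ C _ hA => ⟨fun h => T_lower_block_right h hA, fun h => T_lower_block C hA h⟩ }
    exact K.unipotent hreg ν hν
  · intro J _ _ p hp
    classical
    obtain ⟨a, m, _, _, _, e, X, Y, h1, h2, h3⟩ := hreg.idem p hp
    exact ⟨a, inferInstance, ‹_›, m, inferInstance, inferInstance, e, X, Y, h1, h2, h3⟩

end Pool.Agent.MP_f7db47_al
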