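import Mathlib

/-! Finite resolutions by free modules ending in an induced projective module. -/

namespace Pool.Agent.MP_f7db47_al

open Function Matrix

universe v w

variable {R : Type v} {L : Type w} [Ring R] [Ring L] (ρ : R →+* L)

/-- `M` is induced along `ρ` from a finitely generated projective `R`-module. -/
def Ind (M : Type w) [AddCommGroup M] [Module L M] : Prop :=
  ∃ (m : Type) (_ : Fintype m) (e : Matrix m m R) (p : (m → L) →ₗ[L] M),
    e * e = e ∧ Surjective p ∧ ∀ v, p v = 0 ↔ v ᵥ* e.map ρ = 0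

/-- Resolution of length `k` by finite free modules, ending in an induced projective. -/
def FR : ℕ → (M : Type w) → [AddCommGroup M] → [Module L M] → Prop
  | 0, M, _, _ => Ind ρ M
  | k + 1, M, _, _ => ∃ (m : Type) (_ : Fintype m) (p : (m → L) →ₗ[L] M),
      Surjective p ∧ FR k (LinearMap.ker p)

variable {ρ}

theorem exists_mat {m n : Type} [Fintype m] (φ : (m → L) →ₗ[L] (n → L)) :
    ∃ A : Matrix m n L, ∀ v, v ᵥ* A = φ v := by
  classical
  exact ⟨LinearMap.toMatrixRight' φ, fun v => by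
    rw [← toLinearMapRight'_apply, LinearEquiv.symm_apply_apply]⟩

theorem ext_vecMul {m n : Type} [Fintype m] {A B : Matrix m n L} (h : ∀ v, v ᵥ* A = v ᵥ* B) :
    A = B := by
  classical
  ext i j
  simpa using congrFun (h (Pi.single i 1)) j

section
variable {M M' M'' : Type w} [AddCommGroup M] [Module L M] [AddCommGroup M'] [Module L M']
  [AddCommGroup M''] [Module L M'']

theorem Ind.iso (h : Ind ρ M) (e : M ≃ₗ[L] M') : Ind ρ M' := by
  obtain ⟨m, _, E, p, hE, hp, hk⟩ := h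
  exact ⟨m, _, E, e.toLinearMap ∘ₗ p, hE, e.surjective.comp hp, fun v => by simp [hk]⟩

theorem Ind.split (h : Ind ρ M) : ∃ (m : Type) (_ : Fintype m) (e : Matrix m m R)
    (i : M →ₗ[L] (m → L)) (p : (m → L) →ₗ[L] M), e * e = e ∧ (∀ x, p (i x) = x) ∧
      ∀ v, i (p v) = v ᵥ* e.map ρ := by
  obtain ⟨m, _, E, p, hE, hp, hk⟩ := h
  let i : M →ₗ[L] (m → L) := (LinearMap.ker p).liftQ (E.map ρ).vecMulLinear
    (fun v hv => (hk v).1 hv) ∘ₗ (p.quotKerEquivOfSurjective hp).symm.toLinearMap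
  have hi : ∀ v, i (p v) = v ᵥ* E.map ρ := fun v => by
    simp [i, LinearMap.quotKerEquivOfSurjective_symm_apply]
  refine ⟨m, _, E, i, p, hE, fun x => ?_, hi⟩
  obtain ⟨v, rfl⟩ := hp x
  rw [hi, eq_comm, ← sub_eq_zero, ← map_sub, hk, sub_vecMul, vecMul_vecMul, ← Matrix.map_mul, hE,
    sub_self]

theorem Ind.projective (h : Ind ρ M) : Module.Projective L M := by
  obtain ⟨m, _, E, i, p, -, h1, -⟩ := h.split
  exact Module.Projective.of_split i p (LinearMap.ext h1)

theorem Ind.finite (h : Ind ρ M) : Module.Finite L M := by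
  obtain ⟨m, _, E, p, -, hp, -⟩ := h
  exact Module.Finite.of_surjective p hp

theorem Ind.free (m : Type) [Fintype m] : Ind ρ (m → L) := by
  classical
  exact ⟨m, inferInstance, 1, LinearMap.id, by simp, surjective_id, fun v => by simp⟩

theorem Ind.ext {a : M' →ₗ[L] M} {b : M →ₗ[L] M''} (ha : Injective a) (hab : Exact a b)
    (hb : Surjective b) (h' : Ind ρ M') (h'' : Ind ρ M'') : Ind ρ M := by
  have := h''.projective
  obtain ⟨s, hs⟩ := Module.projective_lifting_property b LinearMap.id hb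
  have hs' : ∀ y, b (s y) = y := fun y => congr($hs y)
  have hba : ∀ y, b (a y) = 0 := hab.apply_apply_eq_zero
  obtain ⟨m', _, e', p', he', hp', hk'⟩ := h'
  obtain ⟨m'', _, e'', p'', he'', hp'', hk''⟩ := h''
  refine ⟨m' ⊕ m'', inferInstance, fromBlocks e' 0 0 e'',
    a ∘ₗ p' ∘ₗ LinearMap.funLeft L L Sum.inl + s ∘ₗ p'' ∘ₗ LinearMap.funLeft L L Sum.inr,
    by simp [fromBlocks_multiply, he', he''], fun x => ?_, fun v => ?_⟩
  · obtain ⟨y, hy⟩ := (hab (x - s (b x))).1 (by simp [hs'])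
    obtain ⟨u, rfl⟩ := hp' y
    obtain ⟨w, hw⟩ := hp'' (b x)
    refine ⟨Sum.elim u w, ?_⟩
    show a (p' u) + s (p'' w) = x
    rw [hy, hw]; simp
  · have e1 : v ᵥ* (fromBlocks e' 0 0 e'').map ρ =
        Sum.elim ((v ∘ Sum.inl) ᵥ* e'.map ρ) ((v ∘ Sum.inr) ᵥ* e''.map ρ) := by
      rw [fromBlocks_map, vecMul_fromBlocks]; simp
    rw [e1]
    show a (p' (v ∘ Sum.inl)) + s (p'' (v ∘ Sum.inr)) = 0 ↔ _
    constructor
    · intro h
      have h2 : p'' (v ∘ Sum.inr) = 0 := by simpa [hba, hs'] using congrArg b h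
      have h1 : p' (v ∘ Sum.inl) = 0 := ha (by simpa [h2] using h)
      rw [(hk' _).1 h1, (hk'' _).1 h2]
      ext (i | i) <;> rfl
    · intro h
      rw [(hk' _).2 (funext fun i => congrFun h (.inl i)),
        (hk'' _).2 (funext fun i => congrFun h (.inr i))]
      simp

theorem Ind.pad (h : Ind ρ M) : ∃ (m : Type) (_ : Fintype m) (p : (m → L) →ₗ[L] M),
    Surjective p ∧ Ind ρ (LinearMap.ker p) := by
  classical
  obtain ⟨m, _, e, p, he, hp, hk⟩ := h
  have hm : ∀ v : m → L, v ᵥ* (1 - e).map ρ = v - v ᵥ* e.map ρ := fun v => by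
    rw [Matrix.map_sub _ (map_sub ρ), vecMul_sub]; simp
  refine ⟨m, inferInstance, p, hp, m, inferInstance, 1 - e, ((1 - e).map ρ).vecMulLinear.codRestrict _ fun v => ?_,
    by simp [sub_mul, mul_sub, he], fun x => ⟨x, Subtype.ext ?_⟩, fun v => ?_⟩
  · rw [LinearMap.mem_ker, hk, vecMulLinear_apply, vecMul_vecMul, ← Matrix.map_mul]
    simp [sub_mul, he]
  · show x.1 ᵥ* _ = _
    rw [hm, (hk _).1 x.2, sub_zero]
  · exact Subtype.ext_iff

end

theorem FR.iso {k : ℕ} : ∀ {M M' : Type w} [AddCommGroup M] [Module L M] [AddCommGroup M']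
    [Module L M'], FR ρ k M → (M ≃ₗ[L] M') → FR ρ k M' := by
  induction k with
  | zero => intro M M' _ _ _ _ h e; exact Ind.iso h e
  | succ k ih =>
    rintro M M' _ _ _ _ ⟨m, _, p, hp, h⟩ e
    exact ⟨m, inferInstance, e.toLinearMap ∘ₗ p, e.surjective.comp hp,
      ih h (LinearEquiv.ofEq _ _ (by simp))⟩

theorem FR.succ {k : ℕ} : ∀ {M : Type w} [AddCommGroup M] [Module L M],
    FR ρ k M → FR ρ (k + 1) M := by
  induction k with
  | zero => intro M _ _ h; exact Ind.pad h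
  | succ k ih => rintro M _ _ ⟨m, _, p, hp, h⟩; exact ⟨m, inferInstance, p, hp, ih h⟩

theorem FR.mono {k l : ℕ} (hkl : k ≤ l) {M : Type w} [AddCommGroup M] [Module L M]
    (h : FR ρ k M) : FR ρ l M := by
  induction hkl with
  | refl => exact h
  | step _ ih => exact ih.succ

theorem FR.finite {k : ℕ} {M : Type w} [AddCommGroup M] [Module L M] (h : FR ρ k M) :
    Module.Finite L M := by
  obtain ⟨m, _, p, hp, -⟩ := h.succ
  exact Module.Finite.of_surjective p hp

section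
variable {M M' M'' P' P'' : Type w} [AddCommGroup M] [Module L M] [AddCommGroup M'] [Module L M']
  [AddCommGroup M''] [Module L M''] [AddCommGroup P'] [Module L P'] [AddCommGroup P'']
  [Module L P'']

theorem horseshoe {a : M' →ₗ[L] M} {b : M →ₗ[L] M''} (ha : Injective a) (hab : Exact a b)
    {q' : P' →ₗ[L] M'} (hq' : Surjective q') {q'' : P'' →ₗ[L] M''} (hq'' : Surjective q'')
    (l : P'' →ₗ[L] M) (hl : ∀ y, b (l y) = q'' y) :
    Surjective ((a ∘ₗ q').coprod l) ∧
    ∃ (a₁ : LinearMap.ker q' →ₗ[L] LinearMap.ker ((a ∘ₗ q').coprod l))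
      (b₁ : LinearMap.ker ((a ∘ₗ q').coprod l) →ₗ[L] LinearMap.ker q''),
      Injective a₁ ∧ Exact a₁ b₁ ∧ Surjective b₁ ∧ (∀ x, (a₁ x).1 = (x.1, 0)) ∧
        ∀ y, (b₁ y).1 = y.1.2 := by
  have hba : ∀ y, b (a y) = 0 := hab.apply_apply_eq_zero
  constructor
  · intro x
    obtain ⟨w, hw⟩ := hq'' (b x)
    obtain ⟨y, hy⟩ := (hab (x - l w)).1 (by simp [hl, hw])
    obtain ⟨u, rfl⟩ := hq' y
    exact ⟨(u, w), by simp [hy]⟩
  refine ⟨(LinearMap.inl L P' P'' ∘ₗ (LinearMap.ker q').subtype).codRestrict _ fun x => ?_,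
    (LinearMap.snd L P' P'' ∘ₗ (LinearMap.ker _).subtype).codRestrict _ fun y => ?_,
    fun x y h => ?_, fun y => ⟨fun h => ?_, ?_⟩, fun w => ?_, fun _ => rfl, fun _ => rfl⟩
  · simp
  · have := congrArg b (LinearMap.mem_ker.1 y.2)
    rw [LinearMap.coprod_apply, map_add, LinearMap.comp_apply, hba, hl, zero_add, map_zero] at this
    exact this
  · exact Subtype.ext (congrArg (fun z => z.1.1) h)
  · have h2 : y.1.2 = 0 := congrArg Subtype.val h
    have h1 := LinearMap.mem_ker.1 y.2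
    rw [LinearMap.coprod_apply, h2, map_zero, add_zero] at h1
    exact ⟨⟨y.1.1, ha (by simpa using h1)⟩, Subtype.ext (Prod.ext rfl h2.symm)⟩
  · rintro ⟨x, rfl⟩; rfl
  · obtain ⟨y, hy⟩ := (hab (l w)).1 (by rw [hl]; exact w.2)
    obtain ⟨u, rfl⟩ := hq' y
    exact ⟨⟨(-u, w), by simp [hy]⟩, rfl⟩

end

theorem FR.ext {k : ℕ} : ∀ {M M' M'' : Type w} [AddCommGroup M] [Module L M] [AddCommGroup M']
    [Module L M'] [AddCommGroup M''] [Module L M''] {a : M' →ₗ[L] M} {b : M →ₗ[L] M''},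
    Injective a → Exact a b → Surjective b → FR ρ k M' → FR ρ k M'' → FR ρ k M := by
  induction k with
  | zero => intro M M' M'' _ _ _ _ _ _ a b ha hab hb h' h''; exact Ind.ext ha hab hb h' h''
  | succ k ih =>
    rintro M M' M'' _ _ _ _ _ _ a b ha hab hb ⟨m', _, q', hq', h'⟩ ⟨m'', _, q'', hq'', h''⟩
    obtain ⟨l, hl⟩ := Module.projective_lifting_property b q'' hb
    obtain ⟨hq, a₁, b₁, h1, h2, h3, -⟩ := horseshoe ha hab hq' hq'' l fun y => congr($hl y)
    let e := LinearEquiv.sumArrowLequivProdArrow m' m'' L L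
    refine ⟨m' ⊕ m'', inferInstance, (a ∘ₗ q').coprod l ∘ₗ e.toLinearMap, hq.comp e.surjective,
      (ih h1 h2 h3 h' h'').iso ?_⟩
    exact (e.ofSubmodule' _).symm.trans (LinearEquiv.ofEq _ _ (LinearMap.ker_comp _ _).symm)

section
variable {M M' M'' : Type w} [AddCommGroup M] [Module L M] [AddCommGroup M'] [Module L M']
  [AddCommGroup M''] [Module L M'']

theorem FR.coker {k : ℕ} {a : M' →ₗ[L] M} {b : M →ₗ[L] M''} (ha : Injective a) (hab : Exact a b)
    (hb : Surjective b) (h' : FR ρ k M') (h : FR ρ (k + 1) M) : FR ρ (k + 1) M'' := by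
  obtain ⟨m, _, p, hp, h⟩ := h
  refine ⟨m, inferInstance, b ∘ₗ p, hb.comp hp, ?_⟩
  let e := LinearEquiv.ofInjective a ha
  let t : LinearMap.ker (b ∘ₗ p) →ₗ[L] LinearMap.range a :=
    (p ∘ₗ (LinearMap.ker _).subtype).codRestrict _ fun y => (hab _).1 y.2
  refine FR.ext (a := Submodule.inclusion (LinearMap.ker_le_ker_comp p b)) (b := t)
    (Submodule.inclusion_injective _) (fun y => ⟨fun hy => ?_, ?_⟩) (fun z => ?_) h (h'.iso e)
  · exact ⟨⟨y.1, congrArg Subtype.val hy⟩, rfl⟩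
  · rintro ⟨x, rfl⟩; exact Subtype.ext x.2
  · obtain ⟨v, hv⟩ := hp z
    refine ⟨⟨v, ?_⟩, Subtype.ext hv⟩
    show b (p v) = 0
    rw [hv]; exact (hab _).2 z.2

end

theorem FR.stable {k : ℕ} : ∀ {M : Type w} [AddCommGroup M] [Module L M], FR ρ k M →
    Module.Projective L M → ∃ (a : Type) (_ : Fintype a), Ind ρ (M × (a → L)) := by
  induction k with
  | zero =>
    intro M _ _ h _
    exact ⟨Empty, inferInstance, Ind.ext LinearMap.inl_injective Exact.inl_snd
      LinearMap.snd_surjective h (Ind.free _)⟩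
  | succ k ih =>
    rintro M _ _ ⟨m, _, p, hp, h⟩ _
    obtain ⟨s, hs⟩ := Module.projective_lifting_property p LinearMap.id hp
    have hs' : ∀ y, p (s y) = y := fun y => congr($hs y)
    let r : (m → L) →ₗ[L] LinearMap.ker p :=
      (LinearMap.id - s ∘ₗ p).codRestrict _ fun v => by simp [hs']
    have : Module.Projective L (LinearMap.ker p) :=
      Module.Projective.of_split (LinearMap.ker p).subtype r (by
        ext x : 2
        simp [r])
    obtain ⟨a, _, hI⟩ := ih h this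
    obtain ⟨c, _, q, hq, hX⟩ := hI.pad
    refine ⟨c, inferInstance, Ind.ext (M'' := (m → L) × (a → L))
      (a := LinearMap.inr L _ _ ∘ₗ (LinearMap.ker q).subtype)
      (b := (s.coprod ((LinearMap.ker p).subtype ∘ₗ LinearMap.fst L _ _ ∘ₗ q)).prod
        (LinearMap.snd L _ _ ∘ₗ q ∘ₗ LinearMap.snd L _ _))
      (LinearMap.inr_injective.comp Subtype.val_injective) (fun y => ⟨fun hy => ?_, ?_⟩)
      (fun z => ?_) hX (Ind.ext LinearMap.inl_injective Exact.inl_snd
      LinearMap.snd_surjective (Ind.free _) (Ind.free _))⟩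
    · have h1 : s y.1 + (q y.2).1.1 = 0 := congrArg Prod.fst hy
      have h2 : (q y.2).2 = 0 := congrArg Prod.snd hy
      have h3 : y.1 = 0 := by simpa [hs'] using congrArg p h1
      have h4 : (q y.2).1 = 0 := Subtype.ext (by simpa [h3] using h1)
      exact ⟨⟨y.2, Prod.ext h4 h2⟩, Prod.ext h3.symm rfl⟩
    · rintro ⟨x, rfl⟩
      have : q x.1 = 0 := x.2
      simp [this]
    · obtain ⟨w, hw⟩ := hq (r z.1, z.2)
      refine ⟨(p z.1, w), Prod.ext ?_ ?_⟩
      · simp [hw, r]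
      · simp [hw]

/-- Every submodule of a finite free module has a finite resolution. -/
def Reg (ρ : R →+* L) : Prop :=
  ∀ (J : Type) [Fintype J] (A : Submodule L (J → L)), ∃ k, FR ρ k A

theorem Reg.noeth (h : Reg ρ) (J : Type) [Fintype J] : IsNoetherian L (J → L) :=
  ⟨fun A => by
    obtain ⟨k, hk⟩ := h J A
    exact Module.Finite.iff_fg.1 hk.finite⟩

theorem Reg.isNoetherianRing (h : Reg ρ) : IsNoetherianRing L :=
  have := h.noeth Unit
  isNoetherian_of_linearEquiv (LinearEquiv.funUnique Unit L L)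

theorem Reg.fr (h : Reg ρ) (M : Type w) [AddCommGroup M] [Module L M] [Module.Finite L M] :
    ∃ k, FR ρ k M := by
  obtain ⟨n, p, hp⟩ := Module.Finite.exists_fin' L M
  obtain ⟨k, hk⟩ := h _ (LinearMap.ker p)
  exact ⟨k + 1, Fin n, inferInstance, p, hp, hk⟩

/-- Every idempotent matrix is stably equivalent to an induced one. -/
theorem Reg.idem (h : Reg ρ) {n : Type} [Fintype n] (e : Matrix n n L) (he : e * e = e) :
    ∃ (a m : Type) (_ : Fintype a) (_ : DecidableEq a) (_ : Fintype m) (e₀ : Matrix m m R)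
      (X : Matrix (n ⊕ a) m L) (Y : Matrix m (n ⊕ a) L), e₀ * e₀ = e₀ ∧
      X * Y = fromBlocks e 0 0 1 ∧ Y * X = e₀.map ρ := by
  classical
  let M := LinearMap.range e.vecMulLinear
  have hM : ∀ x : M, x.1 ᵥ* e = x.1 := by
    rintro ⟨_, v, rfl⟩
    simp [he]
  obtain ⟨k, hk⟩ := h n M
  obtain ⟨a, _, hI⟩ := hk.stable (Module.Projective.of_split M.subtype
    e.vecMulLinear.rangeRestrict (by ext x : 2; exact hM x))
  obtain ⟨m, _, e₀, i, p, he₀, h1, h2⟩ := hI.split
  let u : (n ⊕ a → L) →ₗ[L] M × (a → L) :=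
    (e.vecMulLinear.rangeRestrict ∘ₗ LinearMap.funLeft L L Sum.inl).prod
      (LinearMap.funLeft L L Sum.inr)
  let v : M × (a → L) →ₗ[L] (n ⊕ a → L) :=
    (LinearEquiv.sumArrowLequivProdArrow n a L L).symm.toLinearMap ∘ₗ
      M.subtype.prodMap LinearMap.id
  have huv : ∀ x, u (v x) = x := fun x => Prod.ext (Subtype.ext (hM x.1)) rfl
  obtain ⟨X, hX⟩ := exists_mat (i ∘ₗ u)
  obtain ⟨Y, hY⟩ := exists_mat (v ∘ₗ p)
  refine ⟨a, m, inferInstance, inferInstance, inferInstance, e₀, X, Y, he₀,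
    ext_vecMul fun w => ?_, ext_vecMul fun w => ?_⟩
  · rw [← vecMul_vecMul, hX, hY, vecMul_fromBlocks]
    simp only [LinearMap.comp_apply, h1]
    ext (j | j)
    · simp [u, v]; rfl
    · simp [u, v]
  · rw [← vecMul_vecMul, hX, hY, ← h2]
    simp [huv]

end Pool.Agent.MP_f7db47_al
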