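import Pool.Agent.MP_f7db47_al.Defs

/-!
The class of groups used in the final statements.
-/

namespace Pool.Agent.MP_f7db47_al

/-- The class `E`: poly-`ℤ` groups and groups of piecewise linear homeomorphisms of `[0,1]`
without infinite towers, closed under subgroups, products, directed unions and tame
extensions by `ℤ`. -/
inductive ClassE : (G : Type) → [Group G] → Prop
  | poly (G : Type) [Group G] (h : PolyZ G) : ClassE G
  | pl (G : Subgroup (Equiv.Perm ℝ)) (hPL : ∀ g ∈ G, IsPL g) (hG : NoInfiniteTower G) : ClassE G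
  | sub (G H : Type) [Group G] [Group H] (f : G →* H) (hf : Function.Injective f)
      (hH : ClassE H) : ClassE G
  | prod (G H : Type) [Group G] [Group H] (hG : ClassE G) (hH : ClassE H) : ClassE (G × H)
  | loc (G : Type) [Group G] (h : ∀ K : Subgroup G, K.FG → ClassE K) : ClassE G
  | ext (G : Type) [Group G] (h : G →* Multiplicative ℤ) (hker : ClassE h.ker)
      (ι : Type) (K : ι → Subgroup G) (r : ι → ι → Prop) (hr : WellFounded r)
      (hK : ∀ i, K i ≤ h.ker)
      (hcover : ∀ M : Subgroup G, M.FG → M ≤ h.ker → ∃ i, M ≤ K i)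
      (term : ι → G → Prop)
      (hterm : ∀ i x, term i x → ClassE ↥(K i ⊔ Subgroup.zpowers x))
      (hstep : ∀ i x, x ∉ h.ker → term i x ∨ Drops K r i x ∨ Drops K r i x⁻¹) : ClassE G

end Pool.Agent.MP_f7db47_al
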