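import Pool.Agent.MP_f7db47_al.Nil2
import Pool.Agent.MP_f7db47_al.Bass
import Pool.Agent.MP_f7db47_al.Reg

/-!
Assembly: the class `D` satisfies the low degree statements.
-/

set_option linter.unusedSectionVars false

namespace Pool.Agent.MP_f7db47_al

open Function

universe u v

lemma polyZ_of_injective {G : Type u} [Group G] (hG : PolyZ G) :
    ∀ (H : Type u) [Group H] (f : H →* G), Injective f → PolyZ H := by
  induction hG with
  | triv G h => exact fun H _ f hf => PolyZ.triv H hf.subsingleton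
  | ext G h _ ih =>
    intro H _ f hf
    refine PolyZ.ext H (h.comp f) (ih _ ((f.comp (h.comp f).ker.subtype).codRestrict h.ker
      fun x => x.2) fun x y hxy => Subtype.ext (hf (congrArg Subtype.val hxy)))

lemma polyZ_prod {G H : Type u} [Group G] [Group H] (hG : PolyZ G) (hH : PolyZ H) :
    PolyZ (G × H) := by
  induction hH with
  | triv H h =>
    exact polyZ_of_injective hG _ (MonoidHom.fst G H)
      fun x y hxy => Prod.ext hxy (Subsingleton.elim _ _)
  | ext H h _ ih =>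
    refine PolyZ.ext _ (h.comp (MonoidHom.snd G H)) (polyZ_of_injective ih _
      (((MonoidHom.fst G H).comp (Subgroup.subtype _)).prod
        (((MonoidHom.snd G H).comp (Subgroup.subtype _)).codRestrict h.ker fun x => x.2)) ?_)
    intro x y hxy
    exact Subtype.ext (Prod.ext (congrArg (fun z => z.1) hxy)
      (congrArg (fun z => (z.2 : H)) hxy))

lemma polyZ_int : PolyZ (PUnit.{u + 1} × Multiplicative ℤ) := by
  refine PolyZ.ext _ (MonoidHom.snd _ _) (PolyZ.triv _ ⟨fun x y => Subtype.ext ?_⟩)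
  exact Prod.ext rfl (x.2.trans y.2.symm)

variable {R : Type v} [Ring R]

lemma G1_of_subsingleton (G : Type u) [Group G] [Subsingleton G] : G1 R G := by
  intro J _ _ A B h1 h2
  let e : MonoidAlgebra R G ≃+* R := MonoidAlgebra.uniqueRingEquiv G
  have he : ∀ x, MonoidAlgebra.single (1 : G) (e x) = x := fun x => by
    rw [← MonoidAlgebra.uniqueRingEquiv_symm_apply]; exact e.symm_apply_apply x
  have : A = (A.map e).map (MonoidAlgebra.single (1 : G)) := by
    ext1 i j; exact (he _).symm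
  rw [this]
  refine T_gen (Gen.base _ (B.map e) ?_ ?_)
  · rw [← Matrix.map_mul, h1, Matrix.map_one _ (map_zero _) (map_one _)]
  · rw [← Matrix.map_mul, h2, Matrix.map_one _ (map_zero _) (map_one _)]

lemma polyZ_G1 (hR : RegularRing R) {G : Type u} [Group G] (hG : PolyZ G) : G1 R G := by
  induction hG with
  | triv G h => exact G1_of_subsingleton G
  | ext G h hk ih =>
    exact zext h ih (polyZ_base hR hk).2
      fun J _ _ ν _ _ _ hn => (polyZ_base hR (PolyZ.ext G h hk)).1 J ν hn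

lemma G1_local {G : Type u} [Group G]
    (h : ∀ Φ : Finset G, ∃ K : Subgroup G, (Φ : Set G) ⊆ K ∧ G1 R K) : G1 R G := by
  rw [G1_iff]
  intro J _ _ A hA
  obtain ⟨s, hs, -⟩ := exists_finset_msup A
  obtain ⟨K, hK, h⟩ := h s
  exact T_of_isUnit_msup K h (hs.mono hK) hA

variable (R) in
/-- All subgroups of products with poly-`ℤ` groups satisfy `G1`. -/
def QQ (Γ : Type u) [Group Γ] : Prop :=
  ∀ (P : Type u) [Group P], PolyZ P → ∀ (Δ : Type u) [Group Δ] (f : Δ →* Γ × P),
    Injective f → G1 R Δ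

section QQ

variable {Γ Γ' : Type u} [Group Γ] [Group Γ']

lemma QQ.sub (h : QQ R Γ) (f : Γ' →* Γ) (hf : Injective f) : QQ R Γ' := fun P _ hP Δ _ g hg =>
  h P hP Δ ((f.prodMap (MonoidHom.id P)).comp g) ((hf.prodMap injective_id).comp hg)

lemma QQ.g1 (h : QQ R Γ) : G1 R Γ :=
  h PUnit (PolyZ.triv _ inferInstance) Γ (MonoidHom.inl _ _) fun _ _ h => congrArg Prod.fst h

lemma QQ.g0 (h : QQ R Γ) : G0 R Γ :=
  G0_of_G1_prod (h _ polyZ_int _ ((MonoidHom.id Γ).prodMap (MonoidHom.inr _ _))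
    (injective_id.prodMap fun _ _ h => congrArg Prod.snd h))

lemma QQ.prod_poly (h : QQ R Γ) (hP : PolyZ Γ') : QQ R (Γ × Γ') := fun P _ hP' Δ _ g hg =>
  h (Γ' × P) (polyZ_prod hP hP') Δ
    ((MulEquiv.prodAssoc (M := Γ) (N := Γ') (P := P)).toMonoidHom.comp g)
    ((MulEquiv.prodAssoc (M := Γ) (N := Γ') (P := P)).injective.comp hg)

lemma qq_punit (hR : RegularRing R) : QQ R PUnit.{u + 1} := fun _ _ hP _ _ f hf =>
  polyZ_G1 hR (polyZ_of_injective (polyZ_prod (PolyZ.triv _ inferInstance) hP) _ f hf)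

end QQ

variable (R) in
/-- The inductive property. -/
def PS (G : Type u) [Group G] : Prop := ∀ (Γ : Type u) [Group Γ], QQ R Γ → QQ R (Γ × G)

lemma qq_of_le {Γ G P Δ : Type u} [Group Γ] [Group G] [Group P] [Group Δ] (hΓ : QQ R Γ)
    (hP : PolyZ P) (f : Δ →* (Γ × G) × P) (hf : Injective f) (K₀ : Subgroup G) (hK₀ : PS R K₀)
    (K : Subgroup Δ) (hK : ∀ x ∈ K, (f x).1.2 ∈ K₀) : QQ R K := by
  refine ((hK₀ Γ hΓ).prod_poly hP).sub
    ((((MonoidHom.fst _ _).comp ((MonoidHom.fst _ _).comp (f.comp K.subtype))).prod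
      (((MonoidHom.snd _ _).comp ((MonoidHom.fst _ _).comp (f.comp K.subtype))).codRestrict K₀
        fun x => hK x x.2)).prod ((MonoidHom.snd _ _).comp (f.comp K.subtype))) ?_
  intro x y hxy
  exact Subtype.ext (hf (Prod.ext (Prod.ext (congrArg (fun z => z.1.1) hxy)
    (congrArg (fun z => (z.1.2 : G)) hxy)) (congrArg (fun z => z.2) hxy)))

lemma fg_closure_image {G Δ : Type u} [Group G] (p : Δ → G) (Φ : Finset Δ) :
    (Subgroup.closure (p '' Φ)).FG :=
  (Subgroup.fg_iff _).2 ⟨_, rfl, (Finset.finite_toSet Φ).image p⟩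

theorem ClassD.ps {G : Type u} [Group G] (hG : ClassD G) : PS R G := by
  induction hG with
  | poly G h => exact fun Γ _ hΓ => hΓ.prod_poly h
  | sub G H f hf _ ih =>
    exact fun Γ _ hΓ => (ih Γ hΓ).sub ((MonoidHom.id Γ).prodMap f) (injective_id.prodMap hf)
  | prod G H _ _ ihG ihH =>
    exact fun Γ _ hΓ => (ihH _ (ihG Γ hΓ)).sub
      (MulEquiv.prodAssoc (M := Γ) (N := G) (P := H)).symm.toMonoidHom
      (MulEquiv.prodAssoc (M := Γ) (N := G) (P := H)).symm.injective
  | loc G _ ih =>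
    intro Γ _ hΓ P _ hP Δ _ f hf
    let p : Δ →* G := (MonoidHom.snd _ _).comp ((MonoidHom.fst _ _).comp f)
    refine G1_local fun Φ => ⟨(Subgroup.closure (p '' Φ)).comap p,
      fun x hx => Subgroup.subset_closure ⟨x, hx, rfl⟩, ?_⟩
    exact (qq_of_le hΓ hP f hf _ (ih _ (fg_closure_image p Φ)) _ fun x hx => hx).g1
  | ext G h _ ι K r hr hK hcover term _ hstep ihker ihterm =>
    intro Γ _ hΓ P _ hP Δ _ f hf
    let p : Δ →* G := (MonoidHom.snd _ _).comp ((MonoidHom.fst _ _).comp f)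
    have hq : QQ R (h.comp p).ker := qq_of_le hΓ hP f hf _ ihker _ fun x hx => hx
    have tame : ∀ (dg : Δ → ℤ), (∀ a b, dg (a * b) = dg a + dg b) →
        (∀ g, g ∈ (h.comp p).ker ↔ dg g = 0) → ∀ i, TameS R dg ((K i).comap p) := by
      intro dg hadd hdg i
      induction i using hr.induction with
      | _ i ih =>
      refine tameS_step dg hadd (fun k hk => (hdg k).1 (hK i hk)) fun x hx => ?_
      have hx' : p x ∉ h.ker := fun h0 => by
        have := (hdg x).1 h0
        omega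
      rcases hstep i (p x) hx' with h1 | h1 | h1
      · refine Or.inl (qq_of_le hΓ hP f hf _ (ihterm i _ h1) _ ?_).g1
        have : (K i).comap p ⊔ Subgroup.zpowers x ≤ (K i ⊔ Subgroup.zpowers (p x)).comap p := by
          refine sup_le (Subgroup.comap_mono le_sup_left) ?_
          rw [Subgroup.zpowers_le]
          exact Subgroup.mem_sup_right (Subgroup.mem_zpowers _)
        exact fun y hy => this hy
      · refine Or.inr ⟨1, x, one_mul x, fun Φ hΦ => ?_⟩
        obtain ⟨j, hj, hM⟩ := h1 _ (fg_closure_image p Φ) (by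
          rw [Subgroup.closure_le]
          rintro _ ⟨y, hy, rfl⟩
          obtain ⟨e1, e2⟩ := hΦ hy
          exact ⟨by simpa using e1, p (x⁻¹ * y * x), e2, by simp [mul_assoc]⟩)
        exact ⟨_, fun y hy => hM (Subgroup.subset_closure ⟨y, hy, rfl⟩), ih j hj⟩
      · refine Or.inr ⟨x, 1, mul_one x, fun Φ hΦ => ?_⟩
        obtain ⟨j, hj, hM⟩ := h1 _ (fg_closure_image p Φ) (by
          rw [Subgroup.closure_le]
          rintro _ ⟨y, hy, rfl⟩
          obtain ⟨e1, e2⟩ := hΦ hy
          exact ⟨by simpa using e2, p (x * y * x⁻¹), e1, by simp [mul_assoc]⟩)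
        exact ⟨_, fun y hy => hM (Subgroup.subset_closure ⟨y, hy, rfl⟩), ih j hj⟩
    have cover : ∀ Φ : Finset Δ, (Φ : Set Δ) ⊆ (h.comp p).ker →
        ∃ i, (Φ : Set Δ) ⊆ (K i).comap p := by
      intro Φ hΦ
      obtain ⟨i, hi⟩ := hcover _ (fg_closure_image p Φ) (by
        rw [Subgroup.closure_le]
        rintro _ ⟨y, hy, rfl⟩
        exact hΦ hy)
      exact ⟨i, fun y hy => hi (Subgroup.subset_closure ⟨y, hy, rfl⟩)⟩
    refine zext (h.comp p) hq.g1 hq.g0 fun J _ _ ν d hd hν hn => ?_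
    rcases lt_or_gt_of_ne hd with hd | hd
    · have hadd : ∀ a b, -dgOf (h.comp p) (a * b) =
          -dgOf (h.comp p) a + -dgOf (h.comp p) b := fun a b => by rw [dgOf_mul]; ring
      have hdg : ∀ g, g ∈ (h.comp p).ker ↔ -dgOf (h.comp p) g = 0 := fun g => by
        rw [mem_ker_iff_dgOf, neg_eq_zero]
      refine nil_of_tame (fun g => -dgOf (h.comp p) g) hadd _ hdg (fun Φ hΦ => ?_)
        (d := -d) (by omega) (hν.mono fun g hg => ?_) hn
      · obtain ⟨i, hi⟩ := cover Φ hΦ
        exact ⟨_, hi, tame _ hadd hdg i⟩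
      · simp only [Set.mem_ofPred_eq] at hg ⊢
        rw [hg]
    · refine nil_of_tame _ (dgOf_mul _) _ (mem_ker_iff_dgOf _) (fun Φ hΦ => ?_) hd hν hn
      obtain ⟨i, hi⟩ := cover Φ hΦ
      exact ⟨_, hi, tame _ (dgOf_mul _) (mem_ker_iff_dgOf _) i⟩

theorem ClassD.qq (hR : RegularRing R) {G : Type u} [Group G] (hG : ClassD G) : QQ R G :=
  (hG.ps _ (qq_punit hR)).sub (MonoidHom.inr _ _) fun _ _ h => congrArg Prod.snd h

theorem ClassD.k1Onto (hR : RegularRing R) {G : Type u} [Group G] (hG : ClassD G) :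
    K1Onto R G := k1Onto_of_G1 (hG.qq hR).g1

theorem ClassD.k0Onto (hR : RegularRing R) {G : Type u} [Group G] (hG : ClassD G) :
    K0Onto R G := k0Onto_of_G0 (hG.qq hR).g0

end Pool.Agent.MP_f7db47_al
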