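import Pool.Agent.MP_f7db47_al.PLD

/-! Piecewise linear groups without infinite towers lie in the class `D`. -/

namespace Pool.Agent.MP_f7db47_al

open Equiv

variable {a b : ℝ} {G : Subgroup (Perm ℝ)}

theorem exists_zone {f g : Perm ℝ} (hf : f ∈ G) (hg : g ∈ G) {μ l δ : ℝ} (h0 : 0 < μ) (h1 : μ < 1)
    (hδ : 0 < δ) (hf' : ∀ t, 0 ≤ t → t ≤ δ → f (a + t) = a + μ * t) (hl : Slope g a 1 l)
    (hl2 : l ≤ 2) : ∃ g' ∈ G, ∀ t, 0 ≤ t → t ≤ δ / 2 → g' (a + t) = a + l * t := by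
  obtain ⟨l0, ε, e0, hε⟩ := hl
  have hn : ∀ (n : ℕ) t, 0 ≤ t → t ≤ δ → (f ^ n) (a + t) = a + μ ^ n * t := by
    intro n t t1 t2
    induction n with
    | zero => simp
    | succ n ih =>
      rw [pow_succ', Perm.mul_apply, ih, hf' _ (by positivity)
        ((mul_le_of_le_one_left t1 (pow_le_one₀ h0.le h1.le)).trans t2)]
      ring
  obtain ⟨n, hn'⟩ := exists_pow_lt_of_lt_one (div_pos e0 hδ) h1
  refine ⟨(f ^ n)⁻¹ * g * f ^ n, mul_mem (mul_mem (inv_mem (pow_mem hf n)) hg) (pow_mem hf n),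
    fun t t1 t2 => ?_⟩
  rw [Perm.mul_apply, Perm.mul_apply, Perm.inv_eq_iff_eq, hn n t t1 (by linarith),
    hn n (l * t) (by positivity) (by nlinarith)]
  have : μ ^ n * t ≤ ε := by
    rw [lt_div_iff₀ hδ] at hn'
    have := pow_pos h0 n
    nlinarith
  have := hε _ (by positivity) this
  simp only [one_mul] at this
  rw [this]; ring

theorem not_dense (hG : ∀ g ∈ G, IsPL g) (T : Tame G) (ho : Orb G a b)
    (hs : ∀ g ∈ G, ∀ x, x ≤ a ∨ b ≤ x → g x = x)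
    (hd : ∀ l m : ℝ, 0 < l → l < m → ∃ g ∈ G, ∃ s, l < s ∧ s < m ∧ Slope g a 1 s)
    {u : Perm ℝ} (hu : u ∈ G) (h1 : TR u a) : u = 1 := by
  by_contra hu1
  obtain ⟨f, hf, μ, m1, m2, m0, δ, hδ, hf'⟩ := hd (1 / 2) 1 (by norm_num) (by norm_num)
  simp only [one_mul] at hf'
  obtain ⟨c, c1, c2⟩ := T.balanced' ho hu h1
  obtain ⟨y, y1, y2⟩ := exists_between (max_lt ho.1 c1)
  obtain ⟨g₀, hg₀, k₀⟩ := T.orbit_lt ho ((le_max_left _ _).trans_lt y1) y2
    (show a < a + δ / 2 by linarith)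
  have hu' : g₀ * u * g₀⁻¹ ∈ G := mul_mem (mul_mem hg₀ hu) (inv_mem hg₀)
  have h1' : TR (g₀ * u * g₀⁻¹) a := by
    obtain ⟨d, d1, d2⟩ := h1
    have m := T.mono _ hg₀
    have e := (ho.2.1 _ hg₀).1
    refine ⟨g₀ d, by rw [← e]; exact m d1, fun x x1 x2 => ?_⟩
    rw [Perm.mul_apply, Perm.mul_apply, d2 _ ((lt_inv' m).2 (by rwa [e])) ((inv_lt' m).2 x2)]
    simp
  have h2' : ∀ x, a + δ / 2 < x → (g₀ * u * g₀⁻¹) x = x := fun x hx => by
    have : c < g₀⁻¹ x := ((le_max_right _ _).trans_lt y1).trans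
      ((lt_inv' (T.mono _ hg₀)).2 (k₀.trans hx))
    rw [Perm.mul_apply, Perm.mul_apply, (le_or_gt b (g₀⁻¹ x)).elim
      (fun k => hs u hu _ (Or.inr k)) (c2 _ this)]
    simp
  have hu1' : g₀ * u * g₀⁻¹ ≠ 1 := fun e => hu1 (conj_eq_one_iff.1 e)
  generalize g₀ * u * g₀⁻¹ = w at hu' h1' h2' hu1'
  clear hu1 h1 c2 hu k₀ hg₀ y1 y2 c1 u g₀ y c
  have hU : Subgroup.zpowers w ≤ G := Subgroup.zpowers_le.2 hu'
  have hU0 : Subgroup.zpowers w ≠ ⊥ := by simpa using hu1'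
  have hhi : ∀ y, (∀ x, y < x → w x = x) → hi (Subgroup.zpowers w) ≤ y := fun y hy =>
    hi_le hU0 fun g hg x hx => (Subgroup.zpowers_le (H := fixer (Set.Ioi y))).2 hy hg x hx
  have hfix : ∀ x, hi (Subgroup.zpowers w) ≤ x → w x = x := fun x hx =>
    (T.sub hU).hi_fix hU0 (Subgroup.mem_zpowers w) hx
  have he1 := hhi _ h2'
  have he0 : a ≤ hi (Subgroup.zpowers w) := by
    obtain ⟨x, g, hg, k⟩ := supp_nonempty hU0
    exact (not_le.1 fun c => k (hs g (hU hg) x (Or.inl c))).le.trans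
      ((T.sub hU).lt_hi hU0 ⟨g, hg, k⟩).le
  obtain ⟨c, c1, c2⟩ := (T.left w hu' (hi (Subgroup.zpowers w))).resolve_left (by
    rintro ⟨c, c1, c2⟩
    exact c1.not_ge (hhi c fun x hx => (lt_or_ge x _).elim (c2 x hx) (hfix x)))
  generalize hi (Subgroup.zpowers w) = e at hfix he1 he0 c1 c2
  clear hhi
  have hΦ := (hG w hu').fin
  obtain ⟨η, η0, hη⟩ : ∃ η : ℝ, 0 < η ∧ ∀ s, w s = s → ¬ TR w s → ∀ x, s < x → x < s + η →
      w x ≠ x := by
    choose! d hd using fun s (hs : ¬ TR w s) => (T.right w hu' s).resolve_left hs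
    rcases Set.eq_empty_or_nonempty {s | w s = s ∧ ¬ TR w s} with k | k
    · exact ⟨1, one_pos, fun s s1 s2 => absurd (show s ∈ {s | w s = s ∧ ¬ TR w s} from ⟨s1, s2⟩)
        (by simp [k])⟩
    · obtain ⟨s₀, k1, k2⟩ := Set.exists_min_image _ (fun s => d s - s) hΦ k
      exact ⟨d s₀ - s₀, sub_pos.2 (hd _ k1.2).1, fun s s1 s2 x x1 x2 =>
        (hd s s2).2 x x1 (by linarith [k2 s ⟨s1, s2⟩])⟩
  obtain ⟨g₁, hg₁, l, l1, l2, hl⟩ := hd 1 (min 2 (1 + η / δ)) one_pos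
    (lt_min one_lt_two (by linarith [div_pos η0 hδ]))
  obtain ⟨g, hg, hz⟩ := exists_zone hf hg₁ m0 m2 hδ hf' hl (l2.le.trans (min_le_left _ _))
  have mg := T.mono g hg
  have hz' : ∀ s, a ≤ s → s ≤ e → s ≤ g s ∧ g s < s + η ∧ (a < s → s < g s) := fun s s1 s2 => by
    have := hz (s - a) (by linarith) (by linarith)
    rw [add_sub_cancel] at this
    have l3 : (l - 1) * δ < η := by
      rw [← lt_div_iff₀ hδ]; linarith [min_le_right 2 (1 + η / δ)]
    rw [this]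
    refine ⟨by nlinarith, by nlinarith, fun k => by nlinarith⟩
  have hv : g * w * g⁻¹ ∈ G := mul_mem (mul_mem hg hu') (inv_mem hg)
  have hH : Subgroup.closure {w, g * w * g⁻¹} ≤ G := (Subgroup.closure_le _).2 (by
    rintro _ (rfl | rfl); exacts [hu', hv])
  have hwH : w ∈ Subgroup.closure {w, g * w * g⁻¹} := Subgroup.subset_closure (by simp)
  have hvH : g * w * g⁻¹ ∈ Subgroup.closure {w, g * w * g⁻¹} := Subgroup.subset_closure (by simp)
  have hvx : ∀ x, (g * w * g⁻¹) x = x ↔ w (g⁻¹ x) = g⁻¹ x := fun x => by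
    rw [Perm.mul_apply, Perm.mul_apply, Perm.eq_inv_iff_eq]
  have hmv : ∀ x, g c < x → x < g e → (g * w * g⁻¹) x ≠ x := fun x x1 x2 k =>
    c2 _ ((lt_inv' mg).2 x1) ((inv_lt' mg).2 x2) ((hvx x).1 k)
  obtain ⟨y, y1, y2⟩ := exists_between (mg c1)
  obtain ⟨a', b', o1, o2, ho'⟩ := (T.sub hH).exists_orb ⟨_, hvH, hmv y y1 y2⟩
  obtain rfl : b' = g e := by
    refine le_antisymm (not_lt.1 fun k => ?_) (not_lt.1 fun k => ?_)
    · obtain ⟨k, hk, k'⟩ := ho'.2.2 _ (o1.trans y2) k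
      refine k' ((Subgroup.closure_le (fixer {g e})).2 ?_ hk _ rfl)
      rintro _ (rfl | rfl) _ rfl
      · exact hfix _ (hz' e he0 le_rfl).1
      · exact (hvx _).2 (by simpa using hfix e le_rfl)
    · exact hmv b' (y1.trans o2) k (ho'.2.1 _ hvH).2
  have hnt : ¬ TR (g * w * g⁻¹) a' := fun k => by
    obtain ⟨d, d1, d2⟩ := (T.sub hH).balanced' ho' hvH k
    obtain ⟨z, z1, z2⟩ := exists_between (max_lt d1 y2)
    exact hmv z (y1.trans ((le_max_right _ _).trans_lt z1)) z2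
      (d2 z ((le_max_left _ _).trans_lt z1) z2)
  have s1 : w (g⁻¹ a') = g⁻¹ a' := (hvx _).1 (ho'.2.1 _ hvH).1
  have s2 : ¬ TR w (g⁻¹ a') := fun ⟨d, d1, d2⟩ => hnt ⟨g d, (inv_lt' mg).1 d1, fun x x1 x2 =>
    (hvx x).2 (d2 _ ((lt_inv' mg).2 (by simpa using x1)) ((inv_lt' mg).2 x2))⟩
  have s3 : a < g⁻¹ a' := by
    rcases lt_trichotomy a (g⁻¹ a') with k | k | k
    · exact k
    · exact absurd (k ▸ h1') s2
    · exact absurd ⟨a, k, fun x _ x2 => hs w hu' x (Or.inl x2.le)⟩ s2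
  obtain ⟨-, k1, k2⟩ := hz' _ s3.le ((inv_lt' mg).2 ho'.1).le
  refine hη _ s1 s2 a' (by simpa using k2 s3) (by simpa using k1) (ho'.2.1 _ hwH).1

theorem pl_step (hG : ∀ g ∈ G, IsPL g) (T : Tame G) (hfg : G.FG) (ho : Orb G a b)
    (hs : ∀ g ∈ G, ∀ x, x ≤ a ∨ b ≤ x → g x = x)
    (ih : ∀ M a' b', M ≤ G → M.FG → Orb M a' b' → a < a' → b' < b → ClassD (res M a' b')) :
    ClassD G := by
  obtain ⟨χ, hχ⟩ := exists_logSlope hG fun g hg => (ho.2.1 g hg).1
  have hker : ∀ g : G, χ g = 1 ↔ TR g.1 a := fun g =>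
    ⟨fun h => Slope.tr (by simpa [h] using hχ g), fun h => Multiplicative.toAdd.injective (by
      simpa using Slope.unique (Or.inl rfl) (hχ g) (h.slope (ho.2.1 _ g.2).1))⟩
  rcases AddSubgroup.dense_or_cyclic (AddSubgroup.toSubgroup.symm χ.range) with hd | ⟨τ, hτ⟩
  · have := (Group.fg_iff_subgroup_fg G).2 hfg
    refine .poly _ (polyZ_of_real χ ((injective_iff_map_eq_one _).2 fun u hu => Subtype.ext
      (not_dense hG T ho hs (fun l m l0 lm => ?_) u.2 ((hker u).1 hu))))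
    obtain ⟨x, ⟨g, hg⟩, x1, x2⟩ := hd.exists_between (Real.log_lt_log l0 lm)
    have e : (χ g).toAdd = x := congrArg Multiplicative.toAdd hg
    exact ⟨g, g.2, _, by rwa [e, ← Real.log_lt_iff_lt_exp l0],
      by rwa [e, ← Real.lt_log_iff_exp_lt (l0.trans lm)], hχ g⟩
  · have hk : ∀ g : G, ∃ k : ℤ, (k : ℝ) * τ = (χ g).toAdd ∧ (τ = 0 → k = 0) := fun g => by
      have : (χ g).toAdd ∈ AddSubgroup.closure {τ} := hτ ▸ ⟨g, rfl⟩
      obtain ⟨k, hk⟩ := AddSubgroup.mem_closure_singleton.1 this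
      by_cases h0 : τ = 0
      · exact ⟨0, by rw [← hk, h0]; simp, fun _ => rfl⟩
      · exact ⟨k, by simpa using hk, fun h => absurd h h0⟩
    choose k hk hk0 using hk
    refine T.ext_step (fun g hg => (hG g hg).fin) ho hs ih
      (MonoidHom.mk' (fun g => Multiplicative.ofAdd (k g)) fun g h => ?_) fun g => ?_
    · rw [← ofAdd_add]
      congr 1
      by_cases h0 : τ = 0
      · simp [hk0 _ h0]
      · have : ((k (g * h) : ℤ) : ℝ) = ((k g + k h : ℤ) : ℝ) := mul_right_cancel₀ h0 (by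
          push_cast; rw [add_mul, hk, hk, hk, map_mul, toAdd_mul])
        exact_mod_cast this
    · rw [← hker]
      show Multiplicative.ofAdd (k g) = 1 ↔ _
      rw [ofAdd_eq_one, ← toAdd_eq_zero, ← hk]
      by_cases h0 : τ = 0
      · simp [hk0 _ h0]
      · simp [h0]

/-- A group of piecewise linear homeomorphisms of the interval without infinite towers lies in
the class `D`. -/
theorem pl_classD (G : Subgroup (Equiv.Perm ℝ)) (hPL : ∀ g ∈ G, IsPL g)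
    (hG : NoInfiniteTower G) : ClassD G := by
  have hacc : ∀ L a b, L ≤ G → L.FG → Orb L a b → Acc Rel (L, a, b) := by
    intro L a b h1 h2 h3
    by_contra hc
    obtain ⟨f, f0, hf⟩ := not_acc_iff_exists_descending_chain.1 hc
    have hle : ∀ n, (f n).1 ≤ G := fun n => by
      induction n with
      | zero => rwa [f0]
      | succ n ih => exact (hf n).1.trans ih
    refine hG ⟨fun i => (f (i + 1)).1, fun i => (f (i + 1)).2.1, fun i => (f (i + 1)).2.2,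
      fun i => ⟨(hf i).2.1, hle _, (hf (i + 1)).1, ?_, (hf (i + 1)).2.2.2⟩⟩
    have := (hf i).2.2.1
    exact ⟨this.1, this.2.1, fun x hx => this.2.2 x hx.1 hx.2⟩
  have T := tame_of_PL hPL hacc
  have main : ∀ t : Subgroup (Perm ℝ) × ℝ × ℝ, Acc Rel t → t.1 ≤ G → t.1.FG →
      Orb t.1 t.2.1 t.2.2 → ClassD (res t.1 t.2.1 t.2.2) := by
    intro t ht
    induction ht with
    | intro t _ ih =>
      obtain ⟨L, a, b⟩ := t
      intro h1 h2 h3
      have hF : L ≤ Fix2 a b := fun g hg => ⟨T.mono g (h1 hg), h3.2.1 g hg⟩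
      have hP : ∀ g ∈ res L a b, IsPL g := fun g => res_PL fun g hg => hPL g (h1 hg)
      have ho := h3.res hF le_rfl le_rfl
      refine pl_step hP (tame_of_PL hP fun M' a' b' k1 k2 k3 => ?_) (res_fg hF h2) ho
        (fun g hg x hx => ?_) fun M' a' b' k1 k2 k3 k4 k5 => ?_
      · obtain ⟨M, m1, m2, m3, rfl⟩ := res_lift k1 k2
        exact acc_res (hacc M a' b' (m1.trans h1) m3 (k3.of_res m2).1)
      · by_cases c : a ≤ x ∧ x ≤ b
        · rcases hx with hx | hx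
          · rw [le_antisymm hx c.1]; exact (ho.2.1 g hg).1
          · rw [le_antisymm c.2 hx]; exact (ho.2.1 g hg).2
        · exact res_out hg c
      · obtain ⟨M, m1, m2, m3, rfl⟩ := res_lift k1 k2
        have o := (k3.of_res m2).1
        exact .of_le (res_res k4.le (o.1.trans k5).le (k4.trans o.1).le k5.le)
          (ih (M, a', b') ⟨m1, m3, o, k4, k5⟩ (m1.trans h1) m3 o)
  refine .loc_amb _ fun M h1 h2 => ?_
  have hout : ∀ g ∈ M, ∀ x : ℝ, x ∉ Set.Icc (0 : ℝ) 1 → g x = x := fun g hg => (hPL g (h1 hg)).2.1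
  have f1 : ∀ g ∈ M, g (-1) = -1 := fun g hg => hout g hg _ (by norm_num)
  have f2 : ∀ g ∈ M, g 2 = 2 := fun g hg => hout g hg _ (by norm_num)
  refine .of_le (le_res (p := -1) (q := 2) (fun g hg => ⟨T.mono g (h1 hg), f1 g hg, f2 g hg⟩)
    fun g hg x hx => hout g hg x fun k => hx ⟨by linarith [k.1], by linarith [k.2]⟩)
    ((T.sub h1).decomp (fun g hg => (hPL g (h1 hg)).fin) h2 f2 f1 fun a b o _ _ =>
      main (M, a, b) (hacc M a b h1 h2 o) h1 h2 o)

end Pool.Agent.MP_f7db47_al
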