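import Pool.Agent.MP_f7db47_al.ClassE
import Pool.Agent.MP_f7db47_al.Main
import Pool.Agent.MP_f7db47_al.PL

namespace Pool.Agent.MP_f7db47_al

theorem ClassE.classD {G : Type} [Group G] (h : ClassE G) : ClassD G := by
  induction h with
  | poly G h => exact .poly G h
  | pl G hPL hG => exact pl_classD G hPL hG
  | sub G H f hf _ ih => exact .sub G H f hf ih
  | prod G H _ _ ihG ihH => exact .prod G H ihG ihH
  | loc G _ ih => exact .loc G ih
  | ext G h _ ι K r hr hK hcover term _ hstep ihker ihterm =>
    exact .ext G h ihker ι K r hr hK hcover term ihterm hstep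

end Pool.Agent.MP_f7db47_al
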