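import Pool.Agent.MP_f7db47_al.TameDefs

/-!
The class of groups used in the final statements.
-/

namespace Pool.Agent.MP_f7db47_al

universe v

/-- The class `G` for the ring `R`: groups of piecewise linear homeomorphisms of `[0,1]` without
infinite towers (in particular the trivial group), closed under subgroups, products with
poly-`ℤ` groups, directed unions and tame actions on trees. -/
inductive ClassG (R : Type v) [Ring R] : (G : Type) → [Group G] → Prop
  | pl (G : Subgroup (Equiv.Perm ℝ)) (hPL : ∀ g ∈ G, IsPL g) (hG : NoInfiniteTower G) :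
      ClassG R G
  | sub (G H : Type) [Group G] [Group H] (f : G →* H) (hf : Function.Injective f)
      (hH : ClassG R H) : ClassG R G
  | prod (G P : Type) [Group G] [Group P] (hG : ClassG R G) (hP : PolyZ P) : ClassG R (G × P)
  | loc (G : Type) [Group G] (h : ∀ K : Subgroup G, K.FG → ClassG R K) : ClassG R G
  | tree (G : Type) [Group G] (V : Type) [MulAction G V] (X : SimpleGraph V)
      (hX : TreeAction G X) (F Z : Set (Subgroup G)) (hT : TameTree G X F Z)
      (hZ : ∀ K ∈ Z, ∀ (P : Type) [Group P], PolyZ P → ∀ L : Subgroup (K × P),
        RegularCoherent (MonoidAlgebra R L))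
      (hV : ∀ v : V, ClassG R (MulAction.stabilizer G v)) (hF : ∀ H ∈ F, ClassG R H) :
      ClassG R G

end Pool.Agent.MP_f7db47_al
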