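import Pool.Agent.MP_f7db47_al.TameDefs

/-!
The class of groups closed under all constructions.
-/

namespace Pool.Agent.MP_f7db47_al

universe v

/-- The class `W` for the ring `R`: the least class that contains the torsion-free abelian groups
and is closed under subgroups, products with poly-`ℤ` groups, directed unions, tame actions on
trees, actions on finite products of trees that are free modulo the kernel, and maps to `GL_2`
in positive characteristic with torsion-free image. -/
inductive ClassW (R : Type v) [Ring R] : (G : Type) → [Group G] → Prop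
  | ab (G : Type) [Group G] (hc : ∀ a b : G, a * b = b * a)
      (ht : ∀ g : G, IsOfFinOrder g → g = 1) : ClassW R G
  | sub (G H : Type) [Group G] [Group H] (f : G →* H) (hf : Function.Injective f)
      (hH : ClassW R H) : ClassW R G
  | prod (G P : Type) [Group G] [Group P] (hG : ClassW R G) (hP : PolyZ P) : ClassW R (G × P)
  | loc (G : Type) [Group G] (h : ∀ K : Subgroup G, K.FG → ClassW R K) : ClassW R G
  | tree (G : Type) [Group G] (V : Type) [MulAction G V] (X : SimpleGraph V)
      (hX : TreeAction G X) (F Z : Set (Subgroup G)) (hT : TameTree G X F Z)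
      (hZ : ∀ K ∈ Z, ∀ (P : Type) [Group P], PolyZ P → ∀ L : Subgroup (K × P),
        RegularCoherent (MonoidAlgebra R L))
      (hV : ∀ v : V, ClassW R (MulAction.stabilizer G v)) (hF : ∀ H ∈ F, ClassW R H) :
      ClassW R G
  | trees (G : Type) [Group G] (k : ℕ) (V : Fin k → Type) (X : ∀ i, SimpleGraph (V i))
      (hX : ∀ i, (X i).IsTree) (ρ : ∀ i, G →* (X i ≃g X i))
      (hfree : ∀ g : G, (∀ i, ∃ v, ρ i (g ^ 2) v = v) → ∀ i, ρ i g = 1)
      (hab : ∀ H : Subgroup G, (∀ a ∈ H, ∀ b ∈ H, ∀ i, ρ i (a * b) = ρ i (b * a)) →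
        ClassW R H) : ClassW R G
  | gl2 (G : Type) [Group G] (A : Type) [CommRing A] (N : ℕ) (hN : 0 < N) (hA : (N : A) = 0)
      (f : G →* GL (Fin 2) A) (ht : ∀ g : G, IsOfFinOrder (f g) → f g = 1)
      (hab : ∀ H : Subgroup G, (∀ a ∈ H, ∀ b ∈ H, f (a * b) = f (b * a)) → ClassW R H) :
      ClassW R G

end Pool.Agent.MP_f7db47_al
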