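import Pool.Agent.MP_f7db47_al.PLC

/-! Piecewise linear homeomorphisms: slopes and tameness. -/

namespace Pool.Agent.MP_f7db47_al

open Equiv

variable {g h : Perm ℝ} {a b p q σ l m : ℝ} {G : Subgroup (Perm ℝ)}

theorem IsPL.lin (hg : IsPL g) (a : ℝ) (hσ : σ = 1 ∨ σ = -1) :
    ∃ ε, 0 < ε ∧ ∃ c d : ℝ, ∀ t, 0 ≤ t → t ≤ ε → g (a + σ * t) = c * (a + σ * t) + d := by
  obtain ⟨-, -, S, hS⟩ := hg
  have : ∃ ε : ℝ, 0 < ε ∧ ∀ s ∈ S, s = a ∨ ε ≤ |s - a| := by
    clear hS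
    induction S using Finset.induction_on with
    | empty => exact ⟨1, one_pos, by simp⟩
    | insert s S _ ih =>
      obtain ⟨ε, h1, h2⟩ := ih
      by_cases hs : s = a
      · exact ⟨ε, h1, fun x hx => (Finset.mem_insert.1 hx).elim (fun k => Or.inl (k.trans hs))
          (h2 x)⟩
      · refine ⟨min ε |s - a|, lt_min h1 (abs_pos.2 (sub_ne_zero.2 hs)), fun x hx => ?_⟩
        rcases Finset.mem_insert.1 hx with rfl | hx
        · exact Or.inr (min_le_right _ _)
        · exact (h2 x hx).imp_right (min_le_left _ _).trans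
  obtain ⟨ε, h1, h2⟩ := this
  refine ⟨ε, h1, ?_⟩
  rcases hσ with rfl | rfl
  · obtain ⟨c, d, h⟩ := hS a (a + ε) fun s hs ⟨k1, k2⟩ => by
      rcases h2 s hs with k | k
      · linarith
      · rw [abs_of_pos (by linarith)] at k; linarith
    exact ⟨c, d, fun t t1 t2 => h _ ⟨by linarith, by linarith⟩⟩
  · obtain ⟨c, d, h⟩ := hS (a - ε) a fun s hs ⟨k1, k2⟩ => by
      rcases h2 s hs with k | k
      · linarith
      · rw [abs_of_neg (by linarith)] at k; linarith
    exact ⟨c, d, fun t t1 t2 => h _ ⟨by linarith, by linarith⟩⟩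

theorem IsPL.dich (hg : IsPL g) (a : ℝ) (hσ : σ = 1 ∨ σ = -1) :
    ∃ ε, 0 < ε ∧ ((∀ t, 0 < t → t < ε → g (a + σ * t) = a + σ * t) ∨
      ∀ t, 0 < t → t < ε → g (a + σ * t) ≠ a + σ * t) := by
  obtain ⟨ε, h1, c, d, h⟩ := hg.lin a hσ
  by_cases hc : ∃ t, 0 < t ∧ t < ε ∧ g (a + σ * t) = a + σ * t
  swap
  · exact ⟨ε, h1, Or.inr fun t t1 t2 k => hc ⟨t, t1, t2, k⟩⟩
  obtain ⟨t₀, t1, t2, k⟩ := hc
  refine ⟨t₀, t1, ?_⟩
  rw [h t₀ t1.le t2.le] at k
  by_cases c1 : c = 1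
  · refine Or.inl fun t k1 k2 => ?_
    rw [h t k1.le (k2.trans t2).le]
    rw [c1] at k ⊢
    linarith
  · refine Or.inr fun t k1 k2 k3 => ?_
    rw [h t k1.le (k2.trans t2).le] at k3
    have : (c - 1) * (σ * (t₀ - t)) = 0 := by linear_combination k - k3
    rcases mul_eq_zero.1 this with e | e
    · exact c1 (by linarith)
    · rcases hσ with rfl | rfl <;> linarith

theorem IsPL.right (hg : IsPL g) (a : ℝ) :
    TR g a ∨ ∃ c, a < c ∧ ∀ x, a < x → x < c → g x ≠ x := by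
  obtain ⟨ε, h1, h⟩ := hg.dich a (Or.inl rfl)
  refine h.imp (fun h => ⟨a + ε, by linarith, fun x k1 k2 => ?_⟩)
    fun h => ⟨a + ε, by linarith, fun x k1 k2 => ?_⟩
  all_goals simpa using h (x - a) (by linarith) (by linarith)

theorem IsPL.left (hg : IsPL g) (a : ℝ) :
    TL g a ∨ ∃ c, c < a ∧ ∀ x, c < x → x < a → g x ≠ x := by
  obtain ⟨ε, h1, h⟩ := hg.dich a (Or.inr rfl)
  refine h.imp (fun h => ⟨a - ε, by linarith, fun x k1 k2 => ?_⟩)
    fun h => ⟨a - ε, by linarith, fun x k1 k2 => ?_⟩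
  all_goals simpa using h (a - x) (by linarith) (by linarith)

/-- One sided slope at a fixed point. -/
def Slope (g : Perm ℝ) (a σ l : ℝ) : Prop :=
  0 < l ∧ ∃ ε, 0 < ε ∧ ∀ t, 0 ≤ t → t ≤ ε → g (a + σ * t) = a + σ * (l * t)

theorem IsPL.slope (hg : IsPL g) (ha : g a = a) (hσ : σ = 1 ∨ σ = -1) : ∃ l, Slope g a σ l := by
  obtain ⟨ε, h1, c, d, h⟩ := hg.lin a hσ
  have h0 := h 0 le_rfl h1.le
  rw [mul_zero, add_zero, ha] at h0
  have key : ∀ t, 0 ≤ t → t ≤ ε → g (a + σ * t) = a + σ * (c * t) := fun t t1 t2 => by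
    rw [h t t1 t2]; linear_combination -h0
  refine ⟨c, ?_, ε, h1, key⟩
  have k := key ε h1.le le_rfl
  rcases hσ with rfl | rfl
  · have := hg.1 (show a < a + 1 * ε by linarith)
    rw [k, ha] at this
    exact (mul_pos_iff_of_pos_right h1).1 (by linarith : 0 < c * ε)
  · have := hg.1 (show a + -1 * ε < a by linarith)
    rw [k, ha] at this
    exact (mul_pos_iff_of_pos_right h1).1 (by linarith : 0 < c * ε)

theorem Slope.mul (h1 : Slope g a σ l) (h2 : Slope h a σ m) : Slope (g * h) a σ (l * m) := by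
  obtain ⟨l0, ε, e0, k1⟩ := h1
  obtain ⟨m0, δ, d0, k2⟩ := h2
  refine ⟨mul_pos l0 m0, min δ (ε / m), lt_min d0 (div_pos e0 m0), fun t t1 t2 => ?_⟩
  rw [Perm.mul_apply, k2 t t1 (t2.trans (min_le_left _ _)), k1 _ (by positivity)
    ((le_div_iff₀' m0).1 (t2.trans (min_le_right _ _))), mul_assoc]

theorem Slope.unique (hσ : σ = 1 ∨ σ = -1) (h1 : Slope g a σ l) (h2 : Slope g a σ m) : l = m := by
  obtain ⟨-, ε, e0, k1⟩ := h1
  obtain ⟨-, δ, d0, k2⟩ := h2
  have t0 := lt_min e0 d0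
  have := (k1 _ t0.le (min_le_left _ _)).symm.trans (k2 _ t0.le (min_le_right _ _))
  refine mul_right_cancel₀ t0.ne' ?_
  rcases hσ with rfl | rfl <;> linarith

theorem slope_one (a σ : ℝ) : Slope 1 a σ 1 := ⟨one_pos, 1, one_pos, by simp⟩

theorem slope_comm (hG : ∀ g ∈ G, IsPL g) (hg : g ∈ G) (hh : h ∈ G) (h1 : g a = a) (h2 : h a = a)
    (hσ : σ = 1 ∨ σ = -1) : Slope (g * h * g⁻¹ * h⁻¹) a σ 1 := by
  obtain ⟨l, k1⟩ := (hG g hg).slope h1 hσ
  obtain ⟨m, k2⟩ := (hG h hh).slope h2 hσ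
  obtain ⟨l', k3⟩ := (hG _ (inv_mem hg)).slope (inv_fix h1) hσ
  obtain ⟨m', k4⟩ := (hG _ (inv_mem hh)).slope (inv_fix h2) hσ
  have e1 : l * l' = 1 := Slope.unique hσ (k1.mul k3) (by simpa using slope_one a σ)
  have e2 : m * m' = 1 := Slope.unique hσ (k2.mul k4) (by simpa using slope_one a σ)
  convert ((k1.mul k2).mul k3).mul k4 using 1
  linear_combination (-1 : ℝ) * (m * m') * e1 - e2

theorem Slope.tr (h : Slope g a 1 1) : TR g a := by
  obtain ⟨-, ε, e0, k⟩ := h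
  exact ⟨a + ε, by linarith, fun x k1 k2 => by simpa using k (x - a) (by linarith) (by linarith)⟩

theorem Slope.tl (h : Slope g a (-1) 1) : TL g a := by
  obtain ⟨-, ε, e0, k⟩ := h
  exact ⟨a - ε, by linarith, fun x k1 k2 => by simpa using k (a - x) (by linarith) (by linarith)⟩

theorem TR.slope (h : TR g a) (ha : g a = a) : Slope g a 1 1 := by
  obtain ⟨c, h1, h2⟩ := h
  refine ⟨one_pos, (c - a) / 2, by linarith, fun t t1 t2 => ?_⟩
  rcases t1.eq_or_lt with rfl | t1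
  · simpa using ha
  · simpa using h2 (a + t) (by linarith) (by linarith)

theorem IsPL.fin (hg : IsPL g) : {a | g a = a ∧ ¬ TR g a}.Finite := by
  classical
  obtain ⟨-, -, S, hS⟩ := hg
  have key : ∀ a a' : ℝ, g a = a → ¬ TR g a → g a' = a' → a < a' →
      S.filter (· ≤ a) ≠ S.filter (· ≤ a') := by
    intro a a' h1 h2 h3 h4 e
    obtain ⟨c, d, h⟩ := hS a a' fun s hs k => by
      have : s ∈ S.filter (· ≤ a) := e ▸ Finset.mem_filter.2 ⟨hs, k.2.le⟩
      exact k.1.not_ge (Finset.mem_filter.1 this).2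
    have e1 := h a ⟨le_rfl, h4.le⟩
    have e2 := h a' ⟨h4.le, le_rfl⟩
    rw [h1] at e1
    rw [h3] at e2
    have c1 : c = 1 := mul_right_cancel₀ (sub_pos.2 h4).ne' (by linarith)
    refine h2 ⟨a', h4, fun x k1 k2 => ?_⟩
    rw [h x ⟨k1.le, k2.le⟩]
    rw [c1] at e1 ⊢
    linarith
  refine Set.Finite.of_finite_image (f := fun a => S.filter (· ≤ a))
    (S.powerset.finite_toSet.subset ?_) fun a ha a' ha' e => ?_
  · rintro _ ⟨a, -, rfl⟩
    exact Finset.mem_powerset.2 (Finset.filter_subset _ _)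
  · rcases lt_trichotomy a a' with k | k | k
    · exact absurd e (key a a' ha.1 ha.2 ha'.1 k)
    · exact k
    · exact absurd e.symm (key a' a ha'.1 ha'.2 ha.1 k)

theorem tame_of_PL (hG : ∀ g ∈ G, IsPL g)
    (hacc : ∀ L a b, L ≤ G → L.FG → Orb L a b → Acc Rel (L, a, b)) : Tame G where
  mono g hg := (hG g hg).1
  bdd := ⟨-1, 2, fun g hg x hx => (hG g hg).2.1 x fun k => by
    rcases hx with hx | hx <;> linarith [k.1, k.2]⟩
  right g hg := (hG g hg).right
  left g hg := (hG g hg).left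
  commR _ hg _ hh _ h1 h2 := (slope_comm hG hg hh h1 h2 (Or.inl rfl)).tr
  commL _ hg _ hh _ h1 h2 := (slope_comm hG hg hh h1 h2 (Or.inr rfl)).tl
  acc := hacc

theorem res_PL (hG : ∀ g ∈ G, IsPL g) {τ : Perm ℝ} (h : τ ∈ res G p q) : IsPL τ := by
  classical
  refine ⟨res_strictMono h, fun x hx => res_fix h fun g hg => (hG g hg).2.1 x hx, ?_⟩
  obtain ⟨g, hg, h1, e⟩ := mem_res.1 h
  obtain ⟨-, -, S, hS⟩ := hG g hg
  refine ⟨insert p (insert q S), fun a b k => ?_⟩
  have hp := k p (by simp)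
  have hq := k q (by simp)
  by_cases c : p ≤ a ∧ b ≤ q
  · obtain ⟨c', d, h⟩ := hS a b fun s hs => k s (by simp [hs])
    exact ⟨c', d, fun x hx => by rw [e, cutFun_in (c.1.trans hx.1) (hx.2.trans c.2), h x hx]⟩
  · refine ⟨1, 0, fun x hx => ?_⟩
    rw [one_mul, add_zero, e, cutFun]
    split_ifs with k
    · simp only [Set.mem_Ioo, not_and, not_lt, not_le] at hp hq c
      by_cases c1 : p ≤ a
      · have : x = q := by
          by_contra c2
          exact (c c1).not_ge (hq (hx.1.trans_lt (lt_of_le_of_ne k.2 c2)))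
        rw [this, h1.2.2]
      · rw [le_antisymm (hx.2.trans (hp (not_le.1 c1))) k.1, h1.2.1]
    · rfl

theorem exists_logSlope (hG : ∀ g ∈ G, IsPL g) (ha : ∀ g ∈ G, g a = a) :
    ∃ χ : G →* Multiplicative ℝ, ∀ g : G, Slope g.1 a 1 (Real.exp (χ g).toAdd) := by
  choose s hs using fun g : G => (hG g g.2).slope (ha g g.2) (Or.inl rfl)
  refine ⟨MonoidHom.mk' (fun g => Multiplicative.ofAdd (Real.log (s g))) fun g h => ?_,
    fun g => by simpa [Real.exp_log (hs g).1] using hs g⟩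
  rw [Slope.unique (Or.inl rfl) (hs (g * h)) ((hs g).mul (hs h)),
    Real.log_mul (hs g).1.ne' (hs h).1.ne', ofAdd_add]

theorem polyZ_of_pi (n : ℕ) : ∀ (H : Type) [Group H] (φ : H →* Multiplicative (Fin n → ℤ)),
    Function.Injective φ → PolyZ H := by
  induction n with
  | zero => exact fun H _ φ hφ => .triv _ hφ.subsingleton
  | succ n ih =>
    intro H _ φ hφ
    refine .ext _ ((Pi.evalAddMonoidHom (fun _ => ℤ) 0).toMultiplicative.comp φ) (ih _
      ((((LinearMap.funLeft ℤ ℤ Fin.succ).toAddMonoidHom.toMultiplicative).comp φ).comp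
        (Subgroup.subtype _)) ((injective_iff_map_eq_one _).2 fun x hx => ?_))
    refine Subtype.ext (hφ (Multiplicative.toAdd.injective (funext fun i => ?_)))
    rw [OneMemClass.coe_one, map_one]
    refine Fin.cases ?_ (fun i => ?_) i
    · exact congrArg Multiplicative.toAdd (show _ = 1 from x.2)
    · exact congrFun (congrArg Multiplicative.toAdd hx) i

theorem polyZ_of_real {H : Type} [Group H] [Group.FG H] (χ : H →* Multiplicative ℝ)
    (hχ : Function.Injective χ) : PolyZ H := by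
  let A : AddSubgroup ℝ := AddSubgroup.toSubgroup.symm χ.range
  have : AddGroup.FG A := AddGroup.fg_iff_mul_fg.2 (Group.fg_range χ)
  have : Module.Finite ℤ A := Module.Finite.iff_addGroup_fg.2 this
  let e := (Module.finBasis ℤ A).equivFun
  let ψ : H →* Multiplicative A := χ.rangeRestrict
  exact polyZ_of_pi _ H (e.toAddEquiv.toAddMonoidHom.toMultiplicative.comp ψ)
    (e.injective.comp (MonoidHom.rangeRestrict_injective_iff.2 hχ))

end Pool.Agent.MP_f7db47_al
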