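import Pool.Agent.MP_f7db47_al.Defs

/-!
Definitions for actions on trees.
-/

namespace Pool.Agent.MP_f7db47_al

universe u

/-- The half tree on the side of `b` of the edge from `a` to `b`. -/
def Side {V : Type u} (X : SimpleGraph V) (a b : V) : Set V := {z | X.dist z b < X.dist z a}

/-- An action on a tree by automorphisms, without inversion. -/
def TreeAction (G : Type u) [Group G] {V : Type u} [MulAction G V] (X : SimpleGraph V) : Prop :=
  X.IsTree ∧ (∀ (g : G) a b, X.Adj a b → X.Adj (g • a) (g • b)) ∧
    ∀ (g : G) a b, X.Adj a b → ¬ (g • a = b ∧ g • b = a)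

/-- `x` maps the half tree strictly into itself: `x` is hyperbolic and its axis contains the
edge from `a` to `b`, pointing in the direction of translation. -/
def Pushes {G : Type u} [Group G] {V : Type u} [MulAction G V] (X : SimpleGraph V) (a b : V)
    (x : G) : Prop :=
  Side X (x • a) (x • b) ⊂ Side X a b

end Pool.Agent.MP_f7db47_al
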