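import Pool.Agent.MP_f7db47_al.TB
import Pool.Agent.MP_f7db47_al.TreeDefs

/-!
The abstract tree data of an action on a tree.
-/

set_option linter.unusedSectionVars false

namespace Pool.Agent.MP_f7db47_al

universe u

section Geo

variable {V : Type u} {X : SimpleGraph V}

lemma tree_uniq (hX : X.IsTree) {a b b' z : V} (h : X.Adj a b) (h' : X.Adj a b')
    (h1 : X.dist z b < X.dist z a) (h2 : X.dist z b' < X.dist z a) : b = b' := by
  obtain ⟨p, hp⟩ := hX.connected.exists_walk_length_eq_dist b z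
  obtain ⟨p', hp'⟩ := hX.connected.exists_walk_length_eq_dist b' z
  have e1 := hX.dist_eq_dist_add_one_of_adj z h
  have e2 := hX.dist_eq_dist_add_one_of_adj z h'
  have q : (SimpleGraph.Walk.cons h p).IsPath := by
    apply SimpleGraph.Walk.isPath_of_length_eq_dist
    rw [SimpleGraph.Walk.length_cons, hp, X.dist_comm (u := a), X.dist_comm (u := b)]; omega
  have q' : (SimpleGraph.Walk.cons h' p').IsPath := by
    apply SimpleGraph.Walk.isPath_of_length_eq_dist
    rw [SimpleGraph.Walk.length_cons, hp', X.dist_comm (u := a), X.dist_comm (u := b')]; omega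
  have := (hX.isAcyclic.subsingleton_path a z).elim ⟨_, q⟩ ⟨_, q'⟩
  simpa using congrArg (fun w : X.Path a z => w.1.getVert 1) this

lemma tree_closer (hX : X.IsTree) {a z : V} (h : z ≠ a) :
    ∃ z', X.Adj z z' ∧ X.dist a z' < X.dist a z := by
  obtain ⟨p, hp⟩ := hX.connected.exists_walk_length_eq_dist z a
  cases p with
  | nil => exact absurd rfl h
  | cons h' p =>
    refine ⟨_, h', ?_⟩
    have := X.dist_le p
    rw [SimpleGraph.Walk.length_cons] at hp
    rw [X.dist_comm (u := a), X.dist_comm (u := a)]; omega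

lemma mem_side (hX : X.IsTree) {a b : V} (h : X.Adj a b) : b ∈ Side X a b := by
  have := hX.dist_ne_of_adj b h
  simp only [Side, Set.mem_ofPred_eq, SimpleGraph.dist_self] at this ⊢
  omega

lemma side_compl (hX : X.IsTree) {a b : V} (h : X.Adj a b) (z : V) :
    z ∈ Side X b a ↔ z ∉ Side X a b := by
  have := hX.dist_ne_of_adj z h
  simp only [Side, Set.mem_ofPred_eq]
  omega

lemma side_tri (hX : X.IsTree) {a b x y : V} (h : X.Adj a b) (h' : X.Adj x y)
    (hx : x ∈ Side X a b) (hy : y ∉ Side X a b) : x = b ∧ y = a := by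
  have e1 := hX.dist_eq_dist_add_one_of_adj x h
  have e2 := hX.dist_eq_dist_add_one_of_adj y h
  have e3 := hX.dist_eq_dist_add_one_of_adj a h'
  have e4 := hX.dist_eq_dist_add_one_of_adj b h'
  simp only [Side, Set.mem_ofPred_eq] at hx hy
  rw [X.dist_comm (u := x), X.dist_comm (u := x)] at e1 hx
  rw [X.dist_comm (u := y), X.dist_comm (u := y)] at e2 hy
  have hxb : x = b := by
    by_contra hne
    obtain ⟨x', h1, h2⟩ := tree_closer hX hne
    have e5 := hX.dist_eq_dist_add_one_of_adj x' h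
    rw [X.dist_comm (u := x'), X.dist_comm (u := x')] at e5
    have := tree_uniq hX (z := a) h1 h' (by omega) (by omega)
    subst this; omega
  refine ⟨hxb, ?_⟩
  subst hxb
  rw [SimpleGraph.dist_self] at e1 e4 hx
  exact (hX.connected.dist_eq_zero_iff.1 (by omega)).symm

lemma side_nest (hX : X.IsTree) {a b c : V} (h : X.Adj a b) (h' : X.Adj b c) (hne : c ≠ a) :
    Side X b c ⊆ Side X a b := by
  intro z hz
  by_contra hz'
  exact hne (tree_uniq hX h' h.symm hz ((side_compl hX h z).2 hz'))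

variable {G : Type u} [Group G] [MulAction G V]

lemma TreeAction.dist_smul (hX : TreeAction G X) (g : G) (a b : V) :
    X.dist (g • a) (g • b) = X.dist a b := by
  have key : ∀ (g : G) a b, X.dist (g • a) (g • b) ≤ X.dist a b := by
    intro g a b
    obtain ⟨p, hp⟩ := hX.1.connected.exists_walk_length_eq_dist a b
    have := X.dist_le (p.map ⟨fun v => g • v, fun h => hX.2.1 g _ _ h⟩)
    rwa [SimpleGraph.Walk.length_map, hp] at this
  refine le_antisymm (key g a b) ?_
  simpa using key g⁻¹ (g • a) (g • b)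

lemma TreeAction.smul_side (hX : TreeAction G X) (g : G) (a b z : V) :
    g • z ∈ Side X (g • a) (g • b) ↔ z ∈ Side X a b := by
  simp only [Side, Set.mem_ofPred_eq, hX.dist_smul]

variable (G X) in
/-- Unoriented orbits of edges. -/
def edgeRel : Setoid {p : Bool → V // X.Adj (p false) (p true)} where
  r p q := ∃ (g : G) (b : Bool), ∀ s, g • p.1 s = q.1 (xor s b)
  iseqv :=
    { refl := fun p => ⟨1, false, fun s => by simp⟩
      symm := by
        rintro p q ⟨g, b, h⟩
        refine ⟨g⁻¹, b, fun s => ?_⟩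
        rw [inv_smul_eq_iff, h]; simp
      trans := by
        rintro p q r ⟨g, b, h⟩ ⟨g', b', h'⟩
        exact ⟨g' * g, xor b b', fun s => by rw [mul_smul, h, h', Bool.xor_assoc]⟩ }

theorem exists_TB (hX : TreeAction G X) : ∃ D : TB G V,
    (∀ τ s, X.Adj (D.ep τ (!s)) (D.ep τ s)) ∧
    (∀ τ s, D.Ah (τ, s) (τ, s) ⊆ {x | Pushes X (D.ep τ (!s)) (D.ep τ s) x}) ∧
    ∀ a b, X.Adj a b → Nonempty D.E := by
  let ep : Quotient (edgeRel X G) → Bool → V := fun τ => τ.out.1
  have adj : ∀ τ s, X.Adj (ep τ (!s)) (ep τ s) := by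
    intro τ s
    cases s
    · exact τ.out.2.symm
    · exact τ.out.2
  have same : ∀ τ τ' (k : G) s s', k • ep τ' s' = ep τ s → k • ep τ' (!s') = ep τ (!s) →
      τ' = τ ∧ ∀ s, k • ep τ s = ep τ s := by
    intro τ τ' k s s' h1 h2
    have : τ' = τ := by
      rw [← Quotient.out_eq τ, ← Quotient.out_eq τ']
      refine Quotient.sound ⟨k, xor s' s, fun t => ?_⟩
      cases t <;> cases s <;> cases s' <;> first | exact h1 | exact h2
    subst this
    refine ⟨rfl, ?_⟩
    by_cases hs : s' = s
    · subst hs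
      intro t
      cases t <;> cases s' <;> first | exact h1 | exact h2
    · rw [Bool.eq_not.2 hs] at h1 h2
      rw [Bool.not_not] at h2
      exact absurd ⟨h1, h2⟩ (hX.2.2 k _ _ (adj τ' s))
  have rep : ∀ a b, X.Adj a b → ∃ (k : G) (τ : Quotient (edgeRel X G)) (s : Bool),
      k • ep τ s = a ∧ k • ep τ (!s) = b := by
    intro a b h
    obtain ⟨g, c, hg⟩ := Quotient.mk_out (s := edgeRel X G) ⟨fun s => cond s b a, h⟩
    refine ⟨g, _, c, (hg c).trans (by simp), (hg (!c)).trans (by simp)⟩
  refine ⟨{ E := Quotient (edgeRel X G)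
            ep := ep
            H := fun τ s => Side X (ep τ (!s)) (ep τ s)
            hmem := fun τ s => mem_side hX.1 (adj τ s)
            hcompl := fun τ s z => by rw [Bool.not_not]; exact side_compl hX.1 (adj τ s) z
            tri := ?_
            hC := fun τ c hc s z hz => by
              rw [← hc s, ← hc (!s)]; exact (hX.smul_side c _ _ z).2 hz
            nest := ?_
            μ := fun τ z => X.dist (ep τ false) z
            lin := ?_ }, adj, ?_, fun a b h => ⟨Quotient.mk _ ⟨fun s => cond s b a, h⟩⟩⟩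
  · intro τ τ' k
    by_contra h
    rw [not_or] at h
    refine h.2 fun s s₁ s₂ h1 => ?_
    by_contra h2
    have hs : s₂ = !s₁ := Bool.eq_not.2 fun e => h2 (e ▸ h1)
    subst hs
    obtain ⟨e1, e2⟩ := side_tri hX.1 (adj τ s) (hX.2.1 k _ _ (adj τ' s₁).symm) h1 h2
    exact h.1 (same τ τ' k s s₁ e1 e2)
  · intro τ τ' s s' g h1 h2 z hz
    refine side_nest hX.1 (adj τ s) (c := g • ep τ' s') (h1 ▸ hX.2.1 g _ _ (adj τ' s'))
      (fun h3 => h2 (same τ τ' g s (!s') h1 (by rwa [Bool.not_not]))) ?_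
    rw [← h1]
    exact (hX.smul_side g _ _ z).2 hz
  · intro τ z
    by_cases h : z = ep τ false
    · exact Or.inl ⟨_, h⟩
    · obtain ⟨z', h1, h2⟩ := tree_closer hX.1 h
      obtain ⟨k, τ', s, e1, e2⟩ := rep z z' h1
      exact Or.inr ⟨k, τ', s, e1, by rwa [e2]⟩
  · rintro τ s x ⟨h1, z, hz, h2⟩
    refine ⟨fun y hy => ?_, fun h => h2 ?_⟩
    · have := h1 (x⁻¹ • y) ((hX.smul_side x _ _ _).1 (by rwa [smul_inv_smul]))
      rwa [smul_inv_smul] at this
    · exact (hX.smul_side x _ _ _).1 (by rw [smul_inv_smul]; exact h hz)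

end Geo

end Pool.Agent.MP_f7db47_al
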