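import Mathlib

/-!
Definitions for the low degree Farrell-Jones results.
-/

namespace Pool.Agent.MP_f7db47_al

universe u v

/-- A (left) regular ring: left Noetherian, and every finitely generated left module has
finite projective dimension. -/
def RegularRing (R : Type v) [Ring R] : Prop :=
  IsNoetherianRing R ∧
    ∀ M : ModuleCat.{v} R, Module.Finite R M → CategoryTheory.projectiveDimension M ≠ ⊤

/-- The generators: elementary matrices, invertible matrices over `R`, and the matrices
`1 - e + e g` with `e` an idempotent matrix over `R` and `g` in `G`. -/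
inductive Gen (R : Type v) [Ring R] (G : Type u) [Group G] (ι : Type) [Fintype ι]
    [DecidableEq ι] : Matrix ι ι (MonoidAlgebra R G) → Prop
  | elem (i j : ι) (hij : i ≠ j) (c : MonoidAlgebra R G) : Gen R G ι (1 + Matrix.single i j c)
  | base (U V : Matrix ι ι R) (hUV : U * V = 1) (hVU : V * U = 1) :
      Gen R G ι (U.map (MonoidAlgebra.single 1))
  | idem (e : Matrix ι ι R) (he : e * e = e) (g : G) :
      Gen R G ι (1 - e.map (MonoidAlgebra.single 1) + e.map (MonoidAlgebra.single g))

/-- `K_1(R) + K_0(R) x G → K_1(R G)` is onto: every invertible matrix over the group ring is,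
after stabilisation, a product of generators. -/
def K1Onto (R : Type v) [Ring R] (G : Type u) [Group G] : Prop :=
  ∀ (n : ℕ) (A B : Matrix (Fin n) (Fin n) (MonoidAlgebra R G)), A * B = 1 → B * A = 1 →
    ∃ m : ℕ, Matrix.fromBlocks A 0 0 (1 : Matrix (Fin m) (Fin m) (MonoidAlgebra R G)) ∈
      Submonoid.closure {M | Gen R G (Fin n ⊕ Fin m) M}

/-- `K_0(R) → K_0(R G)` is onto: every idempotent matrix over the group ring is, after adding
an identity block, equivalent to an idempotent matrix over `R`. -/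
def K0Onto (R : Type v) [Ring R] (G : Type u) [Group G] : Prop :=
  ∀ (n : ℕ) (p : Matrix (Fin n) (Fin n) (MonoidAlgebra R G)), p * p = p →
    ∃ (m k : ℕ) (e : Matrix (Fin k) (Fin k) R)
      (X : Matrix (Fin n ⊕ Fin m) (Fin k) (MonoidAlgebra R G))
      (Y : Matrix (Fin k) (Fin n ⊕ Fin m) (MonoidAlgebra R G)),
      e * e = e ∧ X * Y = Matrix.fromBlocks p 0 0 1 ∧ Y * X = e.map (MonoidAlgebra.single 1)

/-- Poly-`ℤ` groups. -/
inductive PolyZ : (G : Type u) → [Group G] → Prop
  | triv (G : Type u) [Group G] (h : Subsingleton G) : PolyZ G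
  | ext (G : Type u) [Group G] (h : G →* Multiplicative ℤ) (hker : PolyZ h.ker) : PolyZ G

/-- Every finitely generated subgroup of `K i ∩ x (K i) x⁻¹` lies in some `K j` with `j`
smaller than `i`. -/
def Drops {G : Type u} [Group G] {ι : Type u} (K : ι → Subgroup G) (r : ι → ι → Prop) (i : ι)
    (x : G) : Prop :=
  ∀ M : Subgroup G, M.FG → M ≤ K i ⊓ (K i).map (MulAut.conj x).toMonoidHom →
    ∃ j, r j i ∧ M ≤ K j

/-- The class `D` of groups. -/
inductive ClassD : (G : Type u) → [Group G] → Prop
  | poly (G : Type u) [Group G] (h : PolyZ G) : ClassD G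
  | sub (G H : Type u) [Group G] [Group H] (f : G →* H) (hf : Function.Injective f)
      (hH : ClassD H) : ClassD G
  | prod (G H : Type u) [Group G] [Group H] (hG : ClassD G) (hH : ClassD H) : ClassD (G × H)
  | loc (G : Type u) [Group G] (h : ∀ K : Subgroup G, K.FG → ClassD K) : ClassD G
  | ext (G : Type u) [Group G] (h : G →* Multiplicative ℤ) (hker : ClassD h.ker)
      (ι : Type u) (K : ι → Subgroup G) (r : ι → ι → Prop) (hr : WellFounded r)
      (hK : ∀ i, K i ≤ h.ker)
      (hcover : ∀ M : Subgroup G, M.FG → M ≤ h.ker → ∃ i, M ≤ K i)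
      (term : ι → G → Prop)
      (hterm : ∀ i x, term i x → ClassD ↥(K i ⊔ Subgroup.zpowers x))
      (hstep : ∀ i x, x ∉ h.ker → term i x ∨ Drops K r i x ∨ Drops K r i x⁻¹) : ClassD G

/-- A piecewise linear orientation preserving homeomorphism of `[0,1]` with finitely many
breakpoints, extended by the identity to the real line. -/
def IsPL (g : Equiv.Perm ℝ) : Prop :=
  StrictMono g ∧ (∀ x, x ∉ Set.Icc (0 : ℝ) 1 → g x = x) ∧
    ∃ S : Finset ℝ, ∀ a b : ℝ, (∀ s ∈ S, s ∉ Set.Ioo a b) →
      ∃ c d : ℝ, ∀ x ∈ Set.Icc a b, g x = c * x + d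

/-- `(a, b)` is an orbital of `L`: a connected component of the set of points moved by `L`. -/
def IsOrbital (L : Subgroup (Equiv.Perm ℝ)) (a b : ℝ) : Prop :=
  a < b ∧ (∀ g ∈ L, g a = a ∧ g b = b) ∧ ∀ x ∈ Set.Ioo a b, ∃ g ∈ L, g x ≠ x

/-- There is no infinite descending chain of finitely generated subgroups of `G` with strictly
nested orbitals. -/
def NoInfiniteTower (G : Subgroup (Equiv.Perm ℝ)) : Prop :=
  ¬ ∃ (L : ℕ → Subgroup (Equiv.Perm ℝ)) (a b : ℕ → ℝ), ∀ i,
    (L i).FG ∧ L i ≤ G ∧ L (i + 1) ≤ L i ∧ IsOrbital (L i) (a i) (b i) ∧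
      a i < a (i + 1) ∧ b (i + 1) < b i

end Pool.Agent.MP_f7db47_al
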