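import Pool.Agent.MP_f7db47_al.RegA
import Pool.Agent.MP_f7db47_al.Defs

/-! Base change of finite resolutions, and regular rings. -/

namespace Pool.Agent.MP_f7db47_al

open Function Matrix

universe v w w' x

variable {R : Type v} {L : Type w} {S : Type w'} [Ring R] [Ring L] [Ring S]

theorem RegularRing.reg (h : RegularRing R) : Reg (RingHom.id R) := by
  have := h.1
  have key : ∀ (n : ℕ) (M : Type v) [AddCommGroup M] [Module R M] [Module.Finite R M],
      CategoryTheory.HasProjectiveDimensionLT (ModuleCat.of R M) (n + 1) →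
        FR (RingHom.id R) n M := by
    intro n
    induction n with
    | zero =>
      intro M _ _ _ hM
      have : Module.Projective R M := (IsProjective.iff_projective M).2
        (CategoryTheory.projective_iff_hasProjectiveDimensionLT_one.2 hM)
      obtain ⟨n, p, hp⟩ := Module.Finite.exists_fin' R M
      obtain ⟨s, hs⟩ := Module.projective_lifting_property p LinearMap.id hp
      have hs' : ∀ y, p (s y) = y := fun y => congr($hs y)
      obtain ⟨e, he⟩ := exists_mat (s ∘ₗ p)
      refine ⟨Fin n, inferInstance, e, p, ext_vecMul fun v => ?_, hp, fun v => ?_⟩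
      · rw [← vecMul_vecMul, he, he]; simp [hs']
      · rw [RingHom.coe_id, Matrix.map_id, he]
        exact ⟨fun h => by simp [h], fun h => by simpa [hs'] using congrArg p h⟩
    | succ n ih =>
      intro M _ _ _ hM
      obtain ⟨m, p, hp⟩ := Module.Finite.exists_fin' R M
      refine ⟨Fin m, inferInstance, p, hp, ih _ ?_⟩
      exact ((LinearMap.shortExact_shortComplexKer hp).hasProjectiveDimensionLT_X₃_iff n
        ((IsProjective.iff_projective (Fin m → R)).1 inferInstance)).1 hM
  intro J _ A
  obtain ⟨n, hn⟩ := (CategoryTheory.projectiveDimension_ne_top_iff _).1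
    (h.2 (ModuleCat.of R A) (Module.Finite.iff_fg.2 (IsNoetherian.noetherian A)))
  exact ⟨n, key n A hn⟩

/-- `S` is free as a right `L`-module, with basis `b` and coordinates `c`. -/
structure RFree (f : L →+* S) (ι : Type x) where
  b : ι → S
  c : S →+ (ι →₀ L)
  sum_c : ∀ s, (c s).sum (fun k l => b k * f l) = s
  c_single : ∀ k l, c (b k * f l) = Finsupp.single k l

/-- Extension of a submodule of a free module. -/
def extS (f : L →+* S) {m : Type} (A : Submodule L (m → L)) : Submodule S (m → S) :=
  Submodule.span S ((fun w => f ∘ w) '' A)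

namespace RFree

variable {f : L →+* S} {ι : Type x} (F : RFree f ι)

theorem ind {P : S → Prop} (h0 : P 0) (hadd : ∀ a b, P a → P b → P (a + b))
    (hb : ∀ k l, P (F.b k * f l)) (s : S) : P s := by
  rw [← F.sum_c s]
  exact Finset.sum_induction _ P hadd h0 fun k _ => hb k _

theorem c_mul (s : S) (l : L) (k : ι) : F.c (s * f l) k = F.c s k * l := by
  classical
  induction s using F.ind with
  | h0 => simp
  | hadd a b ha hb => simp [add_mul, ha, hb]
  | hb i m =>
    rw [mul_assoc, ← map_mul, F.c_single, F.c_single, Finsupp.single_apply, Finsupp.single_apply]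
    split_ifs <;> simp

/-- Coordinates of a vector. -/
noncomputable def cv (k : ι) {m : Type} (v : m → S) : m → L := fun j => F.c (v j) k

theorem cv_vecMul (k : ι) {m n : Type} [Fintype m] (v : m → S) (A : Matrix m n L) :
    F.cv k (v ᵥ* A.map f) = F.cv k v ᵥ* A := by
  funext j
  simp [cv, vecMul, dotProduct, F.c_mul]

theorem eq_zero {s : S} (h : ∀ k, F.c s k = 0) : s = 0 := by
  rw [← F.sum_c s, show F.c s = 0 from Finsupp.ext h]; simp

theorem cv_eq_zero {m : Type} {v : m → S} : v = 0 ↔ ∀ k, F.cv k v = 0 :=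
  ⟨fun h k => by funext j; simp [h, cv], fun h => funext fun j => F.eq_zero fun k => congrFun (h k) j⟩

theorem mem_extS {m : Type} [Fintype m] {A : Submodule L (m → L)} {v : m → S} :
    v ∈ extS f A ↔ ∀ k, F.cv k v ∈ A := by
  classical
  constructor
  · intro hv
    suffices ∀ (s : S) k, F.cv k (s • v) ∈ A by simpa using this 1
    induction hv using Submodule.span_induction with
    | mem x hx =>
      obtain ⟨w, hw, rfl⟩ := hx
      intro s k
      convert A.smul_mem (F.c s k) hw using 1
      funext j
      simp [cv, F.c_mul]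
    | zero => intro s k; convert A.zero_mem using 1; funext j; simp [cv]
    | add x y _ _ hx hy =>
      intro s k
      convert A.add_mem (hx s k) (hy s k) using 1
      funext j; simp [cv, mul_add]
    | smul a x _ hx => intro s k; rw [smul_smul]; exact hx _ k
  · intro h
    have : v = ∑ k ∈ Finset.univ.biUnion fun j => (F.c (v j)).support, F.b k • (f ∘ F.cv k v) := by
      funext j
      rw [Finset.sum_apply]
      conv_lhs => rw [← F.sum_c (v j)]
      exact Finsupp.sum_of_support_subset _
        (Finset.subset_biUnion_of_mem (fun j => (F.c (v j)).support) (Finset.mem_univ j)) _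
        (by simp)
    rw [this]
    exact Submodule.sum_mem _ fun k _ => Submodule.smul_mem _ _
      (Submodule.subset_span ⟨_, h k, rfl⟩)

theorem bc_surj {m n : Type} [Fintype m] [Fintype n] {A : Submodule L (n → L)}
    (p : (m → L) →ₗ[L] A) (hp : Surjective p) : ∃ p' : (m → S) →ₗ[S] extS f A,
      Surjective p' ∧ ∀ v, p' v = 0 ↔ ∀ k, p (F.cv k v) = 0 := by
  obtain ⟨B, hB⟩ := exists_mat (A.subtype ∘ₗ p)
  refine ⟨(B.map f).vecMulLinear.codRestrict _ fun v => F.mem_extS.2 fun k => ?_, fun u => ?_,
    fun v => ?_⟩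
  · rw [vecMulLinear_apply, F.cv_vecMul, hB]; exact (p _).2
  · have : extS f A ≤ LinearMap.range (B.map f).vecMulLinear := Submodule.span_le.2 (by
      rintro _ ⟨w, hw, rfl⟩
      obtain ⟨u, hu⟩ := hp ⟨w, hw⟩
      refine ⟨f ∘ u, funext fun j => ?_⟩
      rw [vecMulLinear_apply, ← RingHom.map_vecMul, hB]
      simp [hu])
    obtain ⟨v, hv⟩ := this u.2
    exact ⟨v, Subtype.ext hv⟩
  · rw [Subtype.ext_iff]
    show v ᵥ* B.map f = 0 ↔ _
    rw [F.cv_eq_zero]
    refine forall_congr' fun k => ?_
    rw [F.cv_vecMul, hB]; simp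

include F in
theorem fr_extS {ρ : R →+* L} {ρ' : R →+* S} (hρ : ∀ r, ρ' r = f (ρ r)) {k : ℕ} :
    ∀ {n : Type} [Fintype n] {A : Submodule L (n → L)}, FR ρ k A → FR ρ' k (extS f A) := by
  induction k with
  | zero =>
    rintro n _ A ⟨m, _, e, p, he, hp, hk⟩
    obtain ⟨p', hp', hk'⟩ := F.bc_surj p hp
    refine ⟨m, inferInstance, e, p', he, hp', fun v => ?_⟩
    have : e.map ρ' = (e.map ρ).map f := by ext i j; simp [hρ]
    rw [hk', this, F.cv_eq_zero]
    exact forall_congr' fun k => by rw [hk, F.cv_vecMul]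
  | succ k ih =>
    rintro n _ A ⟨m, _, p, hp, h⟩
    obtain ⟨p', hp', hk'⟩ := F.bc_surj p hp
    refine ⟨m, inferInstance, p', hp', (ih h).iso (LinearEquiv.ofEq _ _ ?_)⟩
    ext v
    rw [F.mem_extS, LinearMap.mem_ker, hk']; rfl

end RFree

theorem Reg.of_bijective {ρ : R →+* L} (h : Reg ρ) {f : L →+* S} (hf : Bijective f)
    {ρ' : R →+* S} (hρ : ∀ r, ρ' r = f (ρ r)) : Reg ρ' := by
  let e := RingEquiv.ofBijective f hf
  have h1 : ∀ s, f (e.symm s) = s := e.apply_symm_apply
  have h2 : ∀ l, e.symm (f l) = l := e.symm_apply_apply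
  let F : RFree f Unit :=
    { b := fun _ => 1
      c := (Finsupp.singleAddHom ()).comp e.symm.toAddMonoidHom
      sum_c := fun s => by simp [h1]
      c_single := fun k l => by simp [h2] }
  intro J _ A
  let B : Submodule L (J → L) :=
    { carrier := {w | f ∘ w ∈ A}
      zero_mem' := by
        show f ∘ (0 : J → L) ∈ A
        convert A.zero_mem; funext j; simp
      add_mem' := fun {a b} ha hb => by
        show f ∘ (a + b) ∈ A
        convert A.add_mem ha hb; funext j; simp
      smul_mem' := fun l a ha => by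
        show f ∘ (l • a) ∈ A
        convert A.smul_mem (f l) ha; funext j; simp }
  obtain ⟨k, hk⟩ := h J B
  refine ⟨k, (F.fr_extS hρ hk).iso (LinearEquiv.ofEq _ _ ?_)⟩
  ext v
  rw [F.mem_extS]
  have : ∀ k, f ∘ F.cv k v = v := fun k => funext fun j => by
    simp [F, RFree.cv, h1]
  exact ⟨fun h => this () ▸ h (), fun h k => by show f ∘ _ ∈ A; rwa [this]⟩

end Pool.Agent.MP_f7db47_al
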