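import Pool.Agent.MP_f7db47_al.TreeDefs

/-!
Tame actions on trees.
-/

namespace Pool.Agent.MP_f7db47_al

universe u w

/-- A (left) regular coherent ring: finitely generated submodules of finitely generated free
modules are finitely presented and have finite projective dimension. -/
def RegularCoherent (L : Type w) [Ring L] : Prop :=
  ∀ (n : ℕ) (A : Submodule L (Fin n → L)), A.FG →
    Module.FinitePresentation L A ∧ CategoryTheory.projectiveDimension (ModuleCat.of L A) ≠ ⊤

/-- The action is tame relative to the sets `F` and `Z` of subgroups: every oriented edge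
`(a, b)` has a well founded family of subgroups `K i` of the edge group, covering its finitely
generated subgroups, such that either `K i` lies in `Z`, or for each `x` pushing the edge
forward `⟨K i, x⟩` lies in `F` or the finitely generated subgroups of `K i ∩ x (K i) x⁻¹`
(or of `K i ∩ x⁻¹ (K i) x`) lie in smaller members of the family. -/
def TameTree (G : Type u) [Group G] {V : Type u} [MulAction G V] (X : SimpleGraph V)
    (F Z : Set (Subgroup G)) : Prop :=
  ∀ a b, X.Adj a b → ∃ (ι : Type u) (K : ι → Subgroup G) (r : ι → ι → Prop), WellFounded r ∧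
    (∀ i, K i ≤ MulAction.stabilizer G a ⊓ MulAction.stabilizer G b) ∧
    (∀ M : Subgroup G, M.FG → M ≤ MulAction.stabilizer G a ⊓ MulAction.stabilizer G b →
      ∃ i, M ≤ K i) ∧
    ∀ i, K i ∈ Z ∨ ∀ x, Pushes X a b x →
      K i ⊔ Subgroup.zpowers x ∈ F ∨ Drops K r i x ∨ Drops K r i x⁻¹

end Pool.Agent.MP_f7db47_al
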