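import Pool.Agent.MP_f7db47_al.NilAbs
import Pool.Agent.MP_f7db47_al.RegB
import Pool.Agent.MP_f7db47_al.RegE
import Pool.Agent.MP_f7db47_al.TameDefs

/-!
Nil terms over a regular coherent group ring vanish.
-/

set_option linter.unusedSectionVars false

namespace Pool.Agent.MP_f7db47_al

open Matrix Function

universe u v w

lemma RegularCoherent.fr {L : Type w} [Ring L] (h : RegularCoherent L) {J : Type} [Fintype J]
    (A : Submodule L (J → L)) (hA : A.FG) : ∃ k, FR (RingHom.id L) k A := by
  have key : ∀ (k n : ℕ) (A : Submodule L (Fin n → L)), A.FG →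
      CategoryTheory.HasProjectiveDimensionLT (ModuleCat.of L A) (k + 1) →
        FR (RingHom.id L) k A := by
    intro k
    induction k with
    | zero =>
      intro n A hA hM
      have := Module.Finite.iff_fg.2 hA
      have : Module.Projective L A := (IsProjective.iff_projective A).2
        (CategoryTheory.projective_iff_hasProjectiveDimensionLT_one.2 hM)
      obtain ⟨n, p, hp⟩ := Module.Finite.exists_fin' L A
      obtain ⟨s, hs⟩ := Module.projective_lifting_property p LinearMap.id hp
      have hs' : ∀ y, p (s y) = y := fun y => congr($hs y)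
      obtain ⟨e, he⟩ := exists_mat (s ∘ₗ p)
      refine ⟨Fin n, inferInstance, e, p, ext_vecMul fun v => ?_, hp, fun v => ?_⟩
      · rw [← vecMul_vecMul, he, he]; simp [hs']
      · rw [RingHom.coe_id, Matrix.map_id, he]
        exact ⟨fun h => by simp [h], fun h => by simpa [hs'] using congrArg p h⟩
    | succ k ih =>
      intro n A hA hM
      have := (h n A hA).1
      obtain ⟨m, p, hp⟩ := Module.Finite.exists_fin' L A
      refine ⟨Fin m, inferInstance, p, hp, ih _ _ (Module.FinitePresentation.fg_ker p hp) ?_⟩
      exact ((LinearMap.shortExact_shortComplexKer hp).hasProjectiveDimensionLT_X₃_iff k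
        ((IsProjective.iff_projective (Fin m → L)).1 inferInstance)).1 hM
  let e := LinearEquiv.funCongrLeft L L (Fintype.equivFin J).symm
  have hA' : (A.map e.toLinearMap).FG := hA.map _
  obtain ⟨k, hk⟩ := (CategoryTheory.projectiveDimension_ne_top_iff _).1 (h _ _ hA').2
  exact ⟨k, (key k _ _ hA' hk).iso (e.submoduleMap A).symm⟩

namespace TS

variable {Λ : Type w} [Ring Λ] (S : TS Λ) {J K : Type} [Fintype J] [DecidableEq J] [Fintype K]
  [DecidableEq K]

lemma stab {A : Matrix J J Λ} (h : S.T A) : S.T (fromBlocks A 0 0 (1 : Matrix K K Λ)) := by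
  have := S.comm (fromRows (1 - A) (0 : Matrix K J Λ)) (fromCols 1 0)
    (by simpa [fromCols_mul_fromRows] using h)
  convert this using 1
  rw [fromRows_mul_fromCols, ← fromBlocks_one (l := J) (m := K), sub_eq_add_neg, fromBlocks_neg,
    fromBlocks_add]
  simp

lemma stab'_iff {B : Matrix K K Λ} : S.T (fromBlocks (1 : Matrix J J Λ) 0 0 B) ↔ S.T B := by
  have e : fromBlocks (1 : Matrix J J Λ) 0 0 B =
      1 - fromRows (0 : Matrix J K Λ) (1 - B) *
        fromCols (0 : Matrix K J Λ) (1 : Matrix K K Λ) := by
    rw [fromRows_mul_fromCols, ← fromBlocks_one (l := J) (m := K), sub_eq_add_neg, fromBlocks_neg,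
      fromBlocks_add]
    simp
  rw [e]
  refine ⟨fun h => ?_, fun h => S.comm _ _ (by simpa [fromCols_mul_fromRows] using h)⟩
  simpa [fromCols_mul_fromRows] using S.comm _ _ h

/-- The calculus in the form used for resolutions. -/
def toKT : KT Λ where
  T := S.T
  one := fun _ _ _ => S.one
  comm := S.comm
  tri := by
    intro m n _ _ _ _ A C B hA
    obtain ⟨A', -, -, h2⟩ := S.unit hA
    have e : fromBlocks A 0 C B =
        fromBlocks 1 0 (C * A') 1 * (fromBlocks 1 0 0 B * fromBlocks A 0 0 1) := by
      simp [fromBlocks_multiply, Matrix.mul_assoc, h2]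
    rw [e, ← S.stab'_iff (J := m) (B := B)]
    exact ⟨fun h => S.cancel_right (S.stab hA) (S.cancel_left (S.lower _) h),
      fun h => S.mul (S.lower _) (S.mul h (S.stab hA))⟩

end TS

variable {R : Type v} [Ring R] {G : Type u} [Group G]

/-- The group ring is free over the group ring of a subgroup. -/
noncomputable def rfreeInj {H : Type u} [Group H] (f : H →* G) (hf : Injective f) :
    RFree (MonoidAlgebra.mapDomainRingHom R f) (G ⧸ f.range) :=
  have hm : ∀ g : G, ∃ k : H, f k = (g : G ⧸ f.range).out⁻¹ * g := fun g =>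
    QuotientGroup.eq.1 (QuotientGroup.out_eq' (g : G ⧸ f.range))
  let c : MonoidAlgebra R G →+ (G ⧸ f.range →₀ MonoidAlgebra R H) :=
    (Finsupp.liftAddHom fun g : G => (Finsupp.singleAddHom (g : G ⧸ f.range)).comp
      (MonoidAlgebra.singleAddHom (hm g).choose)).comp MonoidAlgebra.coeffAddEquiv.toAddMonoidHom
  have hc : ∀ g r, c (MonoidAlgebra.single g r) =
      Finsupp.single (g : G ⧸ f.range) (MonoidAlgebra.single (hm g).choose r) := fun g r => by
    simp [c, MonoidAlgebra.coeffAddEquiv]
  { b := fun q => MonoidAlgebra.single q.out 1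
    c := c
    sum_c := fun s => by
      induction s using MonoidAlgebra.induction_linear with
      | zero => simp
      | add a b ha hb =>
        rw [map_add, Finsupp.sum_add_index' (by simp) (fun _ _ _ => by rw [map_add, mul_add]),
          ha, hb]
      | single g r =>
        rw [hc, Finsupp.sum_single_index (by simp)]
        simp [MonoidAlgebra.single_mul_single, (hm g).choose_spec]
    c_single := fun q l => by
      induction l using MonoidAlgebra.induction_linear with
      | zero => simp
      | add a b ha hb => rw [map_add, mul_add, map_add, ha, hb, Finsupp.single_add]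
      | single g r =>
        have e : ((q.out * f g : G) : G ⧸ f.range) = q := by
          rw [QuotientGroup.mk_mul_of_mem _ (MonoidHom.mem_range.2 ⟨g, rfl⟩), QuotientGroup.out_eq']
        have e' : (hm (q.out * f g)).choose = g :=
          hf (by rw [(hm _).choose_spec, e, inv_mul_cancel_left])
        rw [MonoidAlgebra.mapDomainRingHom_apply, MonoidAlgebra.mapDomain_single,
          MonoidAlgebra.single_mul_single, one_mul, hc, e', e] }

lemma fr_span {H : Type u} [Group H] (f : H →* G) (hf : Injective f)
    (hH : RegularCoherent (MonoidAlgebra R H)) {J : Type} [Fintype J]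
    {W : Set (J → MonoidAlgebra R G)} (hW : W.Finite) (hs : ∀ w ∈ W, VSup (Set.range f) w) :
    ∃ k, FR (MonoidAlgebra.mapDomainRingHom R f) k (Submodule.span (MonoidAlgebra R G) W) := by
  set φ := MonoidAlgebra.mapDomainRingHom R f with hφ
  let c : (J → MonoidAlgebra R G) → J → MonoidAlgebra R H := fun w j =>
    MonoidAlgebra.comapDomain f hf (w j)
  have hc : ∀ w ∈ W, φ ∘ c w = w := fun w hw => funext fun j =>
    MonoidAlgebra.mapDomain_comapDomain
      (fun g hg => hs w hw j g (Finsupp.mem_support_iff.1 hg)) hf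
  obtain ⟨k, hk⟩ := hH.fr (Submodule.span _ (c '' W)) (Submodule.fg_span (hW.image c))
  refine ⟨k, ((rfreeInj f hf).fr_extS (ρ' := φ) (fun _ => rfl) hk).iso (LinearEquiv.ofEq _ _ ?_)⟩
  refine le_antisymm (Submodule.span_le.2 ?_) (Submodule.span_mono fun w hw =>
    ⟨c w, Submodule.subset_span ⟨w, hw, rfl⟩, hc w hw⟩)
  rintro _ ⟨a, ha, rfl⟩
  change φ ∘ a ∈ Submodule.span (MonoidAlgebra R G) W
  induction ha using Submodule.span_induction with
  | mem x hx =>
    obtain ⟨w, hw, rfl⟩ := hx
    rw [hc w hw]; exact Submodule.subset_span hw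
  | zero =>
    have : φ ∘ (0 : J → MonoidAlgebra R H) = 0 := funext fun _ => map_zero φ
    rw [this]; exact zero_mem _
  | add x y _ _ hx hy =>
    have : φ ∘ (x + y) = φ ∘ x + φ ∘ y := funext fun _ => map_add φ _ _
    rw [this]; exact add_mem hx hy
  | smul a x _ hx =>
    have : φ ∘ (a • x) = φ a • (φ ∘ x) := funext fun _ => map_mul φ _ _
    rw [this]; exact Submodule.smul_mem _ (φ a) hx

theorem tameP_of_coherent (S : TS (MonoidAlgebra R G)) (P : Set G) {K : Subgroup G}
    {H : Type u} [Group H] (f : H →* G) (hf : Injective f) (hK : (K : Set G) ⊆ Set.range f)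
    (hH : RegularCoherent (MonoidAlgebra R H)) : TameP S P K := by
  rintro J _ _ ν - ⟨F, hF⟩
  have main : ∀ j, ∀ W : Set (J → MonoidAlgebra R G), W.Finite → (∀ w ∈ W, VSup (K : Set G) w) →
      (∀ w ∈ W, w ∈ F.V j) → ∃ W' : Set (J → MonoidAlgebra R G), W'.Finite ∧ W ⊆ W' ∧
      (∀ w ∈ W', VSup (K : Set G) w) ∧
      ∃ h : ∀ x ∈ Submodule.span (MonoidAlgebra R G) W',
        ν.vecMulLinear x ∈ Submodule.span (MonoidAlgebra R G) W',
      ∃ k, S.toKT.Good k _ (ν.vecMulLinear.restrict h) := by
    intro j
    induction j with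
    | zero =>
      intro W h1 h2 h3
      have hb : Submodule.span (MonoidAlgebra R G) W = ⊥ :=
        Submodule.span_eq_bot.2 fun w hw => by simpa [F.zero] using h3 w hw
      have : Subsingleton (Submodule.span (MonoidAlgebra R G) W) := by rw [hb]; infer_instance
      refine ⟨W, h1, subset_rfl, h2, fun x hx => ?_, 0, KT.Triv.of_subsingleton⟩
      rw [hb, Submodule.mem_bot] at hx
      rw [hx, map_zero]; exact zero_mem _
    | succ j ih =>
      intro W h1 h2 h3
      obtain ⟨W₁, g1, g2, g3, h, k, hk⟩ := ih (⋃ w ∈ W, (fun g => MonoidAlgebra.single g⁻¹ (1 : R) •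
        prv (lc g K) (w ᵥ* ν)) '' {g | ∃ i, ((w ᵥ* ν) i).coeff g ≠ 0})
        (h1.biUnion fun w _ => (exists_finset_vsup _).image _) (by
          simp only [Set.mem_iUnion]
          rintro _ ⟨w, -, g, -, rfl⟩ i
          refine (sup_single (S := {g⁻¹}) rfl _).mul (vsup_prv (lc g K) _ i) ?_
          rintro a rfl b hb; exact hb) (by
          simp only [Set.mem_iUnion]
          rintro _ ⟨w, hw, g, -, rfl⟩
          exact Submodule.smul_mem _ _ (F.graded _ _ (rinv_lc g K) _ (hF j w (h3 w hw))))
      have hle : Submodule.span (MonoidAlgebra R G) W₁ ≤ Submodule.span _ (W ∪ W₁) :=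
        Submodule.span_mono Set.subset_union_right
      have hν : ∀ x ∈ Submodule.span (MonoidAlgebra R G) (W ∪ W₁),
          ν.vecMulLinear x ∈ Submodule.span (MonoidAlgebra R G) W₁ := by
        have : Submodule.span (MonoidAlgebra R G) (W ∪ W₁) ≤
            (Submodule.span _ W₁).comap ν.vecMulLinear := by
          rw [Submodule.span_le]
          rintro w (hw | hw)
          · change w ᵥ* ν ∈ Submodule.span (MonoidAlgebra R G) W₁
            rw [← prv_univ (w ᵥ* ν)]
            refine prv_induction K (P := fun z => z ∈ Submodule.span (MonoidAlgebra R G) W₁)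
              (zero_mem _) (fun a b ha hb => add_mem ha hb) _ (rinv_univ K) fun g hg => ?_
            have : prv (lc g K) (w ᵥ* ν) = MonoidAlgebra.single g (1 : R) •
                (MonoidAlgebra.single g⁻¹ (1 : R) • prv (lc g K) (w ᵥ* ν)) := by
              rw [smul_smul, MonoidAlgebra.single_mul_single, mul_inv_cancel, mul_one,
                ← MonoidAlgebra.one_def, one_smul]
            rw [this]
            refine Submodule.smul_mem _ _ (Submodule.subset_span (g2 ?_))
            simp only [Set.mem_iUnion]
            exact ⟨w, hw, g, hg, rfl⟩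
          · exact h w (Submodule.subset_span hw)
        exact fun x hx => this hx
      have hs : ∀ w ∈ W ∪ W₁, VSup (K : Set G) w := fun w hw => hw.elim (h2 w) (g3 w)
      obtain ⟨l₁, hl₁⟩ := fr_span f hf hH g1 fun w hw i => (g3 w hw i).mono hK
      obtain ⟨l₂, hl₂⟩ := fr_span f hf hH (h1.union g1) fun w hw i => (hs w hw i).mono hK
      have hex : Exact (Submodule.inclusion hle) (LinearMap.range (Submodule.inclusion hle)).mkQ :=
        LinearMap.exact_map_mkQ_range _
      have hq := FR.coker (k := max l₁ l₂) (Submodule.inclusion_injective hle) hex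
        (Submodule.mkQ_surjective _) (hl₁.mono (le_max_left _ _)) (hl₂.mono (by omega))
      refine ⟨W ∪ W₁, h1.union g1, Set.subset_union_left, hs, fun x hx => hle (hν x hx),
        max k (max l₁ l₂ + 1), KT.Good.ext (Submodule.inclusion_injective hle) hex
          (Submodule.mkQ_surjective _) (fun _ => rfl) (fun x => ?_) (hk.mono (le_max_left _ _))
          (hq.mono (le_max_right _ _))⟩
      exact (Submodule.Quotient.mk_eq_zero _).2 ⟨⟨_, hν x x.2⟩, rfl⟩
  obtain ⟨W, -, h2, -, h, k, hk⟩ := main F.k (Set.range fun i => Pi.single i 1)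
    (Set.finite_range _) (by
      rintro _ ⟨i, rfl⟩ j
      by_cases hij : j = i
      · subst hij; simpa using sup_one K.one_mem
      · simpa [Pi.single_eq_of_ne hij] using sup_zero _) fun w _ => by rw [F.top]; trivial
  have htop : Submodule.span (MonoidAlgebra R G) W = ⊤ := by
    rw [eq_top_iff, ← (Pi.basisFun (MonoidAlgebra R G) J).span_eq]
    refine Submodule.span_mono (subset_trans ?_ h2)
    rintro _ ⟨i, rfl⟩
    exact ⟨i, by simp⟩
  let e := LinearEquiv.ofTop _ htop
  exact (hk.triv (Module.Projective.of_equiv e.symm)).indep (i := e.toLinearMap)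
    (p := e.symm.toLinearMap) e.symm_apply_apply fun _ => rfl

end Pool.Agent.MP_f7db47_al
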