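import Pool.Agent.MP_f7db47_al.TameDefs

/-!
Generators for the relative statement.
-/

namespace Pool.Agent.MP_f7db47_al

universe u v

/-- Elementary matrices, matrices over the group ring of a member of `F`, and split matrices
`e A + (1 - e) B`: row `i` is labelled by an edge or vertex `(a i, b i)`, column `j` by a vertex
`z j`; the idempotent `e` preserves the row labels, `A` carries `z j` to `a i` and `B` carries
`z j` to `b i`. -/
inductive RGen (R : Type v) [Ring R] (G : Type u) [Group G] {V : Type u} [MulAction G V]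
    (X : SimpleGraph V) (F : Set (Subgroup G)) (ι : Type) [Fintype ι] [DecidableEq ι] :
    Matrix ι ι (MonoidAlgebra R G) → Prop
  | elem (i j : ι) (hij : i ≠ j) (c : MonoidAlgebra R G) :
      RGen R G X F ι (1 + Matrix.single i j c)
  | sub (H : Subgroup G) (hH : H ∈ F) (M : Matrix ι ι (MonoidAlgebra R G))
      (hM : ∀ i j g, (M i j).coeff g ≠ 0 → g ∈ H) : RGen R G X F ι M
  | split (a b z : ι → V) (hab : ∀ i, a i = b i ∨ X.Adj (a i) (b i))
      (e A B : Matrix ι ι (MonoidAlgebra R G)) (he : e * e = e)
      (he' : ∀ i j g, (e i j).coeff g ≠ 0 → g • a j = a i ∧ g • b j = b i)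
      (hA : ∀ i j g, (A i j).coeff g ≠ 0 → g • z j = a i)
      (hB : ∀ i j g, (B i j).coeff g ≠ 0 → g • z j = b i) :
      RGen R G X F ι (e * A + (1 - e) * B)

/-- Every invertible matrix over the group ring is, after stabilisation, a product of invertible
generators and inverses of invertible generators. -/
def RelOnto (R : Type v) [Ring R] (G : Type u) [Group G] {V : Type u} [MulAction G V]
    (X : SimpleGraph V) (F : Set (Subgroup G)) : Prop :=
  ∀ (n : ℕ) (A B : Matrix (Fin n) (Fin n) (MonoidAlgebra R G)), A * B = 1 → B * A = 1 →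
    ∃ m : ℕ, Matrix.fromBlocks A 0 0 (1 : Matrix (Fin m) (Fin m) (MonoidAlgebra R G)) ∈
      Submonoid.closure {M | ∃ N, M * N = 1 ∧ N * M = 1 ∧
        (RGen R G X F (Fin n ⊕ Fin m) M ∨ RGen R G X F (Fin n ⊕ Fin m) N)}

end Pool.Agent.MP_f7db47_al
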