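import Pool.Agent.MP_f7db47_al.TBSplit2
import Pool.Agent.MP_f7db47_al.TreeGeo
import Pool.Agent.MP_f7db47_al.ClassG
import Pool.Agent.MP_f7db47_al.Coh
import Pool.Agent.MP_f7db47_al.RelDefs
import Pool.Agent.MP_f7db47_al.PL

/-!
The theorems for tame actions on trees.
-/

set_option linter.unusedSectionVars false

namespace Pool.Agent.MP_f7db47_al

open Matrix Function

universe u v

variable {R : Type v} [Ring R]

lemma TB.C_eq {G : Type u} [Group G] {V : Type u} [MulAction G V] (D : TB G V) (τ : D.E)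
    (s : Bool) :
    D.C τ = MulAction.stabilizer G (D.ep τ (!s)) ⊓ MulAction.stabilizer G (D.ep τ s) := by
  ext c
  refine ⟨fun h => ⟨h _, h _⟩, fun h t => ?_⟩
  cases s <;> cases t <;> first | exact h.1 | exact h.2

theorem tree_main {G G₀ V : Type u} [Group G] [Group G₀] [MulAction G V] [MulAction G₀ V]
    (p : G →* G₀) (hp : ∀ (g : G) (y : V), g • y = p g • y) {X : SimpleGraph V}
    (hX : TreeAction G₀ X) {F Z : Set (Subgroup G₀)} (hT : TameTree G₀ X F Z)
    (S : TS (MonoidAlgebra R G)) (hF : ∀ H ∈ F, TermS S (H.comap p))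
    (hZ : ∀ K ∈ Z, ∀ P, TameP S P (K.comap p))
    (hV : ∀ y : V, TermS S (MulAction.stabilizer G y))
    (hsplit : ∀ D : TB G V, (∀ τ s, X.Adj (D.ep τ (!s)) (D.ep τ s)) → D.SplitT S)
    {J : Type} [Fintype J] [DecidableEq J] {A : Matrix J J (MonoidAlgebra R G)} (hu : IsUnit A) :
    S.T A := by
  have hX' : TreeAction G X := ⟨hX.1, fun g a b h => by rw [hp, hp]; exact hX.2.1 _ a b h,
    fun g a b h => by rw [hp, hp]; exact hX.2.2 _ a b h⟩
  obtain ⟨D, hadj, hAh, hne⟩ := exists_TB hX'
  by_cases hE : Nonempty D.E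
  · obtain ⟨e₀⟩ := hE
    refine TB.core (fun σ => ?_) (hsplit D hadj) e₀ hu
    obtain ⟨τ, s⟩ := σ
    obtain ⟨ι, K, r, hr, hK, hcover, hstep⟩ := hT _ _ (hadj τ s)
    refine (coverP_of_family p (D.ah_mul _ _ _) (D.ah_left _ _) (fun k hk x hx =>
      D.ah_right _ _ k hk x hx) K r hr (fun i x hx => ?_) (fun M hM h => hcover M hM ?_)
      fun i => (hstep i).imp (fun h => hZ _ h _) fun hstep x hx => ?_).tame
    · rw [D.C_eq τ s]
      exact ⟨(hp _ _).trans (hK i hx).1, (hp _ _).trans (hK i hx).2⟩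
    · refine h.trans ?_
      rintro _ ⟨x, hx, rfl⟩
      exact ⟨(hp _ _).symm.trans (hx _), (hp _ _).symm.trans (hx _)⟩
    · have h1 : Pushes X (D.ep τ (!s)) (D.ep τ s) (p x) := by
        have := hAh τ s hx
        simp only [Pushes, Set.mem_ofPred_eq, hp] at this
        exact this
      refine (hstep (p x) h1).imp_left fun h2 J _ _ A hA => hF _ h2 J A (hA.mono ?_)
      have : (K i).comap p ⊔ Subgroup.zpowers x ≤ (K i ⊔ Subgroup.zpowers (p x)).comap p := by
        refine sup_le (Subgroup.comap_mono le_sup_left) ?_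
        rw [Subgroup.zpowers_le]
        exact Subgroup.mem_sup_right (Subgroup.mem_zpowers _)
      exact fun y hy => this hy
  · obtain ⟨y⟩ := hX.1.connected.nonempty
    refine hV y J A (fun i j g _ => ?_) hu
    by_contra h
    obtain ⟨z', h1, -⟩ := tree_closer hX.1 (z := g • y) (a := y) h
    exact hE (hne _ _ h1)

lemma qq_of_le' {G P Δ : Type u} [Group G] [Group P] [Group Δ] (hP : PolyZ P)
    (f : Δ →* G × P) (hf : Injective f) (K₀ : Subgroup G) (hK₀ : QQ R K₀)
    (K : Subgroup Δ) (hK : ∀ x ∈ K, (f x).1 ∈ K₀) : QQ R K := by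
  refine (hK₀.prod_poly hP).sub
    ((((MonoidHom.fst _ _).comp (f.comp K.subtype)).codRestrict K₀ fun x => hK x x.2).prod
      ((MonoidHom.snd _ _).comp (f.comp K.subtype))) ?_
  intro x y hxy
  exact Subtype.ext (hf (Prod.ext (congrArg (fun z => (z.1 : G)) hxy)
    (congrArg (fun z => z.2) hxy)))

theorem ClassG.qq (hR : RegularRing R) {G : Type} [Group G] (hG : ClassG R G) : QQ R G := by
  induction hG with
  | pl G hPL hG => exact (pl_classD G hPL hG).qq hR
  | sub G H f hf _ ih => exact ih.sub f hf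
  | prod G P _ hP ih => exact ih.prod_poly hP
  | loc G _ ih =>
    intro P _ hP Δ _ f hf
    let p : Δ →* G := (MonoidHom.fst _ _).comp f
    refine G1_local fun Φ => ⟨(Subgroup.closure (p '' Φ)).comap p,
      fun x hx => Subgroup.subset_closure ⟨x, hx, rfl⟩, ?_⟩
    exact (qq_of_le' hP f hf _ (ih _ (fg_closure_image p Φ)) _ fun x hx => hx).g1
  | tree G V X hX F Z hT hZ _ _ ihV ihF =>
    intro P _ hP Δ _ f hf
    let p : Δ →* G := (MonoidHom.fst _ _).comp f
    let _ : MulAction Δ V := MulAction.compHom V p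
    have hV : ∀ y : V, G1 R (MulAction.stabilizer Δ y) := fun y =>
      (qq_of_le' hP f hf _ (ihV y) _ fun x hx => hx).g1
    rw [G1_iff]
    intro J _ _ A hu
    refine tree_main p (fun _ _ => rfl) hX hT (stdTS R Δ)
      (fun H hH J _ _ A hA hu => T_of_isUnit_msup _
        (qq_of_le' hP f hf _ (ihF H hH) _ fun x hx => hx).g1 hA hu) (fun K hK Q => ?_)
      (fun y J _ _ A hA hu => T_of_isUnit_msup _ (hV y) hA hu)
      (fun D _ => TB.splitT_std hV fun τ => ?_) hu
    · let g : K.comap p →* K × P :=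
        ((p.comp (K.comap p).subtype).codRestrict K fun x => x.2).prod
          ((MonoidHom.snd _ _).comp (f.comp (K.comap p).subtype))
      have hg : Injective g := fun x y hxy =>
        Subtype.ext (hf (Prod.ext (congrArg (fun z => (z.1 : G)) hxy)
          (congrArg (fun z => z.2) hxy)))
      let e := MonoidHom.ofInjective hg
      refine tameP_of_coherent _ Q ((K.comap p).subtype.comp e.symm.toMonoidHom)
        ((K.comap p).subtype_injective.comp e.symm.injective) (fun x hx => ⟨e ⟨x, hx⟩, ?_⟩)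
        (hZ K hK P hP g.range)
      simp
    · exact (qq_of_le' hP f hf _ (ihV (D.ep τ false)) (D.C τ) fun x hx => hx false).g0

section Rel

variable {G : Type u} [Group G] {V : Type u} [MulAction G V] {X : SimpleGraph V}
  {F : Set (Subgroup G)}

lemma RGen.submatrix {ι κ : Type} [Fintype ι] [DecidableEq ι] [Fintype κ] [DecidableEq κ]
    (e : κ ≃ ι) {M : Matrix ι ι (MonoidAlgebra R G)} (h : RGen R G X F ι M) :
    RGen R G X F κ (M.submatrix e e) := by
  cases h with
  | elem i j hij c =>
    have : (1 + single i j c : Matrix ι ι _).submatrix e e =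
        1 + single (e.symm i) (e.symm j) c := by
      rw [submatrix_add, Pi.add_apply, Pi.add_apply, submatrix_one_equiv,
        submatrix_single_equiv]
    rw [this]
    exact RGen.elem _ _ (fun h => hij (e.symm.injective h)) c
  | sub H hH M hM => exact RGen.sub H hH _ fun i j => hM (e i) (e j)
  | split a b z hab p A B hp hp' hA hB =>
    have : (p * A + (1 - p) * B).submatrix e e =
        p.submatrix e e * A.submatrix e e + (1 - p.submatrix e e) * B.submatrix e e := by
      rw [← submatrix_one_equiv e, submatrix_mul_equiv, sub_mul, sub_mul, submatrix_mul_equiv,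
        submatrix_mul_equiv]
      rfl
    rw [this]
    exact RGen.split (a ∘ e) (b ∘ e) (z ∘ e) (fun i => hab (e i)) _ _ _
      (by rw [submatrix_mul_equiv, hp]) (fun i j => hp' (e i) (e j)) (fun i j => hA (e i) (e j))
      fun i j => hB (e i) (e j)

lemma RGen.stab [Nonempty V] {ι κ : Type} [Fintype ι] [DecidableEq ι] [Fintype κ]
    [DecidableEq κ] {M : Matrix ι ι (MonoidAlgebra R G)} (h : RGen R G X F ι M) :
    RGen R G X F (ι ⊕ κ) (fromBlocks M 0 0 1) := by
  cases h with
  | elem i j hij c =>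
    have : fromBlocks (1 + single i j c : Matrix ι ι (MonoidAlgebra R G)) 0 0
        (1 : Matrix κ κ _) = 1 + single (Sum.inl i) (Sum.inl j) c := by
      ext1 a b
      rcases a with a | a <;> rcases b with b | b <;>
        simp [Matrix.one_apply, Matrix.single_apply]
    rw [this]
    exact RGen.elem _ _ (fun h => hij (Sum.inl_injective h)) c
  | sub H hH M hM =>
    exact RGen.sub H hH _ (MSup.fromBlocks (S := (H : Set G)) hM (msup_zero _) (msup_zero _)
      (msup_one H.one_mem))
  | split a b z hab p A B hp hp' hA hB =>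
    obtain ⟨y⟩ := ‹Nonempty V›
    have : fromBlocks (p * A + (1 - p) * B) 0 0 (1 : Matrix κ κ _) =
        fromBlocks p 0 0 0 * fromBlocks A 0 0 0 + (1 - fromBlocks p 0 0 0) * fromBlocks B 0 0 1 := by
      rw [sub_mul, one_mul, sub_eq_add_neg, sub_mul, one_mul, sub_eq_add_neg]
      simp [fromBlocks_multiply, fromBlocks_add, fromBlocks_neg]
    rw [this]
    refine RGen.split (Sum.elim a fun _ => y) (Sum.elim b fun _ => y) (Sum.elim z fun _ => y)
      ?_ _ _ _ (by simp [fromBlocks_multiply, hp]) ?_ ?_ ?_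
    · rintro (i | i)
      exacts [hab i, Or.inl rfl]
    · rintro (i | i) (j | j)
      · exact hp' i j
      all_goals simp
    · rintro (i | i) (j | j)
      · exact hA i j
      all_goals simp
    · rintro (i | i) (j | j)
      · exact hB i j
      · simp
      · simp
      · exact msup_one (S := {x : G | x • y = y}) (one_smul _ _) i j

variable (R X F) in
/-- The relative system of generators. -/
def relSys [Nonempty V] : GenSys (MonoidAlgebra R G) where
  gen ι _ _ M := ∃ N, M * N = 1 ∧ N * M = 1 ∧ (RGen R G X F ι M ∨ RGen R G X F ι N)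
  elem ι _ _ i j hij c := by
    obtain ⟨N, -, h1, h2⟩ := gen_inv (Gen.elem (R := R) (G := G) i j hij c)
    exact ⟨N, h1, h2, Or.inl (RGen.elem i j hij c)⟩
  inv := by
    rintro ι _ _ M ⟨N, h1, h2, h⟩
    exact ⟨N, ⟨M, h2, h1, h.symm⟩, h1, h2⟩
  sub := by
    rintro ι κ _ _ _ _ e M ⟨N, h1, h2, h⟩
    exact ⟨N.submatrix e e, by rw [submatrix_mul_equiv, h1, submatrix_one_equiv],
      by rw [submatrix_mul_equiv, h2, submatrix_one_equiv],
      h.imp (RGen.submatrix e) (RGen.submatrix e)⟩
  stab := by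
    rintro ι κ _ _ _ _ M ⟨N, h1, h2, h⟩
    exact ⟨fromBlocks N 0 0 1, by simp [fromBlocks_multiply, h1],
      by simp [fromBlocks_multiply, h2], h.imp RGen.stab RGen.stab⟩

theorem relOnto_of_tame (hX : TreeAction G X) {Z : Set (Subgroup G)} (hT : TameTree G X F Z)
    (hZ : ∀ K ∈ Z, RegularCoherent (MonoidAlgebra R K)) : RelOnto R G X F := by
  have : Nonempty V := hX.1.connected.nonempty
  have gen : ∀ (J : Type) [Fintype J] [DecidableEq J] (M : Matrix J J (MonoidAlgebra R G)),
      RGen R G X F J M → IsUnit M → (relSys R X F).toTS.T M := by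
    rintro J _ _ _ h ⟨u, rfl⟩
    exact GenSys.T_gen ⟨_, u.mul_inv, u.inv_mul, Or.inl h⟩
  intro n A B h1 h2
  obtain ⟨ι, _, _, hA⟩ := tree_main (MonoidHom.id G) (fun _ _ => rfl) hX hT (relSys R X F).toTS
    (fun H hH J _ _ A hA => gen J A (RGen.sub H hH A hA))
    (fun K hK P => tameP_of_coherent _ P K.subtype K.subtype_injective
      (fun x hx => ⟨⟨x, hx⟩, rfl⟩) (hZ K hK))
    (fun y J _ _ A hA => gen J A (by
      have := RGen.split (R := R) (X := X) (F := F) (fun _ : J => y) (fun _ => y) (fun _ => y)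
        (fun _ => Or.inl rfl) 1 A 0 (one_mul _)
        (msup_one (S := {x : G | x • y = y ∧ x • y = y}) ⟨one_smul _ _, one_smul _ _⟩) hA
        (by simp)
      simpa using this))
    (fun D hadj J _ _ e z Θ₀ Θ₁ ε h₀ h₁ hε hεε => gen J _ (RGen.split _ _ z
      (fun i => Or.inr (hadj (e i) true)) ε Θ₀ Θ₁ hεε (fun i j g hg => by
        obtain ⟨e1, e2⟩ := hε i j g hg
        rw [e1]; exact ⟨e2 _, e2 _⟩) h₀ h₁)) (A := A) ⟨⟨A, B, h1, h2⟩, rfl⟩
  exact ⟨Fintype.card ι, GenSys.stab_equiv (Fintype.equivFin ι).symm hA⟩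

end Rel

end Pool.Agent.MP_f7db47_al
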