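import Pool.Agent.MP_f7db47_al.ClassW
import Pool.Agent.MP_f7db47_al.TreeMain
import Pool.Agent.MP_f7db47_al.PT.Final

/-!
The class `W` satisfies the inductive property.
-/

namespace Pool.Agent.MP_f7db47_al

open Matrix Function

universe v

variable {R : Type v} [Ring R]

theorem ClassW.qq (hR : RegularRing R) {G : Type} [Group G] (hG : ClassW R G) : QQ R G := by
  induction hG with
  | ab G hc ht => exact PT.qq_ab hR hc ht
  | sub G H f hf _ ih => exact ih.sub f hf
  | prod G P _ hP ih => exact ih.prod_poly hP
  | loc G _ ih => exact PT.qq_loc ih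
  | trees G k V X hX ρ hfree _ ih => exact PT.qq_aut X hX ρ hfree ih
  | gl2 G A N hN hA f ht _ ih => exact PT.qq_gl2 hN hA f ht ih
  | tree G V X hX F Z hT hZ _ _ ihV ihF =>
    intro P _ hP Δ _ f hf
    let p : Δ →* G := (MonoidHom.fst _ _).comp f
    let _ : MulAction Δ V := MulAction.compHom V p
    have hV : ∀ y : V, G1 R (MulAction.stabilizer Δ y) := fun y =>
      (qq_of_le' hP f hf _ (ihV y) _ fun x hx => hx).g1
    rw [G1_iff]
    intro J _ _ A hu
    refine tree_main p (fun _ _ => rfl) hX hT (stdTS R Δ)
      (fun H hH J _ _ A hA hu => T_of_isUnit_msup _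
        (qq_of_le' hP f hf _ (ihF H hH) _ fun x hx => hx).g1 hA hu) (fun K hK Q => ?_)
      (fun y J _ _ A hA hu => T_of_isUnit_msup _ (hV y) hA hu)
      (fun D _ => TB.splitT_std hV fun τ => ?_) hu
    · let g : K.comap p →* K × P :=
        ((p.comp (K.comap p).subtype).codRestrict K fun x => x.2).prod
          ((MonoidHom.snd _ _).comp (f.comp (K.comap p).subtype))
      have hg : Injective g := fun x y hxy =>
        Subtype.ext (hf (Prod.ext (congrArg (fun z => (z.1 : G)) hxy)
          (congrArg (fun z => z.2) hxy)))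
      let e := MonoidHom.ofInjective hg
      refine tameP_of_coherent _ Q ((K.comap p).subtype.comp e.symm.toMonoidHom)
        ((K.comap p).subtype_injective.comp e.symm.injective) (fun x hx => ⟨e ⟨x, hx⟩, ?_⟩)
        (hZ K hK P hP g.range)
      simp
    · exact (qq_of_le' hP f hf _ (ihV (D.ep τ false)) (D.C τ) fun x hx => hx false).g0

end Pool.Agent.MP_f7db47_al
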