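import Pool.Agent.MP_f7db47_al.ClassX
import Pool.Agent.MP_f7db47_al.PT.Final
import Pool.Agent.MP_f7db47_al.PT.ZInt

/-!
The class `X` satisfies the inductive property.
-/

namespace Pool.Agent.MP_f7db47_al

open Matrix Function

universe u v

variable {R : Type v} [Ring R]

lemma G1_of_k1Onto {G : Type u} [Group G] (h : K1Onto R G) : G1 R G := by
  intro J _ _ A B h1 h2
  let e := (Fintype.equivFin J).symm
  obtain ⟨m, hm⟩ := h _ (A.submatrix e e) (B.submatrix e e)
    (by rw [submatrix_mul_equiv, h1, submatrix_one_equiv])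
    (by rw [submatrix_mul_equiv, h2, submatrix_one_equiv])
  exact T_of_submatrix e ⟨Fin m, inferInstance, inferInstance, hm⟩

lemma qq_base {G : Type} [Group G]
    (h : ∀ (P : Type) [Group P], PolyZ P → ∀ L : Subgroup (G × P), K1Onto R L) : QQ R G := by
  intro P _ hP Δ _ f hf J _ _ A B h1 h2
  let e := (MonoidHom.ofInjective hf).symm
  exact T_of_msup e.toMonoidHom e.injective (G1_of_k1Onto (h P hP f.range))
    (fun _ _ g _ => e.surjective g) (fun _ _ g _ => e.surjective g) h1 h2

theorem ClassX.qq (hR : RegularRing R) {G : Type} [Group G] (hG : ClassX R G) : QQ R G := by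
  induction hG with
  | ab G hc ht => exact PT.qq_ab hR hc ht
  | gl2Z A ev hA G ht => exact PT.qq_gl2Z hR ev hA G.subtype G.subtype_injective ht
  | base G h => exact qq_base h
  | sub G H f hf _ ih => exact ih.sub f hf
  | prod G P _ hP ih => exact ih.prod_poly hP
  | loc G _ ih => exact PT.qq_loc ih
  | tree G V X hX _ hE ih =>
    refine PT.qq_tame hX (F := ∅) (Z := {K | ∃ a b, X.Adj a b ∧
      K = MulAction.stabilizer G a ⊓ MulAction.stabilizer G b}) (fun a b hab => ?_) ?_ ih
      fun _ h => h.elim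
    · exact ⟨PUnit, fun _ => MulAction.stabilizer G a ⊓ MulAction.stabilizer G b,
        fun _ _ => False, ⟨fun i => ⟨i, fun _ h => h.elim⟩⟩, fun _ => le_rfl,
        fun M _ h => ⟨PUnit.unit, h⟩, fun _ => Or.inl ⟨a, b, hab, rfl⟩⟩
    · rintro _ ⟨a, b, hab, rfl⟩
      exact hE a b hab
  | abq G Q hQ f _ ih => exact PT.qq_abq hQ f ih
  | trees G k V X hX ρ hfree _ ih => exact PT.qq_aut X hX ρ hfree ih
  | gl2 G A N hN hA f ht _ ih => exact PT.qq_gl2 hN hA f ht ih
  | gl2F G K f _ _ ih ih' => exact PT.qq_gl2F f ih ih'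

end Pool.Agent.MP_f7db47_al
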