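import Pool.Agent.MP_f7db47_al.TameDefs

/-!
The class of groups for the theorem on products of trees and on linear groups.
-/

namespace Pool.Agent.MP_f7db47_al

universe v

/-- The class `Y` for the ring `R`. -/
inductive ClassY (R : Type v) [Ring R] : (G : Type) → [Group G] → Prop
  | ab (G : Type) [Group G] (hc : ∀ a b : G, a * b = b * a)
      (ht : ∀ g : G, IsOfFinOrder g → g = 1) : ClassY R G
  | gl2Z (A : Type) [CommRing A] [IsDomain A] (ev : A →+* ℤ)
      (hA : ∀ a : A, IsAlgebraic ℤ a → ∃ n : ℤ, a = n) (G : Subgroup (GL (Fin 2) A))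
      (ht : ∀ g : G, IsOfFinOrder g → g = 1) : ClassY R G
  | base (G : Type) [Group G]
      (h : ∀ (P : Type) [Group P], PolyZ P → ∀ L : Subgroup (G × P), K1Onto R L) : ClassY R G
  | sub (G H : Type) [Group G] [Group H] (f : G →* H) (hf : Function.Injective f)
      (hH : ClassY R H) : ClassY R G
  | prod (G P : Type) [Group G] [Group P] (hG : ClassY R G) (hP : PolyZ P) : ClassY R (G × P)
  | loc (G : Type) [Group G] (h : ∀ K : Subgroup G, K.FG → ClassY R K) : ClassY R G
  | tree (G : Type) [Group G] (V : Type) [MulAction G V] (X : SimpleGraph V)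
      (hX : TreeAction G X) (hV : ∀ v : V, ClassY R (MulAction.stabilizer G v))
      (hE : ∀ a b, X.Adj a b → ∀ (P : Type) [Group P], PolyZ P →
        ∀ L : Subgroup ((MulAction.stabilizer G a ⊓ MulAction.stabilizer G b : Subgroup G) × P),
          RegularCoherent (MonoidAlgebra R L)) : ClassY R G
  | abq (G Q : Type) [Group G] [CommGroup Q] (hQ : ∀ q : Q, IsOfFinOrder q → q = 1)
      (f : G →* Q) (h : ∀ H : Subgroup G, IsCyclic (H.map f) → ClassY R H) : ClassY R G
  | trees (G : Type) [Group G] (k : ℕ) (V : Fin k → Type) (X : ∀ i, SimpleGraph (V i))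
      (hX : ∀ i, (X i).IsTree) (ρ : ∀ i, G →* (X i ≃g X i))
      (hfree : ∀ g : G, (∀ i, ∃ v, ρ i (g ^ 2) v = v) → ∀ i, ρ i g = 1)
      (hab : ∀ H : Subgroup G, (∀ a ∈ H, ∀ b ∈ H, ∀ i, ρ i (a * b) = ρ i (b * a)) →
        ClassY R H) : ClassY R G
  | gln (G : Type) [Group G] (A : Type) [CommRing A] (N : ℕ) (hN : 0 < N) (hA : (N : A) = 0)
      (n : ℕ) (f : G →* GL (Fin n) A) (ht : ∀ g : G, IsOfFinOrder (f g) → f g = 1)
      (hab : ∀ H : Subgroup G, (∀ a ∈ H, ∀ b ∈ H, f (a * b) = f (b * a)) → ClassY R H) :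
      ClassY R G
  | glnF (G : Type) [Group G] (K : Type) [Field K] [CharZero K] (n : ℕ) (f : G →* GL (Fin n) K)
      (h : ∀ H : Subgroup G, (∀ g ∈ ⁅H, H⁆, IsAlgebraic ℤ (f g).val.trace) → ClassY R H) :
      ClassY R G

end Pool.Agent.MP_f7db47_al
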