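import Pool.Agent.MP_f7db47_al.ClassZ
import Pool.Agent.MP_f7db47_al.ClassXMain
import Pool.Agent.MP_f7db47_al.GF.BFin
import Pool.Agent.MP_f7db47_al.GS.GlA

/-!
The class `Z` satisfies the inductive property.
-/

namespace Pool.Agent.MP_f7db47_al

open Matrix Function

universe v

variable {R : Type v} [Ring R]

theorem ClassZ.qq (hR : RegularRing R) {G : Type} [Group G] (hG : ClassZ R G) : QQ R G := by
  induction hG with
  | ab G hc ht => exact PT.qq_ab hR hc ht
  | base G h => exact qq_base h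
  | sub G H f hf _ ih => exact ih.sub f hf
  | prod G P _ hP ih => exact ih.prod_poly hP
  | loc G _ ih => exact PT.qq_loc ih
  | tree G V X hX _ hE ih =>
    refine PT.qq_tame hX (F := ∅) (Z := {K | ∃ a b, X.Adj a b ∧
      K = MulAction.stabilizer G a ⊓ MulAction.stabilizer G b}) (fun a b hab => ?_) ?_ ih
      fun _ h => h.elim
    · exact ⟨PUnit, fun _ => MulAction.stabilizer G a ⊓ MulAction.stabilizer G b,
        fun _ _ => False, ⟨fun i => ⟨i, fun _ h => h.elim⟩⟩, fun _ => le_rfl,
        fun M _ h => ⟨PUnit.unit, h⟩, fun _ => Or.inl ⟨a, b, hab, rfl⟩⟩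
    · rintro _ ⟨a, b, hab, rfl⟩
      exact hE a b hab
  | trees G k V X hX ρ hfree _ ih => exact PT.qq_aut X hX ρ hfree ih
  | gln G A n f _ ih => exact GS.qq_glA GF.stB f ih

end Pool.Agent.MP_f7db47_al
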