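import Pool.Agent.MP_f7db47_al.TameDefs

/-!
Crossed products and the generators for the relative statement.
-/

namespace Pool.Agent.MP_f7db47_al

universe u w

/-- A crossed product: the ring `Λ` is the direct sum of the additive subgroups `𝒜 g`, the
grading is multiplicative and every `𝒜 g` contains a unit of `Λ`. -/
def Crossed {G : Type u} [Group G] {Λ : Type w} [Ring Λ] (𝒜 : G → AddSubgroup Λ) : Prop :=
  (∀ x : Λ, ∃! c : G →₀ Λ, (∀ g, c g ∈ 𝒜 g) ∧ (c.sum fun _ a => a) = x) ∧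
    (∀ g h a b, a ∈ 𝒜 g → b ∈ 𝒜 h → a * b ∈ 𝒜 (g * h)) ∧ ∀ g, ∃ a ∈ 𝒜 g, IsUnit a

/-- The sum of the components with degree in `S`. -/
def Deg {G : Type u} {Λ : Type w} [Ring Λ] (𝒜 : G → AddSubgroup Λ) (S : Set G) :
    AddSubgroup Λ :=
  AddSubgroup.closure {a | ∃ g ∈ S, a ∈ 𝒜 g}

/-- The subring generated by the components with degree in `K`. -/
def SubCross {G : Type u} [Group G] {Λ : Type w} [Ring Λ] (𝒜 : G → AddSubgroup Λ)
    (K : Subgroup G) : Subring Λ :=
  Subring.closure {a | ∃ g ∈ K, a ∈ 𝒜 g}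

/-- Elementary matrices, matrices with degrees in a member of `F`, and split matrices
`e A + (1 - e) B`: row `i` is labelled by an edge or vertex `(a i, b i)`, column `j` by a vertex
`z j`; the idempotent `e` preserves the row labels, `A` carries `z j` to `a i` and `B` carries
`z j` to `b i`. -/
inductive CGen {G : Type u} [Group G] {Λ : Type w} [Ring Λ] (𝒜 : G → AddSubgroup Λ)
    {V : Type u} [MulAction G V] (X : SimpleGraph V) (F : Set (Subgroup G)) (ι : Type)
    [Fintype ι] [DecidableEq ι] : Matrix ι ι Λ → Prop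
  | elem (i j : ι) (hij : i ≠ j) (c : Λ) : CGen 𝒜 X F ι (1 + Matrix.single i j c)
  | sub (H : Subgroup G) (hH : H ∈ F) (M : Matrix ι ι Λ) (hM : ∀ i j, M i j ∈ Deg 𝒜 H) :
      CGen 𝒜 X F ι M
  | split (a b z : ι → V) (hab : ∀ i, a i = b i ∨ X.Adj (a i) (b i)) (e A B : Matrix ι ι Λ)
      (he : e * e = e) (he' : ∀ i j, e i j ∈ Deg 𝒜 {g | g • a j = a i ∧ g • b j = b i})
      (hA : ∀ i j, A i j ∈ Deg 𝒜 {g | g • z j = a i})
      (hB : ∀ i j, B i j ∈ Deg 𝒜 {g | g • z j = b i}) :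
      CGen 𝒜 X F ι (e * A + (1 - e) * B)

/-- Every invertible matrix over `Λ` is, after stabilisation, a product of invertible
generators and inverses of invertible generators. -/
def CrossOnto {G : Type u} [Group G] {Λ : Type w} [Ring Λ] (𝒜 : G → AddSubgroup Λ)
    {V : Type u} [MulAction G V] (X : SimpleGraph V) (F : Set (Subgroup G)) : Prop :=
  ∀ (n : ℕ) (A B : Matrix (Fin n) (Fin n) Λ), A * B = 1 → B * A = 1 →
    ∃ m : ℕ, Matrix.fromBlocks A 0 0 (1 : Matrix (Fin m) (Fin m) Λ) ∈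
      Submonoid.closure {M | ∃ N, M * N = 1 ∧ N * M = 1 ∧
        (CGen 𝒜 X F (Fin n ⊕ Fin m) M ∨ CGen 𝒜 X F (Fin n ⊕ Fin m) N)}

end Pool.Agent.MP_f7db47_al
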