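import Pool.Agent.MP_f7db47_al.CrossDefs

/-!
Sanity check: a group ring graded through a surjection is a crossed product.
-/

namespace Pool.Agent.MP_f7db47_al

universe u v

/-- The elements of `R[Γ]` supported on the fibre over `g`. -/
def fibre (R : Type v) [Ring R] {Γ G : Type u} [Group Γ] [Group G] (p : Γ →* G) (g : G) :
    AddSubgroup (MonoidAlgebra R Γ) where
  carrier := {x | ∀ y, x.coeff y ≠ 0 → p y = g}
  zero_mem' y hy := absurd rfl hy
  add_mem' {a b} ha hb y hy := by
    by_contra h
    have h1 : a.coeff y = 0 := by by_contra h1; exact h (ha y h1)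
    have h2 : b.coeff y = 0 := by by_contra h2; exact h (hb y h2)
    exact hy (by simp [h1, h2])
  neg_mem' {a} ha y hy := ha y (by simpa using hy)

theorem crossed_fibre (R : Type v) [Ring R] {Γ G : Type u} [Group Γ] [Group G] (p : Γ →* G)
    (hp : Function.Surjective p) : Crossed (fibre R p) := by
  classical
  refine ⟨fun x => ?_, fun g h a b ha hb y hy => ?_, fun g => ?_⟩
  · have key : ∀ c : G →₀ MonoidAlgebra R Γ, (∀ g, c g ∈ fibre R p g) → ∀ y,
        (c.sum fun _ a => a).coeff y = (c (p y)).coeff y := by
      intro c hc y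
      rw [Finsupp.sum, MonoidAlgebra.coeff_sum, Finsupp.finsetSum_apply, Finset.sum_eq_single (p y)]
      · intro g _ hg
        by_contra h
        exact hg (hc g y h).symm
      · intro h
        rw [Finsupp.notMem_support_iff.1 h]; rfl
    let c : G →₀ MonoidAlgebra R Γ := Finsupp.onFinset (x.coeff.support.image p)
      (fun g => MonoidAlgebra.ofCoeff (x.coeff.filter fun y => p y = g)) fun g hg => by
        by_contra h
        refine hg (MonoidAlgebra.ext (Finsupp.ext fun y => ?_))
        simp only [Finsupp.filter_apply]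
        split_ifs with e
        · by_contra h0
          exact h (Finset.mem_image.2 ⟨y, Finsupp.mem_support_iff.2 h0, e⟩)
        · rfl
    have hc : ∀ g y, (c g).coeff y = if p y = g then x.coeff y else 0 := fun g y =>
      Finsupp.filter_apply _ _ _
    have hm : ∀ g, c g ∈ fibre R p g := fun g y hy => by
      by_contra h
      exact hy (by rw [hc, if_neg h])
    refine ⟨c, ⟨hm, MonoidAlgebra.ext (Finsupp.ext fun y => by rw [key c hm, hc, if_pos rfl])⟩, ?_⟩
    rintro d ⟨h1, h2⟩
    refine Finsupp.ext fun g => MonoidAlgebra.ext (Finsupp.ext fun y => ?_)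
    rw [hc]
    split_ifs with e
    · rw [← h2, key d h1, e]
    · by_contra h
      exact e (h1 g y h)
  · obtain ⟨s, hs, t, ht, rfl⟩ := Finset.mem_mul.1
      (MonoidAlgebra.support_coeff_mul_subset a b (Finsupp.mem_support_iff.2 hy))
    rw [map_mul, ha s (Finsupp.mem_support_iff.1 hs), hb t (Finsupp.mem_support_iff.1 ht)]
  · obtain ⟨y, rfl⟩ := hp g
    refine ⟨MonoidAlgebra.single y 1, fun z hz => ?_, (Group.isUnit y).map (MonoidAlgebra.of R Γ)⟩
    by_contra h
    exact hz (by rw [MonoidAlgebra.coeff_single, Finsupp.single_eq_of_ne fun e => h (by rw [e])])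

end Pool.Agent.MP_f7db47_al
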