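import Pool.Agent.Mg.Ff7db47.G00229f

namespace Pool.Agent.Results.MP_f7db47_al.FarrellJonesLow

open Pool.Agent.MP_f7db47_al

universe v

theorem result (R : Type v) [Ring R] (Φ : ℕ → AddSubgroup R) (h1 : (1 : R) ∈ Φ 0)
    (hmul : ∀ d e, ∀ x ∈ Φ d, ∀ y ∈ Φ e, x * y ∈ Φ (d + e)) (hmono : Monotone Φ)
    (A : Type) [CommRing A] (n : ℕ) (Γ : Type) [Group Γ] (p : Γ →* GL (Fin n) A)
    (U : Subgroup Γ) (hU : U ≤ p.ker) (hi : U.relIndex p.ker ≠ 0) (hs : Group.IsSolvable U)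
    (G : Type) [Group G] (f : G →* Γ) (V : Type) [MulAction G V]
    (hV : ∀ (B : Subgroup Γ) (φ : B →* Multiplicative ℤ), Finite φ.ker →
      ∃ v : V, ∀ g, f g ∈ B → g • v = v) : OB.K1Zero Φ G V :=
  haveI : OB.Flt Φ := ⟨h1, fun hx hy => hmul _ _ _ hx _ hy, hmono⟩
  OB.k1zero_fj Φ (VC.fj_slin p U hU hi hs) f hV

end Pool.Agent.Results.MP_f7db47_al.FarrellJonesLow
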