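import Pool.Agent.MP_f7db47_al.GrPr

/-!
Path nilpotent matrices over graded rings.
-/

set_option linter.unusedSectionVars false

namespace Pool.Agent.MP_f7db47_al

namespace Gr

open Matrix

universe u w x

variable {G : Type u} [Group G] {Λ : Type w} [Ring Λ] [GrS G Λ]
variable {I J : Type}

/-- Restriction of the support of a vector. -/
noncomputable def prv (S : Set G) (v : J → Λ) : J → Λ :=
  fun i => pr S (v i)

/-- A vector supported in `S`. -/
def VSup (S : Set G) (v : J → Λ) : Prop := ∀ i, Sup S (v i)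

lemma vsup_prv (S : Set G) (v : J → Λ) : VSup S (prv S v) :=
  fun i => sup_pr S (v i)

lemma prv_prv (S S' : Set G) (v : J → Λ) :
    prv S (prv S' v) = prv (S ∩ S') v := funext fun _ => pr_pr _ _ _

lemma prv_univ (v : J → Λ) : prv Set.univ v = v := funext fun _ => pr_univ _

lemma prv_zero (S : Set G) : prv S (0 : J → Λ) = 0 :=
  funext fun _ => map_zero (pr S)

lemma prv_add (S : Set G) (v w : J → Λ) : prv S (v + w) = prv S v + prv S w :=
  funext fun _ => map_add (pr S) _ _

lemma prv_vecMul_right [Fintype I] {S S₁ U : Set G} (v : I → Λ)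
    {B : Matrix I J Λ} (hB : MSup U B)
    (h : ∀ g, ∀ k ∈ U, g * k ∈ S ↔ g ∈ S₁) : prv S (v ᵥ* B) = prv S₁ v ᵥ* B := by
  funext j
  simp only [prv, vecMul, dotProduct, map_sum]
  exact Finset.sum_congr rfl fun k _ => pr_mul_right _ (hB k j) h

lemma prv_vecMul_left [Fintype I] {S S₁ U : Set G} {v : I → Λ}
    (B : Matrix I J Λ) (hv : VSup U v)
    (h : ∀ k ∈ U, ∀ g, k * g ∈ S ↔ g ∈ S₁) : prv S (v ᵥ* B) = v ᵥ* mpr S₁ B := by
  funext j
  simp only [prv, vecMul, dotProduct, map_sum, mpr, Matrix.map_apply]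
  exact Finset.sum_congr rfl fun k _ => pr_mul_left _ (hv k) h

lemma prv_single_smul (S : Set G) (g : G) {a : Λ} (ha : Sup {g} a) (v : J → Λ) :
    prv S (a • v) = a • prv {y | g * y ∈ S} v := by
  funext j
  simp only [prv, Pi.smul_apply, smul_eq_mul]
  refine pr_mul_left (U := {g}) _ ha ?_
  rintro k rfl y; rfl

lemma prv_smul {S U : Set G} (c : Λ) {v : J → Λ}
    (hv : VSup U v) (h : ∀ g, ∀ k ∈ U, g * k ∈ S ↔ g ∈ S) : prv S (c • v) = pr S c • v := by
  funext j
  simp only [prv, Pi.smul_apply, smul_eq_mul]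
  exact pr_mul_right _ (hv j) h

lemma exists_finset_vsup [Finite J] (v : J → Λ) :
    {g | ∃ i, cp (v i) g ≠ 0}.Finite := by
  have : {g | ∃ i, cp (v i) g ≠ 0} = ⋃ i, ((cp (v i)).support : Set G) := by
    ext g; simp
  rw [this]
  exact Set.finite_iUnion fun i => Finset.finite_toSet _

/-- Decomposition along left cosets. -/
lemma prv_induction [Finite J] (K : Subgroup G) {P : (J → Λ) → Prop}
    (h0 : P 0) (hadd : ∀ a b, P a → P b → P (a + b)) (v : J → Λ) {S : Set G}
    (hS : RInv K S) (h : ∀ g, (∃ i, cp (v i) g ≠ 0) → P (prv (lc g K) v)) : P (prv S v) := by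
  classical
  set s := (exists_finset_vsup v).toFinset with hs
  set c : Finset (G ⧸ K) := (s.image QuotientGroup.mk).filter fun q => q.out ∈ S with hc
  have hlc : ∀ (q : G ⧸ K) (g : G), g ∈ lc q.out K ↔ q = (g : G ⧸ K) := by
    intro q g
    rw [lc, Set.mem_ofPred_eq, ← QuotientGroup.eq, QuotientGroup.out_eq']
  have hout : ∀ g : G, (g : G ⧸ K).out ∈ S ↔ g ∈ S := by
    intro g
    obtain ⟨k, hk⟩ := QuotientGroup.mk_out_eq_mul K g
    rw [hk]; exact hS g k k.2
  have : prv S v = ∑ q ∈ c, prv (lc q.out K) v := by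
    funext i
    refine ext' fun g => ?_
    rw [Finset.sum_apply, map_sum, Finsupp.finsetSum_apply]
    simp only [prv, coeff_pr, hlc]
    rw [Finset.sum_ite_eq']
    by_cases h0 : cp (v i) g = 0
    · simp [h0]
    · have : (g : G ⧸ K) ∈ c ↔ g ∈ S := by
        rw [hc, Finset.mem_filter, hout]
        refine and_iff_right (Finset.mem_image_of_mem _ ?_)
        rw [hs, Set.Finite.mem_toFinset]; exact ⟨i, h0⟩
      by_cases hg : g ∈ S
      · rw [if_pos hg, if_pos (this.2 hg)]
      · rw [if_neg hg, if_neg fun h => hg (this.1 h)]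
  rw [this]
  refine Finset.sum_induction _ P hadd h0 fun q hq => ?_
  rw [hc, Finset.mem_filter, Finset.mem_image] at hq
  obtain ⟨⟨g, hg, rfl⟩, -⟩ := hq
  rw [hs, Set.Finite.mem_toFinset] at hg
  have : lc (g : G ⧸ K).out K = lc g K := by
    ext y
    rw [hlc, lc, Set.mem_ofPred_eq, QuotientGroup.eq]
  rw [this]
  exact h g hg

variable (Λ) in
/-- A finite filtration of the free module, graded by the left cosets of `K`. -/
structure Filt (K : Subgroup G) (J : Type) where
  V : ℕ → Submodule Λ (J → Λ)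
  k : ℕ
  zero : V 0 = ⊥
  top : V k = ⊤
  mono : Monotone V
  graded : ∀ j S, RInv K S → ∀ v ∈ V j, prv S v ∈ V j

variable [Fintype J] [DecidableEq J] {K : Subgroup G}

/-- `ν` lowers the filtration by `n`. -/
def Filt.Low (F : Filt Λ K J) (n : ℕ) (ν : Matrix J J Λ) : Prop :=
  ∀ j, ∀ v ∈ F.V (j + n), v ᵥ* ν ∈ F.V j

/-- Path nilpotent with respect to `K`. -/
def PN (K : Subgroup G) (ν : Matrix J J Λ) : Prop :=
  ∃ F : Filt Λ K J, F.Low 1 ν

namespace Filt

variable {F : Filt Λ K J} {n m : ℕ} {ν μ : Matrix J J Λ}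

lemma low_zero : F.Low n 0 := fun j v _ => by simp

lemma Low.add (h : F.Low n ν) (h' : F.Low n μ) : F.Low n (ν + μ) := fun j v hv => by
  rw [vecMul_add]; exact add_mem (h j v hv) (h' j v hv)

lemma Low.mul (h : F.Low n ν) (h' : F.Low m μ) : F.Low (m + n) (ν * μ) := fun j v hv => by
  rw [← vecMul_vecMul]
  exact h' j _ (h (j + m) v (by rwa [add_assoc]))

lemma Low.of_le (h : F.Low n ν) (hm : m ≤ n) : F.Low m ν := fun j v hv =>
  h j v (F.mono (by omega) hv)

lemma Low.eq_zero (h : F.Low n ν) (hn : F.k ≤ n) : ν = 0 := by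
  ext1 i j
  have : Pi.single i 1 ᵥ* ν ∈ F.V 0 :=
    h 0 _ (F.mono (by omega : F.k ≤ 0 + n) (by rw [F.top]; trivial))
  rw [F.zero, Submodule.mem_bot] at this
  simpa using congrFun this j

lemma Low.pow (h : F.Low 1 ν) (n : ℕ) : F.Low n (ν ^ n) := by
  induction n with
  | zero => intro j v hv; simpa using hv
  | succ n ih => rw [pow_succ']; exact h.mul ih

lemma low_sum {ι : Type*} (s : Finset ι) (f : ι → Matrix J J Λ)
    (h : ∀ i ∈ s, F.Low n (f i)) : F.Low n (∑ i ∈ s, f i) :=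
  Finset.sum_induction f (F.Low n) (fun _ _ => Low.add) low_zero h

lemma Low.mpr (h : F.Low n ν) {σ : Set G} (hl : ∀ k ∈ K, ∀ g, k * g ∈ σ ↔ g ∈ σ)
    (hr : RInv K σ) : F.Low n (mpr σ ν) := by
  intro j v hv
  rw [← prv_univ v]
  refine prv_induction K (P := fun z => z ᵥ* Pool.Agent.MP_f7db47_al.Gr.mpr σ ν ∈ F.V j)
    (by simp) (fun a b ha hb => by rw [add_vecMul]; exact add_mem ha hb) v (rinv_univ K)
    fun g _ => ?_
  rw [← prv_vecMul_left (S := {y | g⁻¹ * y ∈ σ}) ν (vsup_prv _ v)]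
  · exact F.graded _ _ (hr.left _) _ (h j _ (F.graded _ _ (rinv_lc g K) v hv))
  · intro k hk y
    simp only [Set.mem_ofPred_eq, ← mul_assoc]
    exact hl _ hk y

end Filt

/-- Path nilpotency only depends on finitely many elements of `K`. -/
lemma PN.refine {ν : Matrix J J Λ} (h : PN K ν) :
    ∃ Φ : Finset G, (Φ : Set G) ⊆ K ∧ ∀ K₂ : Subgroup G, (Φ : Set G) ⊆ K₂ → PN K₂ ν := by
  obtain ⟨F, hF⟩ := h
  let W : ℕ → Set (J → Λ) := fun m => Nat.rec
    (Set.range fun i => Pi.single i 1)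
    (fun _ Wm => ⋃ w ∈ Wm, (fun g => (un' g : Λ) • prv (lc g K) (w ᵥ* ν)) ''
      {g | ∃ i, cp ((w ᵥ* ν) i) g ≠ 0}) m
  have hW0 : W 0 = Set.range fun i => Pi.single i 1 := rfl
  have hWs : ∀ m, W (m + 1) = ⋃ w ∈ W m,
      (fun g => (un' g : Λ) • prv (lc g K) (w ᵥ* ν)) ''
      {g | ∃ i, cp ((w ᵥ* ν) i) g ≠ 0} := fun _ => rfl
  have hfin : ∀ m, (W m).Finite := by
    intro m
    induction m with
    | zero => exact Set.finite_range _
    | succ m ih => exact ih.biUnion fun w _ => (exists_finset_vsup _).image _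
  have hsup : ∀ m, ∀ w ∈ W m, VSup (K : Set G) w := by
    intro m w hw
    cases m with
    | zero =>
      obtain ⟨i, rfl⟩ := hw
      intro j
      by_cases hij : j = i
      · subst hij; simpa using sup_one K.one_mem
      · simpa [Pi.single_eq_of_ne hij] using sup_zero _
    | succ m =>
      rw [hWs] at hw
      simp only [Set.mem_iUnion] at hw
      obtain ⟨w, -, g, -, rfl⟩ := hw
      intro j
      refine (sup_un' g).mul (vsup_prv (lc g K) _ j) ?_
      rintro a rfl b hb; exact hb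
  have hV : ∀ m j, F.k ≤ m + j → ∀ w ∈ W m, w ∈ F.V j := by
    intro m
    induction m with
    | zero => intro j hj w _; exact F.mono (by omega : F.k ≤ j) (by rw [F.top]; trivial)
    | succ m ih =>
      intro j hj w hw
      rw [hWs] at hw
      simp only [Set.mem_iUnion] at hw
      obtain ⟨w, hw, g, -, rfl⟩ := hw
      exact Submodule.smul_mem _ _ (F.graded _ _ (rinv_lc g K) _
        (hF j w (ih (j + 1) (by omega) w hw)))
  have hΦ : (⋃ m ≤ F.k, ⋃ w ∈ W m, {g | ∃ i, cp (w i) g ≠ 0}).Finite :=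
    (Set.finite_le_nat _).biUnion fun m _ => (hfin m).biUnion fun w _ => exists_finset_vsup w
  refine ⟨hΦ.toFinset, ?_, fun K₂ hK₂ => ?_⟩
  · intro g hg
    simp only [Set.Finite.coe_toFinset, Set.mem_iUnion] at hg
    obtain ⟨m, -, w, hw, i, hi⟩ := hg
    exact hsup m w hw i g hi
  have hsup₂ : ∀ m ≤ F.k, ∀ w ∈ W m, VSup (K₂ : Set G) w := by
    intro m hm w hw i g hg
    apply hK₂
    simp only [Set.Finite.coe_toFinset, Set.mem_iUnion]
    exact ⟨m, hm, w, hw, i, hg⟩
  let V' : ℕ → Submodule Λ (J → Λ) := fun j =>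
    Submodule.span _ {w | ∃ m, F.k ≤ m + j ∧ m ≤ F.k ∧ w ∈ W m}
  refine ⟨⟨V', F.k, ?_, ?_, ?_, ?_⟩, ?_⟩
  · rw [Submodule.span_eq_bot]
    rintro w ⟨m, hm, -, hw⟩
    have := hV m 0 hm w hw
    rwa [F.zero, Submodule.mem_bot] at this
  · rw [eq_top_iff, ← (Pi.basisFun Λ J).span_eq]
    apply Submodule.span_mono
    rintro _ ⟨i, rfl⟩
    exact ⟨0, by omega, by omega, i, by simp⟩
  · intro a b hab
    apply Submodule.span_mono
    rintro w ⟨m, h1, h2, hw⟩
    exact ⟨m, by omega, h2, hw⟩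
  · intro j S hS v hv
    have : ∀ c : Λ, prv S (c • v) ∈ V' j := by
      induction hv using Submodule.span_induction with
      | mem w hw =>
        intro c
        obtain ⟨m, h1, h2, hw'⟩ := hw
        rw [prv_smul c (hsup₂ m h2 w hw') hS]
        exact Submodule.smul_mem _ _ (Submodule.subset_span ⟨m, h1, h2, hw'⟩)
      | zero => intro c; rw [smul_zero, prv_zero]; exact zero_mem _
      | add a b _ _ ha hb => intro c; rw [smul_add, prv_add]; exact add_mem (ha c) (hb c)
      | smul d a _ ha => intro c; rw [smul_smul]; exact ha _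
    simpa using this 1
  · intro j v hv
    change v ∈ V' (j + 1) at hv
    change v ᵥ* ν ∈ V' j
    induction hv using Submodule.span_induction with
    | mem w hw =>
      obtain ⟨m, h1, h2, hw⟩ := hw
      by_cases hm : m = F.k
      · have := hV m 0 (by omega) w hw
        rw [F.zero, Submodule.mem_bot] at this
        rw [this, zero_vecMul]; exact zero_mem _
      · rw [← prv_univ (w ᵥ* ν)]
        refine prv_induction K (P := fun z => z ∈ V' j) (zero_mem _)
          (fun a b ha hb => add_mem ha hb) _ (rinv_univ K) fun g hg => ?_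
        have : prv (lc g K) (w ᵥ* ν) = (un g : Λ) •
            ((un' g : Λ) • prv (lc g K) (w ᵥ* ν)) := by
          rw [smul_smul, un_mul_un', one_smul]
        rw [this]
        refine Submodule.smul_mem _ _ (Submodule.subset_span ⟨m + 1, by omega, by omega, ?_⟩)
        rw [hWs]
        simp only [Set.mem_iUnion]
        exact ⟨w, hw, g, hg, rfl⟩
    | zero => rw [zero_vecMul]; exact zero_mem _
    | add a b _ _ ha hb => rw [add_vecMul]; exact add_mem ha hb
    | smul d a _ ha => rw [smul_vecMul]; exact Submodule.smul_mem _ _ ha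

lemma Filt.Low.geom {F : Filt Λ K J} {β : Matrix J J Λ} (h : F.Low 1 β)
    {P : Set G} (hP : ∀ a ∈ P, ∀ b ∈ P, a * b ∈ P) (hβ : MSup P β) :
    ∃ γ, MSup P γ ∧ F.Low 1 γ ∧ (1 - β) * (1 + γ) = 1 ∧ (1 + γ) * (1 - β) = 1 := by
  have hpow : ∀ n : ℕ, MSup P (β ^ (n + 1)) := by
    intro n
    induction n with
    | zero => simpa using hβ
    | succ n ih => rw [pow_succ]; exact ih.mul hβ hP
  have h0 : β ^ (F.k + 1) = 0 := (h.pow _).eq_zero (by omega)
  have hs : 1 + ∑ j ∈ Finset.range F.k, β ^ (j + 1) = ∑ j ∈ Finset.range (F.k + 1), β ^ j := by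
    rw [Finset.sum_range_succ', pow_zero, add_comm]
  refine ⟨∑ j ∈ Finset.range F.k, β ^ (j + 1), msup_sum _ _ fun j _ => hpow j,
    Filt.low_sum _ _ fun j _ => (h.pow _).of_le (by omega), ?_, ?_⟩
  · rw [hs, mul_neg_geom_sum, h0, sub_zero]
  · rw [hs, geom_sum_mul_neg, h0, sub_zero]

/-- Cyclic shift preserves path nilpotency. -/
lemma PN.shift {L : Type} [Fintype L] [DecidableEq L] {a b : G}
    {X : Matrix J L Λ} {Y : Matrix L J Λ}
    (hX : MSup {y | y * a⁻¹ ∈ K} X) (hY : MSup {y | b⁻¹ * y ∈ K} Y) (h : PN K (X * Y)) :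
    PN (kstar K a b) (Y * X) := by
  obtain ⟨F, hF⟩ := h
  let U : ℕ → Submodule Λ (L → Λ) := fun j =>
    { carrier := {w | ∀ S, RInv (kstar K a b) S → prv S w ᵥ* Y ∈ F.V j}
      zero_mem' := fun S _ => by rw [prv_zero, zero_vecMul]; exact zero_mem _
      add_mem' := fun {x y} hx hy S hS => by
        rw [prv_add, add_vecMul]; exact add_mem (hx S hS) (hy S hS)
      smul_mem' := fun c w hw S hS => by
        refine (sup_univ c).induction (P := fun c => prv S (c • w) ᵥ* Y ∈ F.V j)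
          (by rw [zero_smul, prv_zero, zero_vecMul]; exact zero_mem _)
          (fun x y hx hy => by rw [add_smul, prv_add, add_vecMul]; exact add_mem hx hy)
          fun g _ r hr => ?_
        rw [prv_single_smul _ g hr, smul_vecMul]
        exact Submodule.smul_mem _ _ (hw _ (hS.left g)) }
  have hU : ∀ j w, w ∈ U j ↔ ∀ S, RInv (kstar K a b) S → prv S w ᵥ* Y ∈ F.V j :=
    fun _ _ => Iff.rfl
  let V' : ℕ → Submodule Λ (L → Λ) := fun j =>
    Nat.casesOn j ⊥ U
  refine ⟨⟨V', F.k + 1, rfl, ?_, ?_, ?_⟩, ?_⟩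
  · rw [eq_top_iff]
    intro w _ S _
    rw [F.top]; trivial
  · refine monotone_nat_of_le_succ fun j => ?_
    cases j with
    | zero => exact bot_le
    | succ j => exact fun w hw S hS => F.mono (Nat.le_succ j) (hw S hS)
  · intro j S hS w hw
    cases j with
    | zero =>
      change w ∈ (⊥ : Submodule _ _) at hw
      rw [Submodule.mem_bot] at hw
      rw [hw, prv_zero]; exact zero_mem _
    | succ j =>
      intro S' hS'
      rw [prv_prv]; exact hw _ (hS'.inter hS)
  · intro j w hw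
    have hu : w ᵥ* Y ∈ F.V j := by
      have := hw Set.univ (rinv_univ _)
      rwa [prv_univ] at this
    rw [← vecMul_vecMul]
    cases j with
    | zero =>
      rw [F.zero, Submodule.mem_bot] at hu
      rw [hu, zero_vecMul]; exact zero_mem _
    | succ j =>
      intro S hS
      refine prv_induction (kstar K a b) (P := fun z => z ᵥ* Y ∈ F.V j) (by simp)
        (fun x y hx hy => by rw [add_vecMul]; exact add_mem hx hy) _ hS fun g _ => ?_
      have e1 : prv {y | a * (g⁻¹ * y) * a⁻¹ ∈ K} (w ᵥ* Y ᵥ* X) =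
          prv (lc (g * a⁻¹) K) (w ᵥ* Y) ᵥ* X := by
        refine prv_vecMul_right _ hX fun y k hk => ?_
        simp only [Set.mem_ofPred_eq, lc] at hk ⊢
        have : a * (g⁻¹ * (y * k)) * a⁻¹ = ((g * a⁻¹)⁻¹ * y) * (k * a⁻¹) := by group
        rw [this]; exact K.mul_mem_cancel_right hk
      have e2 : ∀ z : L → Λ, prv (lc (g * b) K) (z ᵥ* Y) =
          prv {y | b⁻¹ * (g⁻¹ * y) * b ∈ K} z ᵥ* Y := by
        intro z
        refine prv_vecMul_right _ hY fun y k hk => ?_
        simp only [Set.mem_ofPred_eq, lc] at hk ⊢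
        have : (g * b)⁻¹ * (y * k) = (b⁻¹ * (g⁻¹ * y) * b) * (b⁻¹ * k) := by group
        rw [this]; exact K.mul_mem_cancel_right hk
      have e3 : lc g (kstar K a b) =
          {y | b⁻¹ * (g⁻¹ * y) * b ∈ K} ∩ {y | a * (g⁻¹ * y) * a⁻¹ ∈ K} := by
        ext y; exact and_comm
      rw [e3, ← prv_prv, ← e2, e1, vecMul_vecMul]
      exact F.graded _ _ (rinv_lc _ K) _ (hF j _ (F.graded _ _ (rinv_lc _ K) _ hu))

/-- Factorisation of a matrix supported on one double coset. -/
lemma exists_factor {a b : G} {β : Matrix J J Λ} (hβ : MSup (dc K (a * b)) β) :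
    ∃ (L : Type) (_ : Fintype L) (_ : DecidableEq L) (X : Matrix J L Λ)
      (Y : Matrix L J Λ),
      MSup {y | y * a⁻¹ ∈ K} X ∧ MSup {y | b⁻¹ * y ∈ K} Y ∧ X * Y = β := by
  classical
  obtain ⟨s, hs, hs'⟩ := exists_finset_msup β
  let e : Fin s.card → G := fun i => (s.equivFin.symm i : G)
  have he : ∀ i, e i ∈ dc K (a * b) := fun i => hs' _ hβ (s.equivFin.symm i).2
  choose k hk k' hk' hkk using he
  refine ⟨J × Fin s.card, inferInstance, inferInstance,
    fun i p => if i = p.1 then un (k p.2 * a) else 0,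
    fun p j => un' (k p.2 * a) * cp (β p.1 j) (e p.2), ?_, ?_, ?_⟩
  · intro i p
    dsimp only
    split_ifs
    · exact (sup_un _).of_mem (by simpa using hk p.2)
    · exact sup_zero _
  · intro p j
    refine (sup_un' _).mul (sup_cp _ _) ?_
    rintro _ rfl _ rfl
    have : b⁻¹ * ((k p.2 * a)⁻¹ * e p.2) = k' p.2 := by rw [hkk p.2]; group
    rw [Set.mem_ofPred_eq, this]; exact hk' p.2
  · ext1 i j
    rw [Matrix.mul_apply, Fintype.sum_prod_type, Finset.sum_eq_single i]
    · simp only [if_true, ← mul_assoc, un_mul_un', one_mul]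
      rw [← Equiv.sum_comp s.equivFin]
      simp only [e, Equiv.symm_apply_apply]
      rw [Finset.sum_coe_sort s fun g => cp (β i j) g]
      exact sum_cp (hs i j)
    · intro i' _ hi'
      simp [Ne.symm hi']
    · simp

/-- Elimination: reduction to a single double coset. -/
lemma lazardS (S : TS Λ) (F : Filt Λ K J) {P : Set G} (hP : ∀ a ∈ P, ∀ b ∈ P, a * b ∈ P)
    (hsingle : ∀ x ∈ P, ∀ β : Matrix J J Λ, MSup (dc K x) β → F.Low 1 β →
      S.T (1 - β))
    {ν : Matrix J J Λ} (hν : MSup P ν) (hl : F.Low 1 ν) : S.T (1 - ν) := by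
  classical
  have main : ∀ m n : ℕ, F.k ≤ n + m → ∀ ν : Matrix J J Λ, MSup P ν →
      F.Low (n + 1) ν → S.T (1 - ν) := by
    intro m
    induction m with
    | zero =>
      intro n hn ν _ hl
      rw [hl.eq_zero (by omega), sub_zero]; exact S.one
    | succ m ih =>
      intro n hn
      have inner : ∀ s : Finset G, (s : Set G) ⊆ P → ∀ ρ μ : Matrix J J Λ,
          MSup P ρ → MSup {y | ∃ x ∈ s, y ∈ dc K x} ρ → F.Low (n + 1) ρ → MSup P μ →
          F.Low (n + 1 + 1) μ → S.T (1 - (ρ + μ)) := by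
        intro s
        induction s using Finset.induction_on with
        | empty =>
          intro _ ρ μ _ hρ _ hμ hlμ
          rw [hρ.eq_zero (msup_univ ρ) (by simp), zero_add]
          exact ih (n + 1) (by omega) μ hμ hlμ
        | insert x s hx ihs =>
          intro hs ρ μ hρP hρ hlρ hμ hlμ
          have hxP : x ∈ P := hs (by simp)
          set β := mpr (dc K x) ρ with hβ
          set ρ' := mpr (dc K x)ᶜ ρ with hρ'
          have hsum : ρ = β + ρ' := (mpr_add_mpr_compl _ _).symm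
          have hlβ : F.Low (n + 1) β := hlρ.mpr (dc_left K x) (dc_right K x)
          have hlρ' : F.Low (n + 1) ρ' := hlρ.mpr
            (fun k hk g => not_congr (dc_left K x k hk g))
            (fun g k hk => not_congr (dc_right K x g k hk))
          obtain ⟨γ, hγ, hlγ, hinv, -⟩ := (hlβ.of_le (by omega : 1 ≤ n + 1)).geom hP hρP.mpr
          have hT := ihs (fun y hy => hs (by simp [Finset.mem_coe.1 hy])) ρ' (μ + γ * (ρ' + μ))
            hρP.mpr ?_ hlρ' (hμ.add (hγ.mul (hρP.mpr.add hμ) hP))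
            (hlμ.add (hlγ.mul (hlρ'.add (hlμ.of_le (by omega)))))
          · have := S.mul (hsingle x hxP β (msup_mpr _ _) (hlβ.of_le (by omega))) hT
            convert this using 1
            have e : (1 - β) * (1 - (ρ' + (μ + γ * (ρ' + μ)))) =
                (1 - β) - (1 - β) * (1 + γ) * (ρ' + μ) := by noncomm_ring
            rw [e, hinv, one_mul]
            conv_lhs => rw [hsum]
            abel
          · intro i j g hg
            obtain ⟨y, hy, hgy⟩ := hρ.mpr i j g hg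
            have h2 : g ∉ dc K x := msup_mpr _ _ i j g hg
            rw [Finset.mem_insert] at hy
            rcases hy with rfl | hy
            · exact absurd hgy h2
            · exact ⟨y, hy, hgy⟩
      intro ν hν hl
      obtain ⟨s, hs, hs'⟩ := exists_finset_msup ν
      have := inner s (hs' P hν) ν 0 hν (hs.mono fun y hy => ⟨y, hy, mem_dc K y⟩) hl
        (msup_zero _) Filt.low_zero
      rwa [add_zero] at this
  exact main F.k 0 (by omega) ν hν hl

variable (S : TS Λ)

/-- All invertible matrices supported on `H` are trivial. -/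
def TermS (H : Subgroup G) : Prop :=
  ∀ (J : Type) [Fintype J] [DecidableEq J] (A : Matrix J J Λ),
    MSup (H : Set G) A → IsUnit A → S.T A

/-- All `P`-supported `K`-path nilpotent matrices give trivial unipotent matrices. -/
def TameP (P : Set G) (K : Subgroup G) : Prop :=
  ∀ (J : Type) [Fintype J] [DecidableEq J] (ν : Matrix J J Λ),
    MSup P ν → PN K ν → S.T (1 - ν)

/-- Finite subsets of `C` lie in tame subgroups. -/
def CoverP (P : Set G) (C : Subgroup G) : Prop :=
  ∀ Φ : Finset G, (Φ : Set G) ⊆ C → ∃ K₂ : Subgroup G, (Φ : Set G) ⊆ K₂ ∧ TameP S P K₂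

variable {S}

lemma CoverP.tame {P : Set G} {C : Subgroup G} (h : CoverP S P C) : TameP S P C := by
  intro J _ _ ν hν hn
  obtain ⟨Φ, hΦ, hΦ'⟩ := hn.refine
  obtain ⟨K₂, hK₂, hT⟩ := h Φ hΦ
  exact hT J ν hν (hΦ' K₂ hK₂)

theorem tameP_step {P : Set G} (hP : ∀ a ∈ P, ∀ b ∈ P, a * b ∈ P)
    (hl : ∀ k ∈ K, ∀ x ∈ P, k * x ∈ P) (hr : ∀ k ∈ K, ∀ x ∈ P, x * k ∈ P)
    (h : ∀ x ∈ P, TermS S (K ⊔ Subgroup.zpowers x) ∨ CoverP S P (kstar K 1 x) ∨
      CoverP S P (kstar K x 1)) : TameP S P K := by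
  rintro J _ _ ν hν ⟨F, hF⟩
  refine lazardS S F hP (fun x hx β hβ hlow => ?_) hν hF
  rcases h x hx with h | h | h
  · obtain ⟨γ, -, -, h1, h2⟩ := hlow.geom (P := Set.univ) (fun _ _ _ _ => trivial) (msup_univ β)
    refine h _ _ ((msup_one (Subgroup.one_mem _)).sub (hβ.mono ?_)) ⟨⟨_, _, h1, h2⟩, rfl⟩
    rintro _ ⟨k, hk, k', hk', rfl⟩
    exact Subgroup.mul_mem _ (Subgroup.mul_mem _ (Subgroup.mem_sup_left hk)
      (Subgroup.mem_sup_right (Subgroup.mem_zpowers x))) (Subgroup.mem_sup_left hk')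
  · obtain ⟨L, _, _, X, Y, hX, hY, rfl⟩ := exists_factor (a := 1) (b := x) (by simpa using hβ)
    refine S.comm X Y (h.tame L _ (hY.mul hX fun y hy z hz => ?_) (PN.shift hX hY ⟨F, hlow⟩))
    have := hr _ (K.mul_mem hy hz) x hx
    simpa [mul_assoc] using this
  · obtain ⟨L, _, _, X, Y, hX, hY, rfl⟩ := exists_factor (a := x) (b := 1) (by simpa using hβ)
    refine S.comm X Y (h.tame L _ (hY.mul hX fun y hy z hz => ?_) (PN.shift hX hY ⟨F, hlow⟩))
    have := hl _ (K.mul_mem hy hz) x hx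
    simpa [mul_assoc] using this

/-- The well founded family version, pulled back along a homomorphism. -/
theorem coverP_of_family {G₀ : Type u} [Group G₀] (p : G →* G₀) {P : Set G} {C : Subgroup G}
    (hP : ∀ a ∈ P, ∀ b ∈ P, a * b ∈ P)
    (hl : ∀ k ∈ C, ∀ x ∈ P, k * x ∈ P) (hr : ∀ k ∈ C, ∀ x ∈ P, x * k ∈ P)
    {ι : Type u} (K : ι → Subgroup G₀) (r : ι → ι → Prop) (hwf : WellFounded r)
    (hK : ∀ i, (K i).comap p ≤ C)
    (hcover : ∀ M : Subgroup G₀, M.FG → M ≤ C.map p → ∃ i, M ≤ K i)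
    (hstep : ∀ i, TameP S P ((K i).comap p) ∨ ∀ x ∈ P,
      TermS S ((K i).comap p ⊔ Subgroup.zpowers x) ∨ Drops K r i (p x) ∨ Drops K r i (p x)⁻¹) :
    CoverP S P C := by
  have fg : ∀ Φ : Finset G, (Subgroup.closure (p '' Φ)).FG := fun Φ =>
    (Subgroup.fg_iff _).2 ⟨_, rfl, (Finset.finite_toSet Φ).image p⟩
  have tame : ∀ i, TameP S P ((K i).comap p) := by
    intro i
    induction i using hwf.induction with
    | _ i ih =>
    refine (hstep i).elim id fun hstep => ?_
    refine tameP_step hP (fun k hk => hl k (hK i hk)) (fun k hk => hr k (hK i hk)) fun x hx => ?_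
    rcases hstep x hx with h1 | h1 | h1
    · exact Or.inl h1
    · refine Or.inr (Or.inl fun Φ hΦ => ?_)
      obtain ⟨j, hj, hM⟩ := h1 _ (fg Φ) (by
        rw [Subgroup.closure_le]
        rintro _ ⟨y, hy, rfl⟩
        obtain ⟨e1, e2⟩ := hΦ hy
        exact ⟨by simpa using e1, p (x⁻¹ * y * x), e2, by simp [mul_assoc]⟩)
      exact ⟨_, fun y hy => hM (Subgroup.subset_closure ⟨y, hy, rfl⟩), ih j hj⟩
    · refine Or.inr (Or.inr fun Φ hΦ => ?_)
      obtain ⟨j, hj, hM⟩ := h1 _ (fg Φ) (by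
        rw [Subgroup.closure_le]
        rintro _ ⟨y, hy, rfl⟩
        obtain ⟨e1, e2⟩ := hΦ hy
        exact ⟨by simpa using e2, p (x * y * x⁻¹), e1, by simp [mul_assoc]⟩)
      exact ⟨_, fun y hy => hM (Subgroup.subset_closure ⟨y, hy, rfl⟩), ih j hj⟩
  intro Φ hΦ
  obtain ⟨i, hi⟩ := hcover _ (fg Φ) (by
    rw [Subgroup.closure_le]
    rintro _ ⟨y, hy, rfl⟩
    exact ⟨y, hΦ hy, rfl⟩)
  exact ⟨_, fun y hy => hi (Subgroup.subset_closure ⟨y, hy, rfl⟩), tame i⟩


end Gr

end Pool.Agent.MP_f7db47_al
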