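import Pool.Agent.MP_f7db47_al.Coh
import Pool.Agent.MP_f7db47_al.GrNil

/-!
Nil terms over a regular coherent graded subring vanish.
-/

set_option linter.unusedSectionVars false

namespace Pool.Agent.MP_f7db47_al

namespace Gr

open Matrix Function

universe u w x

variable {G : Type u} [Group G] {Λ : Type x} [Ring Λ] [GrS G Λ]

open Classical in
/-- The coordinates with respect to the basis of units. -/
noncomputable def coord {K : Subgroup G} {L : Subring Λ} (hL : ∀ x, x ∈ L ↔ Sup (K : Set G) x) :
    Λ →+ (G ⧸ K →₀ L) :=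
  AddMonoidHom.mk' (fun s => Finsupp.onFinset ((cp s).support.image QuotientGroup.mk)
    (fun q => ⟨pr (K : Set G) (un' q.out * s), (hL _).2 (sup_pr _ _)⟩) fun q hq => by
      by_contra h
      refine hq (Subtype.ext (Sup.pr_eq_zero (U := (K : Set G)ᶜ) ?_ fun g hg => hg))
      refine (sup_un' q.out).mul (S' := ((cp s).support : Set G))
        (fun g hg => Finsupp.mem_support_iff.2 hg) ?_
      rintro _ rfl b hb hk
      exact h (Finset.mem_image.2 ⟨b, hb, by
        rw [← QuotientGroup.out_eq' q]; exact (QuotientGroup.eq.2 hk).symm⟩))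
    fun a b => Finsupp.ext fun q => Subtype.ext (by simp [mul_add])

lemma coord_apply {K : Subgroup G} {L : Subring Λ} (hL : ∀ x, x ∈ L ↔ Sup (K : Set G) x)
    (s : Λ) (q : G ⧸ K) : (coord hL s q : Λ) = pr (K : Set G) (un' q.out * s) := rfl

lemma coord_single {K : Subgroup G} {L : Subring Λ} (hL : ∀ x, x ∈ L ↔ Sup (K : Set G) x)
    (q : G ⧸ K) (l : L) : coord hL (un q.out * l) = Finsupp.single q l := by
  classical
  refine Finsupp.ext fun q' => Subtype.ext ?_
  rw [coord_apply, Finsupp.single_apply]
  split_ifs with h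
  · subst h
    rw [← mul_assoc, un'_mul_un, one_mul]
    exact ((hL _).1 l.2).pr_eq
  · refine Sup.pr_eq_zero (U := (K : Set G)ᶜ) ?_ fun g hg => hg
    refine (sup_un' q'.out).mul (S' := {y : G | (y : G ⧸ K) = q})
      ((sup_un q.out).mul ((hL _).1 l.2) ?_) ?_
    · rintro _ rfl b hb
      rw [Set.mem_ofPred_eq, QuotientGroup.mk_mul_of_mem _ hb, QuotientGroup.out_eq']
    · rintro _ rfl b hb hk
      exact h (hb.symm.trans (by
        rw [← QuotientGroup.out_eq' q']; exact (QuotientGroup.eq.2 hk).symm))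

/-- The ring is free over the subring of a subgroup. -/
noncomputable def rfreeSub {K : Subgroup G} {L : Subring Λ}
    (hL : ∀ x, x ∈ L ↔ Sup (K : Set G) x) : RFree L.subtype (G ⧸ K) where
  b q := un q.out
  c := coord hL
  c_single := coord_single hL
  sum_c s := by
    refine (sup_univ s).induction
      (P := fun s => (coord hL s).sum (fun q l => un q.out * L.subtype l) = s) (by simp)
      (fun a b ha hb => ?_) fun g _ a ha => ?_
    · rw [map_add, Finsupp.sum_add_index' (by simp) (fun _ _ _ => by rw [map_add, mul_add]),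
        ha, hb]
    · have h1 : un' (g : G ⧸ K).out * a ∈ L := by
        refine (hL _).2 ((sup_un' _).mul ha ?_)
        rintro _ rfl _ rfl
        exact QuotientGroup.eq.1 (QuotientGroup.out_eq' _)
      have h2 : un (g : G ⧸ K).out * (un' (g : G ⧸ K).out * a) = a := by
        rw [← mul_assoc, un_mul_un', one_mul]
      have h3 := coord_single hL (g : G ⧸ K) ⟨_, h1⟩
      rw [h2] at h3
      rw [h3, Finsupp.sum_single_index (by simp)]
      exact h2

lemma fr_span {K : Subgroup G} {L : Subring Λ} (hL : ∀ x, x ∈ L ↔ Sup (K : Set G) x)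
    (hH : RegularCoherent L) {J : Type} [Fintype J]
    {W : Set (J → Λ)} (hW : W.Finite) (hs : ∀ w ∈ W, VSup (K : Set G) w) :
    ∃ k, FR L.subtype k (Submodule.span Λ W) := by
  set φ := L.subtype with hφ
  let c : (J → Λ) → J → L := fun w j => ⟨pr (K : Set G) (w j), (hL _).2 (sup_pr _ _)⟩
  have hc : ∀ w ∈ W, φ ∘ c w = w := fun w hw => funext fun j => (hs w hw j).pr_eq
  obtain ⟨k, hk⟩ := hH.fr (Submodule.span _ (c '' W)) (Submodule.fg_span (hW.image c))
  refine ⟨k, ((rfreeSub hL).fr_extS (ρ' := φ) (fun _ => rfl) hk).iso (LinearEquiv.ofEq _ _ ?_)⟩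
  refine le_antisymm (Submodule.span_le.2 ?_) (Submodule.span_mono fun w hw =>
    ⟨c w, Submodule.subset_span ⟨w, hw, rfl⟩, hc w hw⟩)
  rintro _ ⟨a, ha, rfl⟩
  change φ ∘ a ∈ Submodule.span Λ W
  induction ha using Submodule.span_induction with
  | mem x hx =>
    obtain ⟨w, hw, rfl⟩ := hx
    rw [hc w hw]; exact Submodule.subset_span hw
  | zero =>
    have : φ ∘ (0 : J → L) = 0 := funext fun _ => map_zero φ
    rw [this]; exact zero_mem _
  | add x y _ _ hx hy =>
    have : φ ∘ (x + y) = φ ∘ x + φ ∘ y := funext fun _ => map_add φ _ _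
    rw [this]; exact add_mem hx hy
  | smul a x _ hx =>
    have : φ ∘ (a • x) = φ a • (φ ∘ x) := funext fun _ => map_mul φ _ _
    rw [this]; exact Submodule.smul_mem _ (φ a) hx

theorem tameP_of_coherent (S : TS Λ) (P : Set G) {K : Subgroup G} {L : Subring Λ}
    (hL : ∀ x, x ∈ L ↔ Sup (K : Set G) x) (hH : RegularCoherent L) : TameP S P K := by
  rintro J _ _ ν - ⟨F, hF⟩
  have main : ∀ j, ∀ W : Set (J → Λ), W.Finite → (∀ w ∈ W, VSup (K : Set G) w) →
      (∀ w ∈ W, w ∈ F.V j) → ∃ W' : Set (J → Λ), W'.Finite ∧ W ⊆ W' ∧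
      (∀ w ∈ W', VSup (K : Set G) w) ∧
      ∃ h : ∀ x ∈ Submodule.span Λ W',
        ν.vecMulLinear x ∈ Submodule.span Λ W',
      ∃ k, S.toKT.Good k _ (ν.vecMulLinear.restrict h) := by
    intro j
    induction j with
    | zero =>
      intro W h1 h2 h3
      have hb : Submodule.span Λ W = ⊥ :=
        Submodule.span_eq_bot.2 fun w hw => by simpa [F.zero] using h3 w hw
      have : Subsingleton (Submodule.span Λ W) := by rw [hb]; infer_instance
      refine ⟨W, h1, subset_rfl, h2, fun x hx => ?_, 0, KT.Triv.of_subsingleton⟩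
      rw [hb, Submodule.mem_bot] at hx
      rw [hx, map_zero]; exact zero_mem _
    | succ j ih =>
      intro W h1 h2 h3
      obtain ⟨W₁, g1, g2, g3, h, k, hk⟩ := ih (⋃ w ∈ W, (fun g => (un' g : Λ) •
        prv (lc g K) (w ᵥ* ν)) '' {g | ∃ i, cp ((w ᵥ* ν) i) g ≠ 0})
        (h1.biUnion fun w _ => (exists_finset_vsup _).image _) (by
          simp only [Set.mem_iUnion]
          rintro _ ⟨w, -, g, -, rfl⟩ i
          refine (sup_un' g).mul (vsup_prv (lc g K) _ i) ?_
          rintro a rfl b hb; exact hb) (by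
          simp only [Set.mem_iUnion]
          rintro _ ⟨w, hw, g, -, rfl⟩
          exact Submodule.smul_mem _ _ (F.graded _ _ (rinv_lc g K) _ (hF j w (h3 w hw))))
      have hle : Submodule.span Λ W₁ ≤ Submodule.span _ (W ∪ W₁) :=
        Submodule.span_mono Set.subset_union_right
      have hν : ∀ x ∈ Submodule.span Λ (W ∪ W₁),
          ν.vecMulLinear x ∈ Submodule.span Λ W₁ := by
        have : Submodule.span Λ (W ∪ W₁) ≤
            (Submodule.span _ W₁).comap ν.vecMulLinear := by
          rw [Submodule.span_le]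
          rintro w (hw | hw)
          · change w ᵥ* ν ∈ Submodule.span Λ W₁
            rw [← prv_univ (w ᵥ* ν)]
            refine prv_induction K (P := fun z => z ∈ Submodule.span Λ W₁)
              (zero_mem _) (fun a b ha hb => add_mem ha hb) _ (rinv_univ K) fun g hg => ?_
            have : prv (lc g K) (w ᵥ* ν) = (un g : Λ) •
                ((un' g : Λ) • prv (lc g K) (w ᵥ* ν)) := by
              rw [smul_smul, un_mul_un', one_smul]
            rw [this]
            refine Submodule.smul_mem _ _ (Submodule.subset_span (g2 ?_))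
            simp only [Set.mem_iUnion]
            exact ⟨w, hw, g, hg, rfl⟩
          · exact h w (Submodule.subset_span hw)
        exact fun x hx => this hx
      have hs : ∀ w ∈ W ∪ W₁, VSup (K : Set G) w := fun w hw => hw.elim (h2 w) (g3 w)
      obtain ⟨l₁, hl₁⟩ := fr_span hL hH g1 g3
      obtain ⟨l₂, hl₂⟩ := fr_span hL hH (h1.union g1) hs
      have hex : Exact (Submodule.inclusion hle) (LinearMap.range (Submodule.inclusion hle)).mkQ :=
        LinearMap.exact_map_mkQ_range _
      have hq := FR.coker (k := max l₁ l₂) (Submodule.inclusion_injective hle) hex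
        (Submodule.mkQ_surjective _) (hl₁.mono (le_max_left _ _)) (hl₂.mono (by omega))
      refine ⟨W ∪ W₁, h1.union g1, Set.subset_union_left, hs, fun x hx => hle (hν x hx),
        max k (max l₁ l₂ + 1), KT.Good.ext (Submodule.inclusion_injective hle) hex
          (Submodule.mkQ_surjective _) (fun _ => rfl) (fun x => ?_) (hk.mono (le_max_left _ _))
          (hq.mono (le_max_right _ _))⟩
      exact (Submodule.Quotient.mk_eq_zero _).2 ⟨⟨_, hν x x.2⟩, rfl⟩
  obtain ⟨W, -, h2, -, h, k, hk⟩ := main F.k (Set.range fun i => Pi.single i 1)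
    (Set.finite_range _) (by
      rintro _ ⟨i, rfl⟩ j
      by_cases hij : j = i
      · subst hij; simpa using sup_one K.one_mem
      · simpa [Pi.single_eq_of_ne hij] using sup_zero _) fun w _ => by rw [F.top]; trivial
  have htop : Submodule.span Λ W = ⊤ := by
    rw [eq_top_iff, ← (Pi.basisFun Λ J).span_eq]
    refine Submodule.span_mono (subset_trans ?_ h2)
    rintro _ ⟨i, rfl⟩
    exact ⟨i, by simp⟩
  let e := LinearEquiv.ofTop _ htop
  exact (hk.triv (Module.Projective.of_equiv e.symm)).indep (i := e.toLinearMap)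
    (p := e.symm.toLinearMap) e.symm_apply_apply fun _ => rfl

end Gr

end Pool.Agent.MP_f7db47_al
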