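import Pool.Agent.MP_f7db47_al.GrFilt

/-!
The linear case of the splitting theorem for trees.
-/

set_option linter.unusedSectionVars false

namespace Pool.Agent.MP_f7db47_al

namespace Gr

open Matrix

universe u w x

namespace TB

variable {G : Type u} [Group G] {Λ : Type x} [Ring Λ] [GrS G Λ]
  {V : Type w} [MulAction G V] (D : TB G V)

variable (Λ) in
/-- A linear invertible matrix together with its inverse. -/
structure Lin (J : Type) [Fintype J] [DecidableEq J] where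
  e : J → D.E
  z : J → V
  Θ : Bool → Matrix J J Λ
  Γ : Matrix J J Λ
  hΘ : ∀ s, MSup2 (fun i j => {x | x • z j = D.ep (e i) s}) (Θ s)
  hΘΓ : ∀ s, (Θ s + Θ (!s)) * Γ = 1
  hΓΘ : ∀ s, Γ * (Θ s + Θ (!s)) = 1

namespace Lin

variable {D} {J : Type} [Fintype J] [DecidableEq J] (L : D.Lin Λ J)

/-- The idempotents. -/
noncomputable def p (s : Bool) : Matrix J J Λ := mpr2 (D.Same L.e) (L.Θ s * L.Γ)

/-- Adjacent edges. -/
def Sb (s s' : Bool) : J → J → Set G :=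
  fun i i' => {g | g • D.ep (L.e i') (!s') = D.ep (L.e i) s ∧ g ∉ D.Same L.e i i'}

/-- The nilpotent parts. -/
noncomputable def n (s s' : Bool) : Matrix J J Λ :=
  -mpr2 (L.Sb s s') (L.Θ s * L.Γ)

/-- The adjacent part of the inverse. -/
noncomputable def U (s : Bool) : Matrix J J Λ :=
  mpr2 (fun j i => {g | g • D.ep (L.e i) s = L.z j}) L.Γ

lemma msup_p (s : Bool) : MSup2 (D.Same L.e) (L.p s) := msup2_mpr2 _ _

lemma M_add (s : Bool) : L.Θ s * L.Γ + L.Θ (!s) * L.Γ = 1 := by rw [← add_mul, L.hΘΓ]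

lemma p_add (s : Bool) : L.p s + L.p (!s) = 1 := by
  rw [p, p, ← mpr2_add, L.M_add, same_one.mpr2_eq]

lemma row_mul (A B : Matrix J J Λ) (i : J) : (A * B) i = A i ᵥ* B := rfl

lemma row_vecMul (A : Matrix J J Λ) (s : Bool) (i : J) :
    (A * L.Γ) i ᵥ* (L.Θ s + L.Θ (!s)) = A i := by
  rw [← row_mul, mul_assoc, L.hΓΘ, mul_one]

lemma hyp_row (s s' : Bool) (i : J) (g : G) (τ : D.E) (h : g⁻¹ • D.ep (L.e i) s ∉ D.H τ s') :
    VSup2 (fun j => {x | (g⁻¹ * x) • L.z j ∉ D.H τ s'})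
      ((L.Θ s * L.Γ) i ᵥ* (L.Θ s' + L.Θ (!s'))) := by
  rw [row_vecMul]
  intro j x hx
  have := L.hΘ s i j x hx
  simp only [Set.mem_ofPred_eq] at this ⊢
  rwa [mul_smul, this]

lemma p_mul_M (s : Bool) : L.p s * (L.Θ (!s) * L.Γ) =
    -mpr2 (fun i => D.Ins L.e 1 (L.e i) (!s)) (L.Θ s * L.Γ) := by
  funext i
  rw [row_mul, p, mpr2_row, ← on_one]
  exact lemB L.hΘ (!s) (L.hΘΓ _) _ 1 _ (L.hyp_row s (!s) i 1 _ (by simpa using D.not_mem' _ s))

lemma p_mul_p (s : Bool) : L.p s * L.p (!s) = 0 := by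
  funext i
  rw [row_mul, p, mpr2_row, ← on_one]
  exact lemB0 L.hΘ (!s) (L.hΘΓ _) _ 1 _ (L.hyp_row s (!s) i 1 _ (by simpa using D.not_mem' _ s))

lemma p_idem (s : Bool) : L.p s * L.p s = L.p s := by
  conv_rhs => rw [← mul_one (L.p s), ← L.p_add s, mul_add, p_mul_p, add_zero]

lemma sb_left (s s' : Bool) (i j k : J) :
    ∀ y ∈ D.Same L.e i j, ∀ g, y * g ∈ L.Sb s s' i k ↔ g ∈ L.Sb s s' j k := by
  rintro y ⟨h1, h2⟩ g
  simp only [Sb, Same, Set.mem_ofPred_eq, h1, mul_smul, D.C_eq_iff h2,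
    (D.C _).mul_mem_cancel_left h2]

lemma sat_sb (s s' : Bool) (i : J) : D.Sat L.e (L.Sb s s' i) := by
  rintro j j' x c h hc ⟨h1, h2⟩
  refine ⟨by rw [h, mul_smul, hc, h1], fun h3 => h2 ⟨h.symm.trans h3.1, ?_⟩⟩
  exact ((D.C _).mul_mem_cancel_right ((h.symm.trans h3.1) ▸ hc)).1 h3.2

lemma mpr2_sb_one (s s' : Bool) : mpr2 (L.Sb s s') (1 : Matrix J J Λ) = 0 :=
  (same_one (D := D) (e := L.e)).mpr2_eq_zero fun _ _ _ h h' => h'.2 h

lemma p_mul_n (s s' : Bool) : L.p s * L.n s s' = 0 := by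
  have e1 : L.p s * (L.Θ s * L.Γ) =
      L.p s + mpr2 (fun i => D.Ins L.e 1 (L.e i) (!s)) (L.Θ s * L.Γ) := by
    rw [← sub_neg_eq_add, ← p_mul_M, eq_sub_iff_add_eq, ← mul_add, M_add, mul_one]
  rw [n, mul_neg, ← mpr2_mul_left _ (L.msup_p s) (L.sb_left s s'), e1, mpr2_add,
    (L.msup_p s).mpr2_eq_zero fun _ _ _ h h' => h'.2 h,
    (msup2_mpr2 _ _).mpr2_eq_zero, add_zero, neg_zero]
  intro i j g h h'
  have := h (!s')
  rw [inv_one, one_mul, h'.1] at this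
  exact D.not_mem' _ s this

lemma p_mul_n' (s s' : Bool) : L.p (!s) * L.n s s' = L.n s s' := by
  conv_rhs => rw [← one_mul (L.n s s'), ← L.p_add s, add_mul, p_mul_n, zero_add]

lemma n_mul_p (s s' : Bool) : L.n s s' * L.p s' = 0 := by
  rw [n, neg_mul, neg_eq_zero]
  funext i
  rw [row_mul, mpr2_row]
  refine (L.sat_sb s s' i).induction (P := fun z => z ᵥ* L.p s' = 0) (zero_vecMul _)
    (fun a b ha hb => by rw [add_vecMul, ha, hb, add_zero]) _ fun j g hg => ?_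
  refine lemB0 L.hΘ s' (L.hΘΓ _) _ g _ (L.hyp_row s s' i g _ ?_)
  rw [← hg.1, inv_smul_smul]; exact D.not_mem _ _

lemma n_mul_p' (s s' : Bool) : L.n s s' * L.p (!s') = L.n s s' := by
  conv_rhs => rw [← mul_one (L.n s s'), ← L.p_add s', mul_add, n_mul_p, zero_add]

lemma U_mul_p (s : Bool) : L.U s * L.p (!s) = 0 := by
  funext j
  rw [row_mul, U, mpr2_row]
  refine Sat.induction (D := D) (e := L.e) (P := fun z => z ᵥ* L.p (!s) = 0) (zero_vecMul _)
    (fun a b ha hb => by rw [add_vecMul, ha, hb, add_zero]) _ ?_ fun i g hg => ?_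
  · intro i i' x c h hc hx
    simp only [Set.mem_ofPred_eq] at hx ⊢
    rw [h, mul_smul, hc, hx]
  · refine lemB0 L.hΘ (!s) (L.hΘΓ _) _ g _ ?_
    rw [← row_mul, L.hΓΘ]
    refine fun j' => (msup2_one (S := fun j j' => {x : G | x • L.z j' = L.z j})
      (fun _ => one_smul _ _) j j').mono fun x hx => ?_
    simp only [Set.mem_ofPred_eq] at hx hg ⊢
    rw [mul_smul, hx, ← hg, inv_smul_smul]
    exact D.not_mem' _ _

lemma U_mul_p' (s : Bool) : L.U s * L.p s = L.U s := by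
  conv_rhs => rw [← mul_one (L.U s), ← L.p_add s, mul_add, U_mul_p, add_zero]

lemma Θ_mul_U (s s' : Bool) : L.Θ s * L.U s' =
    mpr2 (fun i i' => {g | g • D.ep (L.e i') s' = D.ep (L.e i) s}) (L.Θ s * L.Γ) := by
  refine (mpr2_mul_left _ (L.hΘ s) fun i j k y hy g => ?_).symm
  simp only [Set.mem_ofPred_eq] at hy ⊢
  rw [mul_smul, ← hy, smul_left_cancel_iff]

lemma Θ_mul_U_same (s : Bool) : L.Θ s * L.U s = L.p s - L.n s (!s) := by
  rw [Θ_mul_U, p, n, sub_neg_eq_add]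
  refine mpr2_union _ (fun i j g => ⟨fun h => ?_, ?_⟩) fun i j g h h' => h'.2 h
  · by_cases h' : g ∈ D.Same L.e i j
    · exact Or.inl h'
    · exact Or.inr ⟨by rwa [Bool.not_not], h'⟩
  · rintro (⟨h1, h2⟩ | ⟨h, -⟩)
    · rw [Set.mem_ofPred_eq, h1, h2]
    · rwa [Bool.not_not] at h

lemma Θ_mul_U_opp (s : Bool) : L.Θ s * L.U (!s) = -L.n s s := by
  rw [Θ_mul_U, n, neg_neg]
  congr 1
  funext i j
  ext g
  refine ⟨fun h => ⟨h, fun h' => ?_⟩, fun h => h.1⟩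
  rw [Set.mem_ofPred_eq, h'.1, h'.2] at h
  simpa using D.ep_inj h

/-- The split part. -/
noncomputable def W : Matrix J J Λ :=
  L.p false * L.Θ false + L.p true * L.Θ true

lemma W_eq (s : Bool) : L.W = L.p s * L.Θ s + L.p (!s) * L.Θ (!s) := by
  cases s
  · rfl
  · exact add_comm _ _

lemma U_mul_W : (L.U false + L.U true) * L.W = 1 := by
  have h1 : ∀ s, L.U s * L.W = L.U s * L.Θ s := fun s => by
    rw [L.W_eq s, mul_add, ← mul_assoc, ← mul_assoc, U_mul_p, U_mul_p', zero_mul, add_zero]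
  have h2 : ∀ s, mpr2 (fun j j' => {x | x • L.z j' = L.z j}) (L.Γ * L.Θ s) = L.U s * L.Θ s :=
    fun s => mpr2_mul_right _ (L.hΘ s) fun j i j' g y hy => by
      simp only [Set.mem_ofPred_eq] at hy ⊢
      rw [mul_smul, hy]
  rw [add_mul, h1, h1, ← h2, ← h2, ← mpr2_add, ← mul_add]
  have := L.hΓΘ false
  rw [Bool.not_false] at this
  rw [this]
  exact (msup2_one fun _ => one_smul _ _).mpr2_eq

lemma Θ_mul_UU (s : Bool) :
    L.Θ s * (L.U false + L.U true) = L.p s - (L.n s false + L.n s true) := by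
  have h1 := L.Θ_mul_U_same s
  have h2 := L.Θ_mul_U_opp s
  cases s
  · rw [Bool.not_false] at h1 h2
    rw [mul_add, h1, h2]; abel
  · rw [Bool.not_true] at h1 h2
    rw [mul_add, h1, h2]; abel

lemma W_mul_U : L.W * (L.U false + L.U true) = 1 := by
  rw [W, add_mul, mul_assoc, mul_assoc, Θ_mul_UU, Θ_mul_UU, mul_sub, mul_sub, mul_add, mul_add,
    p_mul_n, p_mul_n, p_mul_n, p_mul_n, p_idem, p_idem]
  simpa using L.p_add false

lemma n_eq (s s' : Bool) : L.n s s' = mpr2 (L.Sb s s') (L.W * L.Γ) := by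
  have e1 : L.Θ (!s) * L.Γ = 1 - L.Θ s * L.Γ := by rw [← L.M_add s]; abel
  have e2 : mpr2 (L.Sb s s') (L.Θ s * L.Γ) = -L.n s s' := by rw [n, neg_neg]
  rw [L.W_eq s, add_mul, mul_assoc, mul_assoc, mpr2_add,
    mpr2_mul_left _ (L.msup_p s) (L.sb_left s s'),
    mpr2_mul_left _ (L.msup_p (!s)) (L.sb_left s s'), e1, mpr2_sub, mpr2_sb_one, e2, mul_neg,
    p_mul_n, zero_sub, neg_neg, p_mul_n', neg_zero, zero_add]

lemma same_X : mpr2 (D.Same L.e) (L.W * L.Γ) = 1 := by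
  have h : ∀ s, mpr2 (D.Same L.e) (L.p s * (L.Θ s * L.Γ)) = L.p s := fun s => by
    rw [mpr2_mul_left (S₁ := D.Same L.e) _ (L.msup_p s)]
    · exact L.p_idem s
    · rintro i j k y ⟨h1, h2⟩ g
      simp only [Same, Set.mem_ofPred_eq, h1, (D.C _).mul_mem_cancel_left h2]
  rw [W, add_mul, mul_assoc, mul_assoc, mpr2_add, h, h]
  exact L.p_add false

lemma X_inj {f : J → Λ} (h : f ᵥ* (L.W * L.Γ) = 0) : f = 0 := by
  have := congrArg (· ᵥ* ((L.Θ false + L.Θ (!false)) * (L.U false + L.U true))) h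
  simp only [vecMul_vecMul, zero_vecMul] at this
  rwa [mul_assoc, ← mul_assoc L.Γ, L.hΓΘ, one_mul, W_mul_U, vecMul_one] at this

lemma mem_itV (m : ℕ) : ∀ g₀ τ₀ f, VSup2 (D.On L.e g₀ τ₀) f → vsize (f ᵥ* (L.W * L.Γ)) ≤ m →
    f ∈ D.itV L.e (fun a : Bool × Bool => L.n a.1 a.2) m := by
  induction m with
  | zero =>
    intro g₀ τ₀ f _ hm
    rw [L.X_inj (eq_zero_of_vsize (Nat.le_zero.1 hm))]; exact zero_mem _
  | succ m ih =>
    intro g₀ τ₀ f hf hm
    by_cases hf0 : f = 0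
    · rw [hf0]; exact zero_mem _
    rintro g τ ⟨s, s'⟩
    suffices f ᵥ* L.n s s' ∈ D.itV L.e (fun a : Bool × Bool => L.n a.1 a.2) m by
      rw [← hf.prv2_eq]
      rcases (sat_on g₀ τ₀).prv2_on g τ f with h | ⟨⟨i, x, h1, h2⟩, h⟩
      · rw [h, zero_vecMul]; exact zero_mem _
      · rw [h, on_eq h1, ← on_eq h2, hf.prv2_eq]; exact this
    set Y := f ᵥ* (L.W * L.Γ) with hY
    have hYf : prv2 (D.On L.e g₀ τ₀) Y = f := by
      rw [hY, prv2_vecMul_left (S₁ := D.Same L.e) _ hf, same_X, vecMul_one]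
      rintro i j k ⟨h1, h2⟩ g
      simp only [On, Same, Set.mem_ofPred_eq, h1, ← mul_assoc]
      exact and_congr_right fun _ => (D.C τ₀).mul_mem_cancel_left h2
    have hn : f ᵥ* L.n s s' = prv2 (fun j => {x | (g₀⁻¹ * x) • D.ep (L.e j) (!s') = D.ep τ₀ s ∧
        x ∉ D.On L.e g₀ τ₀ j}) Y := by
      rw [n_eq, hY]
      refine (prv2_vecMul_left _ hf ?_).symm
      rintro i j k ⟨h1, h2⟩ g
      simp only [On, Same, Sb, Set.mem_ofPred_eq, h1, ← mul_assoc]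
      rw [mul_smul, D.C_eq_iff h2, (D.C τ₀).mul_mem_cancel_left h2]
    rw [hn]
    refine Sat.induction (D := D) (e := L.e)
      (P := fun z => z ∈ D.itV L.e (fun a : Bool × Bool => L.n a.1 a.2) m) (zero_mem _)
      (fun a b ha hb => add_mem ha hb) Y ?_ ?_
    · rintro i i' x c h hc ⟨h1, h2⟩
      exact ⟨by rw [h, ← mul_assoc, mul_smul, hc, h1], (sat_on g₀ τ₀).compl i i' x c h hc h2⟩
    rintro i x ⟨h1, h2⟩
    have hout : ∀ s₁, (x⁻¹ * g₀) • D.ep τ₀ s₁ ∉ D.H (L.e i) s' := by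
      intro s₁ h
      rcases D.tri (L.e i) τ₀ (x⁻¹ * g₀) with ⟨h3, h4⟩ | h3
      · refine h2 ⟨h3.symm, ?_⟩
        have := (D.C (L.e i)).inv_mem h4
        rw [h3]; simpa using this
      · have := h3 s' s₁ s h
        rw [← h1, smul_smul] at this
        exact D.not_mem _ s' (by simpa using this)
    have hyp : VSup2 (fun j => {y | (x⁻¹ * y) • L.z j ∉ D.H (L.e i) s'})
        (Y ᵥ* (L.Θ s' + L.Θ (!s'))) := by
      rw [hY, vecMul_vecMul, mul_assoc, L.hΓΘ, mul_one, W, vecMul_add]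
      have : ∀ s₁, VSup2 (fun j => {y | (x⁻¹ * y) • L.z j ∉ D.H (L.e i) s'})
          (f ᵥ* (L.p s₁ * L.Θ s₁)) := by
        intro s₁
        refine hf.vecMul (S' := fun i j => {y | y • L.z j = D.ep (L.e i) s₁})
          ((L.msup_p s₁).mul (L.hΘ s₁) ?_) ?_
        · rintro a b c k ⟨h3, h4⟩ y hy
          simp only [Set.mem_ofPred_eq] at hy ⊢
          rw [mul_smul, hy, h3, h4]
        · rintro a b k ⟨h3, h4⟩ y hy
          simp only [Set.mem_ofPred_eq] at hy ⊢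
          have e : x⁻¹ * (k * y) = x⁻¹ * g₀ * (g₀⁻¹ * k) * y := by group
          rw [e, mul_smul, hy, h3, mul_smul, h4]
          exact hout s₁
      exact fun j => (this false j).add (this true j)
    have hB := lemB L.hΘ s' (L.hΘΓ s') Y x (L.e i) hyp
    have hB0 := lemB0 L.hΘ s' (L.hΘΓ s') Y x (L.e i) hyp
    set f₂ := prv2 (D.On L.e x (L.e i)) Y with hf₂
    have hX : f₂ ᵥ* (L.W * L.Γ) =
        prv2 (fun j => D.On L.e x (L.e i) j ∪ D.Ins L.e x (L.e i) s' j) Y := by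
      have e1 : L.p (!s') = 1 - L.p s' := by rw [← L.p_add s']; abel
      have e2 : L.Θ (!s') * L.Γ = 1 - L.Θ s' * L.Γ := by rw [← L.M_add s']; abel
      have e3 : f₂ ᵥ* L.p s' = 0 := hB0
      rw [L.W_eq s', add_mul, mul_assoc, mul_assoc, vecMul_add, ← vecMul_vecMul, e3, zero_vecMul,
        zero_add, ← vecMul_vecMul, e1, vecMul_sub, e3, vecMul_one, sub_zero, e2, vecMul_sub,
        vecMul_one, hB, sub_neg_eq_add]
      refine (prv2_union Y (fun _ _ => Iff.rfl) ?_).symm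
      rintro j y ⟨h3, h4⟩ h
      have := h (!s')
      rw [h3, h4] at this
      exact D.not_mem _ _ this
    refine ih x (L.e i) f₂ (vsup2_prv2 _ _) ?_
    obtain ⟨j, y, hy⟩ := exists_coeff_ne hf0
    have hy1 : y ∈ D.On L.e g₀ τ₀ j := hf j y hy
    have hy2 : cp (Y j) y ≠ 0 := by
      intro h0
      apply hy
      rw [← hYf, prv2, coeff_pr, h0, ite_self]
    have := vsize_prv2_lt (S := fun j => D.On L.e x (L.e i) j ∪ D.Ins L.e x (L.e i) s' j) hy2 (by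
      rintro (h | h)
      · exact h2 ((sat_on g₀ τ₀).on_subset h hy1 i (mem_on_self i x))
      · have := h s
        have e : x⁻¹ * y = x⁻¹ * g₀ * (g₀⁻¹ * y) := by group
        rw [hy1.1, e, mul_smul, hy1.2] at this
        exact hout s this)
    rw [hX]
    omega

lemma T_ΘU (S : TS Λ) (htame : ∀ σ, TameP S (D.Ah σ σ) (D.C σ.1)) :
    S.T ((L.Θ false + L.Θ true) * (L.U false + L.U true)) := by
  classical
  obtain ⟨k, hk⟩ := exists_top (D := D) (e := L.e) (n := fun a : Bool × Bool => L.n a.1 a.2)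
    fun g τ f hf => ⟨_, L.mem_itV _ g τ f hf le_rfl⟩
  set P := proj Λ L.e with hP
  have hc : ∀ s τ, P τ * L.p s = L.p s * P τ := fun s =>
    proj_comm L.e fun i j h => (L.msup_p s i j).eq_zero (sup_univ _) fun g hg => absurd hg.1.symm h
  have := elim_types S (filtV hk) (fun σ : D.E × Bool => P σ.1 * L.p (!σ.2)) ?_ D.Ah D.ah_mul ?_
    (Finset.univ.image L.e ×ˢ Finset.univ) (fun σ σ' => P σ.1 * L.n σ.2 σ'.2 * P σ'.1) ?_ ?_ ?_ ?_
  · convert this using 1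
    have hs : ∑ τ ∈ Finset.univ.image L.e, P τ = 1 :=
      sum_proj L.e fun i => Finset.mem_image_of_mem _ (Finset.mem_univ i)
    simp only [Finset.sum_product, Fintype.sum_bool, Finset.sum_add_distrib, ← Finset.mul_sum,
      ← Finset.sum_mul, hs, mul_one, one_mul]
    rw [add_mul, Θ_mul_UU, Θ_mul_UU, ← L.p_add false, Bool.not_false]
    abel
  · rintro ⟨τ, s⟩ ⟨τ', s'⟩ h
    dsimp only
    rw [mul_assoc, ← mul_assoc (L.p _), ← hc, ← mul_assoc, ← mul_assoc]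
    by_cases hτ : τ = τ'
    · have : s' = !s := Bool.eq_not.2 fun h' => h (by rw [hτ, h'])
      rw [mul_assoc, this, p_mul_p, mul_zero]
    · rw [proj_mul_ne _ hτ, zero_mul, zero_mul]
  · rintro ⟨τ, s⟩ a ha h1 h2 hl
    refine htame (τ, s) J a ha (pn_of_low hk τ ?_ ?_ hl)
    · rw [← h1, ← mul_assoc, ← mul_assoc, proj_mul_self]
    · rw [← h2, hc, mul_assoc, mul_assoc, proj_mul_self]
  · rintro ⟨τ, s⟩ ⟨τ', s'⟩ i j
    rw [mul_proj_apply, proj_mul_apply]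
    split_ifs with h1 h2
    · refine ((msup2_mpr2 _ _).neg i j).mono ?_
      rintro g ⟨h3, h4⟩
      dsimp only at h1 h2 ⊢
      subst h1 h2
      refine ⟨D.nest _ _ s s' g h3 h4, _, D.hmem _ _, ?_⟩
      rw [← h3, inv_smul_smul]; exact D.not_mem _ _
    · exact sup_zero _
    · exact sup_zero _
  · rintro ⟨τ, s⟩ ⟨τ', s'⟩
    dsimp only
    rw [hc, ← mul_assoc, ← mul_assoc, mul_assoc (L.p _), proj_mul_self, ← hc, mul_assoc (P τ),
      p_mul_n']
  · rintro ⟨τ, s⟩ ⟨τ', s'⟩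
    dsimp only
    rw [mul_assoc, ← mul_assoc (P τ'), proj_mul_self, hc, ← mul_assoc, mul_assoc (P τ), n_mul_p']
  · rintro ⟨τ, s⟩ ⟨τ', s'⟩
    exact ((low_proj hk τ).mul (low_n hk (s, s'))).mul (low_proj hk τ')

end Lin

end TB

end Gr

end Pool.Agent.MP_f7db47_al
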