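import Pool.Agent.MP_f7db47_al.TB

/-!
Graded rings with a unit in each degree: restriction of supports.
-/

set_option linter.unusedSectionVars false

namespace Pool.Agent.MP_f7db47_al

open Matrix

universe u w

/-- A grading of `Λ` by the group `G` with a unit in each degree. -/
class GrS (G : outParam (Type u)) [Group G] (Λ : Type w) [Ring Λ] where
  c : Λ →+ (G →₀ Λ)
  sum_c : ∀ x, (c x).sum (fun _ a => a) = x
  c_c : ∀ x g, c (c x g) = Finsupp.single g (c x g)
  mul : ∀ a b g h, c a = Finsupp.single g a → c b = Finsupp.single h b →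
    c (a * b) = Finsupp.single (g * h) (a * b)
  one : c 1 = Finsupp.single 1 1
  un : G → Λˣ
  hun : ∀ g, c (un g).val = Finsupp.single g (un g).val
  hun' : ∀ g, c (un g)⁻¹.val = Finsupp.single g⁻¹ (un g)⁻¹.val

namespace Gr

variable {G : Type u} [Group G] {Λ : Type w} [Ring Λ] [GrS G Λ]

/-- The homogeneous components. -/
abbrev cp : Λ →+ (G →₀ Λ) := GrS.c

lemma ext' {x y : Λ} (h : ∀ g : G, cp x g = cp y g) : x = y := by
  rw [← GrS.sum_c x, ← GrS.sum_c y]
  congr 1
  exact Finsupp.ext h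

open Classical in
/-- The part of `x` supported on `S`. -/
noncomputable def pr (S : Set G) : Λ →+ Λ where
  toFun x := ((cp x).filter (· ∈ S)).sum fun _ a => a
  map_zero' := by simp [Finsupp.filter_zero]
  map_add' x y := by
    rw [map_add, Finsupp.filter_add, Finsupp.sum_add_index' (fun _ => rfl) fun _ _ _ => rfl]

open Classical in
lemma coeff_pr (S : Set G) (x : Λ) (g : G) :
    cp (pr S x) g = if g ∈ S then cp x g else 0 := by
  have : cp (pr S x) = (cp x).filter (· ∈ S) := by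
    change cp (((cp x).filter (· ∈ S)).sum fun _ a => a) = _
    rw [map_finsuppSum]
    conv_rhs => rw [← Finsupp.sum_single ((cp x).filter (· ∈ S))]
    refine Finsupp.sum_congr fun h _ => ?_
    rw [Finsupp.filter_apply]
    split_ifs
    · exact GrS.c_c x h
    · simp
  rw [this, Finsupp.filter_apply]

/-- `x` is supported in `S`. -/
def Sup (S : Set G) (x : Λ) : Prop := ∀ g, cp x g ≠ 0 → g ∈ S

lemma Sup.pr_eq {S : Set G} {x : Λ} (h : Sup S x) : pr S x = x := by
  refine ext' fun g => ?_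
  rw [coeff_pr]
  split_ifs with hg
  · rfl
  · by_contra h0
    exact hg (h g (Ne.symm h0))

lemma sup_pr (S : Set G) (x : Λ) : Sup S (pr S x) := by
  intro g hg
  rw [coeff_pr] at hg
  by_contra h
  exact hg (if_neg h)

lemma Sup.pr {S S' : Set G} {x : Λ} (h : Sup S x) : Sup S (pr S' x) := by
  intro g hg
  rw [coeff_pr] at hg
  apply h g
  intro h0
  exact hg (by simp [h0])

lemma pr_pr (S S' : Set G) (x : Λ) : pr S (pr S' x) = pr (S ∩ S') x := by
  refine ext' fun g => ?_
  simp only [coeff_pr, Set.mem_inter_iff]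
  by_cases h1 : g ∈ S <;> by_cases h2 : g ∈ S' <;> simp [h1, h2]

lemma pr_univ (x : Λ) : pr Set.univ x = x := by
  refine ext' fun g => ?_; simp [coeff_pr]

lemma pr_congr {S S' U : Set G} {x : Λ} (hx : Sup U x)
    (h : ∀ g ∈ U, g ∈ S ↔ g ∈ S') : pr S x = pr S' x := by
  refine ext' fun g => ?_
  simp only [coeff_pr]
  by_cases h0 : cp x g = 0
  · simp [h0]
  · by_cases h1 : g ∈ S
    · rw [if_pos h1, if_pos ((h g (hx g h0)).1 h1)]
    · rw [if_neg h1, if_neg fun h2 => h1 ((h g (hx g h0)).2 h2)]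

lemma Sup.pr_eq_zero {S U : Set G} {x : Λ} (hx : Sup U x)
    (h : ∀ g ∈ U, g ∉ S) : Pool.Agent.MP_f7db47_al.Gr.pr S x = 0 := by
  refine ext' fun g => ?_
  simp only [coeff_pr]
  by_cases h0 : cp x g = 0
  · simp [h0]
  · simp [h g (hx g h0)]

lemma pr_add_pr_compl (S : Set G) (x : Λ) : pr S x + pr Sᶜ x = x := by
  refine ext' fun g => ?_
  simp only [map_add, Finsupp.add_apply, coeff_pr, Set.mem_compl_iff]
  by_cases h : g ∈ S <;> simp [h]

lemma Sup.mono {S S' : Set G} {x : Λ} (hx : Sup S x) (h : S ⊆ S') : Sup S' x :=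
  fun g hg => h (hx g hg)

lemma sup_univ (x : Λ) : Sup Set.univ x := fun _ _ => trivial

lemma sup_zero (S : Set G) : Sup S (0 : Λ) := fun g hg => absurd (by simp) hg

lemma Sup.eq_zero {S S' : Set G} {x : Λ} (h : Sup S x) (h' : Sup S' x)
    (hd : ∀ g ∈ S, g ∉ S') : x = 0 := by
  refine ext' fun g => ?_
  by_contra h0
  rw [map_zero] at h0
  exact hd g (h g h0) (h' g h0)

lemma Sup.add {S : Set G} {x y : Λ} (hx : Sup S x) (hy : Sup S y) :
    Sup S (x + y) := by
  intro g hg
  by_contra h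
  have h1 : cp x g = 0 := by by_contra h1; exact h (hx g h1)
  have h2 : cp y g = 0 := by by_contra h2; exact h (hy g h2)
  exact hg (by simp [h1, h2])

lemma Sup.neg {S : Set G} {x : Λ} (hx : Sup S x) : Sup S (-x) := by
  intro g hg
  exact hx g (by simpa using hg)

lemma Sup.sub {S : Set G} {x y : Λ} (hx : Sup S x) (hy : Sup S y) :
    Sup S (x - y) := by
  rw [sub_eq_add_neg]; exact hx.add hy.neg

lemma sup_sum {S : Set G} {ι : Type*} (s : Finset ι) (f : ι → Λ)
    (h : ∀ i ∈ s, Sup S (f i)) : Sup S (∑ i ∈ s, f i) :=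
  Finset.sum_induction f (Sup S) (fun _ _ => Sup.add) (sup_zero S) h

lemma sup_of_single {g : G} {a : Λ} (h : cp a = Finsupp.single g a) : Sup {g} a := by
  classical
  intro k hk
  rw [h, Finsupp.single_apply] at hk
  by_contra h'
  exact hk (if_neg fun e => h' e.symm)

lemma Sup.single {g : G} {a : Λ} (h : Sup {g} a) : cp a = Finsupp.single g a := by
  have h1 : cp a = Finsupp.single g (cp a g) :=
    Finsupp.eq_single_iff.2 ⟨fun k hk => Finset.mem_singleton.2
      (h k (Finsupp.mem_support_iff.1 hk)), rfl⟩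
  have h2 : cp a g = a := by
    conv_rhs => rw [← GrS.sum_c a]
    change _ = (cp a).sum _
    conv_rhs => rw [h1]
    rw [Finsupp.sum_single_index rfl]
  rw [h1, h2]

lemma sup_cp (x : Λ) (g : G) : Sup {g} (cp x g) := sup_of_single (GrS.c_c x g)

lemma Sup.of_mem {S : Set G} {g : G} {a : Λ} (h : Sup {g} a) (hg : g ∈ S) : Sup S a :=
  h.mono (Set.singleton_subset_iff.2 hg)

/-- The unit of degree `g`. -/
abbrev un (g : G) : Λ := (GrS.un g : Λˣ).val

/-- The inverse of the unit of degree `g`. -/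
abbrev un' (g : G) : Λ := ((GrS.un g : Λˣ)⁻¹).val

lemma sup_un (g : G) : Sup {g} (un g : Λ) := sup_of_single (GrS.hun g)

lemma sup_un' (g : G) : Sup {g⁻¹} (un' g : Λ) := sup_of_single (GrS.hun' g)

lemma un_mul_un' (g : G) : (un g : Λ) * un' g = 1 := Units.mul_inv _

lemma un'_mul_un (g : G) : (un' g : Λ) * un g = 1 := Units.inv_mul _

lemma sup_one {S : Set G} (hg : (1 : G) ∈ S) : Sup S (1 : Λ) :=
  (sup_of_single GrS.one).of_mem hg

lemma Sup.induction {S : Set G} {P : Λ → Prop} {x : Λ}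
    (hx : Sup S x) (h0 : P 0) (hadd : ∀ a b, P a → P b → P (a + b))
    (hs : ∀ g ∈ S, ∀ a, Sup {g} a → P a) : P x := by
  rw [← GrS.sum_c x, Finsupp.sum]
  exact Finset.sum_induction _ P hadd h0
    fun g hg => hs g (hx g (Finsupp.mem_support_iff.1 hg)) _ (sup_cp x g)

lemma Sup.mul {S S' U : Set G} {x y : Λ} (hx : Sup S x) (hy : Sup S' y)
    (h : ∀ a ∈ S, ∀ b ∈ S', a * b ∈ U) : Sup U (x * y) := by
  refine hx.induction (P := fun x => Sup U (x * y)) (by simpa using sup_zero U)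
    (fun a b ha hb => by simpa [add_mul] using ha.add hb) fun g hg a ha => ?_
  refine hy.induction (P := fun y => Sup U (a * y))
    (by simpa using sup_zero U)
    (fun a b ha hb => by simpa [mul_add] using ha.add hb) fun k hk b hb => ?_
  exact (sup_of_single (GrS.mul a b g k ha.single hb.single)).of_mem (h g hg k hk)

lemma sum_cp {s : Finset G} {x : Λ} (h : Sup (s : Set G) x) : ∑ g ∈ s, cp x g = x := by
  conv_rhs => rw [← GrS.sum_c x]
  exact (Finsupp.sum_of_support_subset _ (fun g hg => h g (Finsupp.mem_support_iff.1 hg))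
    (fun _ a => a) fun _ _ => rfl).symm

lemma pr_mul_right {S S₁ U : Set G} (x : Λ) {y : Λ}
    (hy : Sup U y) (h : ∀ g, ∀ k ∈ U, g * k ∈ S ↔ g ∈ S₁) : pr S (x * y) = pr S₁ x * y := by
  conv_lhs => rw [← pr_add_pr_compl S₁ x, add_mul, map_add]
  rw [((sup_pr S₁ x).mul hy fun a ha b hb => (h a b hb).2 ha).pr_eq,
    ((sup_pr S₁ᶜ x).mul (U := Sᶜ) hy fun a ha b hb hab => ha ((h a b hb).1 hab)).pr_eq_zero
      fun g hg => hg, add_zero]

lemma pr_mul_left {S S₁ U : Set G} {x : Λ} (y : Λ)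
    (hx : Sup U x) (h : ∀ k ∈ U, ∀ g, k * g ∈ S ↔ g ∈ S₁) : pr S (x * y) = x * pr S₁ y := by
  conv_lhs => rw [← pr_add_pr_compl S₁ y, mul_add, map_add]
  rw [(hx.mul (sup_pr S₁ y) fun a ha b hb => (h a ha b).2 hb).pr_eq,
    (hx.mul (U := Sᶜ) (sup_pr S₁ᶜ y) fun a ha b hb hab => hb ((h a ha b).1 hab)).pr_eq_zero
      fun g hg => hg, add_zero]

section Mat

variable {I J K : Type}

/-- All entries are supported in `S`. -/
def MSup (S : Set G) (A : Matrix I J Λ) : Prop := ∀ i j, Sup S (A i j)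

/-- Entrywise restriction of support. -/
noncomputable def mpr (S : Set G) (A : Matrix I J Λ) :
    Matrix I J Λ := A.map (pr S)

lemma msup_mpr (S : Set G) (A : Matrix I J Λ) : MSup S (mpr S A) :=
  fun i j => sup_pr S (A i j)

lemma MSup.mpr {S S' : Set G} {A : Matrix I J Λ} (h : MSup S A) :
    MSup S (mpr S' A) := fun i j => (h i j).pr

lemma MSup.mpr_eq {S : Set G} {A : Matrix I J Λ} (h : MSup S A) :
    Pool.Agent.MP_f7db47_al.Gr.mpr S A = A := by
  ext1 i j; exact (h i j).pr_eq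

lemma MSup.mpr_eq_zero {S U : Set G} {A : Matrix I J Λ} (h : MSup U A)
    (hd : ∀ g ∈ U, g ∉ S) : Pool.Agent.MP_f7db47_al.Gr.mpr S A = 0 := by
  ext1 i j; exact (h i j).pr_eq_zero hd

lemma MSup.eq_zero {S S' : Set G} {A : Matrix I J Λ} (h : MSup S A)
    (h' : MSup S' A) (hd : ∀ g ∈ S, g ∉ S') : A = 0 := by
  ext1 i j; exact (h i j).eq_zero (h' i j) hd

lemma mpr_add (S : Set G) (A B : Matrix I J Λ) :
    mpr S (A + B) = mpr S A + mpr S B := by
  ext1 i j; exact map_add (pr S) _ _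

lemma mpr_sub (S : Set G) (A B : Matrix I J Λ) :
    mpr S (A - B) = mpr S A - mpr S B := by
  ext1 i j; exact map_sub (pr S) _ _

lemma mpr_mpr (S S' : Set G) (A : Matrix I J Λ) :
    mpr S (mpr S' A) = mpr (S ∩ S') A := by
  ext1 i j; exact pr_pr _ _ _

lemma mpr_add_mpr_compl (S : Set G) (A : Matrix I J Λ) :
    mpr S A + mpr Sᶜ A = A := by
  ext1 i j; exact pr_add_pr_compl _ _

lemma mpr_congr {S S' U : Set G} {A : Matrix I J Λ} (hA : MSup U A)
    (h : ∀ g ∈ U, g ∈ S ↔ g ∈ S') : mpr S A = mpr S' A := by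
  ext1 i j; exact pr_congr (hA i j) h

lemma MSup.mono {S S' : Set G} {A : Matrix I J Λ} (hA : MSup S A)
    (h : S ⊆ S') : MSup S' A := fun i j => (hA i j).mono h

lemma msup_zero (S : Set G) : MSup S (0 : Matrix I J Λ) :=
  fun _ _ => sup_zero S

lemma msup_univ (A : Matrix I J Λ) : MSup Set.univ A := fun _ _ => sup_univ _

lemma MSup.add {S : Set G} {A B : Matrix I J Λ} (hA : MSup S A)
    (hB : MSup S B) : MSup S (A + B) := fun i j => (hA i j).add (hB i j)

lemma MSup.neg {S : Set G} {A : Matrix I J Λ} (hA : MSup S A) :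
    MSup S (-A) := fun i j => (hA i j).neg

lemma MSup.sub {S : Set G} {A B : Matrix I J Λ} (hA : MSup S A)
    (hB : MSup S B) : MSup S (A - B) := fun i j => (hA i j).sub (hB i j)

lemma msup_sum {S : Set G} {ι : Type*} (s : Finset ι) (f : ι → Matrix I J Λ)
    (h : ∀ i ∈ s, MSup S (f i)) : MSup S (∑ i ∈ s, f i) :=
  Finset.sum_induction f (MSup S) (fun _ _ => MSup.add) (msup_zero S) h

lemma msup_one [DecidableEq I] {S : Set G} (h : (1 : G) ∈ S) :
    MSup S (1 : Matrix I I Λ) := by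
  intro i j
  by_cases hij : i = j
  · subst hij; rw [Matrix.one_apply_eq]; exact sup_one h
  · rw [Matrix.one_apply_ne hij]; exact sup_zero S

lemma MSup.mul [Fintype J] {S S' U : Set G} {A : Matrix I J Λ}
    {B : Matrix J K Λ} (hA : MSup S A) (hB : MSup S' B)
    (h : ∀ a ∈ S, ∀ b ∈ S', a * b ∈ U) : MSup U (A * B) := fun i j => by
  rw [Matrix.mul_apply]
  exact sup_sum _ _ fun k _ => (hA i k).mul (hB k j) h

lemma MSup.fromBlocks {L : Type} {S : Set G} {A : Matrix I K Λ}
    {B : Matrix I L Λ} {C : Matrix J K Λ}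
    {D : Matrix J L Λ} (hA : MSup S A) (hB : MSup S B) (hC : MSup S C)
    (hD : MSup S D) : MSup S (fromBlocks A B C D) := by
  rintro (i | i) (j | j)
  exacts [hA i j, hB i j, hC i j, hD i j]

lemma mpr_mul_right [Fintype J] {S S₁ U : Set G} (A : Matrix I J Λ)
    {B : Matrix J K Λ} (hB : MSup U B)
    (h : ∀ g, ∀ k ∈ U, g * k ∈ S ↔ g ∈ S₁) : mpr S (A * B) = mpr S₁ A * B := by
  ext1 i j
  simp only [mpr, Matrix.map_apply, Matrix.mul_apply, map_sum]
  exact Finset.sum_congr rfl fun k _ => pr_mul_right _ (hB k j) h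

lemma mpr_mul_left [Fintype J] {S S₁ U : Set G} {A : Matrix I J Λ}
    (B : Matrix J K Λ) (hA : MSup U A)
    (h : ∀ k ∈ U, ∀ g, k * g ∈ S ↔ g ∈ S₁) : mpr S (A * B) = A * mpr S₁ B := by
  ext1 i j
  simp only [mpr, Matrix.map_apply, Matrix.mul_apply, map_sum]
  exact Finset.sum_congr rfl fun k _ => pr_mul_left _ (hA i k) h

/-- The finite set of group elements occurring in a matrix. -/
lemma exists_finset_msup [Fintype I] [Fintype J] (A : Matrix I J Λ) :
    ∃ s : Finset G, MSup (s : Set G) A ∧ ∀ S : Set G, MSup S A → (s : Set G) ⊆ S := by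
  classical
  refine ⟨Finset.univ.biUnion fun p : I × J => (cp (A p.1 p.2)).support, ?_, ?_⟩
  · intro i j g hg
    simp only [Finset.coe_biUnion, Finset.coe_univ, Set.mem_univ, Set.iUnion_true,
      Set.mem_iUnion, Finset.mem_coe, Finsupp.mem_support_iff]
    exact ⟨(i, j), hg⟩
  · intro S hS g hg
    simp only [Finset.coe_biUnion, Finset.coe_univ, Set.mem_univ, Set.iUnion_true,
      Set.mem_iUnion, Finset.mem_coe, Finsupp.mem_support_iff] at hg
    obtain ⟨p, hp⟩ := hg
    exact hS _ _ g hp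

end Mat

end Gr

end Pool.Agent.MP_f7db47_al
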