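import Pool.Agent.MP_f7db47_al.GrTyped

/-!
Abstract data of an action on a tree, and the basic projection lemmas.
-/

set_option linter.unusedSectionVars false

namespace Pool.Agent.MP_f7db47_al

namespace Gr

open Matrix

universe u w x

/-- Abstract tree data: `E` is a set of representatives of the orbits of edges, `ep e` gives
the two end points and `H e s` is the half tree containing `ep e s`. -/
structure TB (G : Type u) [Group G] (V : Type w) [MulAction G V] where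
  E : Type w
  ep : E → Bool → V
  H : E → Bool → Set V
  hmem : ∀ e s, ep e s ∈ H e s
  hcompl : ∀ e s z, z ∈ H e (!s) ↔ z ∉ H e s
  tri : ∀ e e' (k : G), (e' = e ∧ ∀ s, k • ep e s = ep e s) ∨
    ∀ s s₁ s₂, k • ep e' s₁ ∈ H e s → k • ep e' s₂ ∈ H e s
  hC : ∀ e (c : G), (∀ s, c • ep e s = ep e s) → ∀ s z, z ∈ H e s → c • z ∈ H e s
  nest : ∀ e e' s s' (g : G), g • ep e' (!s') = ep e s →
    ¬ (e' = e ∧ ∀ s, g • ep e s = ep e s) → ∀ z ∈ H e' s', g • z ∈ H e s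
  μ : E → V → ℕ
  lin : ∀ e z, (∃ s, z = ep e s) ∨
    ∃ (k : G) (e' : E) (s : Bool), k • ep e' s = z ∧ μ e (k • ep e' (!s)) < μ e z

namespace TB

variable {G : Type u} [Group G] {Λ : Type x} [Ring Λ] [GrS G Λ]
  {V : Type w} [MulAction G V] (D : TB G V)

/-- The edge groups. -/
def C (e : D.E) : Subgroup G where
  carrier := {c | ∀ s, c • D.ep e s = D.ep e s}
  one_mem' s := one_smul _ _
  mul_mem' {a b} ha hb s := by rw [mul_smul, hb s, ha s]
  inv_mem' {a} ha s := by rw [inv_smul_eq_iff, ha s]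

lemma mem_C {e : D.E} {c : G} : c ∈ D.C e ↔ ∀ s, c • D.ep e s = D.ep e s := Iff.rfl

/-- Elements moving a half tree strictly into another one. -/
def Ah (σ σ' : D.E × Bool) : Set G :=
  {g | (∀ z ∈ D.H σ'.1 σ'.2, g • z ∈ D.H σ.1 σ.2) ∧ ∃ z ∈ D.H σ.1 σ.2, g⁻¹ • z ∉ D.H σ'.1 σ'.2}

lemma ah_mul (σ σ' σ'' : D.E × Bool) : ∀ a ∈ D.Ah σ σ', ∀ b ∈ D.Ah σ' σ'', a * b ∈ D.Ah σ σ'' := by
  rintro a ⟨h1, z, hz, h2⟩ b ⟨h3, -⟩
  refine ⟨fun y hy => by rw [mul_smul]; exact h1 _ (h3 y hy), z, hz, fun h => h2 ?_⟩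
  have := h3 _ h
  rwa [smul_smul, _root_.mul_inv_rev, mul_inv_cancel_left] at this

lemma ah_left (σ σ' : D.E × Bool) : ∀ c ∈ D.C σ.1, ∀ a ∈ D.Ah σ σ', c * a ∈ D.Ah σ σ' := by
  rintro c hc a ⟨h1, z, hz, h2⟩
  refine ⟨fun y hy => by rw [mul_smul]; exact D.hC _ c hc _ _ (h1 y hy), c • z,
    D.hC _ c hc _ _ hz, ?_⟩
  rwa [smul_smul, _root_.mul_inv_rev, inv_mul_cancel_right]

lemma ah_right (σ σ' : D.E × Bool) : ∀ c ∈ D.C σ'.1, ∀ a ∈ D.Ah σ σ', a * c ∈ D.Ah σ σ' := by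
  rintro c hc a ⟨h1, z, hz, h2⟩
  refine ⟨fun y hy => by rw [mul_smul]; exact h1 _ (D.hC _ c hc _ _ hy), z, hz, fun h => h2 ?_⟩
  have := D.hC _ c hc _ _ h
  rwa [smul_smul, _root_.mul_inv_rev, mul_inv_cancel_left] at this

lemma not_mem (e : D.E) (s : Bool) : D.ep e (!s) ∉ D.H e s :=
  (D.hcompl e s _).1 (D.hmem e (!s))

lemma not_mem' (e : D.E) (s : Bool) : D.ep e s ∉ D.H e (!s) := fun h =>
  (D.hcompl e s _).1 h (D.hmem e s)

lemma mem_iff (e : D.E) (s s' : Bool) : D.ep e s' ∈ D.H e s ↔ s' = s := by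
  refine ⟨fun h => ?_, fun h => h ▸ D.hmem e s'⟩
  by_contra hs
  rw [Bool.eq_not.2 hs] at h
  exact D.not_mem e s h

lemma ep_inj {e : D.E} {s s' : Bool} (h : D.ep e s = D.ep e s') : s = s' :=
  (D.mem_iff e s' s).1 (h ▸ D.hmem e s')

lemma C_iff {e : D.E} {c : G} (hc : c ∈ D.C e) (s : Bool) (z : V) :
    c • z ∈ D.H e s ↔ z ∈ D.H e s :=
  ⟨fun h => by simpa using D.hC e _ ((D.C e).inv_mem hc) s _ h, D.hC e c hc s z⟩

lemma C_eq_iff {e : D.E} {c : G} (hc : c ∈ D.C e) (s : Bool) (z : V) :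
    c • z = D.ep e s ↔ z = D.ep e s := by
  rw [← hc s, smul_left_cancel_iff, hc s]

variable {J : Type} (e : J → D.E)

/-- The terms lying on the edge `g₀ τ`. -/
def On (g₀ : G) (τ : D.E) : J → Set G := fun i => {x | e i = τ ∧ g₀⁻¹ * x ∈ D.C τ}

/-- The terms lying on edges inside the half tree `g₀ H τ s`. -/
def Ins (g₀ : G) (τ : D.E) (s : Bool) : J → Set G :=
  fun i => {x | ∀ s', (g₀⁻¹ * x) • D.ep (e i) s' ∈ D.H τ s}

/-- Terms that do not move the edge. -/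
def Same : J → J → Set G := fun i i' => {x | e i' = e i ∧ x ∈ D.C (e i)}

/-- A family of sets that is a union of edges. -/
def Sat (S : J → Set G) : Prop :=
  ∀ i i' x c, e i' = e i → c ∈ D.C (e i) → x ∈ S i → x * c ∈ S i'

variable {D e}

lemma on_one (i : J) : D.On e 1 (e i) = D.Same e i := by
  funext i'; ext x; simp [On, Same]

lemma mem_on_self (i : J) (g : G) : g ∈ D.On e g (e i) i := ⟨rfl, by simp [(D.C _).one_mem]⟩

lemma sat_on (g₀ : G) (τ : D.E) : D.Sat e (D.On e g₀ τ) := by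
  rintro i i' x c h hc ⟨h1, h2⟩
  exact ⟨h.trans h1, by rw [← mul_assoc]; exact (D.C τ).mul_mem h2 (h1 ▸ hc)⟩

lemma Sat.compl {S : J → Set G} (hS : D.Sat e S) : D.Sat e fun i => (S i)ᶜ := by
  intro i i' x c h hc hx hx'
  have := hS i' i _ c⁻¹ h.symm (h ▸ (D.C _).inv_mem hc) hx'
  exact hx (by simpa using this)

lemma Sat.inter {S S' : J → Set G} (hS : D.Sat e S) (hS' : D.Sat e S') :
    D.Sat e fun i => S i ∩ S' i :=
  fun i i' x c h hc hx => ⟨hS i i' x c h hc hx.1, hS' i i' x c h hc hx.2⟩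

lemma Sat.on_subset {S : J → Set G} (hS : D.Sat e S) {g₀ : G} {τ : D.E} {i : J} {x : G}
    (h1 : x ∈ D.On e g₀ τ i) (h2 : x ∈ S i) (i' : J) : D.On e g₀ τ i' ⊆ S i' := by
  rintro y ⟨h3, h4⟩
  have := hS i i' x (x⁻¹ * y) (h3.trans h1.1.symm) (by
    rw [h1.1]
    have := (D.C τ).mul_mem ((D.C τ).inv_mem h1.2) h4
    simpa [mul_assoc] using this) h2
  simpa using this

/-- The component on one edge of the restriction to a union of edges. -/
lemma Sat.prv2_on {S : J → Set G} (hS : D.Sat e S) (g₀ : G) (τ : D.E)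
    (y : J → Λ) :
    prv2 (D.On e g₀ τ) (prv2 S y) = 0 ∨ ((∃ i x, x ∈ D.On e g₀ τ i ∧ x ∈ S i) ∧
      prv2 (D.On e g₀ τ) (prv2 S y) = prv2 (D.On e g₀ τ) y) := by
  by_cases h : ∃ i x, x ∈ D.On e g₀ τ i ∧ x ∈ S i
  · refine Or.inr ⟨h, ?_⟩
    obtain ⟨i, x, h1, h2⟩ := h
    rw [prv2_prv2]
    exact prv2_congr _ fun j g => ⟨fun h => h.1, fun h => ⟨h, hS.on_subset h1 h2 j h⟩⟩
  · exact Or.inl ((vsup2_prv2 _ _).prv2_eq_zero fun j g h1 h2 => h ⟨j, g, h2, h1⟩)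

lemma on_eq {g₀ : G} {τ : D.E} {i : J} {x : G} (h : x ∈ D.On e g₀ τ i) :
    D.On e g₀ τ = D.On e x (e i) := by
  funext j
  exact Set.Subset.antisymm ((sat_on x (e i)).on_subset h (mem_on_self i x) j)
    ((sat_on g₀ τ).on_subset (mem_on_self i x) h j)

/-- Decomposition along the edges. -/
lemma Sat.induction [Fintype J] {P : (J → Λ) → Prop} (h0 : P 0)
    (hadd : ∀ a b, P a → P b → P (a + b)) (y : J → Λ) {S : J → Set G}
    (hS : D.Sat e S) (h : ∀ i, ∀ g ∈ S i, P (prv2 (D.On e g (e i)) y)) : P (prv2 S y) := by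
  have main : ∀ n, ∀ S : J → Set G, D.Sat e S → (∀ i, ∀ g ∈ S i, P (prv2 (D.On e g (e i)) y)) →
      vsize (prv2 S y) ≤ n → P (prv2 S y) := by
    intro n
    induction n with
    | zero => intro S _ _ hn; rw [eq_zero_of_vsize (Nat.le_zero.1 hn)]; exact h0
    | succ n ih =>
      intro S hS h hn
      by_cases hz : prv2 S y = 0
      · rw [hz]; exact h0
      obtain ⟨i, g, hg⟩ := exists_coeff_ne hz
      have hgS : g ∈ S i := vsup2_prv2 S y i g hg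
      rw [prv2_union (S₁ := D.On e g (e i)) (S₂ := fun j => (D.On e g (e i) j)ᶜ ∩ S j) y
        (fun j x => ?_) fun j x h1 h2 => h2.1 h1]
      · refine hadd _ _ (h i g hgS) (ih _ ((sat_on g (e i)).compl.inter hS)
          (fun j x hx => h j x hx.2) ?_)
        have := vsize_prv2_lt (S := fun j => (D.On e g (e i) j)ᶜ) hg
          (fun h => h (mem_on_self i g))
        rw [prv2_prv2] at this
        omega
      · refine ⟨fun hx => ?_, fun hx => hx.elim (hS.on_subset (mem_on_self i g) hgS j ·) (·.2)⟩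
        by_cases h1 : x ∈ D.On e g (e i) j
        · exact Or.inl h1
        · exact Or.inr ⟨h1, hx⟩
  exact main _ S hS h le_rfl

lemma sat_univ : D.Sat e fun _ => Set.univ := fun _ _ _ _ _ _ _ => trivial

lemma on_induction [Fintype J] {P : (J → Λ) → Prop} (h0 : P 0)
    (hadd : ∀ a b, P a → P b → P (a + b)) (y : J → Λ)
    (h : ∀ i g, P (prv2 (D.On e g (e i)) y)) : P y := by
  rw [← prv2_univ y]
  exact sat_univ.induction h0 hadd y fun i g _ => h i g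

lemma same_mul [Fintype J] {A B : Matrix J J Λ} (hA : MSup2 (D.Same e) A)
    (hB : MSup2 (D.Same e) B) : MSup2 (D.Same e) (A * B) :=
  hA.mul hB fun _ _ _ _ ha _ hb =>
    ⟨hb.1.trans ha.1, (D.C _).mul_mem ha.2 (ha.1 ▸ hb.2)⟩

lemma same_one [DecidableEq J] : MSup2 (D.Same e) (1 : Matrix J J Λ) :=
  msup2_one fun _ => ⟨rfl, (D.C _).one_mem⟩

/-- The basic lemma: a chain whose image avoids a half tree. -/
lemma lemB [Fintype J] [DecidableEq J] {z : J → V} {Θ : Bool → Matrix J J Λ}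
    (hΘ : ∀ s, MSup2 (fun i j => {x | x • z j = D.ep (e i) s}) (Θ s))
    {Γ : Matrix J J Λ} (s : Bool) (hΓ : (Θ s + Θ (!s)) * Γ = 1)
    (y : J → Λ) (g₀ : G) (τ : D.E)
    (hy : VSup2 (fun j => {x | (g₀⁻¹ * x) • z j ∉ D.H τ s}) (y ᵥ* (Θ s + Θ (!s)))) :
    prv2 (D.On e g₀ τ) y ᵥ* (Θ s * Γ) = -prv2 (D.Ins e g₀ τ s) y := by
  have h0 : prv2 (fun j => {x | (g₀⁻¹ * x) • z j ∈ D.H τ s}) (y ᵥ* (Θ s + Θ (!s))) = 0 :=
    hy.prv2_eq_zero fun j g h => h
  have h1 : ∀ s', prv2 (fun j => {x | (g₀⁻¹ * x) • z j ∈ D.H τ s}) (y ᵥ* Θ s') =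
      prv2 (fun i => {x | (g₀⁻¹ * x) • D.ep (e i) s' ∈ D.H τ s}) y ᵥ* Θ s' := by
    intro s'
    refine prv2_vecMul_right y (hΘ s') fun i j g k hk => ?_
    simp only [Set.mem_ofPred_eq] at hk ⊢
    rw [← mul_assoc, mul_smul, hk]
  have h2 : prv2 (fun i => {x | (g₀⁻¹ * x) • D.ep (e i) (!s) ∈ D.H τ s}) y =
      prv2 (D.Ins e g₀ τ s) y := by
    refine prv2_congr y fun i x => ⟨fun h => ?_, fun h => h _⟩
    rcases D.tri τ (e i) (g₀⁻¹ * x) with ⟨h3, h4⟩ | h3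
    · rw [Set.mem_ofPred_eq, h3, h4] at h
      exact absurd h (D.not_mem τ s)
    · exact fun s' => h3 s _ s' h
  have h3 : prv2 (fun i => {x | (g₀⁻¹ * x) • D.ep (e i) s ∈ D.H τ s}) y =
      prv2 (D.On e g₀ τ) y + prv2 (D.Ins e g₀ τ s) y := by
    refine prv2_union y (fun i x => ⟨fun h => ?_, ?_⟩) ?_
    · exact (D.tri τ (e i) (g₀⁻¹ * x)).imp id fun h3 s' => h3 s _ s' h
    · rintro (⟨h3, h4⟩ | h)
      · rw [Set.mem_ofPred_eq, h3, h4]; exact D.hmem τ s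
      · exact h s
    · rintro i x ⟨h3, h4⟩ h
      have := h (!s)
      rw [h3, h4] at this
      exact D.not_mem τ s this
  rw [vecMul_add, prv2_add, h1, h1, h2, h3, add_vecMul, add_assoc, ← vecMul_add] at h0
  have := congrArg (· ᵥ* Γ) h0
  simp only [add_vecMul, vecMul_vecMul, hΓ, vecMul_one, zero_vecMul] at this
  exact eq_neg_of_add_eq_zero_left this

lemma lemB0 [Fintype J] [DecidableEq J] {z : J → V} {Θ : Bool → Matrix J J Λ}
    (hΘ : ∀ s, MSup2 (fun i j => {x | x • z j = D.ep (e i) s}) (Θ s))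
    {Γ : Matrix J J Λ} (s : Bool) (hΓ : (Θ s + Θ (!s)) * Γ = 1)
    (y : J → Λ) (g₀ : G) (τ : D.E)
    (hy : VSup2 (fun j => {x | (g₀⁻¹ * x) • z j ∉ D.H τ s}) (y ᵥ* (Θ s + Θ (!s)))) :
    prv2 (D.On e g₀ τ) y ᵥ* mpr2 (D.Same e) (Θ s * Γ) = 0 := by
  rw [← prv2_vecMul_left (S := D.On e g₀ τ) _ (vsup2_prv2 _ _), lemB hΘ s hΓ y g₀ τ hy, prv2_neg,
    (vsup2_prv2 _ _).prv2_eq_zero, neg_zero]
  · rintro i x h ⟨h3, h4⟩
    have := h (!s)
    rw [h3, h4] at this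
    exact D.not_mem τ s this
  · rintro i j k ⟨h1, h2⟩ g
    simp only [On, Same, Set.mem_ofPred_eq, h1, ← mul_assoc]
    exact and_congr_right fun _ => (D.C τ).mul_mem_cancel_left h2

end TB

end Gr

end Pool.Agent.MP_f7db47_al
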