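import Pool.Agent.MP_f7db47_al.GrNil

/-!
Supports depending on the position in the matrix, and two elimination lemmas.
-/

set_option linter.unusedSectionVars false

namespace Pool.Agent.MP_f7db47_al

namespace Gr

open Matrix

universe u w x

variable {G : Type u} [Group G] {Λ : Type x} [Ring Λ] [GrS G Λ]
 
variable {I J K : Type}

/-- Entry `(i, j)` is supported in `S i j`. -/
def MSup2 (S : I → J → Set G) (A : Matrix I J Λ) : Prop :=
  ∀ i j, Sup (S i j) (A i j)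

/-- Entrywise restriction of support, depending on the position. -/
noncomputable def mpr2 (S : I → J → Set G) (A : Matrix I J Λ) :
    Matrix I J Λ := fun i j => pr (S i j) (A i j)

/-- Restriction of the support of a vector, depending on the position. -/
noncomputable def prv2 (S : J → Set G) (v : J → Λ) : J → Λ :=
  fun i => pr (S i) (v i)

/-- A vector supported in `S`. -/
def VSup2 (S : J → Set G) (v : J → Λ) : Prop := ∀ i, Sup (S i) (v i)

lemma mpr2_row (S : I → J → Set G) (A : Matrix I J Λ) (i : I) :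
    mpr2 S A i = prv2 (S i) (A i) := rfl

lemma msup2_mpr2 (S : I → J → Set G) (A : Matrix I J Λ) :
    MSup2 S (mpr2 S A) := fun i j => sup_pr _ (A i j)

lemma MSup2.mpr2 {S S' : I → J → Set G} {A : Matrix I J Λ} (h : MSup2 S A) :
    MSup2 S (mpr2 S' A) := fun i j => (h i j).pr

lemma MSup2.mpr2_eq {S : I → J → Set G} {A : Matrix I J Λ} (h : MSup2 S A) :
    Pool.Agent.MP_f7db47_al.Gr.mpr2 S A = A := by
  ext1 i j; exact (h i j).pr_eq

lemma MSup2.mpr2_eq_zero {S U : I → J → Set G} {A : Matrix I J Λ}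
    (h : MSup2 U A) (hd : ∀ i j, ∀ g ∈ U i j, g ∉ S i j) :
    Pool.Agent.MP_f7db47_al.Gr.mpr2 S A = 0 := by
  ext1 i j; exact (h i j).pr_eq_zero (hd i j)

lemma mpr2_add (S : I → J → Set G) (A B : Matrix I J Λ) :
    mpr2 S (A + B) = mpr2 S A + mpr2 S B := by
  ext1 i j; exact map_add (pr (S i j)) _ _

lemma mpr2_sub (S : I → J → Set G) (A B : Matrix I J Λ) :
    mpr2 S (A - B) = mpr2 S A - mpr2 S B := by
  ext1 i j; exact map_sub (pr (S i j)) _ _

lemma mpr2_neg (S : I → J → Set G) (A : Matrix I J Λ) :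
    mpr2 S (-A) = -mpr2 S A := by
  ext1 i j; exact map_neg (pr (S i j)) _

lemma pr_union {S S₁ S₂ : Set G} (x : Λ) (h : ∀ g, g ∈ S ↔ g ∈ S₁ ∨ g ∈ S₂)
    (hd : ∀ g ∈ S₁, g ∉ S₂) : pr S x = pr S₁ x + pr S₂ x := by
  refine ext' fun g => ?_
  simp only [map_add, Finsupp.add_apply, coeff_pr]
  by_cases h1 : g ∈ S₁
  · simp [h1, hd g h1, h g]
  · by_cases h2 : g ∈ S₂ <;> simp [h1, h2, h g]

lemma mpr2_union {S S₁ S₂ : I → J → Set G} (A : Matrix I J Λ)
    (h : ∀ i j g, g ∈ S i j ↔ g ∈ S₁ i j ∨ g ∈ S₂ i j) (hd : ∀ i j, ∀ g ∈ S₁ i j, g ∉ S₂ i j) :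
    mpr2 S A = mpr2 S₁ A + mpr2 S₂ A := by
  ext1 i j; exact pr_union _ (h i j) (hd i j)

lemma prv2_union {S S₁ S₂ : J → Set G} (v : J → Λ)
    (h : ∀ j g, g ∈ S j ↔ g ∈ S₁ j ∨ g ∈ S₂ j) (hd : ∀ j, ∀ g ∈ S₁ j, g ∉ S₂ j) :
    prv2 S v = prv2 S₁ v + prv2 S₂ v := funext fun j => pr_union _ (h j) (hd j)

lemma MSup2.mono {S S' : I → J → Set G} {A : Matrix I J Λ} (hA : MSup2 S A)
    (h : ∀ i j, S i j ⊆ S' i j) : MSup2 S' A := fun i j => (hA i j).mono (h i j)

lemma msup2_zero (S : I → J → Set G) : MSup2 S (0 : Matrix I J Λ) :=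
  fun _ _ => sup_zero _

lemma MSup2.add {S : I → J → Set G} {A B : Matrix I J Λ} (hA : MSup2 S A)
    (hB : MSup2 S B) : MSup2 S (A + B) := fun i j => (hA i j).add (hB i j)

lemma MSup2.neg {S : I → J → Set G} {A : Matrix I J Λ} (hA : MSup2 S A) :
    MSup2 S (-A) := fun i j => (hA i j).neg

lemma MSup2.sub {S : I → J → Set G} {A B : Matrix I J Λ} (hA : MSup2 S A)
    (hB : MSup2 S B) : MSup2 S (A - B) := fun i j => (hA i j).sub (hB i j)

lemma msup2_one [DecidableEq I] {S : I → I → Set G} (h : ∀ i, (1 : G) ∈ S i i) :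
    MSup2 S (1 : Matrix I I Λ) := by
  intro i j
  by_cases hij : i = j
  · subst hij; rw [Matrix.one_apply_eq]; exact sup_one (h i)
  · rw [Matrix.one_apply_ne hij]; exact sup_zero _

lemma msup2_diagonal [DecidableEq I] {S : I → I → Set G} {d : I → Λ}
    (h : ∀ i, Sup (S i i) (d i)) : MSup2 S (diagonal d) := by
  intro i j
  by_cases hij : i = j
  · subst hij; rw [diagonal_apply_eq]; exact h i
  · rw [diagonal_apply_ne _ hij]; exact sup_zero _

lemma MSup2.mul [Fintype J] {S : I → J → Set G} {S' : J → K → Set G} {U : I → K → Set G}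
    {A : Matrix I J Λ} {B : Matrix J K Λ} (hA : MSup2 S A)
    (hB : MSup2 S' B) (h : ∀ i j k, ∀ a ∈ S i j, ∀ b ∈ S' j k, a * b ∈ U i k) :
    MSup2 U (A * B) := fun i k => by
  rw [Matrix.mul_apply]
  exact sup_sum _ _ fun j _ => (hA i j).mul (hB j k) (h i j k)

lemma mpr2_mul_right [Fintype J] {S : I → K → Set G} {S₁ : I → J → Set G} {U : J → K → Set G}
    (A : Matrix I J Λ) {B : Matrix J K Λ} (hB : MSup2 U B)
    (h : ∀ i j k g, ∀ y ∈ U j k, g * y ∈ S i k ↔ g ∈ S₁ i j) :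
    mpr2 S (A * B) = mpr2 S₁ A * B := by
  ext1 i k
  simp only [mpr2, Matrix.mul_apply, map_sum]
  exact Finset.sum_congr rfl fun j _ => pr_mul_right _ (hB j k) (h i j k)

lemma mpr2_mul_left [Fintype J] {S : I → K → Set G} {S₁ : J → K → Set G} {U : I → J → Set G}
    {A : Matrix I J Λ} (B : Matrix J K Λ) (hA : MSup2 U A)
    (h : ∀ i j k, ∀ y ∈ U i j, ∀ g, y * g ∈ S i k ↔ g ∈ S₁ j k) :
    mpr2 S (A * B) = A * mpr2 S₁ B := by
  ext1 i k
  simp only [mpr2, Matrix.mul_apply, map_sum]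
  exact Finset.sum_congr rfl fun j _ => pr_mul_left _ (hA i j) (h i j k)

lemma vsup2_prv2 (S : J → Set G) (v : J → Λ) : VSup2 S (prv2 S v) :=
  fun i => sup_pr _ (v i)

lemma VSup2.prv2_eq {S : J → Set G} {v : J → Λ} (h : VSup2 S v) :
    prv2 S v = v := funext fun i => (h i).pr_eq

lemma VSup2.prv2_eq_zero {S U : J → Set G} {v : J → Λ} (h : VSup2 U v)
    (hd : ∀ j, ∀ g ∈ U j, g ∉ S j) : prv2 S v = 0 := funext fun i => (h i).pr_eq_zero (hd i)

lemma prv2_prv2 (S S' : J → Set G) (v : J → Λ) :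
    prv2 S (prv2 S' v) = prv2 (fun j => S j ∩ S' j) v := funext fun _ => pr_pr _ _ _

lemma prv2_congr {S S' : J → Set G} (v : J → Λ)
    (h : ∀ j g, g ∈ S j ↔ g ∈ S' j) : prv2 S v = prv2 S' v := by
  have : S = S' := funext fun j => Set.ext (h j)
  rw [this]

lemma prv2_zero (S : J → Set G) : prv2 S (0 : J → Λ) = 0 :=
  funext fun j => map_zero (pr (S j))

lemma prv2_add (S : J → Set G) (v w : J → Λ) :
    prv2 S (v + w) = prv2 S v + prv2 S w := funext fun j => map_add (pr (S j)) _ _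

lemma prv2_neg (S : J → Set G) (v : J → Λ) :
    prv2 S (-v) = -prv2 S v := funext fun j => map_neg (pr (S j)) _

lemma prv2_univ (v : J → Λ) : prv2 (fun _ => Set.univ) v = v :=
  funext fun _ => pr_univ _

lemma prv2_vecMul_right [Fintype I] {S : J → Set G} {S₁ : I → Set G} {U : I → J → Set G}
    (v : I → Λ) {B : Matrix I J Λ} (hB : MSup2 U B)
    (h : ∀ i j g, ∀ k ∈ U i j, g * k ∈ S j ↔ g ∈ S₁ i) : prv2 S (v ᵥ* B) = prv2 S₁ v ᵥ* B := by
  funext j
  simp only [prv2, vecMul, dotProduct, map_sum]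
  exact Finset.sum_congr rfl fun i _ => pr_mul_right _ (hB i j) (h i j)

lemma prv2_vecMul_left [Fintype I] {S : J → Set G} {S₁ : I → J → Set G} {U : I → Set G}
    {v : I → Λ} (B : Matrix I J Λ) (hv : VSup2 U v)
    (h : ∀ i j, ∀ k ∈ U i, ∀ g, k * g ∈ S j ↔ g ∈ S₁ i j) :
    prv2 S (v ᵥ* B) = v ᵥ* mpr2 S₁ B := by
  funext j
  simp only [prv2, vecMul, dotProduct, map_sum, mpr2]
  exact Finset.sum_congr rfl fun i _ => pr_mul_left _ (hv i) (h i j)

lemma VSup2.vecMul [Fintype I] {S : I → Set G} {S' : I → J → Set G} {U : J → Set G}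
    {v : I → Λ} {B : Matrix I J Λ} (hv : VSup2 S v)
    (hB : MSup2 S' B) (h : ∀ i j, ∀ a ∈ S i, ∀ b ∈ S' i j, a * b ∈ U j) : VSup2 U (v ᵥ* B) :=
  fun j => sup_sum _ _ fun i _ => (hv i).mul (hB i j) (h i j)

lemma prv2_single_smul (S : J → Set G) (g : G) {a : Λ} (ha : Sup {g} a) (v : J → Λ) :
    prv2 S (a • v) = a • prv2 (fun j => {y | g * y ∈ S j}) v := by
  funext j
  simp only [prv2, Pi.smul_apply, smul_eq_mul]
  refine pr_mul_left (U := {g}) _ ha ?_
  rintro k rfl y; rfl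

/-- The total size of the support of a vector. -/
noncomputable def vsize [Fintype J] (v : J → Λ) : ℕ :=
  ∑ j, (cp (v j)).support.card

lemma support_pr_subset (S : Set G) (x : Λ) :
    (cp (pr S x)).support ⊆ (cp x).support := by
  intro g hg
  rw [Finsupp.mem_support_iff] at hg ⊢
  intro h0
  exact hg (by simp [coeff_pr, h0])

lemma vsize_prv2_lt [Fintype J] {S : J → Set G} {v : J → Λ} {j : J} {g : G}
    (h1 : cp (v j) g ≠ 0) (h2 : g ∉ S j) : vsize (prv2 S v) < vsize v := by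
  refine Finset.sum_lt_sum (fun i _ => Finset.card_le_card (support_pr_subset _ _))
    ⟨j, Finset.mem_univ _, Finset.card_lt_card ⟨support_pr_subset _ _, fun h => ?_⟩⟩
  have := h (Finsupp.mem_support_iff.2 h1)
  exact h2 (sup_pr _ _ g (Finsupp.mem_support_iff.1 this))

lemma exists_coeff_ne {v : J → Λ} (h : v ≠ 0) : ∃ j g, cp (v j) g ≠ 0 := by
  by_contra h0
  push Not at h0
  exact h (funext fun j => ext' fun g => by simpa using h0 j g)

lemma eq_zero_of_vsize [Fintype J] {v : J → Λ} (h : vsize v = 0) : v = 0 := by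
  by_contra h0
  obtain ⟨j, g, hg⟩ := exists_coeff_ne h0
  have := vsize_prv2_lt (S := fun _ => ∅) hg (Set.notMem_empty g)
  omega

section Elim

variable [Fintype J] [DecidableEq J]

/-- Elimination of the blocks of a nilpotent matrix, one type at a time. -/
lemma elim_types (S : TS Λ) {K₀ : Subgroup G} (F : Filt Λ K₀ J) {A : Type*}
    (q : A → Matrix J J Λ) (hq : ∀ σ σ', σ ≠ σ' → q σ * q σ' = 0)
    (Ah : A → A → Set G) (hAh : ∀ σ σ' σ'', ∀ a ∈ Ah σ σ', ∀ b ∈ Ah σ' σ'', a * b ∈ Ah σ σ'')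
    (hdiag : ∀ σ a, MSup (Ah σ σ) a → q σ * a = a → a * q σ = a → F.Low 1 a → S.T (1 - a))
    (s : Finset A) : ∀ n : A → A → Matrix J J Λ,
      (∀ σ σ', MSup (Ah σ σ') (n σ σ')) → (∀ σ σ', q σ * n σ σ' = n σ σ') →
      (∀ σ σ', n σ σ' * q σ' = n σ σ') → (∀ σ σ', F.Low 1 (n σ σ')) →
      S.T (1 - ∑ σ ∈ s, ∑ σ' ∈ s, n σ σ') := by
  classical
  induction s using Finset.induction_on with
  | empty => intro n _ _ _ _; simpa using S.one
  | insert σ₀ s hs ih =>
    intro n h1 h2 h3 h4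
    obtain ⟨γ, hγ, hlγ, hi1, hi2⟩ := (h4 σ₀ σ₀).geom (hAh σ₀ σ₀ σ₀) (h1 σ₀ σ₀)
    set a := n σ₀ σ₀ with ha
    have hγ1 : γ = a + a * γ := by
      have : (1 - a) * (1 + γ) = 1 + (γ - (a + a * γ)) := by noncomm_ring
      rw [this, add_eq_left, sub_eq_zero] at hi1; exact hi1
    have hγ2 : γ = a + γ * a := by
      have : (1 + γ) * (1 - a) = 1 + (γ - (a + γ * a)) := by noncomm_ring
      rw [this, add_eq_left, sub_eq_zero] at hi2; exact hi2
    have hqγ : q σ₀ * γ = γ := by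
      conv_lhs => rw [hγ1, mul_add, ← mul_assoc, h2]
      exact hγ1.symm
    have hγq : γ * q σ₀ = γ := by
      conv_lhs => rw [hγ2, add_mul, mul_assoc, h3]
      exact hγ2.symm
    set b := ∑ σ' ∈ s, n σ₀ σ' with hb
    set c := ∑ σ ∈ s, n σ σ₀ with hc
    set d := ∑ σ ∈ s, ∑ σ' ∈ s, n σ σ' with hd
    have hne : ∀ σ ∈ s, σ ≠ σ₀ := fun σ hσ e => hs (e ▸ hσ)
    have hl0 : ∀ σ ∈ s, ∀ σ', q σ₀ * n σ σ' = 0 := fun σ hσ σ' => by
      rw [← h2, ← mul_assoc, hq _ _ (hne σ hσ).symm, zero_mul]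
    have hr0 : ∀ σ, ∀ σ' ∈ s, n σ σ' * q σ₀ = 0 := fun σ σ' hσ' => by
      rw [← h3, mul_assoc, hq _ _ (hne σ' hσ'), mul_zero]
    have hqb : q σ₀ * b = b := by
      rw [hb, Finset.mul_sum]; exact Finset.sum_congr rfl fun σ _ => h2 _ _
    have hbq : b * q σ₀ = 0 := by
      rw [hb, Finset.sum_mul]; exact Finset.sum_eq_zero fun σ hσ => hr0 _ _ hσ
    have hqc : q σ₀ * c = 0 := by
      rw [hc, Finset.mul_sum]; exact Finset.sum_eq_zero fun σ hσ => hl0 _ hσ _
    have hcq : c * q σ₀ = c := by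
      rw [hc, Finset.sum_mul]; exact Finset.sum_congr rfl fun σ _ => h3 _ _
    have hqd : q σ₀ * d = 0 := by
      rw [hd, Finset.mul_sum]
      refine Finset.sum_eq_zero fun σ hσ => ?_
      rw [Finset.mul_sum]; exact Finset.sum_eq_zero fun σ' _ => hl0 _ hσ _
    have hdq : d * q σ₀ = 0 := by
      rw [hd, Finset.sum_mul]
      refine Finset.sum_eq_zero fun σ _ => ?_
      rw [Finset.sum_mul]; exact Finset.sum_eq_zero fun σ' hσ' => hr0 _ _ hσ'
    have hT := ih (fun σ σ' => n σ σ' + n σ σ₀ * (1 + γ) * n σ₀ σ') (fun σ σ' => ?_)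
      (fun σ σ' => ?_) (fun σ σ' => ?_) (fun σ σ' => ?_)
    · have hd' : ∑ σ ∈ s, ∑ σ' ∈ s, (n σ σ' + n σ σ₀ * (1 + γ) * n σ₀ σ') =
          d + c * (1 + γ) * b := by
        simp only [Finset.sum_add_distrib, hd, hc, hb, Finset.sum_mul, Finset.mul_sum]
        rw [Finset.sum_comm (s := s) (t := s) (f := fun σ σ' => n σ σ₀ * (1 + γ) * n σ₀ σ')]
      rw [hd'] at hT
      have hsum : ∑ σ ∈ insert σ₀ s, ∑ σ' ∈ insert σ₀ s, n σ σ' = a + b + c + d := by
        simp only [Finset.sum_insert hs, Finset.sum_add_distrib, ha, hb, hc, hd]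
        abel
      have hcs : c * (1 + γ) * q σ₀ = c * (1 + γ) := by
        rw [mul_add, add_mul, mul_one, hcq, mul_assoc, hγq]
      have t1 : S.T (1 - c * (1 + γ)) := by
        refine S.sq_zero (p := 1 - q σ₀) ?_ ?_
        · rw [sub_mul, one_mul, ← mul_assoc, hqc, zero_mul, sub_zero]
        · rw [mul_sub, mul_one, hcs, sub_self]
      have t2 : S.T (1 - (1 + γ) * b) := by
        refine S.sq_zero (p := q σ₀) ?_ ?_
        · rw [add_mul, mul_add, one_mul, hqb, ← mul_assoc, hqγ]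
        · rw [mul_assoc, hbq, mul_zero]
      have t3 := hdiag σ₀ a (h1 _ _) (h2 _ _) (h3 _ _) (h4 _ _)
      have := S.mul t1 (S.mul hT (S.mul t3 t2))
      rw [hsum]
      convert this using 1
      set d' := d + c * (1 + γ) * b with hd''
      have hd'q : d' * q σ₀ = 0 := by rw [hd'', add_mul, hdq, mul_assoc, hbq, mul_zero, add_zero]
      have hqd' : q σ₀ * d' = 0 := by
        rw [hd'', mul_add, hqd, ← mul_assoc, ← mul_assoc, hqc, zero_mul, zero_mul, add_zero]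
      have e1 : (1 - a) * (1 - (1 + γ) * b) = 1 - a - b := by
        rw [mul_sub, mul_one, ← mul_assoc, hi1, one_mul]
      have e2 : d' * a = 0 := by rw [ha, ← h2 σ₀ σ₀, ← mul_assoc, hd'q, zero_mul]
      have e3 : d' * b = 0 := by rw [← hqb, ← mul_assoc, hd'q, zero_mul]
      have e4 : c * (1 + γ) * d' = 0 := by rw [← hcs, mul_assoc, hqd', mul_zero]
      have e5 : (1 - c * (1 + γ)) * ((1 - d') * (1 - a - b)) =
          1 - a - b - d' - c * ((1 + γ) * (1 - a)) + c * (1 + γ) * b + c * (1 + γ) * d' +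
            (1 - c * (1 + γ)) * (d' * a + d' * b) := by noncomm_ring
      rw [e1, e5, e2, e3, e4, hi2, hd'']
      noncomm_ring
    · rw [mul_add, mul_one, add_mul]
      exact (h1 _ _).add (((h1 _ _).mul (h1 _ _) (hAh _ _ _)).add
        (((h1 _ _).mul hγ (hAh _ _ _)).mul (h1 _ _) (hAh _ _ _)))
    · rw [mul_add, h2, ← mul_assoc, ← mul_assoc, h2]
    · rw [add_mul, h3, mul_assoc, h3]
    · rw [mul_add, mul_one, add_mul]
      exact (h4 _ _).add ((((h4 _ _).mul (h4 _ _)).of_le (by omega)).add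
        ((((h4 _ _).mul hlγ).mul (h4 _ _)).of_le (by omega)))

end Elim

end Gr

end Pool.Agent.MP_f7db47_al
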