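import Pool.Agent.MP_f7db47_al.HallWr

/-! The wreath power `Wr_ℤ A` of P. Hall, extended by the shift. -/

namespace Pool.Agent.MP_f7db47_al

variable {A : Type} [Group A]

open Classical in
/-- Multiply the `i`-th coordinate by `a` if all higher coordinates are trivial. -/
noncomputable def genFun (i : ℤ) (a : A) (f : ℤ → A) : ℤ → A :=
  if ∀ j, i < j → f j = 1 then Function.update f i (a * f i) else f

theorem genFun_ne (i : ℤ) (a : A) (f : ℤ → A) {j : ℤ} (hj : j ≠ i) : genFun i a f j = f j := by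
  unfold genFun
  split_ifs
  · exact Function.update_of_ne hj _ _
  · rfl

theorem genFun_pos (i : ℤ) (a : A) {f : ℤ → A} (hf : ∀ j, i < j → f j = 1) :
    genFun i a f i = a * f i := by
  unfold genFun
  rw [if_pos hf, Function.update_self]

theorem genFun_neg (i : ℤ) (a : A) {f : ℤ → A} (hf : ¬ ∀ j, i < j → f j = 1) :
    genFun i a f = f := by
  unfold genFun
  rw [if_neg hf]

theorem genFun_one (i : ℤ) (f : ℤ → A) : genFun i 1 f = f := by
  unfold genFun
  split_ifs <;> simp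

theorem genFun_mul (i : ℤ) (a b : A) (f : ℤ → A) :
    genFun i (a * b) f = genFun i a (genFun i b f) := by
  by_cases hf : ∀ j, i < j → f j = 1
  · have hf' : ∀ j, i < j → genFun i b f j = 1 := fun j hj => by
      rw [genFun_ne i b f hj.ne', hf j hj]
    funext j
    by_cases hj : j = i
    · subst hj
      rw [genFun_pos j _ hf, genFun_pos j _ hf', genFun_pos j _ hf, mul_assoc]
    · rw [genFun_ne _ _ _ hj, genFun_ne _ _ _ hj, genFun_ne _ _ _ hj]
  · rw [genFun_neg _ _ hf, genFun_neg _ _ hf, genFun_neg _ _ hf]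

/-- The copy of `A` at level `i`, acting on functions `ℤ → A`. -/
noncomputable def gen (A : Type) [Group A] (i : ℤ) : A →* Equiv.Perm (ℤ → A) where
  toFun a :=
    { toFun := genFun i a
      invFun := genFun i a⁻¹
      left_inv := fun f => by rw [← genFun_mul, inv_mul_cancel, genFun_one]
      right_inv := fun f => by rw [← genFun_mul, mul_inv_cancel, genFun_one] }
  map_one' := Equiv.ext fun f => genFun_one i f
  map_mul' a b := Equiv.ext fun f => genFun_mul i a b f

/-- The shift of coordinates. -/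
def shift (A : Type) : Equiv.Perm (ℤ → A) where
  toFun f j := f (j - 1)
  invFun f j := f (j + 1)
  left_inv f := by funext j; simp
  right_inv f := by funext j; simp

/-- The wreath power `Wr_ℤ A` extended by the shift. -/
noncomputable def Hall (A : Type) [Group A] : Subgroup (Equiv.Perm (ℤ → A)) :=
  Subgroup.closure (insert (shift A) (Set.range (gen A 0)))

theorem gen_apply (i : ℤ) (a : A) (f : ℤ → A) : gen A i a f = genFun i a f := rfl

omit [Group A] in
theorem shift_zpow (r : ℤ) (f : ℤ → A) (j : ℤ) : (shift A ^ r) f j = f (j - r) := by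
  induction r using Int.induction_on generalizing f j with
  | zero => simp
  | succ n ih =>
    rw [zpow_add_one, Equiv.Perm.mul_apply, ih]
    show f _ = f _
    congr 1; ring
  | pred n ih =>
    rw [zpow_sub_one, Equiv.Perm.mul_apply, ih]
    show f _ = f _
    congr 1; ring

theorem shift_gen (r i : ℤ) (a : A) :
    shift A ^ r * gen A i a * (shift A ^ r)⁻¹ = gen A (i + r) a := by
  rw [mul_inv_eq_iff_eq_mul]
  ext f j
  rw [Equiv.Perm.mul_apply, Equiv.Perm.mul_apply, shift_zpow, gen_apply, gen_apply]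
  have hiff : (∀ j, i + r < j → (shift A ^ r) f j = 1) ↔ ∀ j, i < j → f j = 1 := by
    constructor
    · intro h j hj
      have := h (j + r) (by omega)
      rwa [shift_zpow, add_sub_cancel_right] at this
    · intro h j hj
      rw [shift_zpow]; exact h _ (by omega)
  by_cases hj : j = i + r
  · subst hj
    rw [add_sub_cancel_right]
    by_cases hf : ∀ j, i < j → f j = 1
    · rw [genFun_pos _ _ hf, genFun_pos _ _ (hiff.2 hf), shift_zpow, add_sub_cancel_right]
    · rw [genFun_neg _ _ hf, genFun_neg _ _ (mt hiff.1 hf), shift_zpow, add_sub_cancel_right]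
  · rw [genFun_ne _ _ _ hj, genFun_ne _ _ _ (by omega), shift_zpow]

/-- Permutations fixing the coordinates `≥ b` and moving only functions with value in `U` at
`b` and trivial above `b`. -/
def Mv (b : ℤ) (U : Set A) : Subgroup (Equiv.Perm (ℤ → A)) where
  carrier := {σ | (∀ f j, b ≤ j → σ f j = f j) ∧
    ∀ f, σ f ≠ f → f b ∈ U ∧ ∀ j, b < j → f j = 1}
  one_mem' := ⟨fun _ _ _ => rfl, fun _ h => absurd rfl h⟩
  mul_mem' := by
    rintro σ τ ⟨h1, h2⟩ ⟨g1, g2⟩
    refine ⟨fun f j hj => by rw [Equiv.Perm.mul_apply, h1 _ _ hj, g1 _ _ hj], fun f hf => ?_⟩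
    by_cases hτ : τ f = f
    · exact h2 f (by rwa [Equiv.Perm.mul_apply, hτ] at hf)
    · exact g2 f hτ
  inv_mem' := by
    rintro σ ⟨h1, h2⟩
    refine ⟨fun f j hj => ?_, fun f hf => h2 f fun h => hf ?_⟩
    · rw [← h1 (σ⁻¹ f) j hj]; simp
    · rw [Equiv.Perm.inv_eq_iff_eq, h]

theorem Mv_conj {b : ℤ} {U : Set A} {y : Equiv.Perm (ℤ → A)} (a : A) (hy : y ∈ Mv b U) :
    gen A b a * y * (gen A b a)⁻¹ ∈ Mv b {u | a⁻¹ * u ∈ U} := by
  have key : ∀ f, (gen A b a * y * (gen A b a)⁻¹) f ≠ f →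
      y (genFun b a⁻¹ f) ≠ genFun b a⁻¹ f ∧ ∀ j, b < j → f j = 1 := by
    intro f hf
    have h1 : y (genFun b a⁻¹ f) ≠ genFun b a⁻¹ f := fun h => hf (by
      show genFun b a (y (genFun b a⁻¹ f)) = f
      rw [h, ← genFun_mul, mul_inv_cancel, genFun_one])
    refine ⟨h1, fun j hj => ?_⟩
    rw [← (hy.2 _ h1).2 j hj, genFun_ne _ _ _ hj.ne']
  refine ⟨fun f j hj => ?_, fun f hf => ⟨?_, (key f hf).2⟩⟩
  · by_cases hf : (gen A b a * y * (gen A b a)⁻¹) f = f
    · rw [hf]
    · obtain ⟨_, h2⟩ := key f hf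
      show genFun b a (y (genFun b a⁻¹ f)) j = f j
      rcases hj.eq_or_lt with rfl | hj'
      · rw [genFun_pos, hy.1 _ _ le_rfl, genFun_pos _ _ h2, mul_inv_cancel_left]
        intro k hk
        rw [hy.1 _ _ hk.le, genFun_ne _ _ _ hk.ne', h2 k hk]
      · rw [genFun_ne _ _ _ hj'.ne', hy.1 _ _ hj, genFun_ne _ _ _ hj'.ne']
  · have := (hy.2 _ (key f hf).1).1
    rwa [genFun_pos _ _ (key f hf).2] at this

theorem Mv_comm {b : ℤ} {U V : Set A} {y z : Equiv.Perm (ℤ → A)} (h : Disjoint U V)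
    (hy : y ∈ Mv b U) (hz : z ∈ Mv b V) : y * z = z * y := by
  refine Equiv.Perm.Disjoint.commute fun f => ?_
  by_contra hc
  push Not at hc
  exact Set.disjoint_left.1 h (hy.2 f hc.1).1 (hz.2 f hc.2).1

theorem Mv_mono {b : ℤ} {U V : Set A} (h : U ⊆ V) : Mv b U ≤ Mv b V :=
  fun _ hy => ⟨hy.1, fun f hf => ⟨h (hy.2 f hf).1, (hy.2 f hf).2⟩⟩

theorem gen_mem_Mv {i b : ℤ} (h : i < b) (u : A) : gen A i u ∈ Mv b ({1} : Set A) := by
  refine ⟨fun f j hj => genFun_ne _ _ _ (by omega), fun f hf => ?_⟩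
  have : ∀ j, i < j → f j = 1 := by
    by_contra hc
    exact hf (genFun_neg _ _ hc)
  exact ⟨this b h, fun j hj => this j (by omega)⟩

section step

variable (b : ℤ) (Y : Subgroup (Equiv.Perm (ℤ → A)))

/-- The subgroup generated by the conjugates of `Y` under level `b`. -/
noncomputable def Base : Subgroup (Equiv.Perm (ℤ → A)) :=
  Subgroup.closure {σ | ∃ u, ∃ y ∈ Y, σ = gen A b u * y * (gen A b u)⁻¹}

variable {b Y} (hY : Y ≤ Mv b {1})
include hY

theorem conj_mem_Mv (u : A) {y : Equiv.Perm (ℤ → A)} (hy : y ∈ Y) :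
    gen A b u * y * (gen A b u)⁻¹ ∈ Mv b {u} :=
  Mv_mono (fun _ hv => (inv_mul_eq_one.1 hv).symm) (Mv_conj u (hY hy))

theorem base_dec (U : Set A) (H : Subgroup (Equiv.Perm (ℤ → A))) (hH : H ≤ Mv b U)
    (hU : ∀ u ∈ U, ∀ y ∈ Y, gen A b u * y * (gen A b u)⁻¹ ∈ H) {σ : Equiv.Perm (ℤ → A)}
    (hσ : σ ∈ Base b Y) : ∃ y₁ ∈ H, ∃ y₂ ∈ Base b Y ⊓ Mv b Uᶜ, σ = y₁ * y₂ := by
  induction hσ using Subgroup.closure_induction with
  | mem x hx =>
    obtain ⟨u, y, hy, rfl⟩ := hx
    by_cases hu : u ∈ U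
    · exact ⟨_, hU u hu y hy, 1, one_mem _, by simp⟩
    · exact ⟨1, one_mem _, _, ⟨Subgroup.subset_closure ⟨u, y, hy, rfl⟩,
        Mv_mono (by simpa using hu) (conj_mem_Mv hY u hy)⟩, by simp⟩
  | one => exact ⟨1, one_mem _, 1, one_mem _, by simp⟩
  | mul x y _ _ hx hy =>
    obtain ⟨x₁, h₁, x₂, h₂, rfl⟩ := hx
    obtain ⟨y₁, g₁, y₂, g₂, rfl⟩ := hy
    refine ⟨x₁ * y₁, mul_mem h₁ g₁, x₂ * y₂, mul_mem h₂ g₂, ?_⟩
    rw [mul_assoc, mul_assoc, ← mul_assoc x₂, ← Mv_comm disjoint_compl_right (hH g₁) h₂.2,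
      mul_assoc]
  | inv x _ hx =>
    obtain ⟨x₁, h₁, x₂, h₂, rfl⟩ := hx
    refine ⟨x₁⁻¹, inv_mem h₁, x₂⁻¹, inv_mem h₂, ?_⟩
    rw [Mv_comm disjoint_compl_right (hH h₁) h₂.2, mul_inv_rev]

/-- The wreath product data for `Y ≀ A` with `A` at level `b`. -/
noncomputable def wrData : WrData (Equiv.Perm (ℤ → A)) A where
  φ := gen A b
  N U := Base b Y ⊓ Mv b U
  mono h := inf_le_inf_left _ (Mv_mono h)
  inf hU hV := ⟨hU.1, hU.2.1, fun f hf => ⟨⟨(hU.2.2 f hf).1, (hV.2.2 f hf).1⟩, (hU.2.2 f hf).2⟩⟩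
  empty h := Equiv.ext fun f => by
    by_contra hf
    exact (h.2.2 f hf).1
  conj := by
    intro U y a hy
    refine ⟨?_, Mv_conj a hy.2⟩
    have hy1 : y ∈ Base b Y := hy.1
    clear hy
    show _ ∈ Base b Y
    induction hy1 using Subgroup.closure_induction with
    | mem x hx =>
      obtain ⟨u, y, hy, rfl⟩ := hx
      refine Subgroup.subset_closure ?_
      exact ⟨a * u, y, hy, by simp [mul_assoc]⟩
    | one => simp
    | mul x y _ _ hx hy => simpa [mul_assoc] using mul_mem hx hy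
    | inv x _ hx => simpa [mul_assoc] using inv_mem hx
  comm h hy hz := Mv_comm h hy.2 hz.2
  dec hy U := base_dec hY U (Base b Y ⊓ Mv b U) inf_le_right (fun u hu y hy =>
    ⟨(Subgroup.subset_closure ⟨u, y, hy, rfl⟩ : _ ∈ Base b Y),
      Mv_mono (by simpa using hu) (conj_mem_Mv hY u hy)⟩) hy.1
  fin := by
    classical
    intro y hy
    suffices ∃ E : Finset A, y ∈ Mv b (E : Set A) from this.imp fun E hE => ⟨hy.1, hE⟩
    have hy1 := hy.1
    clear hy
    induction hy1 using Subgroup.closure_induction with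
    | mem x hx =>
      obtain ⟨u, y, hy, rfl⟩ := hx
      exact ⟨{u}, by simpa using conj_mem_Mv hY u hy⟩
    | one => exact ⟨∅, one_mem _⟩
    | mul x y _ _ hx hy =>
      obtain ⟨E, hE⟩ := hx
      obtain ⟨F, hF⟩ := hy
      exact ⟨E ∪ F, mul_mem (Mv_mono (by simp) hE) (Mv_mono (by simp) hF)⟩
    | inv x _ hx => exact hx.imp fun E hE => inv_mem hE
  top := by
    intro a ha
    have := ha.2.1 1 b le_rfl
    rw [gen_apply, genFun_pos (f := 1) _ _ fun _ _ => rfl] at this
    simpa using this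

theorem D_step {D : (G : Type) → [Group G] → Prop} (C : Closed D) (hA : PolyZS A) (hD : D Y) :
    D (Y ⊔ (gen A b).range : Subgroup _) := by
  let w := wrData hY
  have h1 : ∀ u, D (w.N {u}) := by
    intro u
    let c : Equiv.Perm (ℤ → A) →* Equiv.Perm (ℤ → A) := (MulAut.conj (gen A b u)).toMonoidHom
    have hle : Y.map c ≤ w.N {u} := by
      rintro _ ⟨y, hy, rfl⟩
      exact ⟨Subgroup.subset_closure ⟨u, y, hy, rfl⟩, conj_mem_Mv hY u hy⟩
    refine C.of_eq (le_antisymm hle fun σ hσ => ?_) (C.map c (MulAut.conj _).injective hD)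
    obtain ⟨y₁, h₁, y₂, h₂, rfl⟩ := base_dec hY {u} (Y.map c) (fun y hy => (hle hy).2)
      (by rintro _ rfl y hy; exact ⟨y, hy, rfl⟩) hσ.1
    have : y₂ = 1 := w.eq_one_of_disjoint disjoint_compl_right
      (by simpa using mul_mem (inv_mem (hle h₁)) hσ) h₂
    simpa [this] using h₁
  refine C.of_eq ?_ (w.D_wr C h1 hA (MonoidHom.id A) Function.injective_id)
  apply le_antisymm
  · rintro _ ⟨n, hn, a, -, rfl⟩
    refine mul_mem ?_ (Subgroup.mem_sup_right ⟨a, rfl⟩)
    refine (Subgroup.closure_le _).2 ?_ hn.1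
    rintro _ ⟨u, y, hy, rfl⟩
    exact mul_mem (mul_mem (Subgroup.mem_sup_right ⟨u, rfl⟩) (Subgroup.mem_sup_left hy))
      (inv_mem (Subgroup.mem_sup_right ⟨u, rfl⟩))
  · refine sup_le (fun y hy => ⟨y, ⟨Subgroup.subset_closure ⟨1, y, hy, by simp⟩,
      Mv_mono (Set.subset_univ _) (hY hy)⟩, 1, one_mem _, by simp⟩) ?_
    rintro _ ⟨a, rfl⟩
    exact ⟨1, one_mem _, a, ⟨a, rfl⟩, (one_mul _).symm⟩

end step

/-- The subgroup generated by the levels in a set. -/
noncomputable def Lev (A : Type) [Group A] (I : Set ℤ) : Subgroup (Equiv.Perm (ℤ → A)) :=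
  Subgroup.closure {σ | ∃ i ∈ I, ∃ u, σ = gen A i u}

theorem Lev_mono {I J : Set ℤ} (h : I ⊆ J) : Lev A I ≤ Lev A J :=
  Subgroup.closure_mono fun _ ⟨i, hi, u, e⟩ => ⟨i, h hi, u, e⟩

theorem D_Ico {D : (G : Type) → [Group G] → Prop} (C : Closed D) (hA : PolyZS A) (a : ℤ) (n : ℕ) :
    D (Lev A (Set.Ico a (a + n))) := by
  induction n with
  | zero =>
    refine C.of_eq ?_ C.bot
    simp [Lev]
  | succ n ih =>
    have hY : Lev A (Set.Ico a (a + n)) ≤ Mv (a + n) {1} :=
      (Subgroup.closure_le _).2 (by rintro _ ⟨i, hi, u, rfl⟩; exact gen_mem_Mv hi.2 u)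
    refine C.of_eq ?_ (D_step hY C hA ih)
    apply le_antisymm
    · refine sup_le (Lev_mono (Set.Ico_subset_Ico_right (by push_cast; omega))) ?_
      rintro _ ⟨u, rfl⟩
      exact Subgroup.subset_closure ⟨a + n, ⟨by omega, by push_cast; omega⟩, u, rfl⟩
    · refine (Subgroup.closure_le _).2 ?_
      rintro _ ⟨i, ⟨h1, h2⟩, u, rfl⟩
      by_cases hi : i = a + n
      · subst hi; exact Subgroup.mem_sup_right ⟨u, rfl⟩
      · exact Subgroup.mem_sup_left (Subgroup.subset_closure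
          ⟨i, ⟨h1, by push_cast at h2; omega⟩, u, rfl⟩)

theorem exists_Ico (S : Finset (Equiv.Perm (ℤ → A)))
    (hS : (S : Set (Equiv.Perm (ℤ → A))) ⊆ Lev A Set.univ) :
    ∃ n : ℕ, (S : Set (Equiv.Perm (ℤ → A))) ⊆ Lev A (Set.Ico (-(n : ℤ)) n) := by
  classical
  have hm : ∀ {m n : ℕ}, m ≤ n → Lev A (Set.Ico (-(m : ℤ)) m) ≤ Lev A (Set.Ico (-(n : ℤ)) n) :=
    fun h => Lev_mono (Set.Ico_subset_Ico (by omega) (by omega))
  have : ∀ y ∈ Lev A Set.univ, ∃ n : ℕ, y ∈ Lev A (Set.Ico (-(n : ℤ)) n) := by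
    intro y hy
    induction hy using Subgroup.closure_induction with
    | mem x hx =>
      obtain ⟨i, -, u, rfl⟩ := hx
      exact ⟨i.natAbs + 1, Subgroup.subset_closure ⟨i, ⟨by omega, by omega⟩, u, rfl⟩⟩
    | one => exact ⟨0, one_mem _⟩
    | mul x y _ _ hx hy =>
      obtain ⟨m, hm'⟩ := hx
      obtain ⟨n, hn⟩ := hy
      exact ⟨max m n, mul_mem (hm (le_max_left _ _) hm') (hm (le_max_right _ _) hn)⟩
    | inv x _ hx => exact hx.imp fun _ h => inv_mem h
  choose! n hn using this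
  exact ⟨S.sup n, fun y hy => hm (Finset.le_sup hy) (hn y (hS hy))⟩

/-- Permutations fixing the coordinates in a set. -/
def Fx (A : Type) (I : Set ℤ) : Subgroup (Equiv.Perm (ℤ → A)) where
  carrier := {σ | ∀ f, ∀ j ∈ I, σ f j = f j}
  one_mem' := fun _ _ _ => rfl
  mul_mem' := fun h g f j hj => by rw [Equiv.Perm.mul_apply, h _ _ hj, g _ _ hj]
  inv_mem' := by
    intro σ h f j hj
    rw [← h (σ⁻¹ f) j hj]; simp

theorem Lev_upper {w : Equiv.Perm (ℤ → A)} (hw : w ∈ Lev A Set.univ) (b : ℤ) :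
    ∀ f f' : ℤ → A, (∀ j, b < j → f j = f' j) ↔ ∀ j, b < j → w f j = w f' j := by
  have hg : ∀ (i : ℤ) (u : A) (f f' : ℤ → A), (∀ j, b < j → f j = f' j) →
      ∀ j, b < j → genFun i u f j = genFun i u f' j := by
    intro i u f f' h j hj
    by_cases hji : j = i
    · subst hji
      have hiff : (∀ k, j < k → f k = 1) ↔ ∀ k, j < k → f' k = 1 :=
        forall_congr' fun k => imp_congr_right fun hk => by rw [h k (by omega)]
      by_cases hf : ∀ k, j < k → f k = 1
      · rw [genFun_pos _ _ hf, genFun_pos _ _ (hiff.1 hf), h j hj]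
      · rw [genFun_neg _ _ hf, genFun_neg _ _ (mt hiff.2 hf), h j hj]
    · rw [genFun_ne _ _ _ hji, genFun_ne _ _ _ hji, h j hj]
  induction hw using Subgroup.closure_induction with
  | mem x hx =>
    obtain ⟨i, -, u, rfl⟩ := hx
    refine fun f f' => ⟨hg i u f f', fun h j hj => ?_⟩
    have := hg i u⁻¹ _ _ h j hj
    simp only [gen_apply] at this
    rwa [← genFun_mul, ← genFun_mul, inv_mul_cancel, genFun_one, genFun_one] at this
  | one => exact fun f f' => Iff.rfl
  | mul x y _ _ hx hy => exact fun f f' => (hy f f').trans (hx _ _)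
  | inv x _ hx =>
    intro f f'
    rw [hx (x⁻¹ f) (x⁻¹ f')]; simp

theorem Fx_conj_Lev {w y : Equiv.Perm (ℤ → A)} (hw : w ∈ Lev A Set.univ) {b : ℤ}
    (hy : y ∈ Fx A (Set.Ioi b)) : w⁻¹ * y * w ∈ Fx A (Set.Ioi b) := by
  intro f j hj
  refine (Lev_upper hw b _ _).2 (fun k hk => ?_) j hj
  simpa using hy (w f) k hk

omit [Group A] in
theorem Fx_conj_shift {y : Equiv.Perm (ℤ → A)} {I : Set ℤ} (r : ℤ) (hy : y ∈ Fx A I) :
    shift A ^ r * y * (shift A ^ r)⁻¹ ∈ Fx A {j | j - r ∈ I} := by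
  intro f j hj
  rw [Equiv.Perm.mul_apply, Equiv.Perm.mul_apply, shift_zpow, hy _ _ hj, ← zpow_neg, shift_zpow]
  simp

theorem Lev_conj_shift (r : ℤ) {w : Equiv.Perm (ℤ → A)} (hw : w ∈ Lev A Set.univ) :
    shift A ^ r * w * (shift A ^ r)⁻¹ ∈ Lev A Set.univ := by
  induction hw using Subgroup.closure_induction with
  | mem x hx =>
    obtain ⟨i, -, u, rfl⟩ := hx
    rw [shift_gen]
    exact Subgroup.subset_closure ⟨_, trivial, u, rfl⟩
  | one => simp
  | mul x y _ _ hx hy => simpa [mul_assoc] using mul_mem hx hy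
  | inv x _ hx => simpa [mul_assoc] using inv_mem hx

theorem Hall_dec {x : Equiv.Perm (ℤ → A)} (hx : x ∈ Hall A) :
    ∃ r : ℤ, x * shift A ^ (-r) ∈ Lev A Set.univ := by
  induction hx using Subgroup.closure_induction with
  | mem x hx =>
    rcases hx with rfl | ⟨u, rfl⟩
    · exact ⟨1, by simp⟩
    · refine ⟨0, ?_⟩
      rw [neg_zero, zpow_zero, mul_one]
      exact Subgroup.subset_closure ⟨0, trivial, u, rfl⟩
  | one => exact ⟨0, by simp⟩
  | mul x y _ _ hx hy =>
    obtain ⟨r, hr⟩ := hx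
    obtain ⟨s, hs⟩ := hy
    refine ⟨r + s, ?_⟩
    convert mul_mem hr (Lev_conj_shift r hs) using 1
    group
  | inv x _ hx =>
    obtain ⟨r, hr⟩ := hx
    refine ⟨-r, ?_⟩
    convert Lev_conj_shift (-r) (inv_mem hr) using 1
    group

theorem shift_mem_Lev [Nontrivial A] {r : ℤ} (h : shift A ^ r ∈ Lev A Set.univ) : r = 0 := by
  obtain ⟨a, ha⟩ := exists_ne (1 : A)
  let f : ℤ → A := fun j => if 0 ≤ j then a else 1
  have hfix : Lev A Set.univ ≤ MulAction.stabilizer _ f := (Subgroup.closure_le _).2 (by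
    rintro _ ⟨i, -, u, rfl⟩
    refine genFun_neg i u fun hc => ha ?_
    have := hc (max (i + 1) 0) (by omega)
    simpa [f] using this)
  have e : (shift A ^ r) f = f := hfix h
  have e1 := congrFun e 0
  have e2 := congrFun e r
  rw [shift_zpow] at e1 e2
  simp only [f, sub_self, le_refl, if_true] at e1 e2
  split_ifs at e1 e2
  · omega
  · exact absurd e2 ha
  · exact absurd e1.symm ha
  · exact absurd e2 ha

/-- The extended wreath power of a poly-infinite-cyclic group lies in every closed class. -/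
theorem Closed.hall {D : (G : Type) → [Group G] → Prop} (C : Closed D) (hA : PolyZS A) :
    D (Hall A) := by
  classical
  rcases subsingleton_or_nontrivial A with _ | _
  · exact C.poly _ (.triv _)
  let W := Lev A Set.univ
  have ht : shift A ∈ Hall A := Subgroup.subset_closure (Or.inl rfl)
  have hWG : W ≤ Hall A := (Subgroup.closure_le _).2 (by
    rintro _ ⟨i, -, u, rfl⟩
    have := shift_gen i 0 u
    rw [zero_add] at this
    rw [← this]
    exact mul_mem (mul_mem (zpow_mem ht i) (Subgroup.subset_closure (Or.inr ⟨u, rfl⟩)))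
      (inv_mem (zpow_mem ht i)))
  have hnorm : ∀ g ∈ Hall A, ∀ w ∈ W, g * w * g⁻¹ ∈ W := by
    intro g hg w hw
    obtain ⟨r, hr⟩ := Hall_dec hg
    convert mul_mem (mul_mem hr (Lev_conj_shift r hw)) (inv_mem hr) using 1
    group
  have hW : D W := C.loc_amb _ fun S hS => by
    obtain ⟨n, hn⟩ := exists_Ico S hS
    refine ⟨_, Lev_mono (Set.subset_univ _), hn, C.of_eq ?_ (D_Ico C hA (-(n : ℤ)) (2 * n))⟩
    congr 2; push_cast; ring
  let K : W × ℤ × ℤ → Subgroup (Equiv.Perm (ℤ → A)) := fun i =>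
    W ⊓ WrData.cj (i.1 : Equiv.Perm (ℤ → A)) (Fx A (Set.Iio i.2.1)) ⊓ Fx A (Set.Ioi i.2.2)
  refine C.ext_amb (Hall A) W (shift A) ht hWG hnorm (fun g hg => Hall_dec hg)
    (fun r hr => shift_mem_Lev hr) hW _ K (fun i => (i.2.2 - i.2.1 + 1).toNat)
    (fun i => inf_le_left.trans inf_le_left) (fun S hS => ?_) ?_
  · obtain ⟨n, hn⟩ := exists_Ico S hS
    have hle : Lev A (Set.Ico (-(n : ℤ)) n) ≤ Fx A (Set.Iio (-(n : ℤ))) ⊓ Fx A (Set.Ioi n) :=
      (Subgroup.closure_le _).2 (by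
        rintro _ ⟨i, ⟨h1, h2⟩, u, rfl⟩
        exact ⟨fun f j (hj : j < _) => genFun_ne _ _ _ (by omega),
          fun f j (hj : _ < j) => genFun_ne _ _ _ (by omega)⟩)
    refine ⟨(1, -n, n), fun y hy => ⟨⟨hS hy, WrData.mem_cj.2 ?_⟩, (hle (hn hy)).2⟩⟩
    simpa using (hle (hn hy)).1
  · rintro ⟨w, a, b⟩ x hx hxW
    obtain ⟨r, hr⟩ := Hall_dec hx
    have hr0 : r ≠ 0 := fun h => hxW (by simpa [h] using hr)
    by_cases hab : b < a
    · have hK : K (w, a, b) = ⊥ := (Subgroup.eq_bot_iff_forall _).2 fun y hy => by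
        have h1 := WrData.mem_cj.1 hy.1.2
        have h2 := Fx_conj_Lev w.2 hy.2
        have : (w : Equiv.Perm (ℤ → A))⁻¹ * y * w = 1 := by
          ext f j
          by_cases hj : j < a
          · exact h1 f j hj
          · exact h2 f j (show b < j by omega)
        have h3 : y = w * ((w : Equiv.Perm (ℤ → A))⁻¹ * y * w) * (w : Equiv.Perm (ℤ → A))⁻¹ := by
          group
        rw [h3, this]; simp
      rw [hK]
      refine Or.inl ⟨fun y => by
        rw [Subgroup.mem_bot, Subgroup.mem_bot]; exact conj_eq_one_iff.symm,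
        fun c hc hcW hcn => C.poly _ (polyZS_sup_zpowers _ c (.triv _) hcn fun s hs => ?_)⟩
      obtain ⟨q, hq⟩ := Hall_dec hc
      have hq0 : q ≠ 0 := fun h => hcW (by simpa [h] using hq)
      have hz : ∀ s : ℤ, c ^ s * shift A ^ (-(q * s)) ∈ W := by
        intro s
        induction s using Int.induction_on with
        | zero => simp
        | succ n ih =>
          convert mul_mem (hnorm c hc _ ih) hq using 1
          group
        | pred n ih =>
          convert hnorm c⁻¹ (inv_mem hc) _ (mul_mem ih (inv_mem hq)) using 1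
          group
      have := hz s
      rw [Subgroup.mem_bot.1 hs, one_mul] at this
      have := shift_mem_Lev this
      exact (mul_eq_zero.1 (neg_eq_zero.1 this)).resolve_left hq0
    · let w' : W := ⟨x * w * shift A ^ (-r), by
        convert mul_mem (hnorm x hx _ w.2) hr using 1
        group⟩
      have k1 : ∀ y, x⁻¹ * y * x ∈ K (w, a, b) →
          y ∈ WrData.cj (w' : Equiv.Perm (ℤ → A)) (Fx A (Set.Iio (a + r))) ∧
            y ∈ Fx A (Set.Ioi (b + r)) := by
        intro y hy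
        constructor
        · have := Fx_conj_shift r (WrData.mem_cj.1 hy.1.2)
          refine WrData.mem_cj.2 fun f j (hj : j < _) => ?_
          have e : (w' : Equiv.Perm (ℤ → A))⁻¹ * y * w' = shift A ^ r *
              ((w : Equiv.Perm (ℤ → A))⁻¹ * (x⁻¹ * y * x) * w) * (shift A ^ r)⁻¹ := by
            simp only [w']; group
          rw [e]
          exact this f j (show j - r < a by omega)
        · have h1 : shift A ^ r * (x⁻¹ * y * x) * (shift A ^ r)⁻¹ ∈ Fx A (Set.Ioi (b + r)) :=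
            fun f j (hj : _ < j) => Fx_conj_shift r hy.2 f j (show b < j - r by omega)
          convert Fx_conj_Lev (inv_mem hr) h1 using 1
          group
      refine Or.inr fun S hS => ?_
      rcases lt_or_gt_of_ne hr0 with h | h
      · exact ⟨(w, a, b + r), by simp only; omega,
          fun y hy => ⟨(hS y hy).1.1, (k1 y (hS y hy).2).2⟩⟩
      · exact ⟨(w', a + r, b), by simp only; omega,
          fun y hy => ⟨⟨(hS y hy).1.1.1, (k1 y (hS y hy).2).1⟩, (hS y hy).1.2⟩⟩

end Pool.Agent.MP_f7db47_al
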