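import Mathlib

/-! Closure properties of a class of groups, and their ambient (subgroup) forms. -/

namespace Pool.Agent.MP_f7db47_al

/-- Poly-infinite-cyclic groups. -/
inductive PolyZS : (G : Type) → [Group G] → Prop
  | triv (G : Type) [Group G] [Subsingleton G] : PolyZS G
  | ext (G : Type) [Group G] (h : G →* Multiplicative ℤ) (hs : Function.Surjective h)
      (hk : PolyZS h.ker) : PolyZS G

theorem PolyZS.of_equiv {G : Type} [Group G] (hG : PolyZS G) :
    ∀ (H : Type) [Group H], (G ≃* H) → PolyZS H := by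
  induction hG with
  | triv G =>
    intro H _ e
    have : Subsingleton H := e.symm.toEquiv.subsingleton
    exact .triv H
  | ext G h hs hk ih =>
    intro H _ e
    refine .ext H (h.comp e.symm.toMonoidHom) (hs.comp e.symm.surjective) (ih _ ?_)
    exact
      { toFun := fun x => ⟨e x.1, by
          have hx : h x.1 = 1 := x.2
          show h (e.symm (e x.1)) = 1
          rw [e.symm_apply_apply, hx]⟩
        invFun := fun y => ⟨e.symm y.1, y.2⟩
        left_inv := fun x => by simp
        right_inv := fun y => by simp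
        map_mul' := fun x y => Subtype.ext (map_mul e x.1 y.1) }

theorem PolyZS.pow_eq_one {G : Type} [Group G] (hG : PolyZS G) :
    ∀ (a : G) (n : ℕ), n ≠ 0 → a ^ n = 1 → a = 1 := by
  induction hG with
  | triv G => intro a _ _ _; exact Subsingleton.elim _ _
  | ext G h hs hk ih =>
    intro a n hn ha
    have h1 : h a = 1 := by
      have := congrArg h ha
      rw [map_pow, map_one] at this
      have h2 : (n : ℤ) * Multiplicative.toAdd (h a) = 0 := by
        have := congrArg Multiplicative.toAdd this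
        simpa using this
      have h3 : Multiplicative.toAdd (h a) = 0 := by
        rcases mul_eq_zero.1 h2 with h | h
        · exact absurd (by exact_mod_cast h) hn
        · exact h
      exact Multiplicative.toAdd.injective (by simpa using h3)
    have := ih ⟨a, h1⟩ n hn (Subtype.ext (by simpa using ha))
    exact congrArg Subtype.val this

theorem exists_hom_of_normal {G : Type} [Group G] (W : Subgroup G) [W.Normal] (t : G)
    (hgen : ∀ g : G, ∃ r : ℤ, g * t ^ (-r) ∈ W) (hinf : ∀ r : ℤ, t ^ r ∈ W → r = 0) :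
    ∃ h : G →* Multiplicative ℤ, Function.Surjective h ∧ h.ker = W := by
  let z : Multiplicative ℤ →* G ⧸ W := zpowersHom (G ⧸ W) (t : G ⧸ W)
  have hz : Function.Bijective z := by
    constructor
    · rw [injective_iff_map_eq_one]
      intro r hr
      have : ((t ^ (Multiplicative.toAdd r) : G) : G ⧸ W) = 1 := by
        simpa [z] using hr
      have := hinf _ ((QuotientGroup.eq_one_iff _).1 this)
      exact Multiplicative.toAdd.injective (by simpa using this)
    · intro q
      induction q using QuotientGroup.induction_on with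
      | H g =>
        obtain ⟨r, hr⟩ := hgen g
        refine ⟨Multiplicative.ofAdd r, ?_⟩
        have h1 : ((g * t ^ (-r) : G) : G ⧸ W) = 1 := (QuotientGroup.eq_one_iff _).2 hr
        have h2 : (g : G ⧸ W) * ((t : G ⧸ W) ^ r)⁻¹ = 1 := by simpa using h1
        simp only [z, zpowersHom_apply, toAdd_ofAdd]
        exact (mul_inv_eq_one.1 h2).symm
  let e := MulEquiv.ofBijective z hz
  refine ⟨e.symm.toMonoidHom.comp (QuotientGroup.mk' W), ?_, ?_⟩
  · exact e.symm.surjective.comp (QuotientGroup.mk'_surjective W)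
  · ext g
    simp

/-- The closure properties used for the examples. -/
structure Closed (D : (G : Type) → [Group G] → Prop) : Prop where
  iso : ∀ (G H : Type) [Group G] [Group H], (G ≃* H) → D G → D H
  prod : ∀ (G H : Type) [Group G] [Group H], D G → D H → D (G × H)
  loc : ∀ (G : Type) [Group G],
    (∀ S : Finset G, ∃ H : Subgroup G, (S : Set G) ⊆ H ∧ D H) → D G
  poly : ∀ (G : Type) [Group G], PolyZS G → D G
  ext : ∀ (G : Type) [Group G] (h : G →* Multiplicative ℤ), Function.Surjective h → D h.ker →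
    ∀ (ι : Type) (K : ι → Subgroup G) (rk : ι → ℕ), (∀ i, K i ≤ h.ker) →
    (∀ S : Finset G, (S : Set G) ⊆ h.ker → ∃ i, (S : Set G) ⊆ K i) →
    (∀ i, ∀ x, x ∉ h.ker →
      ((∀ y, y ∈ K i ↔ x * y * x⁻¹ ∈ K i) ∧ ∀ c, c ∉ h.ker → (∀ y, y ∈ K i ↔ c * y * c⁻¹ ∈ K i) →
        D (K i ⊔ Subgroup.zpowers c : Subgroup G)) ∨
      ∀ S : Finset G, (∀ y ∈ S, y ∈ K i ∧ x⁻¹ * y * x ∈ K i) →
        ∃ j, rk j < rk i ∧ (S : Set G) ⊆ K j) → D G

variable {D : (G : Type) → [Group G] → Prop} {P : Type} [Group P]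

theorem Closed.of_eq (_ : Closed D) {H H' : Subgroup P} (e : H = H') (h : D H) : D H' := e ▸ h

theorem Closed.subgroupOf (C : Closed D) {H G : Subgroup P} (hle : H ≤ G) (h : D H) :
    D (H.subgroupOf G) :=
  C.iso _ _ (Subgroup.subgroupOfEquivOfLe hle).symm h

theorem Closed.map (C : Closed D) {Q : Type} [Group Q] {H : Subgroup P} (f : P →* Q)
    (hf : Function.Injective f) (h : D H) : D (H.map f) :=
  C.iso _ _ (H.equivMapOfInjective f hf) h

theorem Closed.bot (C : Closed D) : D (⊥ : Subgroup P) := C.poly _ (.triv _)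

theorem Closed.loc_amb (C : Closed D) (G : Subgroup P)
    (h : ∀ S : Finset P, (S : Set P) ⊆ G → ∃ H : Subgroup P, H ≤ G ∧ (S : Set P) ⊆ H ∧ D H) :
    D G := by
  classical
  refine C.loc _ fun S => ?_
  obtain ⟨H, hle, hS, hD⟩ := h (S.image Subtype.val) (by
    intro x hx
    simp only [Finset.coe_image, Set.mem_image] at hx
    obtain ⟨y, _, rfl⟩ := hx
    exact y.2)
  refine ⟨H.subgroupOf G, fun x hx => ?_, C.subgroupOf hle hD⟩
  exact Subgroup.mem_subgroupOf.2 (hS (by simpa using hx))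

theorem Closed.prod_amb (C : Closed D) (H₁ H₂ : Subgroup P)
    (hc : ∀ x ∈ H₁, ∀ y ∈ H₂, x * y = y * x) (hd : ∀ x ∈ H₁, x ∈ H₂ → x = 1)
    (h₁ : D H₁) (h₂ : D H₂) : D (H₁ ⊔ H₂ : Subgroup P) := by
  let f : H₁ × H₂ →* P := H₁.subtype.noncommCoprod H₂.subtype fun x y => hc x x.2 y y.2
  have hf : Function.Injective f := by
    rw [injective_iff_map_eq_one]
    rintro ⟨x, y⟩ hxy
    have h1 : (x : P) * y = 1 := by simpa [f] using hxy
    have hx : (x : P) = 1 := hd x x.2 (by
      rw [eq_inv_of_mul_eq_one_left h1]; exact H₂.inv_mem y.2)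
    have hy : (y : P) = 1 := by simpa [hx] using h1
    exact Prod.ext (Subtype.ext hx) (Subtype.ext hy)
  have hr : f.range = H₁ ⊔ H₂ := by
    apply le_antisymm
    · rintro _ ⟨⟨x, y⟩, rfl⟩
      simpa [f] using Subgroup.mul_mem_sup x.2 y.2
    · refine sup_le (fun x hx => ⟨(⟨x, hx⟩, 1), by simp [f]⟩) fun y hy => ⟨(1, ⟨y, hy⟩), by simp [f]⟩
  exact C.of_eq hr (C.iso _ _ (MonoidHom.ofInjective hf) (C.prod _ _ h₁ h₂))

/-- A subgroup normalised by `c`, with no nontrivial power of `c` in it, extends by `c`. -/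
theorem polyZS_sup_zpowers (K : Subgroup P) (c : P) (hK : PolyZS K)
    (hn : ∀ y, y ∈ K ↔ c * y * c⁻¹ ∈ K) (hinf : ∀ r : ℤ, c ^ r ∈ K → r = 0) :
    PolyZS (K ⊔ Subgroup.zpowers c : Subgroup P) := by
  have hz : ∀ (r : ℤ) y, y ∈ K → c ^ r * y * (c ^ r)⁻¹ ∈ K := by
    intro r
    induction r using Int.induction_on with
    | zero => intro y hy; simpa using hy
    | succ n ih =>
      intro y hy
      have := (hn _).1 (ih y hy)
      rw [add_comm, zpow_add, zpow_one]
      simpa [mul_assoc] using this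
    | pred n ih =>
      intro y hy
      have h1 := ih y hy
      have := (hn (c⁻¹ * (c ^ (-(n : ℤ)) * y * (c ^ (-(n : ℤ)))⁻¹) * c)).2 (by simpa [mul_assoc] using h1)
      rw [show -(n : ℤ) - 1 = -1 + -(n : ℤ) by ring, zpow_add, zpow_neg_one]
      simpa [mul_assoc] using this
  let G : Subgroup P := K ⊔ Subgroup.zpowers c
  have hdec : ∀ g ∈ G, ∃ r : ℤ, g * c ^ (-r) ∈ K := by
    let G' : Subgroup P :=
      { carrier := {g | ∃ r : ℤ, g * c ^ (-r) ∈ K}
        one_mem' := ⟨0, by simp⟩
        mul_mem' := by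
          rintro a b ⟨r, hr⟩ ⟨s, hs⟩
          refine ⟨r + s, ?_⟩
          have := K.mul_mem hr (hz r _ hs)
          convert this using 1
          rw [neg_add_rev, zpow_add]
          simp [mul_assoc]
        inv_mem' := by
          rintro a ⟨r, hr⟩
          refine ⟨-r, ?_⟩
          have := hz (-r) _ (K.inv_mem hr)
          convert this using 1
          simp }
    intro g hg
    have : G ≤ G' := sup_le (fun y hy => ⟨0, by simpa using hy⟩) (by
      rintro _ ⟨r, rfl⟩; exact ⟨r, by simp⟩)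
    exact this hg
  have hc : c ∈ G := Subgroup.mem_sup_right (Subgroup.mem_zpowers c)
  have : (K.subgroupOf G).Normal := ⟨fun y hy g => by
    obtain ⟨r, hr⟩ := hdec g g.2
    have h1 := K.mul_mem (K.mul_mem hr (hz r _ (Subgroup.mem_subgroupOf.1 hy))) (K.inv_mem hr)
    refine Subgroup.mem_subgroupOf.2 ?_
    convert h1 using 1
    simp [mul_assoc]⟩
  obtain ⟨h, hs, hk⟩ := exists_hom_of_normal (K.subgroupOf G) ⟨c, hc⟩
    (fun g => by
      obtain ⟨r, hr⟩ := hdec g g.2
      exact ⟨r, Subgroup.mem_subgroupOf.2 (by simpa using hr)⟩)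
    (fun r hr => hinf r (by simpa using Subgroup.mem_subgroupOf.1 hr))
  refine .ext _ h hs ?_
  rw [hk]
  exact hK.of_equiv _ (Subgroup.subgroupOfEquivOfLe le_sup_left).symm

theorem Closed.ext_amb (C : Closed D) (G W : Subgroup P) (t : P) (ht : t ∈ G) (hWG : W ≤ G)
    (hnorm : ∀ g ∈ G, ∀ w ∈ W, g * w * g⁻¹ ∈ W)
    (hgen : ∀ g ∈ G, ∃ r : ℤ, g * t ^ (-r) ∈ W) (hinf : ∀ r : ℤ, t ^ r ∈ W → r = 0)
    (hW : D W) (ι : Type) (K : ι → Subgroup P) (rk : ι → ℕ) (hle : ∀ i, K i ≤ W)
    (hcov : ∀ S : Finset P, (S : Set P) ⊆ W → ∃ i, (S : Set P) ⊆ K i)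
    (hstep : ∀ i, ∀ x ∈ G, x ∉ W →
      ((∀ y, y ∈ K i ↔ x * y * x⁻¹ ∈ K i) ∧ ∀ c ∈ G, c ∉ W →
        (∀ y, y ∈ K i ↔ c * y * c⁻¹ ∈ K i) → D (K i ⊔ Subgroup.zpowers c : Subgroup P)) ∨
      ∀ S : Finset P, (∀ y ∈ S, y ∈ K i ∧ x⁻¹ * y * x ∈ K i) →
        ∃ j, rk j < rk i ∧ (S : Set P) ⊆ K j) : D G := by
  classical
  have : (W.subgroupOf G).Normal := ⟨fun y hy g =>
    Subgroup.mem_subgroupOf.2 (by simpa using hnorm g g.2 y (Subgroup.mem_subgroupOf.1 hy))⟩
  obtain ⟨h, hs, hk⟩ := exists_hom_of_normal (W.subgroupOf G) ⟨t, ht⟩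
    (fun g => by
      obtain ⟨r, hr⟩ := hgen g g.2
      exact ⟨r, Subgroup.mem_subgroupOf.2 (by simpa using hr)⟩)
    (fun r hr => hinf r (by simpa using Subgroup.mem_subgroupOf.1 hr))
  have himg : ∀ (S : Finset G) (H : Subgroup P), ((S.image Subtype.val : Finset P) : Set P) ⊆ H →
      (S : Set G) ⊆ H.subgroupOf G := fun S H hS x hx =>
    Subgroup.mem_subgroupOf.2 (hS (by simpa using hx))
  refine C.ext G h hs (by rw [hk]; exact C.subgroupOf hWG hW) ι
    (fun i => (K i).subgroupOf G) rk (fun i => ?_) (fun S hS => ?_) (fun i x hx => ?_)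
  · rw [hk]; exact fun y hy => Subgroup.mem_subgroupOf.2 (hle i (Subgroup.mem_subgroupOf.1 hy))
  · obtain ⟨i, hi⟩ := hcov (S.image Subtype.val) (by
      intro x hx
      simp only [Finset.coe_image, Set.mem_image] at hx
      obtain ⟨y, hy, rfl⟩ := hx
      have := hS hy
      rw [hk] at this
      exact Subgroup.mem_subgroupOf.1 this)
    exact ⟨i, himg S _ hi⟩
  · rw [hk] at hx
    rcases hstep i x x.2 (fun h => hx (Subgroup.mem_subgroupOf.2 h)) with ⟨h1, h2⟩ | h1
    · refine Or.inl ⟨fun y => by simpa [Subgroup.mem_subgroupOf] using h1 y, fun c hc hcn => ?_⟩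
      rw [hk] at hc
      have h3 := h2 c c.2 (fun h => hc (Subgroup.mem_subgroupOf.2 h)) (fun y => by
        by_cases hy : y ∈ G
        · simpa [Subgroup.mem_subgroupOf] using hcn ⟨y, hy⟩
        · constructor
          · intro h; exact absurd (hWG (hle i h)) hy
          · intro h
            refine absurd ?_ hy
            have := G.mul_mem (G.mul_mem (G.inv_mem c.2) (hWG (hle i h))) c.2
            simpa [mul_assoc] using this)
      have hle2 : K i ⊔ Subgroup.zpowers (c : P) ≤ G :=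
        sup_le ((hle i).trans hWG) (Subgroup.zpowers_le.2 c.2)
      have h4 := C.subgroupOf hle2 h3
      refine C.of_eq ?_ h4
      apply Subgroup.map_injective G.subtype_injective
      rw [Subgroup.map_sup, Subgroup.subgroupOf_map_subtype, Subgroup.subgroupOf_map_subtype,
        MonoidHom.map_zpowers, inf_eq_left.2 hle2, inf_eq_left.2 ((hle i).trans hWG)]
      rfl
    · refine Or.inr fun S hS => ?_
      obtain ⟨j, hj, hSj⟩ := h1 (S.image Subtype.val) (by
        intro y hy
        simp only [Finset.mem_image] at hy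
        obtain ⟨z, hz, rfl⟩ := hy
        simpa [Subgroup.mem_subgroupOf] using hS z hz)
      exact ⟨j, hj, himg S _ hSj⟩

end Pool.Agent.MP_f7db47_al
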