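import Pool.Agent.MP_f7db47_al.RegC

/-! Group rings of poly-`ℤ` groups over regular rings. -/

namespace Pool.Agent.MP_f7db47_al

open Function MonoidAlgebra

universe u v

variable {R : Type v} [Ring R] {G : Type u} [Group G]

theorem exists_generator (h : G →* Multiplicative ℤ) (hh : ∃ g, h g ≠ 1) :
    ∃ (t : G) (deg : G → ℤ), (∀ g, t ^ (-deg g) * g ∈ h.ker) ∧
      ∀ (k : ℤ), ∀ g ∈ h.ker, deg (t ^ k * g) = k := by
  obtain ⟨d, hd⟩ := Int.subgroup_cyclic (AddSubgroup.toSubgroup.symm h.range)
  have hmem : ∀ z : ℤ, Multiplicative.ofAdd z ∈ h.range ↔ d ∣ z := fun z => by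
    rw [← Int.mem_zmultiples_iff, AddSubgroup.zmultiples_eq_closure, ← hd]; rfl
  obtain ⟨t, ht⟩ := (hmem d).2 dvd_rfl
  have hdiv : ∀ g, d ∣ (h g).toAdd := fun g => (hmem _).1 ⟨g, rfl⟩
  have hd0 : d ≠ 0 := by
    rintro rfl
    obtain ⟨g, hg⟩ := hh
    exact hg (Multiplicative.toAdd.injective (by simpa using hdiv g))
  refine ⟨t, fun g => (h g).toAdd / d, fun g => ?_, fun k g hg => ?_⟩
  · apply Multiplicative.toAdd.injective
    simp [ht, Int.ediv_mul_cancel (hdiv g)]
  · have : h g = 1 := hg
    simp [ht, this, hd0]

/-- The group ring of `G` as a twisted Laurent polynomial ring over the group ring of a kernel. -/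
noncomputable def crossKer (R : Type v) [Ring R] (h : G →* Multiplicative ℤ) (t : G) (deg : G → ℤ)
    (h1 : ∀ g, t ^ (-deg g) * g ∈ h.ker) (h2 : ∀ (k : ℤ), ∀ g ∈ h.ker, deg (t ^ k * g) = k) :
    Cross (mapDomainRingHom R h.ker.subtype) :=
  let c : MonoidAlgebra R G →+ (ℤ →₀ MonoidAlgebra R h.ker) :=
    (Finsupp.liftAddHom fun g => (Finsupp.singleAddHom (deg g)).comp
      (singleAddHom (⟨t ^ (-deg g) * g, h1 g⟩ : h.ker))).comp coeffAddEquiv.toAddMonoidHom
  have hc : ∀ g r, c (single g r) =
      Finsupp.single (deg g) (single (⟨t ^ (-deg g) * g, h1 g⟩ : h.ker) r) := fun g r => by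
    simp [c, coeffAddEquiv]
  { b := fun k => single (t ^ k) 1
    c := c
    sum_c := fun s => by
      induction s using MonoidAlgebra.induction_linear with
      | zero => simp
      | add a b ha hb =>
        rw [map_add, Finsupp.sum_add_index' (by simp) (fun _ _ _ => by rw [map_add, mul_add]),
          ha, hb]
      | single g r =>
        rw [hc, Finsupp.sum_single_index (by simp)]
        simp [single_mul_single]
    c_single := fun k l => by
      induction l using MonoidAlgebra.induction_linear with
      | zero => simp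
      | add a b ha hb => rw [map_add, mul_add, map_add, ha, hb, Finsupp.single_add]
      | single g r =>
        have e := h2 k g g.2
        simp only [mapDomainRingHom_apply, mapDomain_single, single_mul_single, one_mul, hc,
          Subgroup.coe_subtype, e]
        congr 2
        ext; simp
    b_zero := by simp [one_def]
    b_add := fun i j => by simp [single_mul_single, zpow_add]
    norm := fun k l => by
      induction l using MonoidAlgebra.induction_linear with
      | zero => exact ⟨0, by simp⟩
      | add a b ha hb =>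
        obtain ⟨a', ha⟩ := ha
        obtain ⟨b', hb⟩ := hb
        exact ⟨a' + b', by rw [map_add, map_add, add_mul, mul_add, ha, hb]⟩
      | single g r =>
        refine ⟨single ⟨(t ^ k)⁻¹ * g * t ^ k, ?_⟩ r, by simp [single_mul_single, mul_assoc]⟩
        have : h g = 1 := g.2
        simp [MonoidHom.mem_ker, this] }

theorem PolyZ.reg (hR : RegularRing R) (h : PolyZ G) :
    Reg (singleOneRingHom : R →+* MonoidAlgebra R G) := by
  induction h with
  | triv G hG =>
    refine hR.reg.of_bijective (f := singleOneRingHom) ⟨single_right_injective, fun s => ?_⟩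
      fun _ => rfl
    induction s using MonoidAlgebra.induction_linear with
    | zero => exact ⟨0, by simp⟩
    | add a b ha hb =>
      obtain ⟨a', rfl⟩ := ha
      obtain ⟨b', rfl⟩ := hb
      exact ⟨a' + b', map_add _ _ _⟩
    | single g r => exact ⟨r, by rw [Subsingleton.elim g 1]; rfl⟩
  | ext G h hk ih =>
    have hρ : ∀ r, (singleOneRingHom : R →+* MonoidAlgebra R G) r =
        mapDomainRingHom R h.ker.subtype (singleOneRingHom r) := fun r => by simp
    by_cases hh : ∃ g, h g ≠ 1
    · obtain ⟨t, deg, h1, h2⟩ := exists_generator h hh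
      exact (crossKer R h t deg h1 h2).reg ih hρ
    · push Not at hh
      refine ih.of_bijective ⟨mapDomain_injective Subtype.val_injective, fun s => ?_⟩ hρ
      induction s using MonoidAlgebra.induction_linear with
      | zero => exact ⟨0, by simp⟩
      | add a b ha hb =>
        obtain ⟨a', rfl⟩ := ha
        obtain ⟨b', rfl⟩ := hb
        exact ⟨a' + b', map_add _ _ _⟩
      | single g r => exact ⟨single ⟨g, hh g⟩ r, by simp⟩

end Pool.Agent.MP_f7db47_al
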