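import Pool.Agent.MP_f7db47_al.Hall
import Pool.Agent.MP_f7db47_al.RegD

/-! The extended wreath power of a poly-`ℤ` group lies in the class `D`. -/

namespace Pool.Agent.MP_f7db47_al

theorem PolyZS.polyZ {G : Type} [Group G] (h : PolyZS G) : PolyZ G := by
  induction h with
  | triv G => exact .triv G inferInstance
  | ext G h _ _ ih => exact .ext G h ih

theorem PolyZ.polyZS {G : Type} [Group G] (h : PolyZ G) : PolyZS G := by
  induction h with
  | triv G hG => exact .triv G
  | ext G h _ ih =>
    by_cases hh : ∃ g, h g ≠ 1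
    · obtain ⟨t, deg, h1, h2⟩ := exists_generator h hh
      obtain ⟨h', hs, hk⟩ := exists_hom_of_normal h.ker t
        (fun g => ⟨deg g, by
          have := (MonoidHom.normal_ker h).conj_mem _ (h1 g) (t ^ deg g)
          convert this using 1
          group⟩)
        (fun r hr => by
          have e1 := h2 0 _ hr
          have e2 := h2 r 1 (one_mem _)
          simp only [zpow_zero, one_mul, mul_one] at e1 e2
          rw [← e2, e1])
      refine .ext G h' hs ?_
      rw [hk]; exact ih
    · push Not at hh
      exact ih.of_equiv _ (MulEquiv.ofBijective h.ker.subtype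
        ⟨Subtype.val_injective, fun g => ⟨⟨g, hh g⟩, rfl⟩⟩)

theorem closed_classD : Closed fun G _ => ClassD G where
  iso G H _ _ e h := .sub H G e.symm.toMonoidHom e.symm.injective h
  prod G H _ _ hG hH := .prod G H hG hH
  loc G _ h := .loc G fun K hK => by
    obtain ⟨S, rfl⟩ := hK
    obtain ⟨H, hS, hH⟩ := h S
    exact .sub _ _ (Subgroup.inclusion ((Subgroup.closure_le _).2 hS))
      (Subgroup.inclusion_injective _) hH
  poly G _ h := .poly G h.polyZ
  ext G _ h _ hk ι K rk hle hcov hstep := by
    refine .ext G h hk ι K (fun i j => rk i < rk j) (InvImage.wf rk wellFounded_lt) hle ?_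
      (fun i x => ClassD ↥(K i ⊔ Subgroup.zpowers x)) (fun _ _ h => h) fun i x hx => ?_
    · rintro _ ⟨S, rfl⟩ hS
      exact (hcov S (Subgroup.subset_closure.trans hS)).imp fun i hi =>
        (Subgroup.closure_le _).2 hi
    rcases hstep i x hx with ⟨h1, h2⟩ | h1
    · exact Or.inl (h2 x hx h1)
    · refine Or.inr (Or.inl ?_)
      rintro _ ⟨S', rfl⟩ hM
      obtain ⟨j, hj, hS'⟩ := h1 S' fun y hy => by
        obtain ⟨k1, z, hz, e⟩ := hM (Subgroup.subset_closure hy)
        refine ⟨k1, ?_⟩
        rw [← e]
        simpa [mul_assoc] using hz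
      exact ⟨j, hj, (Subgroup.closure_le _).2 hS'⟩

theorem hall_classD {A : Type} [Group A] (hA : PolyZ A) : ClassD (Hall A) :=
  closed_classD.hall hA.polyZS

end Pool.Agent.MP_f7db47_al
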