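import Pool.Agent.MP_f7db47_al.HallAbs

/-! Abstract restricted wreath products with a poly-infinite-cyclic top group. -/

namespace Pool.Agent.MP_f7db47_al

/-- Internal description of a restricted wreath product with top group `A`. -/
structure WrData (P A : Type) [Group P] [Group A] where
  φ : A →* P
  N : Set A → Subgroup P
  mono : ∀ {U V : Set A}, U ⊆ V → N U ≤ N V
  inf : ∀ {U V : Set A} {y : P}, y ∈ N U → y ∈ N V → y ∈ N (U ∩ V)
  empty : ∀ {y : P}, y ∈ N ∅ → y = 1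
  conj : ∀ {U : Set A} {y : P} (a : A), y ∈ N U → φ a * y * (φ a)⁻¹ ∈ N {u | a⁻¹ * u ∈ U}
  comm : ∀ {U V : Set A} {y z : P}, Disjoint U V → y ∈ N U → z ∈ N V → y * z = z * y
  dec : ∀ {y : P}, y ∈ N Set.univ → ∀ U : Set A, ∃ y₁ ∈ N U, ∃ y₂ ∈ N Uᶜ, y = y₁ * y₂
  fin : ∀ {y : P}, y ∈ N Set.univ → ∃ E : Finset A, y ∈ N E
  top : ∀ {a : A}, φ a ∈ N Set.univ → a = 1

namespace WrData

variable {D : (G : Type) → [Group G] → Prop} {P A : Type} [Group P] [Group A] (w : WrData P A)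

theorem univ {U : Set A} {y : P} (hy : y ∈ w.N U) : y ∈ w.N Set.univ :=
  w.mono (Set.subset_univ _) hy

theorem normal {U : Set A} {n y : P} (hn : n ∈ w.N Set.univ) (hy : y ∈ w.N U) :
    n * y * n⁻¹ ∈ w.N U := by
  obtain ⟨n₁, h₁, n₂, h₂, rfl⟩ := w.dec hn U
  have hc := w.comm disjoint_compl_right hy h₂
  have : n₁ * n₂ * y * (n₁ * n₂)⁻¹ = n₁ * y * n₁⁻¹ := by
    rw [mul_inv_rev, mul_assoc n₁ n₂ y, ← hc]; simp [mul_assoc]
  rw [this]
  exact (w.N U).mul_mem ((w.N U).mul_mem h₁ hy) ((w.N U).inv_mem h₁)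

theorem eq_one_of_disjoint {U V : Set A} {y : P} (h : Disjoint U V) (hU : y ∈ w.N U)
    (hV : y ∈ w.N V) : y = 1 :=
  w.empty (by simpa [Set.disjoint_iff_inter_eq_empty.1 h] using w.inf hU hV)

theorem dec_unique {U : Set A} {y₁ y₂ z₁ z₂ : P} (h₁ : y₁ ∈ w.N U) (h₂ : y₂ ∈ w.N Uᶜ)
    (g₁ : z₁ ∈ w.N U) (g₂ : z₂ ∈ w.N Uᶜ) (h : y₁ * y₂ = z₁ * z₂) : y₂ = z₂ := by
  have e : z₁⁻¹ * y₁ = z₂ * y₂⁻¹ := by
    rw [inv_mul_eq_iff_eq_mul, ← mul_assoc, ← h]; simp
  have := w.eq_one_of_disjoint disjoint_compl_right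
    ((w.N U).mul_mem ((w.N U).inv_mem g₁) h₁)
    (by rw [e]; exact (w.N Uᶜ).mul_mem g₂ ((w.N Uᶜ).inv_mem h₂))
  rw [e] at this
  exact (mul_inv_eq_one.1 this).symm

theorem conj_inv {U : Set A} {a : A} (hU : ∀ u, a⁻¹ * u ∈ U → u ∈ U) {y : P} (hy : y ∈ w.N U) :
    w.φ a * y * (w.φ a)⁻¹ ∈ w.N U :=
  w.mono hU (w.conj a hy)

/-- The subgroup `N U ⋊ B` for a `B`-invariant set `U`. -/
def SD (U : Set A) (B : Subgroup A) (hU : ∀ a ∈ B, ∀ u ∈ U, a * u ∈ U) : Subgroup P where
  carrier := {y | ∃ n ∈ w.N U, ∃ a ∈ B, y = n * w.φ a}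
  one_mem' := ⟨1, one_mem _, 1, one_mem _, by simp⟩
  mul_mem' := by
    rintro _ _ ⟨n, hn, a, ha, rfl⟩ ⟨m, hm, b, hb, rfl⟩
    refine ⟨n * (w.φ a * m * (w.φ a)⁻¹), (w.N U).mul_mem hn (w.conj_inv (fun u hu => ?_) hm),
      a * b, B.mul_mem ha hb, by simp [mul_assoc]⟩
    simpa using hU a ha _ hu
  inv_mem' := by
    rintro _ ⟨n, hn, a, ha, rfl⟩
    refine ⟨w.φ a⁻¹ * n⁻¹ * (w.φ a⁻¹)⁻¹, w.conj_inv (fun u hu => ?_) ((w.N U).inv_mem hn),
      a⁻¹, B.inv_mem ha, by simp [mul_assoc]⟩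
    simpa using hU a⁻¹ (B.inv_mem ha) _ hu

theorem top_eq {n m : P} {a b : A} (hn : n ∈ w.N Set.univ) (hm : m ∈ w.N Set.univ)
    (h : n * w.φ a = m * w.φ b) : a = b := by
  have : w.φ (a * b⁻¹) = n⁻¹ * m := by
    rw [map_mul, map_inv, eq_inv_mul_iff_mul_eq, ← mul_assoc, h]; simp
  exact mul_inv_eq_one.1 (w.top (this ▸ (w.N _).mul_mem ((w.N _).inv_mem hn) hm))

theorem φ_injective : Function.Injective w.φ := fun a b h =>
  w.top_eq (one_mem _) (one_mem _) (by rw [h])

theorem eq_one_of_fixed {n : P} {a : A} (hn : n ∈ w.N Set.univ)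
    (ha : ∀ k : ℕ, k ≠ 0 → a ^ k ≠ 1) (h : w.φ a * n * (w.φ a)⁻¹ = n) : n = 1 := by
  classical
  obtain ⟨E, hE⟩ := w.fin hn
  have hinj : Function.Injective fun k : ℕ => a ^ k := by
    intro k l hkl
    by_contra hne
    rcases lt_or_gt_of_ne hne with h | h
    · refine ha (l - k) (by omega) ?_
      have : a ^ l = a ^ k * a ^ (l - k) := by rw [← pow_add]; congr 1; omega
      simp only at hkl
      rw [← hkl] at this
      exact (mul_eq_left.1 this.symm)
    · refine ha (k - l) (by omega) ?_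
      have : a ^ k = a ^ l * a ^ (k - l) := by rw [← pow_add]; congr 1; omega
      simp only at hkl
      rw [hkl] at this
      exact (mul_eq_left.1 this.symm)
  obtain ⟨k, hk⟩ : ∃ k : ℕ, a ^ k ∉ (E ×ˢ E).image fun p : A × A => p.1 * p.2⁻¹ := by
    by_contra hcon
    push Not at hcon
    exact Set.infinite_of_injective_forall_mem hinj hcon (Finset.finite_toSet _)
  have hfix : ∀ k : ℕ, w.φ (a ^ k) * n * (w.φ (a ^ k))⁻¹ = n := by
    intro k
    induction k with
    | zero => simp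
    | succ k ih =>
      rw [pow_succ', map_mul, mul_inv_rev]
      calc _ = w.φ a * (w.φ (a ^ k) * n * (w.φ (a ^ k))⁻¹) * (w.φ a)⁻¹ := by simp [mul_assoc]
        _ = n := by rw [ih, h]
  have h2 := w.conj (a ^ k) hE
  rw [hfix] at h2
  refine w.eq_one_of_disjoint ?_ hE h2
  rw [Set.disjoint_left]
  intro u hu hu'
  exact hk (Finset.mem_image.2 ⟨(u, (a ^ k)⁻¹ * u), Finset.mem_product.2 ⟨hu, hu'⟩, by simp⟩)

theorem D_finset (C : Closed D) (h1 : ∀ u, D (w.N {u})) (E : Finset A) : D (w.N E) := by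
  classical
  induction E using Finset.induction_on with
  | empty =>
    refine C.of_eq ?_ C.bot
    exact ((Subgroup.eq_bot_iff_forall _).2 fun y hy => w.empty (by simpa using hy)).symm
  | insert u E hu ih =>
    have hd : Disjoint ({u} : Set A) E := by simpa using hu
    refine C.of_eq ?_ (C.prod_amb _ _ (fun x hx y hy => w.comm hd hx hy)
      (fun x hx hx' => w.eq_one_of_disjoint hd hx hx') (h1 u) ih)
    apply le_antisymm
    · exact sup_le (w.mono (by simp)) (w.mono (by simp))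
    · intro y hy
      obtain ⟨y₁, h₁, y₂, h₂, rfl⟩ := w.dec (w.univ hy) {u}
      refine Subgroup.mul_mem_sup h₁ (w.mono ?_ (w.inf h₂ (V := (insert u E : Finset A)) ?_))
      · rintro x ⟨hx, hx'⟩
        simp only [Finset.coe_insert, Set.mem_insert_iff] at hx'
        exact hx'.resolve_left hx
      · have := (w.N _).mul_mem ((w.N _).inv_mem (w.mono (V := (insert u E : Finset A))
          (by simp) h₁)) hy
        simpa using this

theorem D_univ (C : Closed D) (h1 : ∀ u, D (w.N {u})) : D (w.N Set.univ) := by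
  classical
  refine C.loc_amb _ fun S hS => ?_
  choose! E hE using fun y (hy : y ∈ w.N Set.univ) => w.fin hy
  refine ⟨w.N (S.biUnion E : Finset A), w.mono (Set.subset_univ _), fun y hy => ?_,
    w.D_finset C h1 _⟩
  refine w.mono ?_ (hE y (hS hy))
  intro u hu
  simp only [Finset.coe_biUnion, Set.mem_iUnion]
  exact ⟨y, hy, hu⟩

/-- The `B`-saturation of a finite set. -/
def sat (B : Subgroup A) (E : Finset A) : Set A := {u | ∃ e ∈ E, u * e⁻¹ ∈ B}

theorem sat_inv (B : Subgroup A) (E : Finset A) : ∀ a ∈ B, ∀ u ∈ sat B E, a * u ∈ sat B E := by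
  rintro a ha u ⟨e, he, hu⟩
  exact ⟨e, he, by simpa [mul_assoc] using B.mul_mem ha hu⟩

open Classical in
theorem sat_shrink {B' : Type} [Group B'] (ι : B' →* A) (hι : Function.Injective ι)
    (h : B' →* Multiplicative ℤ) (q : B') (hq : q ∉ h.ker) (E : Finset A) (hE : E.Nonempty) :
    ∃ E' : Finset A, E'.card < E.card ∧
      sat (h.ker.map ι) E ∩ {u | (ι q)⁻¹ * u ∈ sat (h.ker.map ι) E} ⊆ sat (h.ker.map ι) E' := by
  let B := h.ker.map ι
  refine ⟨E.filter fun e => (ι q)⁻¹ * e ∈ sat B E, ?_, ?_⟩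
  · apply Finset.card_lt_card
    refine ⟨Finset.filter_subset _ _, fun hsub => ?_⟩
    obtain ⟨e₀, he₀⟩ := hE
    let F := E.filter fun e => e * e₀⁻¹ ∈ ι.range
    let ht : A → ℤ := fun e => if he : e * e₀⁻¹ ∈ ι.range then (h he.choose).toAdd else 0
    have hht : ∀ e (b : B'), ι b = e * e₀⁻¹ → ht e = (h b).toAdd := by
      intro e b hb
      have he : e * e₀⁻¹ ∈ ι.range := ⟨b, hb⟩
      simp only [ht, dif_pos he]
      rw [hι (he.choose_spec.trans hb.symm)]
    obtain ⟨e, he, hmin⟩ := F.exists_min_image (fun e => (h q).toAdd * ht e)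
      ⟨e₀, Finset.mem_filter.2 ⟨he₀, by simp⟩⟩
    obtain ⟨heE, b, hb⟩ := Finset.mem_filter.1 he
    obtain ⟨e', he', c, hc, hce⟩ := (Finset.mem_filter.1 (hsub heE)).2
    have hb' : ι (c⁻¹ * q⁻¹ * b) = e' * e₀⁻¹ := by
      rw [map_mul, map_mul, map_inv, map_inv, hce, hb]; group
    have h1 := hmin e' (Finset.mem_filter.2 ⟨he', _, hb'⟩)
    rw [hht e b hb, hht e' _ hb'] at h1
    have hc1 : h c = 1 := hc
    have hq0 : (h q).toAdd ≠ 0 := fun h0 => hq (Multiplicative.toAdd.injective (by simpa using h0))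
    simp only [map_mul, map_inv, hc1, toAdd_mul, toAdd_inv, toAdd_one] at h1
    nlinarith [sq_pos_of_pos (abs_pos.2 hq0), sq_abs (h q).toAdd]
  · rintro u ⟨⟨e, he, hu⟩, hu'⟩
    refine ⟨e, Finset.mem_filter.2 ⟨he, ?_⟩, hu⟩
    obtain ⟨c, hc, hce⟩ := hu
    have := sat_inv B E (ι (q⁻¹ * c⁻¹ * q)) ⟨_, by
      have hc1 : h c = 1 := hc
      simp [MonoidHom.mem_ker, hc1], rfl⟩ _ hu'
    convert this using 1
    rw [map_mul, map_mul, map_inv, map_inv, hce]; group

theorem zpow_dec {m : P} (hm : m ∈ w.N Set.univ) (a : A) (r : ℤ) :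
    ∃ m' ∈ w.N Set.univ, (m * w.φ a) ^ r = m' * w.φ (a ^ r) := by
  have hc : ∀ (b : A) {y : P}, y ∈ w.N Set.univ → w.φ b * y * (w.φ b)⁻¹ ∈ w.N Set.univ :=
    fun b y hy => w.univ (w.conj b hy)
  induction r using Int.induction_on with
  | zero => exact ⟨1, one_mem _, by simp⟩
  | succ n ih =>
    obtain ⟨m', hm', e⟩ := ih
    refine ⟨m' * (w.φ (a ^ (n : ℤ)) * m * (w.φ (a ^ (n : ℤ)))⁻¹), mul_mem hm' (hc _ hm), ?_⟩
    rw [zpow_add_one, e, zpow_add_one, map_mul]; group
  | pred n ih =>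
    obtain ⟨m', hm', e⟩ := ih
    refine ⟨m' * (w.φ (a ^ (-(n : ℤ) - 1)) * m⁻¹ * (w.φ (a ^ (-(n : ℤ) - 1)))⁻¹),
      mul_mem hm' (hc _ (inv_mem hm)), ?_⟩
    rw [zpow_sub_one, e, zpow_sub_one, map_mul, map_inv]; group

/-- Conjugate of a subgroup. -/
def cj (n : P) (H : Subgroup P) : Subgroup P := H.comap (MulAut.conj n⁻¹).toMonoidHom

theorem mem_cj {n y : P} {H : Subgroup P} : y ∈ cj n H ↔ n⁻¹ * y * n ∈ H := by
  simp [cj]

theorem D_wr (C : Closed D) (h1 : ∀ u, D (w.N {u})) {B' : Type} [Group B'] (hB : PolyZS B') :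
    ∀ ι : B' →* A, Function.Injective ι →
      D (w.SD Set.univ ι.range fun _ _ _ _ => trivial) := by
  classical
  induction hB with
  | triv B' =>
    intro ι _
    refine C.of_eq ?_ (w.D_univ C h1)
    ext y
    constructor
    · intro hy; exact ⟨y, hy, 1, one_mem _, by simp⟩
    · rintro ⟨n, hn, _, ⟨b, rfl⟩, rfl⟩
      simpa [Subsingleton.elim b 1] using hn
  | ext B' h hs hk ih =>
    intro ι hι
    have htf : ∀ b : B', b ≠ 1 → ∀ k : ℕ, k ≠ 0 → ι b ^ k ≠ 1 := fun b hb k hk' e =>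
      hb ((PolyZS.ext B' h hs hk).pow_eq_one b k hk' (hι (by simpa using e)))
    let B := h.ker.map ι
    have hBr : (ι.comp h.ker.subtype).range = B := by
      ext a; simp [B]
    have hc : ∀ (b : A) {y : P}, y ∈ w.N Set.univ → w.φ b * y * (w.φ b)⁻¹ ∈ w.N Set.univ :=
      fun b y hy => w.univ (w.conj b hy)
    have hBn : ∀ (q : B'), ∀ a ∈ B, ι q * a * (ι q)⁻¹ ∈ B := by
      rintro q _ ⟨c, hc, rfl⟩
      have hc1 : h c = 1 := hc
      exact ⟨q * c * q⁻¹, by simp [hc1], by simp⟩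
    let G := w.SD Set.univ ι.range fun _ _ _ _ => trivial
    let W := w.SD Set.univ B fun _ _ _ _ => trivial
    have hW : D W := by
      refine C.of_eq ?_ (ih (ι.comp h.ker.subtype) (hι.comp Subtype.val_injective))
      simp only [W, hBr]
    obtain ⟨s, hs1⟩ := hs (Multiplicative.ofAdd 1)
    have hinf : ∀ c ∈ G, c ∉ W → ∀ r : ℤ, c ^ r ∈ W → r = 0 := by
      rintro _ ⟨m, hm, _, ⟨p, rfl⟩, rfl⟩ hcW r ⟨n, hn, _, ⟨b, hb, rfl⟩, e⟩
      obtain ⟨m', hm', e'⟩ := w.zpow_dec hm (ι p) r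
      have e2 := hι ((map_zpow ι p r).trans (w.top_eq hm' hn (e'.symm.trans e)))
      have hb1 : h b = 1 := hb
      have e3 : r * (h p).toAdd = 0 := by
        have := congrArg (fun z => (h z).toAdd) e2
        simpa [hb1] using this
      refine (mul_eq_zero.1 e3).resolve_right fun h0 => hcW ⟨m, hm, ι p, ⟨p, ?_, rfl⟩, rfl⟩
      exact Multiplicative.toAdd.injective (by simpa using h0)
    have htG : w.φ (ι s) ∈ G := ⟨1, one_mem _, ι s, ⟨s, rfl⟩, by simp⟩
    have htW : w.φ (ι s) ∉ W := by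
      rintro ⟨n, hn, _, ⟨b, hb, rfl⟩, e⟩
      have e2 := hι (w.top_eq (one_mem _) hn (by simpa using e))
      have hb1 : h b = 1 := hb
      rw [← e2, hs1] at hb1
      exact absurd (congrArg Multiplicative.toAdd hb1) (by simp)
    let K : (w.N Set.univ × Finset A) ⊕ Finset A → Subgroup P := fun i => match i with
      | .inl (n, E) => cj (n : P) (w.SD (sat B E) B (sat_inv B E))
      | .inr E => w.N (sat B E)
    let rk : (w.N Set.univ × Finset A) ⊕ Finset A → ℕ := fun i => match i with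
      | .inl (_, E) => E.card + 1
      | .inr E => E.card
    have hNW : w.N Set.univ ≤ W := fun y hy => ⟨y, hy, 1, one_mem _, by simp⟩
    have hle : ∀ i, K i ≤ W := by
      rintro (⟨n, E⟩ | E) y hy
      · obtain ⟨m, hm, a, ha, e⟩ := mem_cj.1 hy
        have : y = n * (m * w.φ a) * (n : P)⁻¹ := by rw [← e]; group
        rw [this]
        exact mul_mem (mul_mem (hNW n.2) ⟨m, w.univ hm, a, ha, rfl⟩) (inv_mem (hNW n.2))
      · exact hNW (w.univ hy)
    have hsat0 : sat B ∅ = ∅ := by ext u; simp [sat]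
    refine C.ext_amb G W (w.φ (ι s)) htG ?_ ?_ ?_ (hinf _ htG htW) hW _ K rk hle ?_ ?_
    · rintro _ ⟨n, hn, a, ⟨b, _, rfl⟩, rfl⟩
      exact ⟨n, hn, ι b, ⟨b, rfl⟩, rfl⟩
    · rintro _ ⟨n, hn, _, ⟨q, rfl⟩, rfl⟩ _ ⟨m, hm, a, ha, rfl⟩
      refine mul_mem (?_ : _ ∈ W) ?_ |> fun z : n * (w.φ (ι q) * (m * w.φ a) * (w.φ (ι q))⁻¹) *
        n⁻¹ ∈ W => by convert z using 1; group
      · refine mul_mem (hNW hn) ⟨_, hc (ι q) hm, _, hBn q a ha, ?_⟩
        simp only [map_mul, map_inv]; group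
      · exact inv_mem (hNW hn)
    · rintro _ ⟨n, hn, _, ⟨q, rfl⟩, rfl⟩
      refine ⟨(h q).toAdd, n, hn, ι (q * s ^ (-(h q).toAdd)), ⟨_, ?_, rfl⟩, ?_⟩
      · show h _ = 1
        apply Multiplicative.toAdd.injective
        simp [hs1]
      · simp [mul_assoc]
    · intro S hS
      have : ∀ y ∈ W, ∃ E : Finset A, ∃ n ∈ w.N E, ∃ a ∈ B, y = n * w.φ a := by
        rintro _ ⟨n, hn, a, ha, rfl⟩
        obtain ⟨E, hE⟩ := w.fin hn
        exact ⟨E, n, hE, a, ha, rfl⟩
      choose! E hE using this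
      refine ⟨.inl (1, S.biUnion E), fun y hy => ?_⟩
      refine (mem_cj (H := w.SD (sat B (S.biUnion E)) B (sat_inv B _))).2 ?_
      obtain ⟨n, hn, a, ha, e⟩ := hE y (hS hy)
      refine ⟨n, w.mono (V := sat B (S.biUnion E))
        (fun u hu => ⟨u, Finset.mem_biUnion.2 ⟨y, hy, hu⟩, by simp⟩) hn, a, ha, ?_⟩
      simpa using e
    · rintro (⟨n₀, E⟩ | E) _ ⟨n, hn, _, ⟨q, rfl⟩, rfl⟩ hxW
      all_goals
        have hq : q ∉ h.ker := fun hq => hxW ⟨n, hn, ι q, ⟨q, hq, rfl⟩, rfl⟩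
      · set U := sat B E with hUdef
        set U' : Set A := {u | (ι q)⁻¹ * u ∈ U} with hU'def
        have hU' : ∀ a ∈ B, ∀ u ∈ U', a * u ∈ U' := by
          intro a ha u hu
          have := sat_inv B E _ (hBn q⁻¹ a ha) _ hu
          show _ ∈ U
          convert this using 1
          simp only [map_inv]; group
        set n' : P := (n₀ : P)⁻¹ * n * (w.φ (ι q) * n₀ * (w.φ (ι q))⁻¹) with hn'def
        have hn' : n' ∈ w.N Set.univ := mul_mem (mul_mem (inv_mem n₀.2) hn) (hc _ n₀.2)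
        have key : ∀ y, y ∈ K (.inl (n₀, E)) →
            (n * w.φ (ι q))⁻¹ * y * (n * w.φ (ι q)) ∈ K (.inl (n₀, E)) →
            (n₀ : P)⁻¹ * y * n₀ ∈ w.SD U B (sat_inv B E) ∧
              n'⁻¹ * ((n₀ : P)⁻¹ * y * n₀) * n' ∈ w.SD U' B hU' := by
          intro y hy hy'
          refine ⟨mem_cj.1 hy, ?_⟩
          obtain ⟨m, hm, a, ha, e⟩ := mem_cj.1 hy'
          refine ⟨_, w.conj (ι q) hm, _, hBn q a ha, ?_⟩
          have : m = (n₀ : P)⁻¹ * ((n * w.φ (ι q))⁻¹ * y * (n * w.φ (ι q))) * n₀ * (w.φ a)⁻¹ := by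
            rw [e]; group
          rw [this, hn'def]
          simp only [map_mul, map_inv]; group
        obtain ⟨n₁, hn₁, n₂, hn₂, e12⟩ := w.dec hn' (U ∪ U')
        by_cases h2 : n₂ = 1
        · rw [h2, mul_one] at e12
          rcases E.eq_empty_or_nonempty with rfl | hE
          · have hn1 : n' = 1 := by
              refine w.empty ?_
              rw [e12]
              convert hn₁
              ext u; simp [hU'def, hUdef, hsat0]
            have hK : ∀ y, y ∈ K (.inl (n₀, ∅)) ↔ ∃ a ∈ B, y = n₀ * w.φ a * (n₀ : P)⁻¹ := by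
              intro y
              refine mem_cj.trans ⟨?_, ?_⟩
              · rintro ⟨m, hm, a, ha, e⟩
                rw [hsat0] at hm
                rw [w.empty hm, one_mul] at e
                exact ⟨a, ha, by rw [← e]; group⟩
              · rintro ⟨a, ha, rfl⟩
                exact ⟨1, one_mem _, a, ha, by group⟩
            have hx : n * w.φ (ι q) = n₀ * w.φ (ι q) * (n₀ : P)⁻¹ := by
              have : n = n₀ * n' * (w.φ (ι q) * n₀ * (w.φ (ι q))⁻¹)⁻¹ := by rw [hn'def]; group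
              rw [this, hn1]; group
            refine Or.inl ⟨fun y => ?_, fun c hcG hcW hcn => C.poly _ ?_⟩
            · rw [hK, hK, hx]
              constructor
              · rintro ⟨a, ha, rfl⟩
                exact ⟨_, hBn q a ha, by simp only [map_mul, map_inv]; group⟩
              · rintro ⟨a, ha, e⟩
                refine ⟨_, hBn q⁻¹ a ha, ?_⟩
                have : y = (n₀ * w.φ (ι q) * (n₀ : P)⁻¹)⁻¹ * (n₀ * w.φ a * (n₀ : P)⁻¹) *
                  (n₀ * w.φ (ι q) * (n₀ : P)⁻¹) := by rw [← e]; group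
                rw [this]; simp only [map_mul, map_inv]; group
            · refine polyZS_sup_zpowers _ c ?_ hcn fun r hr => hinf c hcG hcW r (hle (.inl (n₀, ∅)) hr)
              let f : B' →* P := (MulAut.conj (n₀ : P)).toMonoidHom.comp (w.φ.comp ι)
              have hf : Function.Injective f :=
                (MulAut.conj (n₀ : P)).injective.comp (w.φ_injective.comp hι)
              have hKf : h.ker.map f = K (.inl (n₀, ∅)) := by
                ext y
                rw [hK]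
                constructor
                · rintro ⟨b, hb, rfl⟩; exact ⟨ι b, ⟨b, hb, rfl⟩, rfl⟩
                · rintro ⟨_, ⟨b, hb, rfl⟩, rfl⟩; exact ⟨b, hb, rfl⟩
              rw [← hKf]
              exact hk.of_equiv _ (h.ker.equivMapOfInjective f hf)
          · obtain ⟨E', hE', hsub⟩ := sat_shrink ι hι h q hq E hE
            obtain ⟨p₁, hp₁, p₂, hp₂, ep⟩ := w.dec hn' U
            have hp₂' : p₂ ∈ w.N U' := by
              have : p₂ ∈ w.N (U ∪ U') := by
                have := mul_mem (inv_mem (w.mono Set.subset_union_left hp₁)) (e12 ▸ hn₁)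
                rw [ep] at this
                simpa using this
              refine w.mono ?_ (w.inf this hp₂)
              rintro u ⟨hu | hu, hu'⟩
              · exact absurd hu hu'
              · exact hu
            refine Or.inr fun S hS => ⟨.inl (n₀ * ⟨p₁, w.univ hp₁⟩, E'), by simpa [rk] using hE',
              fun y hy => mem_cj.2 ?_⟩
            obtain ⟨k1, k2⟩ := key y (hS y hy).1 (hS y hy).2
            have hs1 : p₁ ∈ w.SD U B (sat_inv B E) := ⟨p₁, hp₁, 1, one_mem _, by simp⟩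
            have hs2 : p₂ ∈ w.SD U' B hU' := ⟨p₂, hp₂', 1, one_mem _, by simp⟩
            obtain ⟨m₁, hm₁, a₁, ha₁, e₁⟩ := mul_mem (mul_mem (inv_mem hs1) k1) hs1
            obtain ⟨m₂, hm₂, a₂, ha₂, e₂⟩ := mul_mem (mul_mem hs2 k2) (inv_mem hs2)
            have e3 : m₁ * w.φ a₁ = m₂ * w.φ a₂ := by rw [← e₁, ← e₂, ep]; group
            have e4 := w.top_eq (w.univ hm₁) (w.univ hm₂) e3
            rw [e4, mul_left_inj] at e3
            refine ⟨m₁, w.mono hsub (w.inf hm₁ (e3 ▸ hm₂)), a₁, ha₁, ?_⟩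
            rw [← e₁]; simp only [Subgroup.coe_mul]; group
        · refine Or.inr fun S hS => ⟨.inr E, by simp [rk], fun y hy => ?_⟩
          obtain ⟨⟨m, hm, a, ha, e₁⟩, ⟨M, hM, a', ha', e₂⟩⟩ := key y (hS y hy).1 (hS y hy).2
          have e3 : m * w.φ a = (n' * M * (w.φ a' * n'⁻¹ * (w.φ a')⁻¹)) * w.φ a' := by
            have : M = n'⁻¹ * ((n₀ : P)⁻¹ * y * n₀) * n' * (w.φ a')⁻¹ := by rw [e₂]; group
            rw [this, e₁]; group
          have e4 := w.top_eq (w.univ hm)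
            (mul_mem (mul_mem hn' (w.univ hM)) (hc _ (inv_mem hn'))) e3
          subst e4
          have hV : ∀ b ∈ B, ∀ u ∈ U ∪ U', b * u ∈ U ∪ U' := by
            rintro b hb u (hu | hu)
            · exact Or.inl (sat_inv B E b hb u hu)
            · exact Or.inr (hU' b hb u hu)
          have c1 : w.φ a * n₁ * (w.φ a)⁻¹ ∈ w.N (U ∪ U') :=
            w.conj_inv (fun u hu => by simpa using hV a ha _ hu) hn₁
          have c2 : w.φ a * n₂ * (w.φ a)⁻¹ ∈ w.N (U ∪ U')ᶜ :=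
            w.conj_inv (U := (U ∪ U')ᶜ) (fun u hu hu' => hu (hV _ (inv_mem ha) _ hu')) hn₂
          have hMV : M ∈ w.N (U ∪ U') := w.mono Set.subset_union_right hM
          have hcomm := w.comm disjoint_compl_right hMV hn₂
          have e5 : (m * (w.φ a * n₁ * (w.φ a)⁻¹)) * (w.φ a * n₂ * (w.φ a)⁻¹) = (n₁ * M) * n₂ := by
            rw [mul_left_inj] at e3
            rw [mul_assoc n₁, hcomm, ← mul_assoc n₁, ← e12, e3, e12]; group
          have e6 := w.dec_unique (mul_mem (w.mono Set.subset_union_left hm) c1) c2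
            (mul_mem hn₁ hMV) hn₂ e5
          obtain ⟨b, hb, rfl⟩ := ha
          have hb1 : b = 1 := by
            by_contra hb1
            exact h2 (w.eq_one_of_fixed (w.univ hn₂) (htf b hb1) e6)
          have : y = n₀ * m * (n₀ : P)⁻¹ := by
            rw [hb1, map_one, map_one, mul_one] at e₁
            rw [← e₁]; group
          rw [this]
          exact w.normal n₀.2 hm
      · rcases E.eq_empty_or_nonempty with rfl | hE
        · have hK : K (.inr ∅) = ⊥ :=
            (Subgroup.eq_bot_iff_forall _).2 fun y hy => w.empty (by simpa [K, hsat0] using hy)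
          rw [hK]
          refine Or.inl ⟨fun y => by
            rw [Subgroup.mem_bot, Subgroup.mem_bot]; exact conj_eq_one_iff.symm,
            fun c hcG hcW hcn => C.poly _ ?_⟩
          exact polyZS_sup_zpowers _ c (.triv _) hcn fun r hr => hinf c hcG hcW r (bot_le (a := W) hr)
        · obtain ⟨E', hE', hsub⟩ := sat_shrink ι hι h q hq E hE
          refine Or.inr fun S hS => ⟨.inr E', hE', fun y hy => w.mono hsub (w.inf (hS y hy).1 ?_)⟩
          have := w.normal hn (w.conj (ι q) (hS y hy).2)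
          convert this using 1
          group

end WrData

end Pool.Agent.MP_f7db47_al
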