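import Pool.Agent.MP_f7db47_al.ZExt

/-!
Path nilpotent matrices: filtrations graded by the cosets of a subgroup.
-/

set_option linter.unusedSectionVars false

namespace Pool.Agent.MP_f7db47_al

open Matrix

universe u v

variable {R : Type v} [Ring R] {G : Type u} [Group G]
variable {I J : Type}

/-- Restriction of the support of a vector. -/
noncomputable def prv (S : Set G) (v : J → MonoidAlgebra R G) : J → MonoidAlgebra R G :=
  fun i => pr S (v i)

/-- A vector supported in `S`. -/
def VSup (S : Set G) (v : J → MonoidAlgebra R G) : Prop := ∀ i, Sup S (v i)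

/-- Invariance under right multiplication by `K`. -/
def RInv (K : Subgroup G) (S : Set G) : Prop := ∀ g, ∀ k ∈ K, g * k ∈ S ↔ g ∈ S

/-- The left coset `g K`. -/
def lc (g : G) (K : Subgroup G) : Set G := {y | g⁻¹ * y ∈ K}

lemma rinv_lc (g : G) (K : Subgroup G) : RInv K (lc g K) := by
  intro y k hk
  simp only [lc, Set.mem_ofPred_eq, ← mul_assoc]
  exact K.mul_mem_cancel_right hk

lemma rinv_univ (K : Subgroup G) : RInv K Set.univ := fun _ _ _ => by simp

lemma RInv.inter {K : Subgroup G} {S S' : Set G} (h : RInv K S) (h' : RInv K S') :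
    RInv K (S ∩ S') := fun g k hk => and_congr (h g k hk) (h' g k hk)

lemma RInv.left {K : Subgroup G} {S : Set G} (h : RInv K S) (a : G) :
    RInv K {y | a * y ∈ S} := fun g k hk => by
  simp only [Set.mem_ofPred_eq, ← mul_assoc]; exact h _ k hk

lemma vsup_prv (S : Set G) (v : J → MonoidAlgebra R G) : VSup S (prv S v) :=
  fun i => sup_pr S (v i)

lemma prv_prv (S S' : Set G) (v : J → MonoidAlgebra R G) :
    prv S (prv S' v) = prv (S ∩ S') v := funext fun _ => pr_pr _ _ _

lemma prv_univ (v : J → MonoidAlgebra R G) : prv Set.univ v = v := funext fun _ => pr_univ _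

lemma prv_zero (S : Set G) : prv S (0 : J → MonoidAlgebra R G) = 0 :=
  funext fun _ => map_zero (pr S)

lemma prv_add (S : Set G) (v w : J → MonoidAlgebra R G) : prv S (v + w) = prv S v + prv S w :=
  funext fun _ => map_add (pr S) _ _

lemma prv_vecMul_right [Fintype I] {S S₁ U : Set G} (v : I → MonoidAlgebra R G)
    {B : Matrix I J (MonoidAlgebra R G)} (hB : MSup U B)
    (h : ∀ g, ∀ k ∈ U, g * k ∈ S ↔ g ∈ S₁) : prv S (v ᵥ* B) = prv S₁ v ᵥ* B := by
  funext j
  simp only [prv, vecMul, dotProduct, map_sum]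
  exact Finset.sum_congr rfl fun k _ => pr_mul_right _ (hB k j) h

lemma prv_vecMul_left [Fintype I] {S S₁ U : Set G} {v : I → MonoidAlgebra R G}
    (B : Matrix I J (MonoidAlgebra R G)) (hv : VSup U v)
    (h : ∀ k ∈ U, ∀ g, k * g ∈ S ↔ g ∈ S₁) : prv S (v ᵥ* B) = v ᵥ* mpr S₁ B := by
  funext j
  simp only [prv, vecMul, dotProduct, map_sum, mpr, Matrix.map_apply]
  exact Finset.sum_congr rfl fun k _ => pr_mul_left _ (hv k) h

lemma prv_single_smul (S : Set G) (g : G) (r : R) (v : J → MonoidAlgebra R G) :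
    prv S (MonoidAlgebra.single g r • v) =
      MonoidAlgebra.single g r • prv {y | g * y ∈ S} v := by
  funext j
  simp only [prv, Pi.smul_apply, smul_eq_mul]
  refine pr_mul_left (U := {g}) _ (sup_single (S := {g}) rfl r) ?_
  rintro k rfl y; rfl

lemma prv_smul {S U : Set G} (c : MonoidAlgebra R G) {v : J → MonoidAlgebra R G}
    (hv : VSup U v) (h : ∀ g, ∀ k ∈ U, g * k ∈ S ↔ g ∈ S) : prv S (c • v) = pr S c • v := by
  funext j
  simp only [prv, Pi.smul_apply, smul_eq_mul]
  exact pr_mul_right _ (hv j) h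

lemma exists_finset_vsup [Finite J] (v : J → MonoidAlgebra R G) :
    {g | ∃ i, (v i).coeff g ≠ 0}.Finite := by
  have : {g | ∃ i, (v i).coeff g ≠ 0} = ⋃ i, ((v i).coeff.support : Set G) := by
    ext g; simp
  rw [this]
  exact Set.finite_iUnion fun i => Finset.finite_toSet _

/-- Decomposition along left cosets. -/
lemma prv_induction [Finite J] (K : Subgroup G) {P : (J → MonoidAlgebra R G) → Prop}
    (h0 : P 0) (hadd : ∀ a b, P a → P b → P (a + b)) (v : J → MonoidAlgebra R G) {S : Set G}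
    (hS : RInv K S) (h : ∀ g, (∃ i, (v i).coeff g ≠ 0) → P (prv (lc g K) v)) : P (prv S v) := by
  classical
  set s := (exists_finset_vsup v).toFinset with hs
  set c : Finset (G ⧸ K) := (s.image QuotientGroup.mk).filter fun q => q.out ∈ S with hc
  have hlc : ∀ (q : G ⧸ K) (g : G), g ∈ lc q.out K ↔ q = (g : G ⧸ K) := by
    intro q g
    rw [lc, Set.mem_ofPred_eq, ← QuotientGroup.eq, QuotientGroup.out_eq']
  have hout : ∀ g : G, (g : G ⧸ K).out ∈ S ↔ g ∈ S := by
    intro g
    obtain ⟨k, hk⟩ := QuotientGroup.mk_out_eq_mul K g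
    rw [hk]; exact hS g k k.2
  have : prv S v = ∑ q ∈ c, prv (lc q.out K) v := by
    funext i
    ext g
    rw [Finset.sum_apply, MonoidAlgebra.coeff_sum, Finsupp.finsetSum_apply]
    simp only [prv, coeff_pr, hlc]
    rw [Finset.sum_ite_eq']
    by_cases h0 : (v i).coeff g = 0
    · simp [h0]
    · have : (g : G ⧸ K) ∈ c ↔ g ∈ S := by
        rw [hc, Finset.mem_filter, hout]
        refine and_iff_right (Finset.mem_image_of_mem _ ?_)
        rw [hs, Set.Finite.mem_toFinset]; exact ⟨i, h0⟩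
      by_cases hg : g ∈ S
      · rw [if_pos hg, if_pos (this.2 hg)]
      · rw [if_neg hg, if_neg fun h => hg (this.1 h)]
  rw [this]
  refine Finset.sum_induction _ P hadd h0 fun q hq => ?_
  rw [hc, Finset.mem_filter, Finset.mem_image] at hq
  obtain ⟨⟨g, hg, rfl⟩, -⟩ := hq
  rw [hs, Set.Finite.mem_toFinset] at hg
  have : lc (g : G ⧸ K).out K = lc g K := by
    ext y
    rw [hlc, lc, Set.mem_ofPred_eq, QuotientGroup.eq]
  rw [this]
  exact h g hg

variable (R) in
/-- A finite filtration of the free module, graded by the left cosets of `K`. -/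
structure Filt (K : Subgroup G) (J : Type) where
  V : ℕ → Submodule (MonoidAlgebra R G) (J → MonoidAlgebra R G)
  k : ℕ
  zero : V 0 = ⊥
  top : V k = ⊤
  mono : Monotone V
  graded : ∀ j S, RInv K S → ∀ v ∈ V j, prv S v ∈ V j

variable [Fintype J] [DecidableEq J] {K : Subgroup G}

/-- `ν` lowers the filtration by `n`. -/
def Filt.Low (F : Filt R K J) (n : ℕ) (ν : Matrix J J (MonoidAlgebra R G)) : Prop :=
  ∀ j, ∀ v ∈ F.V (j + n), v ᵥ* ν ∈ F.V j

/-- Path nilpotent with respect to `K`. -/
def PN (K : Subgroup G) (ν : Matrix J J (MonoidAlgebra R G)) : Prop :=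
  ∃ F : Filt R K J, F.Low 1 ν

namespace Filt

variable {F : Filt R K J} {n m : ℕ} {ν μ : Matrix J J (MonoidAlgebra R G)}

lemma low_zero : F.Low n 0 := fun j v _ => by simp

lemma Low.add (h : F.Low n ν) (h' : F.Low n μ) : F.Low n (ν + μ) := fun j v hv => by
  rw [vecMul_add]; exact add_mem (h j v hv) (h' j v hv)

lemma Low.mul (h : F.Low n ν) (h' : F.Low m μ) : F.Low (m + n) (ν * μ) := fun j v hv => by
  rw [← vecMul_vecMul]
  exact h' j _ (h (j + m) v (by rwa [add_assoc]))

lemma Low.of_le (h : F.Low n ν) (hm : m ≤ n) : F.Low m ν := fun j v hv =>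
  h j v (F.mono (by omega) hv)

lemma Low.eq_zero (h : F.Low n ν) (hn : F.k ≤ n) : ν = 0 := by
  ext1 i j
  have : Pi.single i 1 ᵥ* ν ∈ F.V 0 :=
    h 0 _ (F.mono (by omega : F.k ≤ 0 + n) (by rw [F.top]; trivial))
  rw [F.zero, Submodule.mem_bot] at this
  simpa using congrFun this j

lemma Low.pow (h : F.Low 1 ν) (n : ℕ) : F.Low n (ν ^ n) := by
  induction n with
  | zero => intro j v hv; simpa using hv
  | succ n ih => rw [pow_succ']; exact h.mul ih

lemma low_sum {ι : Type*} (s : Finset ι) (f : ι → Matrix J J (MonoidAlgebra R G))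
    (h : ∀ i ∈ s, F.Low n (f i)) : F.Low n (∑ i ∈ s, f i) :=
  Finset.sum_induction f (F.Low n) (fun _ _ => Low.add) low_zero h

lemma Low.mpr (h : F.Low n ν) {σ : Set G} (hl : ∀ k ∈ K, ∀ g, k * g ∈ σ ↔ g ∈ σ)
    (hr : RInv K σ) : F.Low n (mpr σ ν) := by
  intro j v hv
  rw [← prv_univ v]
  refine prv_induction K (P := fun z => z ᵥ* Pool.Agent.MP_f7db47_al.mpr σ ν ∈ F.V j)
    (by simp) (fun a b ha hb => by rw [add_vecMul]; exact add_mem ha hb) v (rinv_univ K)
    fun g _ => ?_
  rw [← prv_vecMul_left (S := {y | g⁻¹ * y ∈ σ}) ν (vsup_prv _ v)]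
  · exact F.graded _ _ (hr.left _) _ (h j _ (F.graded _ _ (rinv_lc g K) v hv))
  · intro k hk y
    simp only [Set.mem_ofPred_eq, ← mul_assoc]
    exact hl _ hk y

end Filt

/-- Path nilpotency only depends on finitely many elements of `K`. -/
lemma PN.refine {ν : Matrix J J (MonoidAlgebra R G)} (h : PN K ν) :
    ∃ Φ : Finset G, (Φ : Set G) ⊆ K ∧ ∀ K₂ : Subgroup G, (Φ : Set G) ⊆ K₂ → PN K₂ ν := by
  obtain ⟨F, hF⟩ := h
  let W : ℕ → Set (J → MonoidAlgebra R G) := fun m => Nat.rec
    (Set.range fun i => Pi.single i 1)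
    (fun _ Wm => ⋃ w ∈ Wm, (fun g => MonoidAlgebra.single g⁻¹ (1 : R) • prv (lc g K) (w ᵥ* ν)) ''
      {g | ∃ i, ((w ᵥ* ν) i).coeff g ≠ 0}) m
  have hW0 : W 0 = Set.range fun i => Pi.single i 1 := rfl
  have hWs : ∀ m, W (m + 1) = ⋃ w ∈ W m,
      (fun g => MonoidAlgebra.single g⁻¹ (1 : R) • prv (lc g K) (w ᵥ* ν)) ''
      {g | ∃ i, ((w ᵥ* ν) i).coeff g ≠ 0} := fun _ => rfl
  have hfin : ∀ m, (W m).Finite := by
    intro m
    induction m with
    | zero => exact Set.finite_range _
    | succ m ih => exact ih.biUnion fun w _ => (exists_finset_vsup _).image _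
  have hsup : ∀ m, ∀ w ∈ W m, VSup (K : Set G) w := by
    intro m w hw
    cases m with
    | zero =>
      obtain ⟨i, rfl⟩ := hw
      intro j
      by_cases hij : j = i
      · subst hij; simpa using sup_one K.one_mem
      · simpa [Pi.single_eq_of_ne hij] using sup_zero _
    | succ m =>
      rw [hWs] at hw
      simp only [Set.mem_iUnion] at hw
      obtain ⟨w, -, g, -, rfl⟩ := hw
      intro j
      refine (sup_single (S := {g⁻¹}) rfl _).mul (vsup_prv (lc g K) _ j) ?_
      rintro a rfl b hb; exact hb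
  have hV : ∀ m j, F.k ≤ m + j → ∀ w ∈ W m, w ∈ F.V j := by
    intro m
    induction m with
    | zero => intro j hj w _; exact F.mono (by omega : F.k ≤ j) (by rw [F.top]; trivial)
    | succ m ih =>
      intro j hj w hw
      rw [hWs] at hw
      simp only [Set.mem_iUnion] at hw
      obtain ⟨w, hw, g, -, rfl⟩ := hw
      exact Submodule.smul_mem _ _ (F.graded _ _ (rinv_lc g K) _
        (hF j w (ih (j + 1) (by omega) w hw)))
  have hΦ : (⋃ m ≤ F.k, ⋃ w ∈ W m, {g | ∃ i, (w i).coeff g ≠ 0}).Finite :=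
    (Set.finite_le_nat _).biUnion fun m _ => (hfin m).biUnion fun w _ => exists_finset_vsup w
  refine ⟨hΦ.toFinset, ?_, fun K₂ hK₂ => ?_⟩
  · intro g hg
    simp only [Set.Finite.coe_toFinset, Set.mem_iUnion] at hg
    obtain ⟨m, -, w, hw, i, hi⟩ := hg
    exact hsup m w hw i g hi
  have hsup₂ : ∀ m ≤ F.k, ∀ w ∈ W m, VSup (K₂ : Set G) w := by
    intro m hm w hw i g hg
    apply hK₂
    simp only [Set.Finite.coe_toFinset, Set.mem_iUnion]
    exact ⟨m, hm, w, hw, i, hg⟩
  let V' : ℕ → Submodule (MonoidAlgebra R G) (J → MonoidAlgebra R G) := fun j =>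
    Submodule.span _ {w | ∃ m, F.k ≤ m + j ∧ m ≤ F.k ∧ w ∈ W m}
  refine ⟨⟨V', F.k, ?_, ?_, ?_, ?_⟩, ?_⟩
  · rw [Submodule.span_eq_bot]
    rintro w ⟨m, hm, -, hw⟩
    have := hV m 0 hm w hw
    rwa [F.zero, Submodule.mem_bot] at this
  · rw [eq_top_iff, ← (Pi.basisFun (MonoidAlgebra R G) J).span_eq]
    apply Submodule.span_mono
    rintro _ ⟨i, rfl⟩
    exact ⟨0, by omega, by omega, i, by simp⟩
  · intro a b hab
    apply Submodule.span_mono
    rintro w ⟨m, h1, h2, hw⟩
    exact ⟨m, by omega, h2, hw⟩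
  · intro j S hS v hv
    have : ∀ c : MonoidAlgebra R G, prv S (c • v) ∈ V' j := by
      induction hv using Submodule.span_induction with
      | mem w hw =>
        intro c
        obtain ⟨m, h1, h2, hw'⟩ := hw
        rw [prv_smul c (hsup₂ m h2 w hw') hS]
        exact Submodule.smul_mem _ _ (Submodule.subset_span ⟨m, h1, h2, hw'⟩)
      | zero => intro c; rw [smul_zero, prv_zero]; exact zero_mem _
      | add a b _ _ ha hb => intro c; rw [smul_add, prv_add]; exact add_mem (ha c) (hb c)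
      | smul d a _ ha => intro c; rw [smul_smul]; exact ha _
    simpa using this 1
  · intro j v hv
    change v ∈ V' (j + 1) at hv
    change v ᵥ* ν ∈ V' j
    induction hv using Submodule.span_induction with
    | mem w hw =>
      obtain ⟨m, h1, h2, hw⟩ := hw
      by_cases hm : m = F.k
      · have := hV m 0 (by omega) w hw
        rw [F.zero, Submodule.mem_bot] at this
        rw [this, zero_vecMul]; exact zero_mem _
      · rw [← prv_univ (w ᵥ* ν)]
        refine prv_induction K (P := fun z => z ∈ V' j) (zero_mem _)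
          (fun a b ha hb => add_mem ha hb) _ (rinv_univ K) fun g hg => ?_
        have : prv (lc g K) (w ᵥ* ν) = MonoidAlgebra.single g (1 : R) •
            (MonoidAlgebra.single g⁻¹ (1 : R) • prv (lc g K) (w ᵥ* ν)) := by
          rw [smul_smul, MonoidAlgebra.single_mul_single, mul_inv_cancel, mul_one,
            ← MonoidAlgebra.one_def, one_smul]
        rw [this]
        refine Submodule.smul_mem _ _ (Submodule.subset_span ⟨m + 1, by omega, by omega, ?_⟩)
        rw [hWs]
        simp only [Set.mem_iUnion]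
        exact ⟨w, hw, g, hg, rfl⟩
    | zero => rw [zero_vecMul]; exact zero_mem _
    | add a b _ _ ha hb => rw [add_vecMul]; exact add_mem ha hb
    | smul d a _ ha => rw [smul_vecMul]; exact Submodule.smul_mem _ _ ha

end Pool.Agent.MP_f7db47_al
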