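import Pool.Agent.MP_f7db47_al.Nil2
import Pool.Agent.MP_f7db47_al.TAbs

/-!
The Nil theorem for an abstract calculus and an abstract positive semigroup.
-/

set_option linter.unusedSectionVars false

namespace Pool.Agent.MP_f7db47_al

open Matrix

universe u v

variable {R : Type v} [Ring R] {G : Type u} [Group G]
variable {J : Type} [Fintype J] [DecidableEq J] {K : Subgroup G}

/-- Elimination: reduction to a single double coset. -/
lemma lazardS (S : TS (MonoidAlgebra R G)) (F : Filt R K J) {P : Set G} (hP : ∀ a ∈ P, ∀ b ∈ P, a * b ∈ P)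
    (hsingle : ∀ x ∈ P, ∀ β : Matrix J J (MonoidAlgebra R G), MSup (dc K x) β → F.Low 1 β →
      S.T (1 - β))
    {ν : Matrix J J (MonoidAlgebra R G)} (hν : MSup P ν) (hl : F.Low 1 ν) : S.T (1 - ν) := by
  classical
  have main : ∀ m n : ℕ, F.k ≤ n + m → ∀ ν : Matrix J J (MonoidAlgebra R G), MSup P ν →
      F.Low (n + 1) ν → S.T (1 - ν) := by
    intro m
    induction m with
    | zero =>
      intro n hn ν _ hl
      rw [hl.eq_zero (by omega), sub_zero]; exact S.one
    | succ m ih =>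
      intro n hn
      have inner : ∀ s : Finset G, (s : Set G) ⊆ P → ∀ ρ μ : Matrix J J (MonoidAlgebra R G),
          MSup P ρ → MSup {y | ∃ x ∈ s, y ∈ dc K x} ρ → F.Low (n + 1) ρ → MSup P μ →
          F.Low (n + 1 + 1) μ → S.T (1 - (ρ + μ)) := by
        intro s
        induction s using Finset.induction_on with
        | empty =>
          intro _ ρ μ _ hρ _ hμ hlμ
          rw [hρ.eq_zero (msup_univ ρ) (by simp), zero_add]
          exact ih (n + 1) (by omega) μ hμ hlμ
        | insert x s hx ihs =>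
          intro hs ρ μ hρP hρ hlρ hμ hlμ
          have hxP : x ∈ P := hs (by simp)
          set β := mpr (dc K x) ρ with hβ
          set ρ' := mpr (dc K x)ᶜ ρ with hρ'
          have hsum : ρ = β + ρ' := (mpr_add_mpr_compl _ _).symm
          have hlβ : F.Low (n + 1) β := hlρ.mpr (dc_left K x) (dc_right K x)
          have hlρ' : F.Low (n + 1) ρ' := hlρ.mpr
            (fun k hk g => not_congr (dc_left K x k hk g))
            (fun g k hk => not_congr (dc_right K x g k hk))
          obtain ⟨γ, hγ, hlγ, hinv, -⟩ := (hlβ.of_le (by omega : 1 ≤ n + 1)).geom hP hρP.mpr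
          have hT := ihs (fun y hy => hs (by simp [Finset.mem_coe.1 hy])) ρ' (μ + γ * (ρ' + μ))
            hρP.mpr ?_ hlρ' (hμ.add (hγ.mul (hρP.mpr.add hμ) hP))
            (hlμ.add (hlγ.mul (hlρ'.add (hlμ.of_le (by omega)))))
          · have := S.mul (hsingle x hxP β (msup_mpr _ _) (hlβ.of_le (by omega))) hT
            convert this using 1
            have e : (1 - β) * (1 - (ρ' + (μ + γ * (ρ' + μ)))) =
                (1 - β) - (1 - β) * (1 + γ) * (ρ' + μ) := by noncomm_ring
            rw [e, hinv, one_mul]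
            conv_lhs => rw [hsum]
            abel
          · intro i j g hg
            obtain ⟨y, hy, hgy⟩ := hρ.mpr i j g hg
            have h2 : g ∉ dc K x := msup_mpr _ _ i j g hg
            rw [Finset.mem_insert] at hy
            rcases hy with rfl | hy
            · exact absurd hgy h2
            · exact ⟨y, hy, hgy⟩
      intro ν hν hl
      obtain ⟨s, hs, hs'⟩ := exists_finset_msup ν
      have := inner s (hs' P hν) ν 0 hν (hs.mono fun y hy => ⟨y, hy, mem_dc K y⟩) hl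
        (msup_zero _) Filt.low_zero
      rwa [add_zero] at this
  exact main F.k 0 (by omega) ν hν hl

variable (S : TS (MonoidAlgebra R G))

/-- All invertible matrices supported on `H` are trivial. -/
def TermS (H : Subgroup G) : Prop :=
  ∀ (J : Type) [Fintype J] [DecidableEq J] (A : Matrix J J (MonoidAlgebra R G)),
    MSup (H : Set G) A → IsUnit A → S.T A

/-- All `P`-supported `K`-path nilpotent matrices give trivial unipotent matrices. -/
def TameP (P : Set G) (K : Subgroup G) : Prop :=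
  ∀ (J : Type) [Fintype J] [DecidableEq J] (ν : Matrix J J (MonoidAlgebra R G)),
    MSup P ν → PN K ν → S.T (1 - ν)

/-- Finite subsets of `C` lie in tame subgroups. -/
def CoverP (P : Set G) (C : Subgroup G) : Prop :=
  ∀ Φ : Finset G, (Φ : Set G) ⊆ C → ∃ K₂ : Subgroup G, (Φ : Set G) ⊆ K₂ ∧ TameP S P K₂

variable {S}

lemma CoverP.tame {P : Set G} {C : Subgroup G} (h : CoverP S P C) : TameP S P C := by
  intro J _ _ ν hν hn
  obtain ⟨Φ, hΦ, hΦ'⟩ := hn.refine
  obtain ⟨K₂, hK₂, hT⟩ := h Φ hΦ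
  exact hT J ν hν (hΦ' K₂ hK₂)

theorem tameP_step {P : Set G} (hP : ∀ a ∈ P, ∀ b ∈ P, a * b ∈ P)
    (hl : ∀ k ∈ K, ∀ x ∈ P, k * x ∈ P) (hr : ∀ k ∈ K, ∀ x ∈ P, x * k ∈ P)
    (h : ∀ x ∈ P, TermS S (K ⊔ Subgroup.zpowers x) ∨ CoverP S P (kstar K 1 x) ∨
      CoverP S P (kstar K x 1)) : TameP S P K := by
  rintro J _ _ ν hν ⟨F, hF⟩
  refine lazardS S F hP (fun x hx β hβ hlow => ?_) hν hF
  rcases h x hx with h | h | h
  · obtain ⟨γ, -, -, h1, h2⟩ := hlow.geom (P := Set.univ) (fun _ _ _ _ => trivial) (msup_univ β)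
    refine h _ _ ((msup_one (Subgroup.one_mem _)).sub (hβ.mono ?_)) ⟨⟨_, _, h1, h2⟩, rfl⟩
    rintro _ ⟨k, hk, k', hk', rfl⟩
    exact Subgroup.mul_mem _ (Subgroup.mul_mem _ (Subgroup.mem_sup_left hk)
      (Subgroup.mem_sup_right (Subgroup.mem_zpowers x))) (Subgroup.mem_sup_left hk')
  · obtain ⟨L, _, _, X, Y, hX, hY, rfl⟩ := exists_factor (a := 1) (b := x) (by simpa using hβ)
    refine S.comm X Y (h.tame L _ (hY.mul hX fun y hy z hz => ?_) (PN.shift hX hY ⟨F, hlow⟩))
    have := hr _ (K.mul_mem hy hz) x hx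
    simpa [mul_assoc] using this
  · obtain ⟨L, _, _, X, Y, hX, hY, rfl⟩ := exists_factor (a := x) (b := 1) (by simpa using hβ)
    refine S.comm X Y (h.tame L _ (hY.mul hX fun y hy z hz => ?_) (PN.shift hX hY ⟨F, hlow⟩))
    have := hl _ (K.mul_mem hy hz) x hx
    simpa [mul_assoc] using this

/-- The well founded family version, pulled back along a homomorphism. -/
theorem coverP_of_family {G₀ : Type u} [Group G₀] (p : G →* G₀) {P : Set G} {C : Subgroup G}
    (hP : ∀ a ∈ P, ∀ b ∈ P, a * b ∈ P)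
    (hl : ∀ k ∈ C, ∀ x ∈ P, k * x ∈ P) (hr : ∀ k ∈ C, ∀ x ∈ P, x * k ∈ P)
    {ι : Type u} (K : ι → Subgroup G₀) (r : ι → ι → Prop) (hwf : WellFounded r)
    (hK : ∀ i, (K i).comap p ≤ C)
    (hcover : ∀ M : Subgroup G₀, M.FG → M ≤ C.map p → ∃ i, M ≤ K i)
    (hstep : ∀ i, TameP S P ((K i).comap p) ∨ ∀ x ∈ P,
      TermS S ((K i).comap p ⊔ Subgroup.zpowers x) ∨ Drops K r i (p x) ∨ Drops K r i (p x)⁻¹) :
    CoverP S P C := by
  have fg : ∀ Φ : Finset G, (Subgroup.closure (p '' Φ)).FG := fun Φ =>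
    (Subgroup.fg_iff _).2 ⟨_, rfl, (Finset.finite_toSet Φ).image p⟩
  have tame : ∀ i, TameP S P ((K i).comap p) := by
    intro i
    induction i using hwf.induction with
    | _ i ih =>
    refine (hstep i).elim id fun hstep => ?_
    refine tameP_step hP (fun k hk => hl k (hK i hk)) (fun k hk => hr k (hK i hk)) fun x hx => ?_
    rcases hstep x hx with h1 | h1 | h1
    · exact Or.inl h1
    · refine Or.inr (Or.inl fun Φ hΦ => ?_)
      obtain ⟨j, hj, hM⟩ := h1 _ (fg Φ) (by
        rw [Subgroup.closure_le]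
        rintro _ ⟨y, hy, rfl⟩
        obtain ⟨e1, e2⟩ := hΦ hy
        exact ⟨by simpa using e1, p (x⁻¹ * y * x), e2, by simp [mul_assoc]⟩)
      exact ⟨_, fun y hy => hM (Subgroup.subset_closure ⟨y, hy, rfl⟩), ih j hj⟩
    · refine Or.inr (Or.inr fun Φ hΦ => ?_)
      obtain ⟨j, hj, hM⟩ := h1 _ (fg Φ) (by
        rw [Subgroup.closure_le]
        rintro _ ⟨y, hy, rfl⟩
        obtain ⟨e1, e2⟩ := hΦ hy
        exact ⟨by simpa using e2, p (x * y * x⁻¹), e1, by simp [mul_assoc]⟩)
      exact ⟨_, fun y hy => hM (Subgroup.subset_closure ⟨y, hy, rfl⟩), ih j hj⟩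
  intro Φ hΦ
  obtain ⟨i, hi⟩ := hcover _ (fg Φ) (by
    rw [Subgroup.closure_le]
    rintro _ ⟨y, hy, rfl⟩
    exact ⟨y, hΦ hy, rfl⟩)
  exact ⟨_, fun y hy => hi (Subgroup.subset_closure ⟨y, hy, rfl⟩), tame i⟩

end Pool.Agent.MP_f7db47_al
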