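import Pool.Agent.MP_f7db47_al.Cv.KFin

namespace Pool.Agent.MP_f7db47_al.NilCurves

open Pool.Agent.MP_f7db47_al.Cv

theorem result (k : Type*) [CommRing k] [IsReduced k] [IsAddTorsionFree k] (G : Type)
    [Group G] (hG : ∀ H : Subgroup G, H.FG → SmallCent H) (n : ℕ)
    (U V : Matrix (Fin n) (Fin n) (Polynomial (MonoidAlgebra k G))) (hUV : U * V = 1)
    (hVU : V * U = 1) (h0 : U.map (fun f => f.coeff 0) = 1) :
    Matrix.fromBlocks (U.map Polynomial.toPowerSeries) 0 0
        (1 : Matrix (Fin n) (Fin n) (PowerSeries (MonoidAlgebra k G))) ∈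
      Elem (Fin n ⊕ Fin n) (PowerSeries (MonoidAlgebra k G)) :=
  nil_curves k G hG n U V hUV hVU h0

end Pool.Agent.MP_f7db47_al.NilCurves
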