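import Mathlib

/-! Groups of order automorphisms of a line without infinite towers. -/

namespace Pool.Agent.MP_f7db47_al

open Equiv

variable {X : Type} [ConditionallyCompleteLinearOrder X]

/-- `(a, b)` is an orbital of `L`. -/
def Orb (L : Subgroup (Perm X)) (a b : X) : Prop :=
  a < b ∧ (∀ g ∈ L, g a = a ∧ g b = b) ∧ ∀ x, a < x → x < b → ∃ g ∈ L, g x ≠ x

/-- Trivial immediately to the right of `a`. -/
def TR (g : Perm X) (a : X) : Prop := ∃ c, a < c ∧ ∀ x, a < x → x < c → g x = x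

/-- Trivial immediately to the left of `b`. -/
def TL (g : Perm X) (b : X) : Prop := ∃ c, c < b ∧ ∀ x, c < x → x < b → g x = x

/-- One step down in a tower. -/
def Rel (M L : Subgroup (Perm X) × X × X) : Prop :=
  M.1 ≤ L.1 ∧ M.1.FG ∧ Orb M.1 M.2.1 M.2.2 ∧ L.2.1 < M.2.1 ∧ M.2.2 < L.2.2

/-- The order theoretic properties of piecewise linear groups without infinite towers. -/
structure Tame (G : Subgroup (Perm X)) : Prop where
  mono : ∀ g ∈ G, StrictMono g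
  bdd : ∃ lo hi : X, ∀ g ∈ G, ∀ x, x ≤ lo ∨ hi ≤ x → g x = x
  right : ∀ g ∈ G, ∀ a, TR g a ∨ ∃ c, a < c ∧ ∀ x, a < x → x < c → g x ≠ x
  left : ∀ g ∈ G, ∀ b, TL g b ∨ ∃ c, c < b ∧ ∀ x, c < x → x < b → g x ≠ x
  commR : ∀ g ∈ G, ∀ h ∈ G, ∀ a, g a = a → h a = a → TR (g * h * g⁻¹ * h⁻¹) a
  commL : ∀ g ∈ G, ∀ h ∈ G, ∀ a, g a = a → h a = a → TL (g * h * g⁻¹ * h⁻¹) a
  acc : ∀ L a b, L ≤ G → L.FG → Orb L a b → Acc Rel (L, a, b)

theorem Orb.dual {L : Subgroup (Perm X)} {a b : X} (h : Orb L a b) : Orb (X := Xᵒᵈ) L b a :=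
  ⟨h.1, fun g hg => (h.2.1 g hg).symm, fun x h1 h2 => h.2.2 x h2 h1⟩

theorem TR.dual {g : Perm X} {a : X} (h : TR g a) : TL (X := Xᵒᵈ) g a :=
  h.imp fun _ h => ⟨h.1, fun x h1 h2 => h.2 x h2 h1⟩

theorem TL.dual {g : Perm X} {a : X} (h : TL g a) : TR (X := Xᵒᵈ) g a :=
  h.imp fun _ h => ⟨h.1, fun x h1 h2 => h.2 x h2 h1⟩

theorem Tame.dual {G : Subgroup (Perm X)} (T : Tame G) : Tame (X := Xᵒᵈ) G where
  mono g hg := (T.mono g hg).dual
  bdd := by
    obtain ⟨lo, hi, h⟩ := T.bdd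
    exact ⟨hi, lo, fun g hg x hx => h g hg x hx.symm⟩
  right g hg a := (T.left g hg a).imp (TL.dual (X := X))
    fun h => h.imp fun _ h => ⟨h.1, fun x h1 h2 => h.2 x h2 h1⟩
  left g hg a := (T.right g hg a).imp (TR.dual (X := X))
    fun h => h.imp fun _ h => ⟨h.1, fun x h1 h2 => h.2 x h2 h1⟩
  commR g hg h hh a h1 h2 := (T.commL g hg h hh a h1 h2).dual
  commL g hg h hh a h1 h2 := (T.commR g hg h hh a h1 h2).dual
  acc L a b h1 h2 h3 := by
    have := InvImage.accessible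
      (fun t : Subgroup (Perm X) × X × X => (t.1, t.2.2, t.2.1)) (a := (L, a, b))
      (T.acc L b a h1 h2 (Orb.dual (X := Xᵒᵈ) h3))
    exact Subrelation.accessible
      (fun h => ⟨h.1, h.2.1, Orb.dual (X := Xᵒᵈ) h.2.2.1, h.2.2.2.2, h.2.2.2.1⟩) this

theorem Tame.sub {G H : Subgroup (Perm X)} (T : Tame G) (h : H ≤ G) : Tame H where
  mono g hg := T.mono g (h hg)
  bdd := T.bdd.imp fun _ k => k.imp fun _ k g hg => k g (h hg)
  right g hg := T.right g (h hg)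
  left g hg := T.left g (h hg)
  commR g hg k hk := T.commR g (h hg) k (h hk)
  commL g hg k hk := T.commL g (h hg) k (h hk)
  acc L a b h1 := T.acc L a b (h1.trans h)

section
variable {g : Perm X} (hg : StrictMono g) {x y : X}
include hg

theorem inv_lt' : g⁻¹ x < y ↔ x < g y := by rw [← hg.lt_iff_lt]; simp
theorem lt_inv' : y < g⁻¹ x ↔ g y < x := by rw [← hg.lt_iff_lt]; simp
theorem inv_le' : g⁻¹ x ≤ y ↔ x ≤ g y := by rw [← hg.le_iff_le]; simp
theorem le_inv' : y ≤ g⁻¹ x ↔ g y ≤ x := by rw [← hg.le_iff_le]; simp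

theorem fix_sSup {s : Set X} (hne : s.Nonempty) (hb : BddAbove s) (hs : ∀ x ∈ s, g x ∈ s)
    (hs' : ∀ x ∈ s, g⁻¹ x ∈ s) : g (sSup s) = sSup s := by
  apply le_antisymm
  · rw [← le_inv' hg]
    exact csSup_le hne fun x hx => (le_inv' hg).2 (le_csSup hb (hs x hx))
  · exact csSup_le hne fun x hx => (inv_le' hg).1 (le_csSup hb (hs' x hx))

end

omit [ConditionallyCompleteLinearOrder X] in
theorem inv_fix {g : Perm X} {x : X} (h : g x = x) : g⁻¹ x = x := Perm.inv_eq_iff_eq.2 h.symm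

variable {G L : Subgroup (Perm X)} {a b : X}

theorem Tame.orbit_gt (T : Tame L) (h : Orb L a b) {y z : X} (hy : a < y) (hy' : y < b)
    (hz : z < b) : ∃ g ∈ L, z < g y := by
  let s : Set X := {x | ∃ g ∈ L, g y = x}
  have hne : s.Nonempty := ⟨y, 1, one_mem _, rfl⟩
  have hle : ∀ x ∈ s, x ≤ b := by
    rintro _ ⟨g, hg, rfl⟩
    rw [← (h.2.1 g hg).2]; exact (T.mono g hg).monotone hy'.le
  have hb : BddAbove s := ⟨b, hle⟩
  have hm : ∀ g ∈ L, ∀ x ∈ s, g x ∈ s := by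
    rintro g hg _ ⟨k, hk, rfl⟩; exact ⟨g * k, mul_mem hg hk, rfl⟩
  have hfix : ∀ g ∈ L, g (sSup s) = sSup s := fun g hg =>
    fix_sSup (T.mono g hg) hne hb (hm g hg) (hm _ (inv_mem hg))
  have e : sSup s = b := by
    refine (csSup_le hne hle).eq_or_lt.resolve_right fun hlt => ?_
    obtain ⟨g, hg, k⟩ := h.2.2 _ (hy.trans_le (le_csSup hb ⟨1, one_mem _, rfl⟩)) hlt
    exact k (hfix g hg)
  obtain ⟨_, ⟨g, hg, rfl⟩, k⟩ := exists_lt_of_lt_csSup hne (e ▸ hz)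
  exact ⟨g, hg, k⟩

theorem Tame.orbit_lt (T : Tame L) (h : Orb L a b) {y z : X} (hy : a < y) (hy' : y < b)
    (hz : a < z) : ∃ g ∈ L, g y < z :=
  T.dual.orbit_gt h.dual hy' hy hz

theorem Tame.exists_left (T : Tame L) {y : X} (hy : ∃ g ∈ L, g y ≠ y) :
    ∃ a, a < y ∧ (∀ g ∈ L, g a = a) ∧ ∀ x, a < x → x ≤ y → ∃ g ∈ L, g x ≠ x := by
  obtain ⟨lo, hi, hb⟩ := T.bdd
  let s : Set X := {x | x ≤ y ∧ ∀ g ∈ L, g x = x}
  have hne : s.Nonempty := ⟨min lo y, min_le_right _ _, fun g hg =>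
    hb g hg _ (Or.inl (min_le_left _ _))⟩
  have hbd : BddAbove s := ⟨y, fun x hx => hx.1⟩
  have hfix : ∀ g ∈ L, g (sSup s) = sSup s := fun g hg =>
    fix_sSup (T.mono g hg) hne hbd (fun x hx => by rwa [hx.2 g hg])
      (fun x hx => by rwa [hx.2 _ (inv_mem hg)])
  refine ⟨sSup s, (csSup_le hne fun x hx => hx.1).lt_of_ne fun e => ?_, hfix, fun x h1 h2 => ?_⟩
  · obtain ⟨g, hg, k⟩ := hy
    exact k (e ▸ hfix g hg)
  · by_contra hc
    push Not at hc
    exact h1.not_ge (le_csSup hbd ⟨h2, hc⟩)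

theorem Tame.exists_orb (T : Tame L) {y : X} (hy : ∃ g ∈ L, g y ≠ y) :
    ∃ a b, a < y ∧ y < b ∧ Orb L a b := by
  obtain ⟨a, h1, h2, h3⟩ := T.exists_left hy
  obtain ⟨b, k1, k2, k3⟩ := T.dual.exists_left (y := y) hy
  exact ⟨a, b, h1, k1, h1.trans k1, fun g hg => ⟨h2 g hg, k2 g hg⟩, fun x l1 l2 =>
    (le_total x y).elim (h3 x l1) (k3 x l2)⟩

/-- The pointwise stabiliser of a set. -/
def fixer {X : Type} (s : Set X) : Subgroup (Perm X) where
  carrier := {g | ∀ x ∈ s, g x = x}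
  one_mem' := fun _ _ => rfl
  mul_mem' := fun h k x hx => by rw [Perm.mul_apply, k x hx, h x hx]
  inv_mem' := fun h x hx => Perm.inv_eq_iff_eq.2 (h x hx).symm

theorem TL_closure [NoMinOrder X] (S : Finset (Perm X)) (b : X) (h : ∀ g ∈ S, TL g b) :
    ∃ c, c < b ∧ ∀ g ∈ Subgroup.closure (S : Set (Perm X)), ∀ x, c < x → x < b → g x = x := by
  classical
  suffices ∃ c, c < b ∧ ∀ g ∈ S, ∀ x, c < x → x < b → g x = x by
    obtain ⟨c, h1, h2⟩ := this
    have : Subgroup.closure (S : Set (Perm X)) ≤ fixer (Set.Ioo c b) :=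
      (Subgroup.closure_le _).2 fun g hg x hx => h2 g hg x hx.1 hx.2
    exact ⟨c, h1, fun g hg x k1 k2 => this hg x ⟨k1, k2⟩⟩
  induction S using Finset.induction_on with
  | empty => exact (exists_lt b).imp fun c hc => ⟨hc, by simp⟩
  | insert g S _ ih =>
    obtain ⟨c, h1, h2⟩ := ih fun k hk => h k (Finset.mem_insert_of_mem hk)
    obtain ⟨d, k1, k2⟩ := h g (Finset.mem_insert_self _ _)
    refine ⟨max c d, max_lt h1 k1, fun k hk x l1 l2 => ?_⟩
    rcases Finset.mem_insert.1 hk with rfl | hk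
    · exact k2 x ((le_max_right _ _).trans_lt l1) l2
    · exact h2 k hk x ((le_max_left _ _).trans_lt l1) l2

theorem TL_fg [NoMinOrder X] (hL : L.FG) (h : ∀ g ∈ L, TL g b) :
    ∃ c, c < b ∧ ∀ g ∈ L, ∀ x, c < x → x < b → g x = x := by
  obtain ⟨S, rfl⟩ := hL
  exact TL_closure S b fun g hg => h g (Subgroup.subset_closure hg)

theorem TR_fg [NoMaxOrder X] (hL : L.FG) (h : ∀ g ∈ L, TR g a) :
    ∃ c, a < c ∧ ∀ g ∈ L, ∀ x, a < x → x < c → g x = x :=
  (TL_fg (X := Xᵒᵈ) hL fun g hg => (h g hg).dual).imp fun _ h =>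
    ⟨h.1, fun g hg x k1 k2 => h.2 g hg x k2 k1⟩

variable [DenselyOrdered X]

theorem Tame.half (T : Tame L) (h : Orb L a b) {al : Perm X} (hal : al ∈ L) {d e p : X}
    (hd : ∀ x, a < x → x < d → al x ≠ x) (he : ∀ x, e ≤ x → x ≤ b → al x = x)
    (h1 : a < p) (h2 : p < d) (h3 : d ≤ e) (h4 : e < b) :
    ∃ u ∈ L, ∃ l, a < l ∧ l < p ∧ u l = l ∧ (∀ x, l < x → x < d → u x ≠ x) ∧
      ∀ x, e ≤ x → x ≤ b → u x = x := by
  have hae : a < e := h1.trans (h2.trans_le h3)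
  obtain ⟨g, hg, hge⟩ := T.orbit_lt h hae h4 h1
  have mg := T.mono g hg
  have hu : al * g * al⁻¹ * g⁻¹ ∈ L := mul_mem (mul_mem (mul_mem hal hg) (inv_mem hal)) (inv_mem hg)
  obtain ⟨c, hc, hc'⟩ := T.commR al hal g hg a (h.2.1 _ hal).1 (h.2.1 _ hg).1
  set u := al * g * al⁻¹ * g⁻¹
  have key : ∀ x, g e ≤ x → x ≤ b → u x = al x := fun x k1 k2 => by
    show al (g (al⁻¹ (g⁻¹ x))) = al x
    rw [inv_fix (he _ ((le_inv' mg).2 k1) ((inv_le' mg).2 (by rwa [(h.2.1 _ hg).2])))]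
    simp
  let s : Set X := {x | x ≤ g e ∧ u x = x}
  have hage : a < g e := by rw [← (h.2.1 _ hg).1]; exact mg hae
  obtain ⟨z, hz1, hz2⟩ := exists_between (lt_min hc hage)
  have hz : z ∈ s := ⟨(hz2.trans_le (min_le_right _ _)).le, hc' z hz1 (hz2.trans_le (min_le_left _ _))⟩
  have hbd : BddAbove s := ⟨g e, fun x hx => hx.1⟩
  refine ⟨u, hu, sSup s, hz1.trans_le (le_csSup hbd hz),
    (csSup_le ⟨z, hz⟩ fun x hx => hx.1).trans_lt hge,
    fix_sSup (T.mono u hu) ⟨z, hz⟩ hbd (fun x hx => by rwa [hx.2])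
      (fun x hx => by rwa [inv_fix hx.2]), fun x k1 k2 k3 => ?_, fun x k1 k2 => ?_⟩
  · by_cases hx : x ≤ g e
    · exact k1.not_ge (le_csSup hbd ⟨hx, k3⟩)
    · rw [key x (not_le.1 hx).le (k2.trans_le (h3.trans h4.le)).le] at k3
      exact hd x (hage.trans (not_le.1 hx)) k2 k3
  · rw [key x ((hge.trans (h2.trans_le h3)).le.trans k1) k2, he x k1 k2]

theorem Tame.no_chain (T : Tame G) {p₀ p d e : X} (h1 : p₀ ≤ p) (h2 : p < d) (h3 : d ≤ e)
    {al be : Perm X} (hal : al ∈ G) (hbe : be ∈ G) (k1 : al a = a)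
    (k2 : ∀ x, a < x → x < d → al x ≠ x) (k3 : ∀ x, e ≤ x → x ≤ b → al x = x) (k4 : be b = b)
    (k5 : ∀ x, p < x → x < b → be x ≠ x) (k6 : ∀ x, a ≤ x → x ≤ p₀ → be x = x) (k7 : a < p₀)
    (k8 : e < b) : False := by
  have horb : ∀ {al be : Perm X} {a b : X}, al a = a → (∀ x, a < x → x < d → al x ≠ x) →
      (∀ x, e ≤ x → x ≤ b → al x = x) → be b = b → (∀ x, p < x → x < b → be x ≠ x) →
      (∀ x, a ≤ x → x ≤ p₀ → be x = x) → a < p₀ → e < b →
      Orb (Subgroup.closure {al, be}) a b := by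
    intro al be a b k1 k2 k3 k4 k5 k6 k7 k8
    have : Subgroup.closure {al, be} ≤ fixer {a, b} := (Subgroup.closure_le _).2 (by
      rintro _ (rfl | rfl) _ (rfl | rfl)
      exacts [k1, k3 _ k8.le le_rfl, k6 _ le_rfl k7.le, k4])
    refine ⟨k7.trans_le (h1.trans (h2.le.trans (h3.trans k8.le))),
      fun g hg => ⟨this hg a (by simp), this hg b (by simp)⟩, fun x l1 l2 => ?_⟩
    by_cases hx : x < d
    · exact ⟨al, Subgroup.subset_closure (by simp), k2 x l1 hx⟩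
    · exact ⟨be, Subgroup.subset_closure (by simp), k5 x (h2.trans_le (not_lt.1 hx)) l2⟩
  have hle : ∀ {al be : Perm X} {H : Subgroup (Perm X)}, al ∈ H → be ∈ H →
      Subgroup.closure {al, be} ≤ H := fun hal hbe => (Subgroup.closure_le _).2 (by
    rintro _ (rfl | rfl); exacts [hal, hbe])
  have hfg : ∀ al be : Perm X, (Subgroup.closure {al, be}).FG := fun al be =>
    (Subgroup.fg_iff _).2 ⟨_, rfl, Set.toFinite _⟩
  have hacc := T.acc _ a b (hle hal hbe) (hfg _ _) (horb k1 k2 k3 k4 k5 k6 k7 k8)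
  generalize ht : (Subgroup.closure {al, be}, a, b) = t at hacc
  induction hacc generalizing al be a b with
  | intro t _ ih =>
    subst ht
    have T' := T.sub (hle hal hbe)
    have ho := horb k1 k2 k3 k4 k5 k6 k7 k8
    obtain ⟨u, hu, l, l1, l2, l3, l4, l5⟩ := T'.half ho (Subgroup.subset_closure (by simp)) k2 k3
      k7 (h1.trans_lt h2) h3 k8
    have hbe' : be ∈ Subgroup.closure {al, be} := Subgroup.subset_closure (by simp)
    obtain ⟨v, hv, r, r1, r2, r3, r4, r5⟩ := T'.dual.half ho.dual (al := be) hbe' (d := p)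
      (e := p₀) (p := e)
      (fun x a b => k5 x b a) (fun x a b => k6 x b a) k8 (h2.trans_le h3) h1 k7
    have m3 : ∀ x, e ≤ x → x ≤ r → u x = x := fun x a b => l5 x a (b.trans (le_of_lt r1))
    have m5 : ∀ x, p < x → x < r → v x ≠ x := fun x a b => r4 x b a
    have m6 : ∀ x, l ≤ x → x ≤ p₀ → v x = x := fun x a b => r5 x b (l1.le.trans a)
    exact ih (Subgroup.closure {u, v}, l, r)
      ⟨hle hu hv, hfg _ _, horb l3 l4 m3 r3 m5 m6 l2 r2, l1, r1⟩ (hle hal hbe hu) (hle hal hbe hv)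
      l3 l4 m3 r3 m5 m6 l2 r2 rfl

/-- An element which is trivial near one end of an orbital is trivial near the other end. -/
theorem Tame.balanced (T : Tame L) (h : Orb L a b) {u : Perm X} (hu : u ∈ L) (hb : TL u b) :
    TR u a := by
  refine (T.right u hu a).resolve_right ?_
  rintro ⟨c, hc, hc'⟩
  obtain ⟨c', hb1, hb2⟩ := hb
  obtain ⟨e, he1, he2⟩ := exists_between (max_lt h.1 hb1)
  have hae : a < e := (le_max_left _ _).trans_lt he1
  have he : ∀ x, e ≤ x → x ≤ b → u x = x := fun x k1 k2 => k2.eq_or_lt.elim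
    (fun k => by rw [k, (h.2.1 u hu).2]) (hb2 x (((le_max_right _ _).trans_lt he1).trans_le k1))
  have hz : Subgroup.zpowers u ≤ L := Subgroup.zpowers_le.2 hu
  obtain ⟨y, hy1, hy2⟩ := exists_between hc
  obtain ⟨a', d, o1, o2, ho⟩ := (T.sub hz).exists_orb ⟨u, Subgroup.mem_zpowers u, hc' y hy1 hy2⟩
  have hfix : ∀ x, u x = x → ∀ g ∈ Subgroup.zpowers u, g x = x := fun x hx g hg =>
    (Subgroup.zpowers_le (H := fixer {x})).2 (by rintro _ rfl; exact hx) hg x rfl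
  have hmv : ∀ x, a' < x → x < d → u x ≠ x := fun x k1 k2 k3 => by
    obtain ⟨g, hg, k⟩ := ho.2.2 x k1 k2
    exact k (hfix x k3 g hg)
  obtain rfl : a = a' := by
    rcases lt_trichotomy a a' with k | k | k
    · exact absurd (ho.2.1 u (Subgroup.mem_zpowers u)).1 (hc' a' k (o1.trans hy2))
    · exact k
    · exact absurd (h.2.1 u hu).1 (hmv a k (hy1.trans o2))
  have hde : d ≤ e := not_lt.1 fun k => hmv e hae k (he e le_rfl he2.le)
  have hud : u d = d := (ho.2.1 u (Subgroup.mem_zpowers u)).2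
  obtain ⟨g, hg, hge⟩ := T.orbit_lt h hae he2 ho.1
  have mg := T.mono g hg
  have ga : g a = a := (h.2.1 g hg).1
  have hage : a < g e := by rw [← ga]; exact mg hae
  have hagd : a < g d := by rw [← ga]; exact mg ho.1
  obtain ⟨c₁, hc1, hc2⟩ := T.commR u hu g hg a (h.2.1 _ hu).1 ga
  have hw : u * g * u⁻¹ * g⁻¹ ∈ L := mul_mem (mul_mem (mul_mem hu hg) (inv_mem hu)) (inv_mem hg)
  set w := u * g * u⁻¹ * g⁻¹
  have hin : ∀ x, g e ≤ x → x ≤ d → u (g⁻¹ x) = g⁻¹ x := fun x k1 k2 =>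
    he _ ((le_inv' mg).2 k1) ((inv_le' mg).2 (by
      rw [(h.2.1 _ hg).2]; exact k2.trans (hde.trans he2.le)))
  have key : ∀ x, g e ≤ x → x ≤ d → w x = u x := fun x k1 k2 => by
    show u (g (u⁻¹ (g⁻¹ x))) = u x
    rw [inv_fix (hin x k1 k2)]; simp
  obtain ⟨p, hp1, hp2⟩ := exists_between (lt_min hc1 hage)
  obtain ⟨v, hv, hvg⟩ := (T.sub hz).orbit_lt ho hage hge hagd
  have mv := T.mono v (hz hv)
  have va : v a = a := (ho.2.1 v hv).1
  have vd : v d = d := (ho.2.1 v hv).2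
  refine T.no_chain (a := a) (b := d) (p₀ := v p) (p := v (g e)) (d := g d) (e := g e)
    (mv.monotone (hp2.le.trans (min_le_right _ _))) hvg (mg.monotone hde)
    (al := g * u * g⁻¹) (be := v * w * v⁻¹) (mul_mem (mul_mem hg hu) (inv_mem hg))
    (mul_mem (mul_mem (hz hv) hw) (inv_mem (hz hv))) ?_ (fun x k1 k2 k3 => ?_)
    (fun x k1 k2 => ?_) ?_ (fun x k1 k2 k3 => ?_) (fun x k1 k2 => ?_) ?_ hge
  · exact (h.2.1 _ (mul_mem (mul_mem hg hu) (inv_mem hg))).1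
  · refine hmv (g⁻¹ x) ((lt_inv' mg).2 (by rwa [ga])) ((inv_lt' mg).2 k2) ?_
    exact g.injective (k3.trans (by simp))
  · show g (u (g⁻¹ x)) = x
    rw [hin x k1 k2]; simp
  · show v (w (v⁻¹ d)) = d
    rw [inv_fix vd, key d hge.le le_rfl, hud, vd]
  · have l1 : g e < v⁻¹ x := (lt_inv' mv).2 k1
    have l2 : v⁻¹ x < d := (inv_lt' mv).2 (by rwa [vd])
    refine hmv (v⁻¹ x) (hage.trans l1) l2 ?_
    rw [← key _ l1.le l2.le]
    exact v.injective (k3.trans (by simp))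
  · show v (w (v⁻¹ x)) = x
    have l1 : a ≤ v⁻¹ x := (le_inv' mv).2 (by rwa [va])
    have l2 : v⁻¹ x ≤ p := (inv_le' mv).2 k2
    have : w (v⁻¹ x) = v⁻¹ x := l1.eq_or_lt.elim (fun k => by rw [← k, (h.2.1 w hw).1])
      fun k => hc2 _ k (l2.trans_lt (hp2.trans_le (min_le_left _ _)))
    rw [this]; simp
  · rw [← va]; exact mv hp1

theorem Tame.balanced' (T : Tame L) (h : Orb L a b) {u : Perm X} (hu : u ∈ L) (ha : TR u a) :
    TL u b :=
  TR.dual (X := Xᵒᵈ) (T.dual.balanced h.dual hu ha.dual)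

end Pool.Agent.MP_f7db47_al
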