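import Pool.Agent.MP_f7db47_al.PLA

/-! Hulls of supports, and restriction to an invariant interval. -/

namespace Pool.Agent.MP_f7db47_al

open Equiv

variable {X : Type} [ConditionallyCompleteLinearOrder X] {G L M : Subgroup (Perm X)} {a b p q : X}

/-- The set of points moved by `L`. -/
def supp {X : Type} (L : Subgroup (Perm X)) : Set X := {x | ∃ g ∈ L, g x ≠ x}

/-- Left end of the hull of the support. -/
noncomputable def lo (L : Subgroup (Perm X)) : X := sInf (supp L)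

/-- Right end of the hull of the support. -/
noncomputable def hi (L : Subgroup (Perm X)) : X := sSup (supp L)

omit [ConditionallyCompleteLinearOrder X] in
theorem supp_nonempty (h : L ≠ ⊥) : (supp L).Nonempty := by
  by_contra hc
  refine h ((Subgroup.eq_bot_iff_forall _).2 fun g hg => Equiv.ext fun x => ?_)
  by_contra hx
  exact hc ⟨x, g, hg, hx⟩

theorem Tame.bddAbove (T : Tame L) : BddAbove (supp L) := by
  obtain ⟨l, h, k⟩ := T.bdd
  exact ⟨h, fun x ⟨g, hg, hx⟩ => not_lt.1 fun c => hx (k g hg x (Or.inr c.le))⟩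

theorem Tame.hi_fix (T : Tame L) (h : L ≠ ⊥) {g : Perm X} (hg : g ∈ L) {x : X} (hx : hi L ≤ x) :
    g x = x := by
  rcases hx.eq_or_lt with rfl | hx
  · have : ∀ g ∈ L, ∀ x ∈ supp L, g x ∈ supp L := by
      rintro g hg x ⟨k, hk, e⟩
      exact ⟨g * k * g⁻¹, mul_mem (mul_mem hg hk) (inv_mem hg), by simpa using e⟩
    exact fix_sSup (T.mono g hg) (supp_nonempty h) T.bddAbove (this g hg) (this _ (inv_mem hg))
  · by_contra hc
    exact hx.not_ge (le_csSup T.bddAbove ⟨g, hg, hc⟩)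

theorem Tame.lo_fix (T : Tame L) (h : L ≠ ⊥) {g : Perm X} (hg : g ∈ L) {x : X} (hx : x ≤ lo L) :
    g x = x :=
  T.dual.hi_fix h hg hx

theorem Tame.lt_hi (T : Tame L) (h : L ≠ ⊥) {x : X} (hx : x ∈ supp L) : x < hi L :=
  not_le.1 fun c => hx.elim fun _ k => k.2 (T.hi_fix h k.1 c)

theorem Tame.lo_lt (T : Tame L) (h : L ≠ ⊥) {x : X} (hx : x ∈ supp L) : lo L < x :=
  T.dual.lt_hi h hx

theorem hi_le (h : L ≠ ⊥) {y : X} (hy : ∀ g ∈ L, ∀ x, y < x → g x = x) : hi L ≤ y :=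
  csSup_le (supp_nonempty h) fun x ⟨g, hg, e⟩ => not_lt.1 fun c => e (hy g hg x c)

theorem le_lo (h : L ≠ ⊥) {y : X} (hy : ∀ g ∈ L, ∀ x, x < y → g x = x) : y ≤ lo L :=
  hi_le (X := Xᵒᵈ) h hy

variable [DenselyOrdered X] [NoMinOrder X] [NoMaxOrder X]

omit [NoMaxOrder X] in
theorem Tame.wf_lo (T : Tame G) : WellFounded fun M L : Subgroup (Perm X) =>
    M ≤ L ∧ L ≤ G ∧ L.FG ∧ M ≠ ⊥ ∧ lo L < lo M := by
  refine wellFounded_iff_isEmpty_descending_chain.2 ⟨fun ⟨f, hf⟩ => ?_⟩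
  have hanti : Antitone f := antitone_nat_of_succ_le fun n => (hf n).1
  have hmono : StrictMono fun n => lo (f n) := strictMono_nat_of_lt_succ fun n => (hf n).2.2.2.2
  have hne : ∀ n, f n ≠ ⊥ := fun n e => (hf n).2.2.2.1 (le_bot_iff.1 (e ▸ (hf n).1))
  have Tf : ∀ n, Tame (f n) := fun n => T.sub (hf n).2.1
  have hbd : BddAbove (Set.range fun n => lo (f n)) := by
    obtain ⟨h, hh⟩ := T.bddAbove
    refine ⟨h, ?_⟩
    rintro _ ⟨n, rfl⟩
    obtain ⟨x, g, hg, e⟩ := supp_nonempty (hne n)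
    exact ((Tf n).lo_lt (hne n) ⟨g, hg, e⟩).le.trans (hh ⟨g, (hf n).2.1 hg, e⟩)
  set l := sSup (Set.range fun n => lo (f n))
  have hl : ∀ n, lo (f n) < l := fun n => (hmono n.lt_succ_self).trans_le (le_csSup hbd ⟨_, rfl⟩)
  have hl' : ∀ c, c < l → ∀ i, ∃ j, i ≤ j ∧ c < lo (f j) := fun c hc i => by
    obtain ⟨_, ⟨j, rfl⟩, k⟩ := exists_lt_of_lt_csSup (Set.range_nonempty _) hc
    exact ⟨max i j, le_max_left _ _, k.trans_le (hmono.monotone (le_max_right _ _))⟩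
  have horb : ∀ i, ∃ a b, Orb (f i) a b ∧ a < l ∧ l ≤ b := fun i => by
    by_cases hc : ∀ g ∈ f i, TL g l
    · obtain ⟨c, h1, h2⟩ := TL_fg (hf i).2.2.1 hc
      obtain ⟨j, hj, k⟩ := hl' c h1 i
      obtain ⟨x, ⟨g, hg, e⟩, hx⟩ := exists_lt_of_csInf_lt (supp_nonempty (hne j)) (hl j)
      exact absurd (h2 g (hanti hj hg) x (k.trans ((Tf j).lo_lt (hne j) ⟨g, hg, e⟩)) hx) e
    · push Not at hc
      obtain ⟨g, hg, hc⟩ := hc
      obtain ⟨c, h1, h2⟩ := ((Tf i).left g hg l).resolve_left hc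
      obtain ⟨y, k1, k2⟩ := exists_between h1
      obtain ⟨a, b, o1, o2, ho⟩ := (Tf i).exists_orb ⟨g, hg, h2 y k1 k2⟩
      exact ⟨a, b, ho, o1.trans k2, not_lt.1 fun k => h2 b (k1.trans o2) k (ho.2.1 g hg).2⟩
  obtain ⟨a, b, ho, h1, h2⟩ := horb 0
  have hacc := T.acc _ a b (hf 0).2.1 (hf 0).2.2.1 ho
  generalize 0 = i at ho hacc
  generalize ht : (f i, a, b) = t at hacc
  induction hacc generalizing i a b with
  | intro t _ ih =>
    subst ht
    obtain ⟨j, hj, k⟩ := hl' a h1 i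
    obtain ⟨a', b', ho', h1', h2'⟩ := horb j
    obtain ⟨e, he1, he2⟩ := TL_fg (b := b) (hf j).2.2.1 fun g hg =>
      (Tf i).balanced' ho (hanti hj hg) ⟨_, k, fun x _ hx => (Tf j).lo_fix (hne j) hg hx.le⟩
    refine ih (f j, a', b') ⟨hanti hj, (hf j).2.2.1, ho', k.trans_le (not_lt.1 fun c => ?_),
      not_le.1 fun c => ?_⟩ a' b' h1' h2' j ho' rfl
    · obtain ⟨z, z1, z2⟩ := exists_between (lt_min c ho'.1)
      obtain ⟨g, hg, e⟩ := ho'.2.2 z z1 (z2.trans_le (min_le_right _ _))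
      exact e ((Tf j).lo_fix (hne j) hg (z2.le.trans (min_le_left _ _)))
    · obtain ⟨z, z1, z2⟩ := exists_between (max_lt he1 (h1'.trans_le h2))
      obtain ⟨g, hg, e⟩ := ho'.2.2 z ((le_max_right _ _).trans_lt z1) (z2.trans_le c)
      exact e (he2 g hg z ((le_max_left _ _).trans_lt z1) z2)

omit [NoMinOrder X] in
theorem Tame.wf_hi (T : Tame G) : WellFounded fun M L : Subgroup (Perm X) =>
    M ≤ L ∧ L ≤ G ∧ L.FG ∧ M ≠ ⊥ ∧ hi M < hi L :=
  T.dual.wf_lo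

/-- The well founded relation used for the extension step. -/
def Hull (G M L : Subgroup (Perm X)) : Prop :=
  M ≤ L ∧ L ≤ G ∧ L.FG ∧ L ≠ ⊥ ∧ (M = ⊥ ∨ lo L < lo M ∨ hi M < hi L)

theorem Tame.wf_hull (T : Tame G) : WellFounded (Hull G) := by
  have hbot : Acc (Hull G) ⊥ := ⟨_, fun M h => absurd rfl h.2.2.2.1⟩
  refine ⟨fun L => ?_⟩
  by_cases hL : L ≤ G ∧ L.FG
  swap
  · exact ⟨_, fun M h => absurd ⟨h.2.1, h.2.2.1⟩ hL⟩
  suffices ∀ L, L ≤ G → L.FG → ∀ M, M ≤ L → Acc (Hull G) M from this L hL.1 hL.2 L le_rfl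
  intro L
  induction L using T.wf_lo.induction with
  | _ L ih =>
    intro h1 h2 M
    induction M using T.wf_hi.induction with
    | _ M ih' =>
      intro hM
      refine ⟨_, fun M' h => ?_⟩
      by_cases hb : M' = ⊥
      · rw [hb]; exact hbot
      by_cases hfg : M'.FG
      swap
      · exact ⟨_, fun _ k => absurd k.2.2.1 hfg⟩
      rcases h.2.2.2.2 with k | k | k
      · exact absurd k hb
      · refine ih M' ⟨h.1.trans hM, h1, h2, hb, lt_of_le_of_lt ?_ k⟩ (h.1.trans h.2.1) hfg M' le_rfl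
        have hL0 : L ≠ ⊥ := fun e => h.2.2.2.1 (le_bot_iff.1 (e ▸ hM))
        exact le_lo h.2.2.2.1 fun g hg x hx => (T.sub h1).lo_fix hL0 (hM hg) hx.le
      · exact ih' M' ⟨h.1, h.2.1, h.2.2.1, hb, k⟩ (h.1.trans hM)

omit [DenselyOrdered X] [NoMinOrder X] [NoMaxOrder X]

/-- Increasing permutations fixing two points. -/
def Fix2 (p q : X) : Subgroup (Perm X) where
  carrier := {g | StrictMono g ∧ g p = p ∧ g q = q}
  one_mem' := ⟨strictMono_id, rfl, rfl⟩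
  mul_mem' := fun h k => ⟨h.1.comp k.1, by rw [Perm.mul_apply, k.2.1, h.2.1],
    by rw [Perm.mul_apply, k.2.2, h.2.2]⟩
  inv_mem' := fun h => ⟨fun x y hxy => (inv_lt' h.1).2 (by simpa using hxy), inv_fix h.2.1,
    inv_fix h.2.2⟩

/-- Cutting a map to an interval. -/
noncomputable def cutFun (p q : X) (g : Perm X) (x : X) : X := if p ≤ x ∧ x ≤ q then g x else x

theorem cutFun_in {g : Perm X} {x : X} (h1 : p ≤ x) (h2 : x ≤ q) : cutFun p q g x = g x :=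
  if_pos ⟨h1, h2⟩

theorem cutFun_out {g : Perm X} {x : X} (h : ¬ (p ≤ x ∧ x ≤ q)) : cutFun p q g x = x := if_neg h

theorem Fix2_mem {g : Perm X} (hg : g ∈ Fix2 p q) {x : X} :
    (p ≤ g x ∧ g x ≤ q) ↔ (p ≤ x ∧ x ≤ q) := by
  conv_lhs => rw [← hg.2.1, ← hg.2.2, hg.1.le_iff_le, hg.1.le_iff_le]

/-- Cutting as a homomorphism. -/
noncomputable def cut (p q : X) : Fix2 p q →* Perm X :=
  MonoidHom.toHomPerm
    { toFun := fun g => cutFun p q g
      map_one' := funext fun x => by simp [cutFun]; rfl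
      map_mul' := fun g h => funext fun x => by
        show cutFun p q (g * h) x = cutFun p q g (cutFun p q h x)
        by_cases hx : p ≤ x ∧ x ≤ q
        · have := (Fix2_mem h.2).2 hx
          rw [cutFun_in hx.1 hx.2, cutFun_in hx.1 hx.2, cutFun_in this.1 this.2]; rfl
        · rw [cutFun_out hx, cutFun_out hx, cutFun_out hx] }

theorem cut_apply (g : Fix2 p q) (x : X) : cut p q g x = cutFun p q g x := rfl

/-- The restriction of a group to an interval. -/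
noncomputable def res (L : Subgroup (Perm X)) (p q : X) : Subgroup (Perm X) :=
  (L.subgroupOf (Fix2 p q)).map (cut p q)

theorem mem_res {σ : Perm X} :
    σ ∈ res L p q ↔ ∃ g ∈ L, g ∈ Fix2 p q ∧ ∀ x, σ x = cutFun p q g x :=
  ⟨fun ⟨g, hg, e⟩ => ⟨g, hg, g.2, fun _ => by rw [← e]; rfl⟩,
    fun ⟨g, h1, h2, e⟩ => ⟨⟨g, h2⟩, h1, Equiv.ext fun x => (e x).symm⟩⟩

theorem cut_mem_res {g : Perm X} (h : g ∈ L) (h' : g ∈ Fix2 p q) : cut p q ⟨g, h'⟩ ∈ res L p q :=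
  ⟨⟨g, h'⟩, h, rfl⟩

theorem res_mono (h : M ≤ L) : res M p q ≤ res L p q :=
  Subgroup.map_mono (Subgroup.comap_mono h)

theorem res_fg (h : L ≤ Fix2 p q) (hL : L.FG) : (res L p q).FG := by
  rw [← Group.fg_iff_subgroup_fg] at hL ⊢
  refine Group.fg_of_surjective (f := ((cut p q).comp (Subgroup.inclusion h)).codRestrict _
    fun g => cut_mem_res g.2 (h g.2)) ?_
  rintro ⟨_, ⟨g, hg⟩, k, rfl⟩
  exact ⟨⟨g, k⟩, rfl⟩

theorem res_lift {M' : Subgroup (Perm X)} (h : M' ≤ res L p q) (hM : M'.FG) :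
    ∃ M, M ≤ L ∧ M ≤ Fix2 p q ∧ M.FG ∧ res M p q = M' := by
  classical
  obtain ⟨S, rfl⟩ := hM
  choose! g hg using fun σ (hσ : σ ∈ S) => mem_res.1 (h (Subgroup.subset_closure hσ))
  have h1 : Subgroup.closure (S.image g : Set (Perm X)) ≤ Fix2 p q :=
    (Subgroup.closure_le _).2 fun x hx => by
      obtain ⟨σ, hσ, rfl⟩ := Finset.mem_image.1 hx
      exact (hg σ hσ).2.1
  refine ⟨Subgroup.closure (S.image g), (Subgroup.closure_le _).2 fun x hx => ?_, h1, ⟨_, rfl⟩,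
    le_antisymm ?_ ((Subgroup.closure_le _).2 fun σ hσ => ?_)⟩
  · obtain ⟨σ, hσ, rfl⟩ := Finset.mem_image.1 hx
    exact (hg σ hσ).1
  · rintro _ ⟨⟨k, hk⟩, hk', rfl⟩
    replace hk' : k ∈ Subgroup.closure (S.image g : Set (Perm X)) := hk'
    induction hk' using Subgroup.closure_induction with
    | mem x hx =>
      obtain ⟨σ, hσ, rfl⟩ := Finset.mem_image.1 hx
      have : cut p q ⟨g σ, hk⟩ = σ := Equiv.ext fun x => ((hg σ hσ).2.2 x).symm
      rw [this]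
      exact Subgroup.subset_closure hσ
    | one =>
      have : cut p q ⟨1, hk⟩ = 1 := map_one _
      rw [this]; exact one_mem _
    | mul x y hx hy ihx ihy =>
      exact (map_mul (cut p q) ⟨x, h1 hx⟩ ⟨y, h1 hy⟩) ▸ mul_mem (ihx _) (ihy _)
    | inv x hx ih => exact (map_inv (cut p q) ⟨x, h1 hx⟩) ▸ inv_mem (ih _)
  · exact mem_res.2 ⟨g σ, Subgroup.subset_closure (Finset.mem_image_of_mem g hσ), (hg σ hσ).2⟩

theorem res_res (h1 : p ≤ a) (h2 : a ≤ q) (h3 : p ≤ b) (h4 : b ≤ q) :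
    res (res L p q) a b ≤ res L a b := by
  intro σ hσ
  obtain ⟨τ, hτ, k1, k2⟩ := mem_res.1 hσ
  obtain ⟨g, hg, l1, l2⟩ := mem_res.1 hτ
  refine mem_res.2 ⟨g, hg, ⟨l1.1, ?_, ?_⟩, fun x => ?_⟩
  · rw [← cutFun_in h1 h2, ← l2, k1.2.1]
  · rw [← cutFun_in h3 h4, ← l2, k1.2.2]
  · rw [k2]
    by_cases hx : a ≤ x ∧ x ≤ b
    · rw [cutFun_in hx.1 hx.2, cutFun_in hx.1 hx.2, l2, cutFun_in (h1.trans hx.1) (hx.2.trans h4)]
    · rw [cutFun_out hx, cutFun_out hx]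

theorem le_res (h : L ≤ Fix2 p q) (hs : ∀ g ∈ L, ∀ x, ¬ (p ≤ x ∧ x ≤ q) → g x = x) :
    L ≤ res L p q := fun g hg => mem_res.2 ⟨g, hg, h hg, fun x => by
  by_cases hx : p ≤ x ∧ x ≤ q
  · rw [cutFun_in hx.1 hx.2]
  · rw [cutFun_out hx, hs g hg x hx]⟩

theorem res_out {σ : Perm X} (h : σ ∈ res L p q) {x : X} (hx : ¬ (p ≤ x ∧ x ≤ q)) : σ x = x := by
  obtain ⟨g, -, -, e⟩ := mem_res.1 h
  rw [e, cutFun_out hx]

theorem res_fix {σ : Perm X} (h : σ ∈ res L p q) {x : X} (hx : ∀ g ∈ L, g x = x) : σ x = x := by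
  obtain ⟨g, hg, -, e⟩ := mem_res.1 h
  rw [e, cutFun]
  split_ifs
  exacts [hx g hg, rfl]

theorem res_strictMono {σ : Perm X} (h : σ ∈ res L p q) : StrictMono σ := by
  obtain ⟨g, -, hg, e⟩ := mem_res.1 h
  intro x y hxy
  rw [e, e]
  by_cases hx : p ≤ x ∧ x ≤ q <;> by_cases hy : p ≤ y ∧ y ≤ q
  · rw [cutFun_in hx.1 hx.2, cutFun_in hy.1 hy.2]; exact hg.1 hxy
  · rw [cutFun_in hx.1 hx.2, cutFun_out hy]
    exact ((Fix2_mem hg).2 hx).2.trans_lt (not_le.1 fun c => hy ⟨hx.1.trans hxy.le, c⟩)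
  · rw [cutFun_in hy.1 hy.2, cutFun_out hx]
    exact (not_le.1 fun c => hx ⟨c, hxy.le.trans hy.2⟩).trans_le ((Fix2_mem hg).2 hy).1
  · rwa [cutFun_out hx, cutFun_out hy]

theorem Orb.res (h : Orb L a b) (hL : L ≤ Fix2 p q) (h1 : p ≤ a) (h2 : b ≤ q) :
    Orb (res L p q) a b :=
  ⟨h.1, fun _ hσ => ⟨res_fix hσ fun g hg => (h.2.1 g hg).1, res_fix hσ fun g hg => (h.2.1 g hg).2⟩,
    fun x k1 k2 => (h.2.2 x k1 k2).elim fun g hg => ⟨_, cut_mem_res hg.1 (hL hg.1), by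
      rw [cut_apply, cutFun_in (h1.trans k1.le) (k2.le.trans h2)]; exact hg.2⟩⟩

theorem Orb.of_res [DenselyOrdered X] (h : Orb (MP_f7db47_al.res L p q) a b) (hL : L ≤ Fix2 p q) :
    Orb L a b ∧ p ≤ a ∧ b ≤ q := by
  have h1 : p ≤ a := not_lt.1 fun c => by
    obtain ⟨z, z1, z2⟩ := exists_between (lt_min c h.1)
    obtain ⟨g, hg, e⟩ := h.2.2 z z1 (z2.trans_le (min_le_right _ _))
    exact e (res_out hg fun k => (z2.trans_le (min_le_left _ _)).not_ge k.1)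
  have h2 : b ≤ q := not_lt.1 fun c => by
    obtain ⟨z, z1, z2⟩ := exists_between (max_lt c h.1)
    obtain ⟨g, hg, e⟩ := h.2.2 z ((le_max_right _ _).trans_lt z1) z2
    exact e (res_out hg fun k => ((le_max_left _ _).trans_lt z1).not_ge k.2)
  refine ⟨⟨h.1, fun g hg => ?_, fun x k1 k2 => ?_⟩, h1, h2⟩
  · have := h.2.1 _ (cut_mem_res hg (hL hg))
    rwa [cut_apply, cut_apply, cutFun_in h1 (h.1.le.trans h2), cutFun_in (h1.trans h.1.le) h2]
      at this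
  · by_contra hc
    push Not at hc
    obtain ⟨σ, hσ, e⟩ := h.2.2 x k1 k2
    exact e (res_fix hσ hc)

theorem acc_res [DenselyOrdered X] {t : Subgroup (Perm X) × X × X} (h : Acc Rel t) :
    Acc Rel (res t.1 p q, t.2) := by
  induction h with
  | intro t _ ih =>
    refine ⟨_, fun ⟨M', a, b⟩ ⟨h1, h2, h3, h4⟩ => ?_⟩
    obtain ⟨M, k1, k2, k3, rfl⟩ := res_lift h1 h2
    exact ih (M, a, b) ⟨k1, k3, (h3.of_res k2).1, h4⟩

end Pool.Agent.MP_f7db47_al
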