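import Pool.Agent.MP_f7db47_al.PLB
import Pool.Agent.MP_f7db47_al.Defs

/-! Membership in the class `D` for groups acting on a line. -/

namespace Pool.Agent.MP_f7db47_al

open Equiv

section amb

variable {P : Type} [Group P]

theorem ClassD.of_le {H K : Subgroup P} (h : H ≤ K) (hK : ClassD K) : ClassD H :=
  .sub _ _ (Subgroup.inclusion h) (Subgroup.inclusion_injective h) hK

theorem fg_map {Q : Type} [Group Q] {K : Subgroup P} (h : K.FG) (f : P →* Q) : (K.map f).FG := by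
  classical
  obtain ⟨S, rfl⟩ := h
  exact ⟨S.image f, by rw [MonoidHom.map_closure, Finset.coe_image]⟩

theorem ClassD.of_map {G : Subgroup P} {K : Subgroup G} (h : ClassD (K.map G.subtype)) :
    ClassD K :=
  .sub _ _ (K.equivMapOfInjective _ G.subtype_injective).toMonoidHom (MulEquiv.injective _) h

theorem ClassD.loc_amb (G : Subgroup P) (h : ∀ M, M ≤ G → M.FG → ClassD M) : ClassD G :=
  .loc _ fun K hK => .of_map (h _ (Subgroup.map_subtype_le K) (fg_map hK _))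

theorem ClassD.int : ClassD (Multiplicative ℤ) :=
  .poly _ (.ext _ (MonoidHom.id _) (.triv _ ⟨fun a b => Subtype.ext (a.2.trans b.2.symm)⟩))

theorem ClassD.ext_amb (G : Subgroup P) (h : G →* Multiplicative ℤ)
    (hN : ClassD (h.ker.map G.subtype)) (r : Subgroup P → Subgroup P → Prop) (hr : WellFounded r)
    (step : ∀ K, K ≤ h.ker.map G.subtype → K.FG → ∀ x : G, h x ≠ 1 →
      ClassD (K ⊔ Subgroup.zpowers (x : P) : Subgroup P) ∨
      (∀ M, M.FG → M ≤ K → (∀ y ∈ M, (x : P)⁻¹ * y * x ∈ K) → r M K) ∨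
      (∀ M, M.FG → M ≤ K → (∀ y ∈ M, (x : P) * y * (x : P)⁻¹ ∈ K) → r M K)) : ClassD G := by
  refine .ext _ h (.of_map hN) {K : Subgroup G // K.FG ∧ K ≤ h.ker} Subtype.val
    (fun M L => r (M.1.map G.subtype) (L.1.map G.subtype)) (InvImage.wf _ hr) (fun K => K.2.2)
    (fun M h1 h2 => ⟨⟨M, h1, h2⟩, le_rfl⟩) (fun K x => ClassD ↥(K.1 ⊔ Subgroup.zpowers x))
    (fun _ _ h => h) fun ⟨K, hK, hle⟩ x hx => ?_
  have hD : ∀ x : G, (∀ M, M.FG → M ≤ K.map G.subtype →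
      (∀ y ∈ M, (x : P)⁻¹ * y * x ∈ K.map G.subtype) → r M (K.map G.subtype)) →
      Drops (ι := {K : Subgroup G // K.FG ∧ K ≤ h.ker}) Subtype.val
        (fun M L => r (M.1.map G.subtype) (L.1.map G.subtype)) ⟨K, hK, hle⟩ x := by
    intro x k M hM hM'
    refine ⟨⟨M, hM, (hM'.trans inf_le_left).trans hle⟩,
      k _ (fg_map hM _) (Subgroup.map_mono (hM'.trans inf_le_left)) ?_, le_rfl⟩
    rintro _ ⟨y, hy, rfl⟩
    obtain ⟨z, hz, rfl⟩ := (hM' hy).2
    exact ⟨z, hz, by simp [mul_assoc]⟩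
  rcases step _ (Subgroup.map_mono hle) (fg_map hK _) x hx with k | k | k
  · refine Or.inl (.of_map ?_)
    rwa [Subgroup.map_sup, MonoidHom.map_zpowers]
  · exact Or.inr (Or.inl (hD x k))
  · exact Or.inr (Or.inr (hD x⁻¹ (by simpa using k)))

end amb

variable {X : Type} [ConditionallyCompleteLinearOrder X] {G L M : Subgroup (Perm X)} {a b p q : X}

/-- The restriction homomorphism. -/
noncomputable def resHom (h : L ≤ Fix2 p q) : L →* res L p q :=
  ((cut p q).comp (Subgroup.inclusion h)).codRestrict _ fun g => cut_mem_res g.2 (h g.2)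

theorem resHom_eq_one {h : L ≤ Fix2 p q} {g : L} (e : resHom h g = 1) {x : X} (h1 : p ≤ x)
    (h2 : x ≤ q) : g.1 x = x := by
  have : cutFun p q g.1 x = x := congr(($e).1 x)
  rwa [cutFun_in h1 h2] at this

variable [DenselyOrdered X] [NoMinOrder X] [NoMaxOrder X]

omit [NoMinOrder X] in
theorem Tame.decomp (T : Tame M) (hfin : ∀ g ∈ M, {a | g a = a ∧ ¬ TR g a}.Finite) (hM : M.FG)
    (hq : ∀ g ∈ M, g q = q) (hp : ∀ g ∈ M, g p = p)
    (ih : ∀ a b, Orb M a b → p ≤ a → b ≤ q → ClassD (res M a b)) : ClassD (res M p q) := by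
  have hΦ : {a | ∃ b, Orb M a b}.Finite := by
    obtain ⟨S, rfl⟩ := hM
    refine (S.finite_toSet.biUnion fun g hg => hfin g (Subgroup.subset_closure hg)).subset ?_
    rintro a ⟨b, ho⟩
    by_contra hc
    obtain ⟨c, h1, h2⟩ := TL_closure (X := Xᵒᵈ) S a fun g hg => TR.dual (X := X) (by
      by_contra k
      exact hc (Set.mem_biUnion hg ⟨(ho.2.1 g (Subgroup.subset_closure hg)).1, k⟩))
    obtain ⟨z, z1, z2⟩ := exists_between (lt_min (show a < c from h1) ho.1)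
    obtain ⟨g, hg, e⟩ := ho.2.2 z z1 (z2.trans_le (min_le_right _ _))
    exact e (h2 g hg z (z2.trans_le (min_le_left _ _)) z1)
  generalize hn : {a | (∃ b, Orb M a b) ∧ p ≤ a}.ncard = n
  induction n using Nat.strong_induction_on generalizing p with
  | _ n ihn =>
    have hfp : {a | (∃ b, Orb M a b) ∧ p ≤ a}.Finite := hΦ.subset fun _ h => h.1
    have hmv : ∀ y, p ≤ y → (∃ g ∈ M, g y ≠ y) → ∃ a, a < y ∧ (∃ b, Orb M a b) ∧ p ≤ a := by
      intro y hy h
      obtain ⟨a, b, o1, o2, ho⟩ := T.exists_orb h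
      refine ⟨a, o1, ⟨b, ho⟩, not_lt.1 fun c => ?_⟩
      obtain ⟨g, hg, e⟩ := ho.2.2 p c (hy.trans_lt o2)
      exact e (hp g hg)
    by_cases htriv : ∀ y, p ≤ y → y ≤ q → ∀ g ∈ M, g y = y
    · refine .poly _ (.triv _ ⟨fun σ τ => ?_⟩)
      have : ∀ σ : res M p q, σ = 1 := fun σ => Subtype.ext (Equiv.ext fun x => by
        by_cases hx : p ≤ x ∧ x ≤ q
        · exact res_fix σ.2 (htriv x hx.1 hx.2)
        · exact res_out σ.2 hx)
      rw [this σ, this τ]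
    push Not at htriv
    obtain ⟨y, y1, y2, hy⟩ := htriv
    obtain ⟨a₀, k1, k2⟩ := hmv y y1 hy
    obtain ⟨a, ⟨⟨b, ho⟩, hpa⟩, hmin⟩ := Set.exists_min_image _ id hfp ⟨a₀, k2⟩
    have haq : a < q := ((hmin a₀ k2).trans_lt k1).trans_le y2
    have hbq : b ≤ q := not_lt.1 fun c => by
      obtain ⟨g, hg, e⟩ := ho.2.2 q haq c
      exact e (hq g hg)
    have hpb : p ≤ b := hpa.trans ho.1.le
    have fa : ∀ σ ∈ res M p q, σ a = a := fun σ hσ => res_fix hσ fun g hg => (ho.2.1 g hg).1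
    have fb : ∀ σ ∈ res M p q, σ b = b := fun σ hσ => res_fix hσ fun g hg => (ho.2.1 g hg).2
    have h1 : res M p q ≤ Fix2 a b := fun σ hσ => ⟨res_strictMono hσ, fa σ hσ, fb σ hσ⟩
    have h2 : res M p q ≤ Fix2 b q := fun σ hσ => ⟨res_strictMono hσ, fb σ hσ, res_fix hσ hq⟩
    refine .sub _ _ ((resHom h1).prod (resHom h2)) ((injective_iff_map_eq_one _).2 fun σ e => ?_)
      (.prod _ _ (.of_le (res_res hpa haq.le hpb hbq) (ih a b ho hpa hbq))
        (.of_le (res_res hpb hbq (hpb.trans hbq) le_rfl) (ihn _ ?_ (fun g hg => (ho.2.1 g hg).2)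
          (fun a' b' o l1 l2 => ih a' b' o (hpb.trans l1) l2) rfl)))
    · refine Subtype.ext (Equiv.ext fun x => ?_)
      by_cases hx : p ≤ x ∧ x ≤ q
      swap
      · exact res_out σ.2 hx
      by_cases hxa : x ≤ a
      · refine res_fix σ.2 fun g hg => ?_
        by_contra c
        obtain ⟨a', l1, l2⟩ := hmv x hx.1 ⟨g, hg, c⟩
        exact (l1.trans_le hxa).not_ge (hmin a' l2)
      rcases le_total x b with hxb | hxb
      · exact resHom_eq_one (congrArg Prod.fst e) (not_le.1 hxa).le hxb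
      · exact resHom_eq_one (congrArg Prod.snd e) hxb hx.2
    · rw [← hn]
      refine Set.ncard_lt_ncard ⟨fun z hz => ⟨hz.1, hpb.trans hz.2⟩, fun c => ?_⟩ hfp
      exact ho.1.not_ge (c ⟨⟨b, ho⟩, hpa⟩).2

theorem Tame.ext_step (T : Tame G) (hfin : ∀ g ∈ G, {a | g a = a ∧ ¬ TR g a}.Finite)
    (ho : Orb G a b) (hs : ∀ g ∈ G, ∀ x, x ≤ a ∨ b ≤ x → g x = x)
    (ih : ∀ M a' b', M ≤ G → M.FG → Orb M a' b' → a < a' → b' < b → ClassD (res M a' b'))
    (h : G →* Multiplicative ℤ) (hker : ∀ g : G, h g = 1 ↔ TR g.1 a) : ClassD G := by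
  have inner : ∀ M p q, M ≤ G → M.FG → M ≤ Fix2 p q → a < p → q < b → ClassD (res M p q) :=
    fun M p q h1 h2 h3 h4 h5 => (T.sub h1).decomp (fun g hg => hfin g (h1 hg)) h2
      (fun g hg => (h3 hg).2.2) (fun g hg => (h3 hg).2.1) fun a' b' o l1 l2 =>
        ih M a' b' h1 h2 o (h4.trans_le l1) (l2.trans_lt h5)
  have hNG : h.ker.map G.subtype ≤ G := Subgroup.map_subtype_le _
  have hull : ∀ K, K ≤ h.ker.map G.subtype → K.FG → K ≠ ⊥ →
      a < lo K ∧ hi K < b ∧ K ≤ Fix2 (lo K) (hi K) ∧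
        ∀ g ∈ K, ∀ x, ¬ (lo K ≤ x ∧ x ≤ hi K) → g x = x := by
    intro K h1 h2 h3
    have TK := T.sub (h1.trans hNG)
    have hTR : ∀ g ∈ K, TR g a := fun g hg => by
      obtain ⟨k, hk, rfl⟩ := h1 hg
      exact (hker k).1 hk
    obtain ⟨c, c1, c2⟩ := TR_fg h2 hTR
    obtain ⟨e, e1, e2⟩ := TL_fg h2 fun g hg => T.balanced' ho (hNG (h1 hg)) (hTR g hg)
    refine ⟨c1.trans_le (le_lo h3 fun g hg x hx => ?_), (hi_le h3 fun g hg x hx => ?_).trans_lt e1,
      fun g hg => ⟨TK.mono g hg, TK.lo_fix h3 hg le_rfl, TK.hi_fix h3 hg le_rfl⟩,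
      fun g hg x hx => ?_⟩
    · exact (le_or_gt x a).elim (fun k => hs g (hNG (h1 hg)) x (Or.inl k)) fun k => c2 g hg x k hx
    · exact (le_or_gt b x).elim (fun k => hs g (hNG (h1 hg)) x (Or.inr k)) fun k => e2 g hg x hx k
    · rcases not_and_or.1 hx with k | k
      · exact TK.lo_fix h3 hg (not_le.1 k).le
      · exact TK.hi_fix h3 hg (not_le.1 k).le
  have hpow : ∀ (x : G) (k : ℤ), h x ≠ 1 → h (x ^ k) = 1 → k = 0 := fun x k hx e => by
    have : k * (h x).toAdd = 0 := by simpa using congrArg Multiplicative.toAdd e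
    exact (mul_eq_zero.1 this).resolve_right fun c =>
      hx (Multiplicative.toAdd.injective (by simpa using c))
  refine .ext_amb G h (.loc_amb _ fun M h1 h2 => ?_) (Hull G) T.wf_hull fun K h1 h2 x hx => ?_
  · by_cases h3 : M = ⊥
    · rw [h3]; exact .poly _ (.triv _ inferInstance)
    obtain ⟨k1, k2, k3, k4⟩ := hull M h1 h2 h3
    exact .of_le (le_res k3 k4) (inner M _ _ (h1.trans hNG) h2 k3 k1 k2)
  have hR : K ⊔ Subgroup.zpowers x.1 ≤ G := sup_le (h1.trans hNG) (Subgroup.zpowers_le.2 x.2)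
  by_cases h3 : K = ⊥
  · subst h3
    refine Or.inl (.sub _ _ (h.comp (Subgroup.inclusion hR))
      ((injective_iff_map_eq_one _).2 fun ⟨y, hy⟩ e => ?_) .int)
    obtain ⟨k, rfl⟩ : y ∈ Subgroup.zpowers x.1 := by simpa using hy
    obtain rfl := hpow x k hx e
    exact Subtype.ext (zpow_zero _)
  obtain ⟨k1, k2, k3, k4⟩ := hull K h1 h2 h3
  have TK := T.sub (h1.trans hNG)
  have hD : ∀ x : Perm X, x ∈ G → (lo K < x (lo K) ∨ x (hi K) < hi K) →
      ∀ M : Subgroup (Perm X), M.FG → M ≤ K → (∀ y ∈ M, x⁻¹ * y * x ∈ K) → Hull G M K := by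
    intro x hx c M _ m1 m2
    refine ⟨m1, h1.trans hNG, h2, h3, or_iff_not_imp_left.2 fun m3 => c.imp (fun c => ?_) fun c => ?_⟩
    · refine c.trans_le (le_lo m3 fun g hg z hz => ?_)
      have := TK.lo_fix h3 (m2 g hg) ((inv_lt' (T.mono x hx)).2 hz).le
      simpa using this
    · refine (hi_le m3 fun g hg z hz => ?_).trans_lt c
      have := TK.hi_fix h3 (m2 g hg) ((lt_inv' (T.mono x hx)).2 hz).le
      simpa using this
  have mx := T.mono x x.2
  by_cases c : lo K < x.1 (lo K) ∨ x.1 (hi K) < hi K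
  · exact Or.inr (Or.inl (hD x x.2 c))
  by_cases c' : x.1 (lo K) < lo K ∨ hi K < x.1 (hi K)
  · refine Or.inr (Or.inr ?_)
    simpa using hD x.1⁻¹ (inv_mem x.2) (c'.imp (lt_inv' mx).2 (inv_lt' mx).2)
  push Not at c c'
  have hxF : x.1 ∈ Fix2 (lo K) (hi K) := ⟨mx, le_antisymm c.1 c'.1, le_antisymm c'.2 c.2⟩
  have hRF : K ⊔ Subgroup.zpowers x.1 ≤ Fix2 (lo K) (hi K) := sup_le k3 (Subgroup.zpowers_le.2 hxF)
  refine Or.inl (.sub _ _ ((resHom hRF).prod (h.comp (Subgroup.inclusion hR)))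
    ((injective_iff_map_eq_one _).2 fun y e => ?_) (.prod _ _ (inner _ _ _ hR (h2.sup ?_) hRF k1 k2)
      .int))
  swap
  · rw [Subgroup.zpowers_eq_closure]
    exact (Subgroup.fg_iff _).2 ⟨_, rfl, Set.toFinite _⟩
  let Z : Subgroup (Perm X) :=
    { carrier := {y | ∃ k : ℤ, ∀ z, ¬ (lo K ≤ z ∧ z ≤ hi K) → y z = (x.1 ^ k) z}
      one_mem' := ⟨0, by simp⟩
      mul_mem' := by
        rintro y y' ⟨k, hk⟩ ⟨k', hk'⟩
        refine ⟨k + k', fun z hz => ?_⟩
        rw [Perm.mul_apply, hk' z hz, hk _ (mt (Fix2_mem (zpow_mem hxF k')).1 hz), zpow_add]; rfl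
      inv_mem' := by
        rintro y ⟨k, hk⟩
        refine ⟨-k, fun z hz => ?_⟩
        rw [Perm.inv_eq_iff_eq, hk _ (mt (Fix2_mem (zpow_mem hxF (-k))).1 hz)]; simp }
  have hZ : K ⊔ Subgroup.zpowers x.1 ≤ Z :=
    sup_le (fun g hg => ⟨0, by simpa using k4 g hg⟩) (Subgroup.zpowers_le.2 ⟨1, by simp⟩)
  obtain ⟨k, hk⟩ := hZ y.2
  obtain ⟨d, d1, d2⟩ := (hker _).1 (congrArg Prod.snd e)
  obtain rfl : k = 0 := hpow x k hx ((hker _).2 ⟨_, lt_min d1 k1, fun z z1 z2 => by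
    rw [Subgroup.coe_zpow, ← hk z fun c => (z2.trans_le (min_le_right _ _)).not_ge c.1]
    exact d2 z z1 (z2.trans_le (min_le_left _ _))⟩)
  refine Subtype.ext (Equiv.ext fun z => ?_)
  by_cases hz : lo K ≤ z ∧ z ≤ hi K
  · exact resHom_eq_one (congrArg Prod.fst e) hz.1 hz.2
  · simpa using hk z hz

end Pool.Agent.MP_f7db47_al
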