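import Pool.Agent.MP_f7db47_al.TBLin

/-!
The splitting theorem for trees, for an abstract calculus.
-/

set_option linter.unusedSectionVars false

namespace Pool.Agent.MP_f7db47_al

open Matrix

universe u v w

namespace TB

variable {R : Type v} [Ring R] {G : Type u} [Group G] {V : Type w} [MulAction G V] (D : TB G V)

/-- All invertible split matrices are trivial. -/
def SplitT (S : TS (MonoidAlgebra R G)) : Prop :=
  ∀ (J : Type) [Fintype J] [DecidableEq J] (e : J → D.E) (z : J → V)
    (Θ₀ Θ₁ ε : Matrix J J (MonoidAlgebra R G)),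
    MSup2 (fun i j => {x | x • z j = D.ep (e i) false}) Θ₀ →
    MSup2 (fun i j => {x | x • z j = D.ep (e i) true}) Θ₁ → MSup2 (D.Same e) ε → ε * ε = ε →
    IsUnit (ε * Θ₀ + (1 - ε) * Θ₁) → S.T (ε * Θ₀ + (1 - ε) * Θ₁)

variable {D} {S : TS (MonoidAlgebra R G)}

lemma linear (htame : ∀ σ, TameP S (D.Ah σ σ) (D.C σ.1)) (hsplit : D.SplitT S)
    {J : Type} [Fintype J] [DecidableEq J] (e : J → D.E) (z : J → V)
    {A : Matrix J J (MonoidAlgebra R G)}
    (hA : MSup2 (fun i j => {x | ∃ s, x • z j = D.ep (e i) s}) A) (hu : IsUnit A) : S.T A := by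
  obtain ⟨u, rfl⟩ := hu
  let Θ : Bool → Matrix J J (MonoidAlgebra R G) := fun s =>
    mpr2 (fun i j => {x | x • z j = D.ep (e i) s}) u.val
  have hsum : ∀ s, Θ s + Θ (!s) = u.val := by
    intro s
    rw [← hA.mpr2_eq]
    refine (mpr2_union _ (fun i j g => ⟨?_, ?_⟩) fun i j g h h' => ?_).symm
    · rintro ⟨s', h⟩
      by_cases hs : s' = s
      · exact Or.inl (hs ▸ h)
      · exact Or.inr (Bool.eq_not.2 hs ▸ h)
    · rintro (h | h) <;> exact ⟨_, h⟩
    · simpa using D.ep_inj (h.symm.trans h')
  let L : D.Lin R J := ⟨e, z, Θ, (u⁻¹ : Units _).val, fun s => msup2_mpr2 _ _,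
    fun s => by rw [hsum, u.mul_inv], fun s => by rw [hsum, u.inv_mul]⟩
  have h1 := L.T_ΘU S htame
  have hp : L.p true = 1 - L.p false := by rw [← L.p_add false, Bool.not_false]; abel
  have hW : L.W = L.p false * L.Θ false + (1 - L.p false) * L.Θ true := by rw [← hp]; rfl
  have h2 : S.T L.W := by
    rw [hW]
    refine hsplit J e z _ _ _ (L.hΘ false) (L.hΘ true) (L.msup_p false) (L.p_idem false) ?_
    rw [← hW]
    exact ⟨⟨_, _, L.W_mul_U, L.U_mul_W⟩, rfl⟩
  have := S.mul h1 h2
  rw [mul_assoc, L.U_mul_W, mul_one] at this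
  exact hsum false ▸ this

theorem core (htame : ∀ σ, TameP S (D.Ah σ σ) (D.C σ.1)) (hsplit : D.SplitT S) (e₀ : D.E)
    {J : Type} [Fintype J] [DecidableEq J] {A : Matrix J J (MonoidAlgebra R G)}
    (hu : IsUnit A) : S.T A := by
  have hlin : ∀ (τ : D.E) (y : V), ∃ (k : G) (τ' : D.E) (s : Bool), k • D.ep τ' s = y ∧
      ((¬ ∃ s, y = D.ep τ s) → D.μ τ (k • D.ep τ' (!s)) < D.μ τ y) := by
    intro τ y
    rcases D.lin τ y with ⟨s, h⟩ | ⟨k, τ', s, h1, h2⟩
    · exact ⟨1, τ, s, by rw [one_smul, h], fun h' => absurd ⟨s, h⟩ h'⟩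
    · exact ⟨k, τ', s, h1, fun _ => h2⟩
  choose kk tt ss hk1 hk2 using hlin
  have main : ∀ (n : ℕ) (J : Type) [Fintype J] [DecidableEq J] (e : J → D.E) (z : J → V)
      (A : Matrix J J (MonoidAlgebra R G)),
      MSup2 (fun i j => {x | (∃ s, x • z j = D.ep (e i) s) ∨ D.μ (e i) (x • z j) < n}) A →
      IsUnit A → S.T A := by
    intro n
    induction n with
    | zero =>
      intro J _ _ e z A hA hu
      exact linear htame hsplit e z (hA.mono fun i j x hx => hx.resolve_right (by omega)) hu
    | succ n ih =>
      intro J _ _ e z A hA hu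
      classical
      set A' := mpr2 (fun i j => {x | ∃ s, x • z j = D.ep (e i) s}ᶜ) A with hA'
      set A₀ := mpr2 (fun i j => {x | ∃ s, x • z j = D.ep (e i) s}) A with hA₀
      have hsum : A = A₀ + A' := by
        ext1 i j; exact (pr_add_pr_compl _ _).symm
      obtain ⟨s, hs, -⟩ := exists_finset_msup A'
      let el : Fin s.card → G := fun i => (s.equivFin.symm i : G)
      let y : J × J × Fin s.card → V := fun l => el l.2.2 • z l.2.1
      let k : J × J × Fin s.card → G := fun l => kk (e l.1) (y l)
      let B : Matrix J (J × J × Fin s.card) (MonoidAlgebra R G) := fun i l =>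
        if i = l.1 then MonoidAlgebra.single (k l) ((A' l.1 l.2.1).coeff (el l.2.2)) else 0
      let Sm : Matrix (J × J × Fin s.card) J (MonoidAlgebra R G) := fun l j =>
        if l.2.1 = j then MonoidAlgebra.single ((k l)⁻¹ * el l.2.2) 1 else 0
      have hBS : B * Sm = A' := by
        ext1 i j
        rw [Matrix.mul_apply, Fintype.sum_prod_type, Finset.sum_eq_single i,
          Fintype.sum_prod_type, Finset.sum_eq_single j]
        · simp only [B, Sm, if_true, MonoidAlgebra.single_mul_single, mul_one,
            mul_inv_cancel_left]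
          rw [← Equiv.sum_comp s.equivFin]
          simp only [el, Equiv.symm_apply_apply]
          rw [Finset.sum_coe_sort s fun g => MonoidAlgebra.single g ((A' i j).coeff g)]
          conv_rhs => rw [← MonoidAlgebra.sum_coeff_single (A' i j)]
          rw [Finsupp.sum_of_support_subset _ (s := s)]
          · intro g hg; exact hs i j g (Finsupp.mem_support_iff.1 hg)
          · intro g _; simp
        · intro j' _ hj'
          simp [Sm, hj']
        · simp
        · intro i' _ hi'
          simp [B, Ne.symm hi']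
        · simp
      have hprod : fromBlocks 1 (-B) 0 1 * fromBlocks A 0 0 1 * fromBlocks 1 0 Sm 1 =
          fromBlocks A₀ (-B) Sm 1 := by
        simp only [fromBlocks_multiply, fromBlocks_inj, Matrix.one_mul, Matrix.mul_one,
          Matrix.zero_mul, Matrix.mul_zero, add_zero, zero_add, and_true, Matrix.neg_mul]
        rw [hBS]
        conv_lhs => rw [hsum]
        abel
      have hT : S.T (fromBlocks A₀ (-B) Sm 1) := by
        refine ih _ (Sum.elim e fun l => tt (e l.1) (y l))
          (Sum.elim z fun l => D.ep (tt (e l.1) (y l)) (!ss (e l.1) (y l))) _ ?_ ?_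
        · rintro (i | l) (j | l')
          · rw [fromBlocks_apply₁₁, hA₀]
            exact (msup2_mpr2 _ A i j).mono fun x hx => Or.inl hx
          · rw [fromBlocks_apply₁₂, Matrix.neg_apply]
            refine Sup.neg ?_
            simp only [B]
            split_ifs with h
            · by_cases h0 : (A' l'.1 l'.2.1).coeff (el l'.2.2) = 0
              · rw [h0, MonoidAlgebra.single_zero]; exact sup_zero _
              · have h1 := msup2_mpr2 _ _ _ _ _ h0
                have h2 := (hA.mpr2 _ _ _ h0).resolve_left h1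
                have h3 := hk2 (e l'.1) (y l') h1
                refine sup_single ?_ _
                subst h
                exact Or.inr <| lt_of_lt_of_le h3 (Nat.lt_succ_iff.1 h2)
            · exact sup_zero _
          · simp only [fromBlocks_apply₂₁, Sm]
            split_ifs with h
            · refine sup_single ?_ _
              refine Or.inl ⟨ss (e l.1) (y l), ?_⟩
              subst h
              simp only [Sum.elim_inl, Sum.elim_inr]
              rw [mul_smul, inv_smul_eq_iff]
              exact (hk1 _ _).symm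
            · exact sup_zero _
          · exact msup2_one (S := fun l l' => {x : G | (∃ s, x • D.ep (tt (e l'.1) (y l'))
              (!ss (e l'.1) (y l')) = D.ep (tt (e l.1) (y l)) s) ∨ D.μ (tt (e l.1) (y l))
              (x • D.ep (tt (e l'.1) (y l')) (!ss (e l'.1) (y l'))) < n})
              (fun l => Or.inl ⟨_, one_smul _ _⟩) l l'
        · rw [← hprod]
          exact ((S.isUnit (S.upper _)).mul (isUnit_fromBlocks_diag hu isUnit_one)).mul
            (S.isUnit (S.lower _))
      rw [← hprod] at hT
      exact S.of_stab (S.cancel_left (S.upper _) (S.cancel_right (S.lower _) hT))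
  obtain ⟨s, hs, -⟩ := exists_finset_msup A
  refine main (s.sup (fun g => D.μ e₀ (g • D.ep e₀ false)) + 1) J (fun _ => e₀)
    (fun _ => D.ep e₀ false) A (fun i j => (hs i j).mono fun g hg => Or.inr ?_) hu
  exact Nat.lt_succ_of_le (Finset.le_sup (f := fun g => D.μ e₀ (g • D.ep e₀ false)) hg)

end TB

end Pool.Agent.MP_f7db47_al
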