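import Pool.Agent.MP_f7db47_al.TBCore
import Pool.Agent.MP_f7db47_al.Main

/-!
Split matrices are trivial when the vertex and edge groups behave.
-/

set_option linter.unusedSectionVars false

namespace Pool.Agent.MP_f7db47_al

open Matrix

universe u v w

variable {R : Type v} [Ring R] {G : Type u} [Group G]
variable {J : Type} [Fintype J] [DecidableEq J]

lemma proj_map {Y : Type*} (c : J → Y) (y : Y) :
    (proj R c y).map (MonoidAlgebra.single (1 : G)) = proj (MonoidAlgebra R G) c y := by
  ext1 i j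
  by_cases hij : i = j
  · subst hij
    simp only [proj, map_apply, diagonal_apply_eq]
    split_ifs <;> simp [MonoidAlgebra.one_def]
  · simp [proj, hij]

lemma const_comm {ε : Matrix J J R} {u : J → G} (hu : ∀ i j, u i ≠ u j → ε i j = 0) :
    ε.map (MonoidAlgebra.single (1 : G)) * diagonal (fun i => MonoidAlgebra.single (u i) 1) =
      diagonal (fun i => MonoidAlgebra.single (u i) 1) * ε.map (MonoidAlgebra.single (1 : G)) := by
  ext1 i j
  rw [mul_diagonal, diagonal_mul, map_apply, MonoidAlgebra.single_mul_single,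
    MonoidAlgebra.single_mul_single]
  by_cases h : u i = u j
  · simp [h]
  · simp [hu i j h]

lemma T_idem_diag {ε : Matrix J J R} (hε : ε * ε = ε) {u : J → G}
    (hu : ∀ i j, u i ≠ u j → ε i j = 0) :
    T (1 - ε.map (MonoidAlgebra.single (1 : G)) +
      ε.map (MonoidAlgebra.single (1 : G)) * diagonal fun i => MonoidAlgebra.single (u i) 1) := by
  refine (stdTS R G).of_blocks u (proj_comm u fun i j h => ?_) fun g => ?_
  · have hij : i ≠ j := fun e => h (congrArg u e)
    simp [mul_diagonal, hu i j h, hij]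
  · have hc := proj_comm u hu g
    have hi : (proj R u g * ε) * (proj R u g * ε) = proj R u g * ε := by
      rw [mul_assoc, ← mul_assoc ε, ← hc, mul_assoc, hε, ← mul_assoc, proj_mul_self]
    have := T_gen (Gen.idem (G := G) _ hi g)
    change T _
    convert this using 1
    have e1 : proj (MonoidAlgebra R G) u g * ε.map (MonoidAlgebra.single (1 : G)) =
        (proj R u g * ε).map (MonoidAlgebra.single (1 : G)) := by
      rw [← proj_map, map_single_mul, mul_one]
    have e2 : proj (MonoidAlgebra R G) u g * (ε.map (MonoidAlgebra.single (1 : G)) *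
        diagonal fun i => MonoidAlgebra.single (u i) 1) =
        (proj R u g * ε).map (MonoidAlgebra.single g) := by
      rw [const_comm hu]
      ext1 i j
      rw [proj_mul_apply, map_apply, proj_mul_apply, diagonal_mul]
      split_ifs with h
      · simp [h, MonoidAlgebra.single_mul_single]
      · simp
    rw [mul_add, mul_sub, mul_one, e1, e2]
    abel

variable {V : Type w} [MulAction G V]

lemma split_rep (h1 : ∀ y : V, G1 R (MulAction.stabilizer G y)) (o t z : J → V)
    {ε : Matrix J J R} (hε : ε * ε = ε) (ho : ∀ i j, o i ≠ o j → ε i j = 0)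
    (ht : ∀ i j, t i ≠ t j → ε i j = 0) {A₀ A₁ : Matrix J J (MonoidAlgebra R G)}
    (h₀ : MSup2 (fun i j => {x | z j = o i ∧ x • z j = z j}) A₀)
    (h₁ : MSup2 (fun i j => {x | z j = t i ∧ x • z j = z j}) A₁)
    (hu : IsUnit (ε.map (MonoidAlgebra.single 1) * A₀ +
      (1 - ε.map (MonoidAlgebra.single 1)) * A₁)) :
    T (ε.map (MonoidAlgebra.single 1) * A₀ + (1 - ε.map (MonoidAlgebra.single 1)) * A₁) := by
  set p : Matrix J J (MonoidAlgebra R G) := ε.map (MonoidAlgebra.single 1) with hp
  have hpp : p * p = p := by rw [hp, map_single_mul, hε, mul_one]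
  have hps : MSup {1} p := msup_map_single (S := {1}) rfl _
  obtain ⟨W, hW⟩ := hu
  rw [← hW]
  let φ := (MonoidAlgebra.mapDomainRingHom R (1 : G →* G)).mapMatrix (m := J)
  have hφs : ∀ M, MSup {1} (φ M) := fun M i j =>
    (sup_mapDomain (1 : G →* G) (M i j)).mono (by rintro _ ⟨x, rfl⟩; rfl)
  have hφc : ∀ M : Matrix J J R, φ (M.map (MonoidAlgebra.single 1)) =
      M.map (MonoidAlgebra.single 1) := fun M => by
    ext1 i j; simp [φ]
  have key : ∀ (c : J → V) (A : Matrix J J (MonoidAlgebra R G)),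
      MSup2 (fun i j => {x | z j = c i ∧ x • z j = z j}) A → ∀ y,
      A * proj _ z y = proj _ c y * A := by
    intro c A hA y
    ext1 i j
    rw [mul_proj_apply, proj_mul_apply]
    by_cases h : z j = c i
    · rw [h]
    · rw [(hA i j).eq_zero (sup_univ _) fun g hg => absurd hg.1 h]; simp
  have hco : ∀ y, proj _ o y * p = p * proj _ o y :=
    proj_comm o fun i j h => by simp [hp, ho i j h]
  have hct : ∀ y, proj _ t y * p = p * proj _ t y :=
    proj_comm t fun i j h => by simp [hp, ht i j h]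
  have hWQ : ∀ y, W.val * proj _ z y = (p * proj _ o y + (1 - p) * proj _ t y) * W.val := by
    intro y
    rw [hW, add_mul, mul_assoc, mul_assoc, key o A₀ h₀, key t A₁ h₁]
    have e : (p * proj _ o y + (1 - p) * proj _ t y) * (p * A₀ + (1 - p) * A₁) =
        p * (proj _ o y * p) * (A₀ - A₁) + p * (proj _ o y * A₁) +
        (1 - p) * (proj _ t y * p) * (A₀ - A₁) + (1 - p) * (proj _ t y * A₁) := by noncomm_ring
    rw [e, hco, hct, ← mul_assoc p p, hpp, ← mul_assoc (1 - p) p, sub_mul 1 p p, one_mul, hpp,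
      sub_self]
    noncomm_ring
  have hW0Q : ∀ y, φ W.val * proj _ z y = (p * proj _ o y + (1 - p) * proj _ t y) * φ W.val := by
    intro y
    have := congrArg φ (hWQ y)
    rwa [map_mul, map_mul, map_add, map_mul, map_mul, map_sub, map_one, ← proj_map, ← proj_map,
      ← proj_map, hφc, hφc, hφc, hφc, proj_map, proj_map, proj_map] at this
  have i1 : φ W.val * φ (W⁻¹ : Units _).val = 1 := by rw [← map_mul, W.mul_inv, map_one]
  have i2 : φ (W⁻¹ : Units _).val * φ W.val = 1 := by rw [← map_mul, W.inv_mul, map_one]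
  set Z := φ (W⁻¹ : Units _).val * W.val with hZ
  set Z' := (W⁻¹ : Units _).val * φ W.val with hZ'
  have j1 : Z * Z' = 1 := by rw [hZ, hZ', mul_assoc, ← mul_assoc W.val, W.mul_inv, one_mul, i2]
  have j2 : Z' * Z = 1 := by
    rw [hZ, hZ', mul_assoc, ← mul_assoc (φ W.val), i1, one_mul, W.inv_mul]
  have hZQ : ∀ y, proj _ z y * Z = Z * proj _ z y := by
    intro y
    rw [hZ, mul_assoc, hWQ, ← mul_assoc, ← mul_assoc]
    congr 1
    have := congrArg (fun M => φ (W⁻¹ : Units _).val * M * φ (W⁻¹ : Units _).val) (hW0Q y)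
    simpa only [← mul_assoc, i2, one_mul, mul_assoc _ (φ W.val), i1, mul_one] using this
  have hZQ' : ∀ y, proj _ z y * Z' = Z' * proj _ z y := by
    intro y
    rw [← one_mul (proj _ z y * Z'), ← j2, mul_assoc, ← mul_assoc Z, ← hZQ, mul_assoc _ Z, j1,
      mul_one]
  have t1 : T (φ W.val) :=
    T_of_isUnit_msup ⊥ (G1_of_subsingleton _) (by simpa using hφs _) ⟨⟨_, _, i1, i2⟩, rfl⟩
  have t2 : T Z := by
    refine (stdTS R G).of_blocks z hZQ fun y => T_of_isUnit_msup _ (h1 y) ?_ ?_
    · have hQ : MSup (MulAction.stabilizer G y : Set G) (proj (MonoidAlgebra R G) z y) := by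
        rw [← proj_map]; exact msup_map_single (Subgroup.one_mem _) _
      refine ((msup_one (Subgroup.one_mem _)).sub hQ).add ?_
      rw [hZQ, hZ, mul_assoc]
      refine (hφs _).mul (S' := MulAction.stabilizer G y) ?_ (by rintro _ rfl b hb; simpa using hb)
      intro i j
      rw [mul_proj_apply]
      split_ifs with h
      · subst h
        have : MSup2 (fun _ j => {x : G | x • z j = z j}) W.val := by
          rw [hW]
          refine MSup2.add (MSup2.mul (S := fun _ _ => {1}) hps h₀ ?_)
            (MSup2.mul (S := fun _ _ => {1}) ((msup_one (S := {1}) rfl).sub hps) h₁ ?_)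
          · rintro _ _ _ _ rfl b hb; simpa using hb.2
          · rintro _ _ _ _ rfl b hb; simpa using hb.2
        exact this i j
      · exact sup_zero _
    · have aux : ∀ Z Z' : Matrix J J (MonoidAlgebra R G), Z * Z' = 1 →
          proj _ z y * Z = Z * proj _ z y →
          (1 - proj _ z y + proj _ z y * Z) * (1 - proj _ z y + proj _ z y * Z') = 1 := by
        intro Z Z' h h'
        have e : (1 - proj _ z y + proj _ z y * Z) * (1 - proj _ z y + proj _ z y * Z') =
            1 - proj _ z y + (proj _ z y - proj _ z y * proj _ z y) * (Z' - 1) +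
            (proj _ z y * Z) * (1 - proj _ z y) + proj _ z y * (Z * proj _ z y) * Z' := by
          noncomm_ring
        rw [e, proj_mul_self, sub_self, zero_mul, add_zero, ← h', ← mul_assoc, proj_mul_self,
          mul_assoc _ Z Z', h, h', mul_assoc Z, mul_sub, proj_mul_self]
        simp
      exact ⟨⟨_, _, aux Z Z' j1 (hZQ y), aux Z' Z j2 (hZQ' y)⟩, rfl⟩
  have := T_mul t1 t2
  rwa [hZ, ← mul_assoc, i1, one_mul] at this

lemma split_const (h1 : ∀ y : V, G1 R (MulAction.stabilizer G y)) (o t z : J → V)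
    {ε : Matrix J J R} (hε : ε * ε = ε) (ho : ∀ i j, o i ≠ o j → ε i j = 0)
    (ht : ∀ i j, t i ≠ t j → ε i j = 0) {A₀ A₁ : Matrix J J (MonoidAlgebra R G)}
    (h₀ : MSup2 (fun i j => {x | x • z j = o i}) A₀)
    (h₁ : MSup2 (fun i j => {x | x • z j = t i}) A₁)
    (hu : IsUnit (ε.map (MonoidAlgebra.single 1) * A₀ +
      (1 - ε.map (MonoidAlgebra.single 1)) * A₁)) :
    T (ε.map (MonoidAlgebra.single 1) * A₀ + (1 - ε.map (MonoidAlgebra.single 1)) * A₁) := by
  let ρ : V → V := fun y => (Quotient.mk (MulAction.orbitRel G V) y).out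
  have hρ : ∀ (g : G) y, ρ (g • y) = ρ y := fun g y => by
    have : Quotient.mk (MulAction.orbitRel G V) (g • y) = Quotient.mk _ y :=
      Quotient.sound ⟨g, rfl⟩
    simp only [ρ, this]
  have : ∀ y, ∃ g : G, g • y = ρ y := fun y => Quotient.mk_out (s := MulAction.orbitRel G V) y
  choose u hu' using this
  have h1ε : (1 - ε) * (1 - ε) = 1 - ε := by
    rw [mul_sub, mul_one, sub_mul, one_mul, hε, sub_self, sub_zero]
  have ho' : ∀ i j, u (o i) ≠ u (o j) → ε i j = 0 := fun i j h => ho i j fun e => h (by rw [e])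
  have ht' : ∀ i j, u (t i) ≠ u (t j) → ε i j = 0 := fun i j h => ht i j fun e => h (by rw [e])
  have t1 := T_idem_diag hε ho'
  have t2 := T_idem_diag h1ε (u := fun i => u (t i)) fun i j h => by
    have hij : i ≠ j := fun e => h (by rw [e])
    simp [ht' i j h, hij]
  have t3 := T_idem_diag (R := R) (ε := 1) (one_mul _) (u := fun i => (u (z i))⁻¹) fun i j h =>
    one_apply_ne fun e => h (by rw [e])
  rw [map_single_sub, map_single_one_one] at t2
  rw [map_single_one_one, sub_self, zero_add, one_mul] at t3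
  have c1 := const_comm ho'
  have c2 := const_comm ht'
  set p : Matrix J J (MonoidAlgebra R G) := ε.map (MonoidAlgebra.single 1) with hp
  have hpp : p * p = p := by rw [hp, map_single_mul, hε, mul_one]
  set d₀ : Matrix J J (MonoidAlgebra R G) := diagonal fun i => MonoidAlgebra.single (u (o i)) 1
  set d₁ : Matrix J J (MonoidAlgebra R G) := diagonal fun i => MonoidAlgebra.single (u (t i)) 1
  set d₂ : Matrix J J (MonoidAlgebra R G) := diagonal fun i => MonoidAlgebra.single (u (z i))⁻¹ 1
  have e : (1 - p + p * d₀) * ((1 - (1 - p) + (1 - p) * d₁) * (p * A₀ + (1 - p) * A₁)) * d₂ =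
      p * (d₀ * A₀ * d₂) + (1 - p) * (d₁ * A₁ * d₂) := by
    have e1 : (1 - (1 - p) + (1 - p) * d₁) * (p * A₀ + (1 - p) * A₁) =
        p * A₀ + (1 - p) * (d₁ * A₁) := by
      have : (1 - (1 - p) + (1 - p) * d₁) * (p * A₀ + (1 - p) * A₁) =
        p * p * (A₀ - A₁) + p * A₁ + (1 - p) * (d₁ * p) * (A₀ - A₁) + (1 - p) * (d₁ * A₁) := by
        noncomm_ring
      rw [this, hpp, ← c2, ← mul_assoc (1 - p) p, sub_mul 1 p p, one_mul, hpp, sub_self]
      noncomm_ring
    have e2 : (1 - p + p * d₀) * (p * A₀ + (1 - p) * (d₁ * A₁)) =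
        p * (d₀ * A₀) + (1 - p) * (d₁ * A₁) := by
      have : (1 - p + p * d₀) * (p * A₀ + (1 - p) * (d₁ * A₁)) =
        (p - p * p) * (A₀ - d₁ * A₁) + (1 - p) * (d₁ * A₁) + p * (d₀ * p) * (A₀ - d₁ * A₁) +
          p * d₀ * (d₁ * A₁) := by noncomm_ring
      rw [this, hpp, ← c1, ← mul_assoc p p, hpp]
      noncomm_ring
    rw [e1, e2]; noncomm_ring
  have sup : ∀ (c : J → V) (A : Matrix J J (MonoidAlgebra R G)),
      MSup2 (fun i j => {x | x • z j = c i}) A →
      MSup2 (fun i j => {x | ρ (z j) = ρ (c i) ∧ x • ρ (z j) = ρ (z j)})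
        (diagonal (fun i => MonoidAlgebra.single (u (c i)) (1 : R)) * A * d₂) := by
    intro c A hA i j
    rw [mul_diagonal, diagonal_mul]
    refine ((sup_single (S := {u (c i)}) rfl _).mul (hA i j) (U := {x | x • z j = ρ (c i) ∧
      ρ (z j) = ρ (c i)}) ?_).mul (sup_single (S := {(u (z j))⁻¹}) rfl _) ?_
    · rintro _ rfl b hb
      simp only [Set.mem_ofPred_eq] at hb ⊢
      exact ⟨by rw [mul_smul, hb, hu'], by rw [← hb, hρ]⟩
    · rintro a ⟨ha, ha'⟩ _ rfl
      exact ⟨ha', by rw [mul_smul, ← hu', inv_smul_smul, ha, hu', ha']⟩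
  have := split_rep h1 (fun i => ρ (o i)) (fun i => ρ (t i)) (fun i => ρ (z i)) hε
    (fun i j h => ho i j fun e => h (by rw [e])) (fun i j h => ht i j fun e => h (by rw [e]))
    (sup o A₀ h₀) (sup t A₁ h₁) (by
      rw [← hp, ← e]; exact (t1.isUnit.mul (t2.isUnit.mul hu)).mul t3.isUnit)
  rw [← hp, ← e] at this
  exact T_cancel_left t2 (T_cancel_left t1 (T_cancel_right t3 this))

end Pool.Agent.MP_f7db47_al
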