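import Pool.Agent.MP_f7db47_al.TCalc

/-!
Restricting the support of elements of a group ring.
-/

set_option linter.unusedSectionVars false

namespace Pool.Agent.MP_f7db47_al

open Matrix

universe u v

variable {R : Type v} [Ring R] {G : Type u} [Group G]

open Classical in
/-- The part of `x` supported on `S`. -/
noncomputable def pr (S : Set G) : MonoidAlgebra R G →+ MonoidAlgebra R G where
  toFun x := MonoidAlgebra.ofCoeff (x.coeff.filter (· ∈ S))
  map_zero' := by ext; simp [Finsupp.filter_zero]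
  map_add' x y := by ext g; simp [Finsupp.filter_add]

open Classical in
lemma coeff_pr (S : Set G) (x : MonoidAlgebra R G) (g : G) :
    (pr S x).coeff g = if g ∈ S then x.coeff g else 0 := by
  simp [pr, Finsupp.filter_apply]

lemma pr_single_of_mem {S : Set G} {g : G} (hg : g ∈ S) (r : R) :
    pr S (MonoidAlgebra.single g r) = MonoidAlgebra.single g r := by
  classical
  ext k
  rw [coeff_pr]
  split_ifs with h
  · rfl
  · rw [MonoidAlgebra.coeff_single, Finsupp.single_apply, if_neg]
    rintro rfl; exact h hg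

lemma pr_single_of_not_mem {S : Set G} {g : G} (hg : g ∉ S) (r : R) :
    pr S (MonoidAlgebra.single g r) = 0 := by
  classical
  ext k
  rw [coeff_pr]
  split_ifs with h
  · rw [MonoidAlgebra.coeff_single, Finsupp.single_apply, if_neg]
    · rfl
    · rintro rfl; exact hg h
  · rfl

/-- `x` is supported in `S`. -/
def Sup (S : Set G) (x : MonoidAlgebra R G) : Prop := ∀ g, x.coeff g ≠ 0 → g ∈ S

lemma Sup.pr_eq {S : Set G} {x : MonoidAlgebra R G} (h : Sup S x) : pr S x = x := by
  ext g
  rw [coeff_pr]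
  split_ifs with hg
  · rfl
  · by_contra h0
    exact hg (h g (Ne.symm h0))

lemma sup_pr (S : Set G) (x : MonoidAlgebra R G) : Sup S (pr S x) := by
  intro g hg
  rw [coeff_pr] at hg
  by_contra h
  exact hg (if_neg h)

lemma Sup.pr {S S' : Set G} {x : MonoidAlgebra R G} (h : Sup S x) : Sup S (pr S' x) := by
  intro g hg
  rw [coeff_pr] at hg
  apply h g
  intro h0
  exact hg (by simp [h0])

lemma pr_pr (S S' : Set G) (x : MonoidAlgebra R G) : pr S (pr S' x) = pr (S ∩ S') x := by
  ext g
  simp only [coeff_pr, Set.mem_inter_iff]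
  by_cases h1 : g ∈ S <;> by_cases h2 : g ∈ S' <;> simp [h1, h2]

lemma pr_univ (x : MonoidAlgebra R G) : pr Set.univ x = x := by
  ext g; simp [coeff_pr]

lemma pr_congr {S S' U : Set G} {x : MonoidAlgebra R G} (hx : Sup U x)
    (h : ∀ g ∈ U, g ∈ S ↔ g ∈ S') : pr S x = pr S' x := by
  ext g
  simp only [coeff_pr]
  by_cases h0 : x.coeff g = 0
  · simp [h0]
  · by_cases h1 : g ∈ S
    · rw [if_pos h1, if_pos ((h g (hx g h0)).1 h1)]
    · rw [if_neg h1, if_neg fun h2 => h1 ((h g (hx g h0)).2 h2)]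

lemma Sup.pr_eq_zero {S U : Set G} {x : MonoidAlgebra R G} (hx : Sup U x)
    (h : ∀ g ∈ U, g ∉ S) : Pool.Agent.MP_f7db47_al.pr S x = 0 := by
  ext g
  simp only [coeff_pr]
  by_cases h0 : x.coeff g = 0
  · simp [h0]
  · simp [h g (hx g h0)]

lemma pr_add_pr_compl (S : Set G) (x : MonoidAlgebra R G) : pr S x + pr Sᶜ x = x := by
  ext g
  simp only [MonoidAlgebra.coeff_add, Finsupp.add_apply, coeff_pr, Set.mem_compl_iff]
  by_cases h : g ∈ S <;> simp [h]

lemma Sup.mono {S S' : Set G} {x : MonoidAlgebra R G} (hx : Sup S x) (h : S ⊆ S') : Sup S' x :=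
  fun g hg => h (hx g hg)

lemma sup_univ (x : MonoidAlgebra R G) : Sup Set.univ x := fun _ _ => trivial

lemma sup_zero (S : Set G) : Sup S (0 : MonoidAlgebra R G) := fun g hg => absurd (by simp) hg

lemma Sup.eq_zero {S S' : Set G} {x : MonoidAlgebra R G} (h : Sup S x) (h' : Sup S' x)
    (hd : ∀ g ∈ S, g ∉ S') : x = 0 := by
  ext g
  by_contra h0
  exact hd g (h g h0) (h' g h0)

lemma Sup.add {S : Set G} {x y : MonoidAlgebra R G} (hx : Sup S x) (hy : Sup S y) :
    Sup S (x + y) := by
  intro g hg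
  by_contra h
  have h1 : x.coeff g = 0 := by by_contra h1; exact h (hx g h1)
  have h2 : y.coeff g = 0 := by by_contra h2; exact h (hy g h2)
  exact hg (by simp [h1, h2])

lemma Sup.neg {S : Set G} {x : MonoidAlgebra R G} (hx : Sup S x) : Sup S (-x) := by
  intro g hg
  exact hx g (by simpa using hg)

lemma Sup.sub {S : Set G} {x y : MonoidAlgebra R G} (hx : Sup S x) (hy : Sup S y) :
    Sup S (x - y) := by
  rw [sub_eq_add_neg]; exact hx.add hy.neg

lemma sup_sum {S : Set G} {ι : Type*} (s : Finset ι) (f : ι → MonoidAlgebra R G)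
    (h : ∀ i ∈ s, Sup S (f i)) : Sup S (∑ i ∈ s, f i) :=
  Finset.sum_induction f (Sup S) (fun _ _ => Sup.add) (sup_zero S) h

lemma sup_single {S : Set G} {g : G} (hg : g ∈ S) (r : R) :
    Sup S (MonoidAlgebra.single g r) := by
  classical
  intro k hk
  rw [MonoidAlgebra.coeff_single, Finsupp.single_apply] at hk
  by_cases h : g = k
  · exact h ▸ hg
  · exact absurd (if_neg h) hk

lemma sup_one {S : Set G} (hg : (1 : G) ∈ S) : Sup S (1 : MonoidAlgebra R G) :=
  sup_single hg 1

lemma Sup.induction {S : Set G} {P : MonoidAlgebra R G → Prop} {x : MonoidAlgebra R G}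
    (hx : Sup S x) (h0 : P 0) (hadd : ∀ a b, P a → P b → P (a + b))
    (hs : ∀ g ∈ S, ∀ r, P (MonoidAlgebra.single g r)) : P x := by
  rw [← MonoidAlgebra.sum_coeff_single x, Finsupp.sum]
  exact Finset.sum_induction _ P hadd h0
    fun g hg => hs g (hx g (Finsupp.mem_support_iff.1 hg)) _

lemma Sup.mul {S S' U : Set G} {x y : MonoidAlgebra R G} (hx : Sup S x) (hy : Sup S' y)
    (h : ∀ a ∈ S, ∀ b ∈ S', a * b ∈ U) : Sup U (x * y) := by
  refine hx.induction (P := fun x => Sup U (x * y)) (by simpa using sup_zero U)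
    (fun a b ha hb => by simpa [add_mul] using ha.add hb) fun g hg r => ?_
  refine hy.induction (P := fun y => Sup U (MonoidAlgebra.single g r * y))
    (by simpa using sup_zero U)
    (fun a b ha hb => by simpa [mul_add] using ha.add hb) fun k hk s => ?_
  rw [MonoidAlgebra.single_mul_single]
  exact sup_single (h g hg k hk) _

lemma pr_mul_right {S S₁ U : Set G} (x : MonoidAlgebra R G) {y : MonoidAlgebra R G}
    (hy : Sup U y) (h : ∀ g, ∀ k ∈ U, g * k ∈ S ↔ g ∈ S₁) : pr S (x * y) = pr S₁ x * y := by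
  conv_lhs => rw [← pr_add_pr_compl S₁ x, add_mul, map_add]
  rw [((sup_pr S₁ x).mul hy fun a ha b hb => (h a b hb).2 ha).pr_eq,
    ((sup_pr S₁ᶜ x).mul (U := Sᶜ) hy fun a ha b hb hab => ha ((h a b hb).1 hab)).pr_eq_zero
      fun g hg => hg, add_zero]

lemma pr_mul_left {S S₁ U : Set G} {x : MonoidAlgebra R G} (y : MonoidAlgebra R G)
    (hx : Sup U x) (h : ∀ k ∈ U, ∀ g, k * g ∈ S ↔ g ∈ S₁) : pr S (x * y) = x * pr S₁ y := by
  conv_lhs => rw [← pr_add_pr_compl S₁ y, mul_add, map_add]
  rw [(hx.mul (sup_pr S₁ y) fun a ha b hb => (h a ha b).2 hb).pr_eq,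
    (hx.mul (U := Sᶜ) (sup_pr S₁ᶜ y) fun a ha b hb hab => hb ((h a ha b).1 hab)).pr_eq_zero
      fun g hg => hg, add_zero]

section Mat

variable {I J K : Type}

/-- All entries are supported in `S`. -/
def MSup (S : Set G) (A : Matrix I J (MonoidAlgebra R G)) : Prop := ∀ i j, Sup S (A i j)

/-- Entrywise restriction of support. -/
noncomputable def mpr (S : Set G) (A : Matrix I J (MonoidAlgebra R G)) :
    Matrix I J (MonoidAlgebra R G) := A.map (pr S)

lemma msup_mpr (S : Set G) (A : Matrix I J (MonoidAlgebra R G)) : MSup S (mpr S A) :=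
  fun i j => sup_pr S (A i j)

lemma MSup.mpr {S S' : Set G} {A : Matrix I J (MonoidAlgebra R G)} (h : MSup S A) :
    MSup S (mpr S' A) := fun i j => (h i j).pr

lemma MSup.mpr_eq {S : Set G} {A : Matrix I J (MonoidAlgebra R G)} (h : MSup S A) :
    Pool.Agent.MP_f7db47_al.mpr S A = A := by
  ext1 i j; exact (h i j).pr_eq

lemma MSup.mpr_eq_zero {S U : Set G} {A : Matrix I J (MonoidAlgebra R G)} (h : MSup U A)
    (hd : ∀ g ∈ U, g ∉ S) : Pool.Agent.MP_f7db47_al.mpr S A = 0 := by
  ext1 i j; exact (h i j).pr_eq_zero hd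

lemma MSup.eq_zero {S S' : Set G} {A : Matrix I J (MonoidAlgebra R G)} (h : MSup S A)
    (h' : MSup S' A) (hd : ∀ g ∈ S, g ∉ S') : A = 0 := by
  ext1 i j; exact (h i j).eq_zero (h' i j) hd

lemma mpr_add (S : Set G) (A B : Matrix I J (MonoidAlgebra R G)) :
    mpr S (A + B) = mpr S A + mpr S B := by
  ext1 i j; exact map_add (pr S) _ _

lemma mpr_sub (S : Set G) (A B : Matrix I J (MonoidAlgebra R G)) :
    mpr S (A - B) = mpr S A - mpr S B := by
  ext1 i j; exact map_sub (pr S) _ _

lemma mpr_mpr (S S' : Set G) (A : Matrix I J (MonoidAlgebra R G)) :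
    mpr S (mpr S' A) = mpr (S ∩ S') A := by
  ext1 i j; exact pr_pr _ _ _

lemma mpr_add_mpr_compl (S : Set G) (A : Matrix I J (MonoidAlgebra R G)) :
    mpr S A + mpr Sᶜ A = A := by
  ext1 i j; exact pr_add_pr_compl _ _

lemma mpr_congr {S S' U : Set G} {A : Matrix I J (MonoidAlgebra R G)} (hA : MSup U A)
    (h : ∀ g ∈ U, g ∈ S ↔ g ∈ S') : mpr S A = mpr S' A := by
  ext1 i j; exact pr_congr (hA i j) h

lemma MSup.mono {S S' : Set G} {A : Matrix I J (MonoidAlgebra R G)} (hA : MSup S A)
    (h : S ⊆ S') : MSup S' A := fun i j => (hA i j).mono h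

lemma msup_zero (S : Set G) : MSup S (0 : Matrix I J (MonoidAlgebra R G)) :=
  fun _ _ => sup_zero S

lemma msup_univ (A : Matrix I J (MonoidAlgebra R G)) : MSup Set.univ A := fun _ _ => sup_univ _

lemma MSup.add {S : Set G} {A B : Matrix I J (MonoidAlgebra R G)} (hA : MSup S A)
    (hB : MSup S B) : MSup S (A + B) := fun i j => (hA i j).add (hB i j)

lemma MSup.neg {S : Set G} {A : Matrix I J (MonoidAlgebra R G)} (hA : MSup S A) :
    MSup S (-A) := fun i j => (hA i j).neg

lemma MSup.sub {S : Set G} {A B : Matrix I J (MonoidAlgebra R G)} (hA : MSup S A)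
    (hB : MSup S B) : MSup S (A - B) := fun i j => (hA i j).sub (hB i j)

lemma msup_sum {S : Set G} {ι : Type*} (s : Finset ι) (f : ι → Matrix I J (MonoidAlgebra R G))
    (h : ∀ i ∈ s, MSup S (f i)) : MSup S (∑ i ∈ s, f i) :=
  Finset.sum_induction f (MSup S) (fun _ _ => MSup.add) (msup_zero S) h

lemma msup_one [DecidableEq I] {S : Set G} (h : (1 : G) ∈ S) :
    MSup S (1 : Matrix I I (MonoidAlgebra R G)) := by
  intro i j
  by_cases hij : i = j
  · subst hij; rw [Matrix.one_apply_eq]; exact sup_one h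
  · rw [Matrix.one_apply_ne hij]; exact sup_zero S

lemma msup_map_single {S : Set G} {g : G} (hg : g ∈ S) (e : Matrix I J R) :
    MSup S (e.map (MonoidAlgebra.single g)) := fun _ _ => sup_single hg _

lemma MSup.mul [Fintype J] {S S' U : Set G} {A : Matrix I J (MonoidAlgebra R G)}
    {B : Matrix J K (MonoidAlgebra R G)} (hA : MSup S A) (hB : MSup S' B)
    (h : ∀ a ∈ S, ∀ b ∈ S', a * b ∈ U) : MSup U (A * B) := fun i j => by
  rw [Matrix.mul_apply]
  exact sup_sum _ _ fun k _ => (hA i k).mul (hB k j) h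

lemma MSup.fromBlocks {L : Type} {S : Set G} {A : Matrix I K (MonoidAlgebra R G)}
    {B : Matrix I L (MonoidAlgebra R G)} {C : Matrix J K (MonoidAlgebra R G)}
    {D : Matrix J L (MonoidAlgebra R G)} (hA : MSup S A) (hB : MSup S B) (hC : MSup S C)
    (hD : MSup S D) : MSup S (fromBlocks A B C D) := by
  rintro (i | i) (j | j)
  exacts [hA i j, hB i j, hC i j, hD i j]

lemma mpr_mul_right [Fintype J] {S S₁ U : Set G} (A : Matrix I J (MonoidAlgebra R G))
    {B : Matrix J K (MonoidAlgebra R G)} (hB : MSup U B)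
    (h : ∀ g, ∀ k ∈ U, g * k ∈ S ↔ g ∈ S₁) : mpr S (A * B) = mpr S₁ A * B := by
  ext1 i j
  simp only [mpr, Matrix.map_apply, Matrix.mul_apply, map_sum]
  exact Finset.sum_congr rfl fun k _ => pr_mul_right _ (hB k j) h

lemma mpr_mul_left [Fintype J] {S S₁ U : Set G} {A : Matrix I J (MonoidAlgebra R G)}
    (B : Matrix J K (MonoidAlgebra R G)) (hA : MSup U A)
    (h : ∀ k ∈ U, ∀ g, k * g ∈ S ↔ g ∈ S₁) : mpr S (A * B) = A * mpr S₁ B := by
  ext1 i j
  simp only [mpr, Matrix.map_apply, Matrix.mul_apply, map_sum]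
  exact Finset.sum_congr rfl fun k _ => pr_mul_left _ (hA i k) h

/-- The finite set of group elements occurring in a matrix. -/
lemma exists_finset_msup [Fintype I] [Fintype J] (A : Matrix I J (MonoidAlgebra R G)) :
    ∃ s : Finset G, MSup (s : Set G) A ∧ ∀ S : Set G, MSup S A → (s : Set G) ⊆ S := by
  classical
  refine ⟨Finset.univ.biUnion fun p : I × J => (A p.1 p.2).coeff.support, ?_, ?_⟩
  · intro i j g hg
    simp only [Finset.coe_biUnion, Finset.coe_univ, Set.mem_univ, Set.iUnion_true,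
      Set.mem_iUnion, Finset.mem_coe, Finsupp.mem_support_iff]
    exact ⟨(i, j), hg⟩
  · intro S hS g hg
    simp only [Finset.coe_biUnion, Finset.coe_univ, Set.mem_univ, Set.iUnion_true,
      Set.mem_iUnion, Finset.mem_coe, Finsupp.mem_support_iff] at hg
    obtain ⟨p, hp⟩ := hg
    exact hS _ _ g hp

/-- A matrix supported in the range of an injective homomorphism comes from the source. -/
lemma exists_map_of_msup {H : Type*} [Group H] (f : H →* G) (hf : Function.Injective f)
    {A : Matrix I J (MonoidAlgebra R G)} (hA : MSup (Set.range f) A) :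
    ∃ B : Matrix I J (MonoidAlgebra R H), B.map (MonoidAlgebra.mapDomainRingHom R f) = A := by
  refine ⟨fun i j => MonoidAlgebra.comapDomain f hf (A i j), ?_⟩
  ext1 i j
  exact MonoidAlgebra.mapDomain_comapDomain
    (fun g hg => hA i j g (Finsupp.mem_support_iff.1 hg)) hf

lemma mapDomain_inj {H : Type*} [Group H] (f : H →* G) (hf : Function.Injective f) :
    Function.Injective (MonoidAlgebra.mapDomainRingHom R f) := by
  intro x y hxy
  exact MonoidAlgebra.mapDomain_injective hf hxy

lemma sup_mapDomain {H : Type*} [Group H] (f : H →* G) (x : MonoidAlgebra R H) :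
    Sup (Set.range f) (MonoidAlgebra.mapDomainRingHom R f x) := by
  induction x using MonoidAlgebra.induction_linear with
  | zero => rw [map_zero]; exact sup_zero _
  | add a b ha hb => rw [map_add]; exact ha.add hb
  | single g r =>
    rw [MonoidAlgebra.mapDomainRingHom_apply, MonoidAlgebra.mapDomain_single]
    exact sup_single (Set.mem_range_self g) r

/-- If `G1` holds for a subgroup, invertible matrices supported on it are trivial. -/
lemma T_of_msup {H : Type*} [Group H] (f : H →* G) (hf : Function.Injective f)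
    (hH : G1 R H) [Fintype I] [DecidableEq I] {A B : Matrix I I (MonoidAlgebra R G)}
    (hA : MSup (Set.range f) A) (hB : MSup (Set.range f) B) (h1 : A * B = 1) (h2 : B * A = 1) :
    T A := by
  obtain ⟨A', rfl⟩ := exists_map_of_msup f hf hA
  obtain ⟨B', rfl⟩ := exists_map_of_msup f hf hB
  have hinj : Function.Injective fun M : Matrix I I (MonoidAlgebra R H) =>
      M.map (MonoidAlgebra.mapDomainRingHom R f) := Matrix.map_injective (mapDomain_inj f hf)
  apply T_map
  refine hH _ A' B' (hinj ?_) (hinj ?_)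
  · simpa [Matrix.map_mul, Matrix.map_one _ (map_zero _) (map_one _)] using h1
  · simpa [Matrix.map_mul, Matrix.map_one _ (map_zero _) (map_one _)] using h2

end Mat

end Pool.Agent.MP_f7db47_al
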