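import Pool.Agent.Mg.Ff7db47.Ga27a55

namespace Pool.Agent.Results.MP_f7db47_al.ProductOfTrees

open Pool.Agent.MP_f7db47_al

universe v

theorem result (R : Type v) [Ring R] (hR : RegularRing R) (G : Type) [Group G]
    (hG : ClassZ R G) : K1Onto R G :=
  k1Onto_of_G1 (hG.qq hR).g1

end Pool.Agent.Results.MP_f7db47_al.ProductOfTrees
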