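import Pool.Agent.MP_f7db47_al.RegB

/-! Crossed products with the integers: Hilbert basis theorem and the Swan lemma. -/

namespace Pool.Agent.MP_f7db47_al

open Function Matrix

universe v w w'

variable {R : Type v} {L : Type w} {S : Type w'} [Ring R] [Ring L] [Ring S]

/-- `S` is a twisted Laurent polynomial ring over `L`. -/
structure Cross (f : L →+* S) extends RFree f ℤ where
  b_zero : b 0 = 1
  b_add : ∀ i j, b (i + j) = b i * b j
  norm : ∀ k l, ∃ l', f l * b k = b k * f l'

namespace Cross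

variable {f : L →+* S} (F : Cross f)

theorem b_neg (k : ℤ) : F.b k * F.b (-k) = 1 := by rw [← F.b_add, add_neg_cancel, F.b_zero]

theorem b_neg' (k : ℤ) : F.b (-k) * F.b k = 1 := by rw [← F.b_add, neg_add_cancel, F.b_zero]

theorem norm' (k : ℤ) (l : L) : ∃ l', f l' * F.b k = F.b k * f l := by
  obtain ⟨l', h⟩ := F.norm (-k) l
  refine ⟨l', ?_⟩
  calc f l' * F.b k = F.b k * (F.b (-k) * f l') * F.b k := by rw [← mul_assoc, F.b_neg, one_mul]
    _ = _ := by rw [← h, mul_assoc, mul_assoc, F.b_neg', mul_one]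

theorem c_b_mul (r : ℤ) (s : S) (k : ℤ) : F.c (F.b r * s) k = F.c s (k - r) := by
  induction s using F.ind with
  | h0 => simp
  | hadd a b ha hb => simp [mul_add, ha, hb]
  | hb i m =>
    rw [← mul_assoc, ← F.b_add, F.c_single, F.c_single, Finsupp.single_apply, Finsupp.single_apply]
    congr 1
    exact propext ⟨fun h => by omega, fun h => by omega⟩

theorem c_f_mul {l l' : L} {k : ℤ} (h : f l' * F.b k = F.b k * f l) (s : S) :
    F.c (f l' * s) k = l * F.c s k := by
  induction s using F.ind with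
  | h0 => simp
  | hadd a b ha hb => simp [mul_add, ha, hb]
  | hb i m =>
    by_cases hi : i = k
    · subst hi
      rw [← mul_assoc, h, mul_assoc, ← map_mul, F.c_single, F.c_single]; simp
    · obtain ⟨l'', e⟩ := F.norm i l'
      rw [← mul_assoc, e, mul_assoc, ← map_mul, F.c_single, F.c_single]; simp [hi]

theorem c_mul_b (r : ℤ) (s : S) (k : ℤ) :
    F.b k * f (F.c (s * F.b r) k) = F.b (k - r) * f (F.c s (k - r)) * F.b r := by
  induction s using F.ind with
  | h0 => simp
  | hadd a b ha hb => simp [mul_add, add_mul, ha, hb]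
  | hb i m =>
    obtain ⟨m', e⟩ := F.norm r m
    rw [mul_assoc, e, ← mul_assoc, ← F.b_add, F.c_single, F.c_single]
    by_cases hi : i = k - r
    · subst hi
      simp [mul_assoc, e]
      rw [← mul_assoc, ← F.b_add, sub_add_cancel]
    · have : i + r ≠ k := by omega
      simp [hi, this]

theorem bound (s : S) : ∃ N : ℕ, ∀ k : ℤ, (k < -N ∨ N ≤ k) → F.c s k = 0 := by
  refine ⟨(F.c s).support.sup Int.natAbs + 1, fun k hk => ?_⟩
  by_contra h
  have := Finset.le_sup (f := Int.natAbs) (Finsupp.mem_support_iff.2 h)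
  omega

theorem vbound {J : Type} [Fintype J] (v : J → S) :
    ∃ N : ℕ, ∀ k : ℤ, (k < -N ∨ N ≤ k) → F.cv k v = 0 := by
  choose N hN using fun j => F.bound (v j)
  refine ⟨Finset.univ.sup N, fun k hk => funext fun j => hN j k ?_⟩
  have := Finset.le_sup (f := N) (Finset.mem_univ j)
  omega

variable {J : Type}

/-- Evaluation of a window of coefficients. -/
def ev (n : ℕ) : (Fin n × J → S) →ₗ[S] (J → S) where
  toFun v j := ∑ k : Fin n, v (k, j) * F.b k
  map_add' u v := by funext j; simp [add_mul, Finset.sum_add_distrib]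
  map_smul' s v := by funext j; simp [Finset.mul_sum, mul_assoc]

/-- The part of `A` in a window of degrees. -/
def win (A : Submodule S (J → S)) (n : ℕ) : Submodule L (Fin n × J → L) where
  carrier := {w | F.ev n (f ∘ w) ∈ A}
  zero_mem' := by
    show F.ev n (f ∘ (0 : Fin n × J → L)) ∈ A
    convert A.zero_mem; funext j; simp [ev]
  add_mem' := fun {a b} ha hb => by
    show F.ev n (f ∘ (a + b)) ∈ A
    convert A.add_mem ha hb; funext j; simp [ev, add_mul, Finset.sum_add_distrib]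
  smul_mem' := fun l a ha => by
    show F.ev n (f ∘ (l • a)) ∈ A
    convert A.smul_mem (f l) ha; funext j; simp [ev, Finset.mul_sum, mul_assoc]

/-- The first map in the characteristic sequence. -/
def dl (n : ℕ) : (Fin n × J → S) →ₗ[S] (Fin (n + 1) × J → S) where
  toFun v p := Fin.snoc (α := fun _ => S) (fun i => v (i, p.2)) 0 p.1 -
    Fin.cons (α := fun _ => S) 0 (fun i => v (i, p.2) * F.b (-1)) p.1
  map_add' u v := by
    funext ⟨k, j⟩
    have h1 : Fin.snoc (α := fun _ => S) (fun i => (u + v) (i, j)) 0 k =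
        Fin.snoc (α := fun _ => S) (fun i => u (i, j)) 0 k +
          Fin.snoc (α := fun _ => S) (fun i => v (i, j)) 0 k := by
      refine Fin.lastCases ?_ (fun i => ?_) k <;> simp
    have h2 : Fin.cons (α := fun _ => S) 0 (fun i => (u + v) (i, j) * F.b (-1)) k =
        Fin.cons (α := fun _ => S) 0 (fun i => u (i, j) * F.b (-1)) k +
          Fin.cons (α := fun _ => S) 0 (fun i => v (i, j) * F.b (-1)) k := by
      refine Fin.cases ?_ (fun i => ?_) k <;> simp [add_mul]
    simp only [Pi.add_apply] at h1 h2 ⊢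
    rw [h1, h2]; abel
  map_smul' s v := by
    funext ⟨k, j⟩
    have h1 : Fin.snoc (α := fun _ => S) (fun i => (s • v) (i, j)) 0 k =
        s * Fin.snoc (α := fun _ => S) (fun i => v (i, j)) 0 k := by
      refine Fin.lastCases ?_ (fun i => ?_) k <;> simp
    have h2 : Fin.cons (α := fun _ => S) 0 (fun i => (s • v) (i, j) * F.b (-1)) k =
        s * Fin.cons (α := fun _ => S) 0 (fun i => v (i, j) * F.b (-1)) k := by
      refine Fin.cases ?_ (fun i => ?_) k <;> simp [mul_assoc]
    simp only [Pi.smul_apply, smul_eq_mul, RingHom.id_apply] at h1 h2 ⊢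
    rw [h1, h2, mul_sub]

theorem dl_apply (n : ℕ) (v : Fin n × J → S) (k : Fin (n + 1)) (j : J) :
    F.dl n v (k, j) = Fin.snoc (α := fun _ => S) (fun i => v (i, j)) 0 k -
      Fin.cons (α := fun _ => S) 0 (fun i => v (i, j) * F.b (-1)) k := rfl

theorem ev_dl (n : ℕ) (v : Fin n × J → S) : F.ev (n + 1) (F.dl n v) = 0 := by
  funext j
  show ∑ k : Fin (n + 1), F.dl n v (k, j) * F.b k = 0
  simp only [dl_apply, sub_mul, Finset.sum_sub_distrib]
  rw [Fin.sum_univ_castSucc, Fin.sum_univ_succ (n := n)]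
  simp [mul_assoc, ← F.b_add]

theorem dl_inj (n : ℕ) : Injective (F.dl (J := J) n) := by
  rw [injective_iff_map_eq_zero]
  intro v hv
  have : ∀ j (k : ℕ) (h : k < n), v (⟨k, h⟩, j) = 0 := by
    intro j k
    induction k with
    | zero =>
      intro h
      have := congrFun hv (Fin.castSucc ⟨0, h⟩, j)
      rw [dl_apply, Fin.snoc_castSucc] at this
      simpa using this
    | succ k ih =>
      intro h
      have := congrFun hv (Fin.castSucc ⟨k + 1, h⟩, j)
      rw [dl_apply, Fin.snoc_castSucc,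
        show Fin.castSucc (⟨k + 1, h⟩ : Fin n) = Fin.succ ⟨k, by omega⟩ from rfl,
        Fin.cons_succ, ih] at this
      simpa using this
  funext ⟨k, j⟩
  exact this j k.1 k.2

theorem ker_ev (n : ℕ) (u : Fin (n + 1) × J → S) (hu : F.ev (n + 1) u = 0) :
    ∃ w, F.dl n w = u := by
  let U : J → ℕ → S := fun j i => if h : i < n + 1 then u (⟨i, h⟩, j) * F.b i else 0
  let W : J → ℕ → S := fun j k => ∑ i ∈ Finset.range k, U j i
  have hW : ∀ j, W j (n + 1) = 0 := fun j => by
    refine Eq.trans ?_ (congrFun hu j)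
    show _ = ∑ k : Fin (n + 1), u (k, j) * F.b k
    simp only [W]
    rw [← Fin.sum_univ_eq_sum_range]
    exact Finset.sum_congr rfl fun k _ => by simp only [U, k.2, dif_pos]
  refine ⟨fun p => W p.2 (p.1 + 1) * F.b (-(p.1 : ℕ)), funext fun ⟨k, j⟩ => ?_⟩
  have h1 : Fin.snoc (α := fun _ => S) (fun i : Fin n => W j (i + 1) * F.b (-(i : ℕ))) 0 k =
      W j (k + 1) * F.b (-(k : ℕ)) := by
    refine Fin.lastCases ?_ (fun i => ?_) k <;> simp [hW]
  have h2 : Fin.cons (α := fun _ => S) 0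
      (fun i : Fin n => W j (i + 1) * F.b (-(i : ℕ)) * F.b (-1)) k = W j k * F.b (-(k : ℕ)) := by
    refine Fin.cases ?_ (fun i => ?_) k
    · simp [W]
    · simp [mul_assoc, ← F.b_add, add_comm]
  rw [dl_apply, h1, h2, ← sub_mul]
  simp only [W, Finset.sum_range_succ, add_sub_cancel_left, U, k.2, dif_pos]
  rw [mul_assoc, F.b_neg, mul_one]

theorem ev_cv_dl (n : ℕ) (v : Fin n × J → S) (i : ℤ) :
    F.ev (n + 1) (f ∘ F.cv i (F.dl n v)) =
      F.ev n (f ∘ F.cv i v) - F.b 1 • F.ev n (f ∘ F.cv (i + 1) v) := by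
  funext j
  show ∑ k : Fin (n + 1), f (F.c (F.dl n v (k, j)) i) * F.b k =
    ∑ k : Fin n, f (F.c (v (k, j)) i) * F.b k -
      F.b 1 * ∑ k : Fin n, f (F.c (v (k, j)) (i + 1)) * F.b k
  simp only [dl_apply, map_sub, Finsupp.sub_apply, sub_mul, Finset.sum_sub_distrib]
  rw [Fin.sum_univ_castSucc, Fin.sum_univ_succ (n := n), Finset.mul_sum]
  simp only [Fin.snoc_castSucc, Fin.snoc_last, Fin.cons_zero, Fin.cons_succ, map_zero,
    Finsupp.zero_apply, zero_mul, add_zero, zero_add, Fin.val_castSucc, Fin.val_succ]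
  congr 1
  refine Finset.sum_congr rfl fun k _ => ?_
  have h := F.c_mul_b (-1) (v (k, j)) i
  rw [sub_neg_eq_add] at h
  calc _ = F.b (-i) * (F.b i * f (F.c (v (k, j) * F.b (-1)) i)) * F.b ((k + 1 : ℕ) : ℤ) := by
        rw [← mul_assoc, F.b_neg', one_mul]
    _ = _ := by
        rw [h, ← mul_assoc, ← mul_assoc, ← F.b_add, mul_assoc, ← F.b_add, mul_assoc]
        congr 2
        · ring
        · push_cast; congr 1; ring

theorem hilbert [Fintype J] [IsNoetherian L (J → L)] (A : Submodule S (J → S)) :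
    ∃ n, A ≤ (extS f (F.win A (n + 1))).map (F.ev (n + 1)) := by
  let Win : ℕ → (J → S) → Prop := fun n a => ∀ k : ℤ, (k < 0 ∨ n ≤ k) → F.cv k a = 0
  have hb : ∀ (r k : ℤ) (a : J → S), F.cv k (F.b r • a) = F.cv (k - r) a :=
    fun r k a => funext fun j => F.c_b_mul r (a j) k
  have hadd : ∀ (k : ℤ) (a b : J → S), F.cv k (a + b) = F.cv k a + F.cv k b :=
    fun k a b => funext fun j => by simp [RFree.cv]
  have hsub : ∀ (k : ℤ) (a b : J → S), F.cv k (a - b) = F.cv k a - F.cv k b :=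
    fun k a b => funext fun j => by simp [RFree.cv]
  let lead : ℕ → Submodule L (J → L) := fun n =>
    { carrier := {v | ∃ a ∈ A, Win (n + 1) a ∧ F.cv n a = v}
      zero_mem' := ⟨0, A.zero_mem, fun k _ => F.cv_eq_zero.1 rfl k, F.cv_eq_zero.1 rfl _⟩
      add_mem' := by
        rintro _ _ ⟨a, ha, h1, rfl⟩ ⟨b, hb, h2, rfl⟩
        exact ⟨a + b, A.add_mem ha hb, fun k hk => by rw [hadd, h1 k hk, h2 k hk, add_zero],
          hadd _ _ _⟩
      smul_mem' := by
        rintro l _ ⟨a, ha, h1, rfl⟩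
        obtain ⟨l', hl⟩ := F.norm' n l
        refine ⟨f l' • a, A.smul_mem _ ha, fun k hk => funext fun j => ?_,
          funext fun j => F.c_f_mul hl _⟩
        obtain ⟨m, hm⟩ := F.norm k l'
        have : F.c (a j) k = 0 := congrFun (h1 k hk) j
        show F.c (f l' * a j) k = 0
        rw [F.c_f_mul hm, this, mul_zero] }
  have hmono : Monotone lead := monotone_nat_of_le_succ fun n => by
    rintro _ ⟨a, ha, h1, rfl⟩
    refine ⟨F.b 1 • a, A.smul_mem _ ha, fun k hk => ?_, ?_⟩
    · rw [hb]; exact h1 _ (by push_cast at hk ⊢; omega)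
    · rw [hb]; congr 1; push_cast; ring
  obtain ⟨N, hN⟩ := monotone_stabilizes_iff_noetherian.2 ‹_› ⟨lead, hmono⟩
  refine ⟨N, ?_⟩
  set B := (extS f (F.win A (N + 1))).map (F.ev (N + 1))
  have h0 : ∀ a ∈ A, Win (N + 1) a → a ∈ B := by
    intro a ha hw
    choose w hw' using fun p : Fin (N + 1) × J => F.norm' p.1 (F.c (a p.2) p.1)
    have e : F.ev (N + 1) (f ∘ w) = a := by
      funext j
      show ∑ k : Fin (N + 1), f (w (k, j)) * F.b k = a j
      simp only [hw']
      conv_rhs => rw [← F.sum_c (a j)]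
      rw [Finsupp.sum_of_support_subset _
        (s := Finset.univ.image fun k : Fin (N + 1) => ((k : ℕ) : ℤ)) (fun k hk => ?_) _ (by simp),
        Finset.sum_image fun x _ y _ h => Fin.ext (by exact_mod_cast h)]
      have hk' : ¬ (k < 0 ∨ ((N + 1 : ℕ) : ℤ) ≤ k) := fun h =>
        Finsupp.mem_support_iff.1 hk (congrFun (hw k h) j)
      exact Finset.mem_image.2 ⟨⟨k.toNat, by omega⟩, Finset.mem_univ _, by simp; omega⟩
    exact ⟨f ∘ w, Submodule.subset_span ⟨w, by show F.ev _ _ ∈ A; rwa [e], rfl⟩, e⟩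
  have h1 : ∀ m, ∀ a ∈ A, Win m a → a ∈ B := by
    intro m
    induction m with
    | zero => exact fun a ha hw => h0 a ha fun k hk => hw k (by omega)
    | succ m ih =>
      intro a ha hw
      by_cases hm : m ≤ N
      · exact h0 a ha fun k hk => hw k (by push_cast at hk ⊢; omega)
      have : F.cv m a ∈ lead N := by
        have := hN m (by omega)
        simp only [OrderHom.coe_mk] at this
        rw [this]; exact ⟨a, ha, hw, rfl⟩
      obtain ⟨b, hb', h2, e⟩ := this
      have h3 := ih (a - F.b (m - N) • b) (A.sub_mem ha (A.smul_mem _ hb')) fun k hk => by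
        rw [hsub, hb]
        by_cases hkm : k = m
        · rw [hkm, sub_sub_cancel, e, sub_self]
        · rw [hw k (by push_cast; omega), h2 _ (by push_cast; omega), sub_zero]
      simpa using B.add_mem h3 (B.smul_mem (F.b (m - N)) (h0 b hb' h2))
  intro a ha
  obtain ⟨r, hr⟩ := F.vbound a
  have := B.smul_mem (F.b (-r)) (h1 (2 * r) (F.b r • a) (A.smul_mem _ ha) fun k hk => by
    rw [hb]; exact hr _ (by push_cast at hk; omega))
  rwa [smul_smul, F.b_neg', one_smul] at this

include F in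
theorem reg {ρ : R →+* L} (h : Reg ρ) {ρ' : R →+* S} (hρ : ∀ r, ρ' r = f (ρ r)) : Reg ρ' := by
  intro J _ A
  have := h.noeth J
  obtain ⟨n, hn⟩ := F.hilbert A
  obtain ⟨k₁, h₁⟩ := h _ (F.win A n)
  obtain ⟨k₂, h₂⟩ := h _ (F.win A (n + 1))
  have hev : ∀ m, ∀ u ∈ extS f (F.win A m), F.ev m u ∈ A := fun m =>
    (Submodule.span_le (p := A.comap (F.ev m))).2 (by rintro _ ⟨w, hw, rfl⟩; exact hw)
  have hdl : ∀ v ∈ extS f (F.win A n), F.dl n v ∈ extS f (F.win A (n + 1)) := fun v hv =>
    F.mem_extS.2 fun i => by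
      show F.ev _ _ ∈ A
      rw [F.ev_cv_dl]
      exact A.sub_mem (F.mem_extS.1 hv i) (A.smul_mem _ (F.mem_extS.1 hv (i + 1)))
  refine ⟨max k₁ k₂ + 1, FR.coker (a := (F.dl n).restrict hdl)
    (b := (F.ev (n + 1)).restrict (hev _)) (fun x y e => Subtype.ext (F.dl_inj n congr(($e).1)))
    (fun u => ⟨fun hu => ?_, ?_⟩) (fun a => ?_) ((F.fr_extS hρ h₁).mono (le_max_left _ _))
    ((F.fr_extS hρ h₂).mono (by omega))⟩
  · obtain ⟨w, hw⟩ := F.ker_ev n u.1 (congrArg Subtype.val hu)
    refine ⟨⟨w, F.mem_extS.2 fun i => ?_⟩, Subtype.ext hw⟩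
    obtain ⟨N, hN⟩ := F.vbound w
    have : ∀ d : ℕ, F.ev n (f ∘ F.cv (N - d) w) ∈ A := by
      intro d
      induction d with
      | zero => rw [hN _ (by omega)]; exact (F.win A n).zero_mem
      | succ d ih =>
        have h1 : F.ev _ _ ∈ A := F.mem_extS.1 u.2 (N - (d + 1 : ℕ))
        rw [← hw, F.ev_cv_dl, show (N : ℤ) - (d + 1 : ℕ) + 1 = N - d by push_cast; ring] at h1
        simpa using A.add_mem h1 (A.smul_mem (F.b 1) ih)
    by_cases hi : (N : ℤ) ≤ i
    · rw [hN _ (Or.inr hi)]; exact zero_mem _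
    · have := this (N - i).toNat
      rwa [show (N : ℤ) - ((N - i).toNat : ℕ) = i by omega] at this
  · rintro ⟨v, rfl⟩
    exact Subtype.ext (F.ev_dl n v.1)
  · obtain ⟨u, hu, e⟩ := hn a.2
    exact ⟨⟨u, hu⟩, Subtype.ext e⟩

end Cross

end Pool.Agent.MP_f7db47_al
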