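import Pool.Agent.MP_f7db47_al.GrMain

namespace Pool.Agent.MP_f7db47_al.RelativeAssembly

open Pool.Agent.MP_f7db47_al

universe u w

theorem result (G : Type u) [Group G] (Λ : Type w) [Ring Λ] (𝒜 : G → AddSubgroup Λ)
    (h𝒜 : Crossed 𝒜) (V : Type u) [MulAction G V] (X : SimpleGraph V) (hX : TreeAction G X)
    (F Z : Set (Subgroup G)) (hT : TameTree G X F Z)
    (hZ : ∀ K ∈ Z, RegularCoherent (SubCross 𝒜 K)) : CrossOnto 𝒜 X F :=
  Gr.crossOnto_of_tame h𝒜 hX hT hZ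

end Pool.Agent.MP_f7db47_al.RelativeAssembly
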