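import Pool.Agent.MP_f7db47_al.TBSplit

/-!
Making the idempotent of a split matrix constant.
-/

set_option linter.unusedSectionVars false

namespace Pool.Agent.MP_f7db47_al

open Matrix

universe u v w

variable {R : Type v} [Ring R] {G : Type u} [Group G]

lemma exists_XY (N : Subgroup G) (h0 : G0 R N) {J : Type} [Fintype J] [DecidableEq J]
    {η : Matrix J J (MonoidAlgebra R G)} (hη : MSup (N : Set G) η) (hηη : η * η = η) :
    ∃ (ι : Type) (_ : Fintype ι) (_ : DecidableEq ι) (κ : Type) (_ : Fintype κ)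
      (_ : DecidableEq κ) (e : Matrix κ κ R) (X : Matrix (J ⊕ ι) κ (MonoidAlgebra R G))
      (Y : Matrix κ (J ⊕ ι) (MonoidAlgebra R G)), MSup (N : Set G) X ∧ MSup (N : Set G) Y ∧
      e * e = e ∧ X * Y = fromBlocks η 0 0 1 ∧ Y * X = e.map (MonoidAlgebra.single 1) := by
  have hr : Set.range N.subtype = (N : Set G) := by simp
  obtain ⟨ε', rfl⟩ := exists_map_of_msup N.subtype N.subtype_injective (hr ▸ hη)
  have hinj : Function.Injective fun M : Matrix J J (MonoidAlgebra R N) =>
      M.map (MonoidAlgebra.mapDomainRingHom R N.subtype) :=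
    Matrix.map_injective (mapDomain_inj _ N.subtype_injective)
  obtain ⟨ι, _, _, κ, _, _, e, X', Y', he, hXY, hYX⟩ :=
    h0 J ε' (hinj (by simpa [Matrix.map_mul] using hηη))
  refine ⟨ι, inferInstance, inferInstance, κ, inferInstance, inferInstance, e,
    X'.map (MonoidAlgebra.mapDomainRingHom R N.subtype),
    Y'.map (MonoidAlgebra.mapDomainRingHom R N.subtype), fun i j => hr ▸ sup_mapDomain _ _,
    fun i j => hr ▸ sup_mapDomain _ _, he, ?_, ?_⟩
  · rw [← Matrix.map_mul, hXY, fromBlocks_map, Matrix.map_zero _ (map_zero _),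
      Matrix.map_zero _ (map_zero _), Matrix.map_one _ (map_zero _) (map_one _)]
  · rw [← Matrix.map_mul, hYX]
    ext1 i j; simp

namespace TB

variable {V : Type w} [MulAction G V] {D : TB G V}

theorem splitT_std (h1 : ∀ y : V, G1 R (MulAction.stabilizer G y)) (h0 : ∀ τ, G0 R (D.C τ)) :
    D.SplitT (stdTS R G) := by
  classical
  have main : ∀ s : Finset D.E, ∀ (J : Type) [Fintype J] [DecidableEq J] (e : J → D.E) (z : J → V)
      (Θ₀ Θ₁ ε : Matrix J J (MonoidAlgebra R G)),
      MSup2 (fun i j => {x | x • z j = D.ep (e i) false}) Θ₀ →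
      MSup2 (fun i j => {x | x • z j = D.ep (e i) true}) Θ₁ → MSup2 (D.Same e) ε → ε * ε = ε →
      (∀ i j, e i ∉ s → Sup {1} (ε i j)) →
      IsUnit (ε * Θ₀ + (1 - ε) * Θ₁) → T (ε * Θ₀ + (1 - ε) * Θ₁) := by
    intro s
    induction s using Finset.induction_on with
    | empty =>
      intro J _ _ e z Θ₀ Θ₁ ε h₀ h₁ hε hεε hc hu
      obtain ⟨ε₀, rfl⟩ : ∃ ε₀ : Matrix J J R, ε₀.map (MonoidAlgebra.single 1) = ε := by
        refine ⟨fun i j => (ε i j).coeff 1, ?_⟩
        ext i j g
        rw [map_apply, MonoidAlgebra.coeff_single, Finsupp.single_apply]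
        split_ifs with h
        · rw [h]
        · by_contra h'
          exact h (hc i j (by simp) g (Ne.symm h')).symm
      have hb : ∀ i j, e i ≠ e j → ε₀ i j = 0 := fun i j h => by
        by_contra h'
        exact h (hε i j 1 (by simpa using h')).1.symm
      refine split_const h1 _ _ z ?_ (fun i j h => hb i j fun e => h (by rw [e]))
        (fun i j h => hb i j fun e => h (by rw [e])) h₀ h₁ hu
      rw [map_single_mul, mul_one] at hεε
      ext i j
      simpa using congrArg (fun M => (M i j).coeff 1) hεε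
    | insert τ s hτ ih =>
      intro J _ _ e z Θ₀ Θ₁ ε h₀ h₁ hε hεε hc hu
      have hcomm : proj _ e τ * ε = ε * proj _ e τ :=
        proj_comm e (fun i j h => (hε i j).eq_zero (sup_univ _) fun g hg => absurd hg.1.symm h) τ
      set η := proj (MonoidAlgebra R G) e τ * ε with hη
      have hηε : η * ε = η := by rw [hη, mul_assoc, hεε]
      have hεη : ε * η = η := by rw [hcomm, ← mul_assoc, hεε]
      have hηη : η * η = η := by
        conv_lhs => rw [hη, mul_assoc, ← hη, hεη, hη, ← mul_assoc, proj_mul_self]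
      have hηs : MSup2 (fun i j => {x | e i = τ ∧ e j = τ ∧ x ∈ D.C τ}) η := by
        intro i j
        rw [hη, proj_mul_apply]
        split_ifs with h
        · exact (hε i j).mono fun x hx => ⟨h, hx.1.trans h, h ▸ hx.2⟩
        · exact sup_zero _
      obtain ⟨ι, _, _, κ, _, _, e₀, X, Y, hX, hY, he₀, hXY, hYX⟩ :=
        exists_XY (D.C τ) (h0 τ) (η := η) (fun i j => (hηs i j).mono fun x hx => hx.2.2) hηη
      set ε1 : Matrix (J ⊕ ι) (J ⊕ ι) (MonoidAlgebra R G) := fromBlocks η 0 0 1 with hε1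
      set e1 : Matrix κ κ (MonoidAlgebra R G) := e₀.map (MonoidAlgebra.single 1) with he1
      have hε11 : ε1 * ε1 = ε1 := by simp [hε1, fromBlocks_multiply, hηη]
      have he11 : e1 * e1 = e1 := by rw [he1, map_single_mul, he₀, mul_one]
      have hXe : ε1 * X * e1 = ε1 * X := by
        rw [← hYX, ← Matrix.mul_assoc, Matrix.mul_assoc ε1, hXY, hε11]
      have heY : e1 * (Y * ε1) = Y * ε1 := by
        rw [← hYX, Matrix.mul_assoc, ← Matrix.mul_assoc X, hXY, hε11]
      have hXY' : ε1 * X * (Y * ε1) = ε1 := by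
        rw [Matrix.mul_assoc, ← Matrix.mul_assoc X, hXY, hε11, hε11]
      have hYX' : Y * ε1 * (ε1 * X) = e1 := by
        rw [Matrix.mul_assoc, ← Matrix.mul_assoc ε1, hε11, ← hXY, Matrix.mul_assoc,
          ← Matrix.mul_assoc, hYX, he11]
      set W : Matrix ((J ⊕ ι) ⊕ κ) ((J ⊕ ι) ⊕ κ) (MonoidAlgebra R G) :=
        fromBlocks (1 - ε1) (ε1 * X) (Y * ε1) (1 - e1) with hW
      have a1 : (1 - ε1) * (ε1 * X) = 0 := by
        rw [← Matrix.mul_assoc, sub_mul, one_mul, hε11, sub_self, Matrix.zero_mul]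
      have a2 : Y * ε1 * (1 - ε1) = 0 := by
        rw [Matrix.mul_assoc, mul_sub, mul_one, hε11, sub_self, Matrix.mul_zero]
      have hWW : W * W = 1 := by
        rw [hW, fromBlocks_multiply, ← fromBlocks_one (l := J ⊕ ι) (m := κ), fromBlocks_inj]
        refine ⟨?_, ?_, ?_, ?_⟩
        · rw [hXY', mul_sub, mul_one, sub_mul, one_mul, hε11]; abel
        · rw [a1, Matrix.mul_sub, Matrix.mul_one, hXe]; abel
        · rw [a2, Matrix.sub_mul, Matrix.one_mul, heY]; abel
        · rw [hYX', mul_sub, mul_one, sub_mul, one_mul, he11]; abel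
      let e' : J ⊕ ι → D.E := Sum.elim e fun _ => τ
      let e'' : (J ⊕ ι) ⊕ κ → D.E := Sum.elim e' fun _ => τ
      let z'' : (J ⊕ ι) ⊕ κ → V := Sum.elim (Sum.elim z fun _ => D.ep τ false) fun _ => D.ep τ true
      have hε1s : MSup2 (fun i j => {x | e' i = τ ∧ e' j = τ ∧ x ∈ D.C τ}) ε1 := by
        rintro (i | i) (j | j)
        · exact hηs i j
        · exact sup_zero _
        · exact sup_zero _
        · exact msup_one (S := {x | τ = τ ∧ τ = τ ∧ x ∈ D.C τ}) ⟨rfl, rfl, (D.C τ).one_mem⟩ i j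
      have hWs : MSup2 (fun i j => {x | x ∈ D.Same e'' i j ∧ x ∈ D.C τ}) W := by
        rintro (i | i) (j | j)
        · refine Sup.sub (msup2_one (S := fun i j => {x | x ∈ D.Same e' i j ∧ x ∈ D.C τ})
            (fun _ => ⟨⟨rfl, Subgroup.one_mem _⟩, Subgroup.one_mem _⟩) i j) ((hε1s i j).mono ?_)
          rintro x ⟨h1, h2, h3⟩
          exact ⟨⟨h2.trans h1.symm, by change x ∈ D.C (e' i); rwa [h1]⟩, h3⟩
        · refine (hε1s.mul (S' := fun _ _ => (D.C τ : Set G))
            (U := fun i _ => {x | e' i = τ ∧ x ∈ D.C τ}) hX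
            (fun _ _ _ a ha b hb => ⟨ha.1, (D.C τ).mul_mem ha.2.2 hb⟩) i j).mono ?_
          rintro x ⟨h1, h3⟩
          exact ⟨⟨h1.symm, by change x ∈ D.C (e' i); rwa [h1]⟩, h3⟩
        · refine (MSup2.mul (S := fun _ _ => (D.C τ : Set G))
            (U := fun _ j => {x | e' j = τ ∧ x ∈ D.C τ})
            hY hε1s (fun _ _ _ a ha b hb => ⟨hb.2.1, (D.C τ).mul_mem ha hb.2.2⟩) i j).mono ?_
          rintro x ⟨h1, h3⟩
          exact ⟨⟨h1, h3⟩, h3⟩
        · exact (((msup_one (D.C τ).one_mem).sub (msup_map_single (D.C τ).one_mem e₀)) i j).mono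
            fun x hx => ⟨⟨rfl, hx⟩, hx⟩
      have hWs' : MSup2 (D.Same e'') W := hWs.mono fun _ _ _ h => h.1
      have hWT : T W := T_of_isUnit_msup _ (h1 (D.ep τ false))
        (fun i j => (hWs i j).mono fun x hx => hx.2 false) ⟨⟨W, W, hWW, hWW⟩, rfl⟩
      set Θ₀' : Matrix ((J ⊕ ι) ⊕ κ) ((J ⊕ ι) ⊕ κ) (MonoidAlgebra R G) :=
        fromBlocks (fromBlocks Θ₀ 0 0 1) 0 0 0 with hΘ₀'
      set Θ₁' : Matrix ((J ⊕ ι) ⊕ κ) ((J ⊕ ι) ⊕ κ) (MonoidAlgebra R G) :=
        fromBlocks (fromBlocks Θ₁ 0 0 0) 0 0 1 with hΘ₁'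
      set ε' : Matrix ((J ⊕ ι) ⊕ κ) ((J ⊕ ι) ⊕ κ) (MonoidAlgebra R G) :=
        fromBlocks (fromBlocks ε 0 0 1) 0 0 0 with hε'
      have hV : ε' * Θ₀' + (1 - ε') * Θ₁' =
          fromBlocks (fromBlocks (ε * Θ₀ + (1 - ε) * Θ₁) 0 0 1) 0 0 1 := by
        rw [sub_mul, one_mul, sub_eq_add_neg, sub_mul, one_mul, sub_eq_add_neg]
        simp [hΘ₀', hΘ₁', hε', fromBlocks_multiply, fromBlocks_add, fromBlocks_neg]
      have hε'' : W * ε' * W = fromBlocks (fromBlocks (ε - η) 0 0 0) 0 0 e1 := by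
        set δ : Matrix (J ⊕ ι) (J ⊕ ι) (MonoidAlgebra R G) := fromBlocks (ε - η) 0 0 0 with hδ
        have b0 : (fromBlocks ε 0 0 1 : Matrix (J ⊕ ι) (J ⊕ ι) _) = ε1 + δ := by
          simp [hε1, hδ, fromBlocks_add]
        have b1 : ε1 * δ = 0 := by simp [hε1, hδ, fromBlocks_multiply, mul_sub, hηε, hηη]
        have b2 : δ * ε1 = 0 := by simp [hε1, hδ, fromBlocks_multiply, sub_mul, hεη, hηη]
        have b3 : (1 - ε1) * (ε1 + δ) = δ := by
          rw [sub_mul, one_mul, mul_add, hε11, b1]; abel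
        have b4 : Y * ε1 * (ε1 + δ) = Y * ε1 := by
          rw [Matrix.mul_assoc, mul_add, hε11, b1, add_zero]
        rw [hW, hε', b0]
        simp only [fromBlocks_multiply, Matrix.mul_zero, Matrix.zero_mul, add_zero, b3, b4, a2,
          hYX', mul_sub, mul_one, b2, sub_zero, ← Matrix.mul_assoc δ]
      have e2 : W * ε' * W * (W * Θ₀') + (1 - W * ε' * W) * (W * Θ₁') =
          W * (ε' * Θ₀' + (1 - ε') * Θ₁') := by
        have : W * ε' * W * (W * Θ₀') + (1 - W * ε' * W) * (W * Θ₁') =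
            W * ε' * (W * W) * (Θ₀' - Θ₁') + W * Θ₁' := by noncomm_ring
        rw [this, hWW]; noncomm_ring
      have hl : ∀ (b : Bool) (Θ : Matrix ((J ⊕ ι) ⊕ κ) ((J ⊕ ι) ⊕ κ) (MonoidAlgebra R G)),
          MSup2 (fun i j => {x | x • z'' j = D.ep (e'' i) b}) Θ →
          MSup2 (fun i j => {x | x • z'' j = D.ep (e'' i) b}) (W * Θ) := by
        intro b Θ hΘ
        refine hWs'.mul hΘ ?_
        rintro i j k x ⟨h2, h3⟩ y hy
        simp only [Set.mem_ofPred_eq] at hy ⊢
        rw [mul_smul, hy, h2, h3]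
      have hε's : MSup2 (D.Same e'') ε' := by
        rintro ((i | i) | i) ((j | j) | j)
        · exact hε i j
        · exact sup_zero _
        · exact sup_zero _
        · exact sup_zero _
        · exact msup_one (S := {x | τ = τ ∧ x ∈ D.C τ}) ⟨rfl, (D.C τ).one_mem⟩ i j
        all_goals exact sup_zero _
      have := ih _ e'' z'' (W * Θ₀') (W * Θ₁') (W * ε' * W) (hl _ _ ?_) (hl _ _ ?_)
        (same_mul (same_mul hWs' hε's) hWs') ?_ ?_ ?_
      · rw [e2, hV] at this
        exact T_of_stab (T_of_stab (T_cancel_left hWT this))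
      · rintro ((i | i) | i) ((j | j) | j)
        · exact h₀ i j
        · exact sup_zero _
        · exact sup_zero _
        · exact sup_zero _
        · exact msup_one (S := {x : G | x • D.ep τ false = D.ep τ false}) (one_smul _ _) i j
        all_goals exact sup_zero _
      · rintro ((i | i) | i) ((j | j) | j)
        · exact h₁ i j
        any_goals exact sup_zero _
        · exact msup_one (S := {x : G | x • D.ep τ true = D.ep τ true}) (one_smul _ _) i j
      · have : ε' * ε' = ε' := by simp [hε', fromBlocks_multiply, hεε]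
        rw [mul_assoc, mul_assoc, ← mul_assoc W (W * ε'), ← mul_assoc W W, hWW, one_mul,
          ← mul_assoc ε', this, ← mul_assoc]
      · rw [hε'']
        rintro ((i | i) | i) ((j | j) | j) h
        · change Sup _ (ε i j - η i j)
          rw [hη, proj_mul_apply]
          split_ifs with h'
          · rw [sub_self]; exact sup_zero _
          · rw [sub_zero]
            exact hc i j fun h2 => (Finset.mem_insert.1 h2).elim h' h
        any_goals exact sup_zero _
        · exact msup_map_single (S := {1}) rfl e₀ i j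
      · rw [e2, hV]
        exact hWT.isUnit.mul (isUnit_fromBlocks_diag (isUnit_fromBlocks_diag hu isUnit_one)
          isUnit_one)
  intro J _ _ e z Θ₀ Θ₁ ε h₀ h₁ hε hεε hu
  exact main (Finset.univ.image e) J e z Θ₀ Θ₁ ε h₀ h₁ hε hεε
    (fun i j h => absurd (Finset.mem_image_of_mem _ (Finset.mem_univ i)) h) hu

end TB

end Pool.Agent.MP_f7db47_al
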