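import Mathlib

/-!
Abstract data of a splitting of a group along one orbit of edges.
-/

namespace Pool.Agent.MP_f7db47_al

universe u w

/-- Abstract one-edge splitting. `v`, `w` are the end points of the base edge, `H` is the side
of `w`; `Ah s s'` is the set of `g` that move the base edge, oriented by `s'`, strictly ahead of
the base edge oriented by `s` (`true` is the orientation from `v` to `w`). -/
structure TD (G : Type u) [Group G] (V : Type w) [MulAction G V] where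
  v : V
  w : V
  H : Set V
  hv : v ∉ H
  hw : w ∈ H
  tri : ∀ k : G, (k • v = v ∧ k • w = w) ∨ (k • v ∈ H ↔ k • w ∈ H)
  d : G → ℕ
  n1 : ∀ g : G, (g • v = v ∨ g • v = w) → ¬ (g • v = v ∧ g • w = w) →
    g⁻¹ • v ∉ H ∧ g⁻¹ • w ∉ H ∧ ∀ k : G, k • w ∈ H → d k < d (g * k)
  n2 : ∀ g : G, (g • w = v ∨ g • w = w) → ¬ (g • v = v ∧ g • w = w) →
    g⁻¹ • v ∈ H ∧ g⁻¹ • w ∈ H ∧ ∀ k : G, k • v ∉ H → d k < d (g * k)
  Ah : Bool → Bool → Set G
  ah_mul : ∀ s s' s'' a b, a ∈ Ah s s' → b ∈ Ah s' s'' → a * b ∈ Ah s s''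
  ah_left : ∀ s s' (c : G) a, c • v = v → c • w = w → a ∈ Ah s s' → c * a ∈ Ah s s'
  ah_right : ∀ s s' (c : G) a, c • v = v → c • w = w → a ∈ Ah s s' → a * c ∈ Ah s s'
  ah_tt : ∀ g : G, g • v = w → g ∈ Ah true true
  ah_tf : ∀ g : G, g • w = w → g • v ≠ v → g ∈ Ah true false
  ah_ff : ∀ g : G, g • w = v → g ∈ Ah false false
  ah_ft : ∀ g : G, g • v = v → g • w ≠ w → g ∈ Ah false true
  μ : V → ℕ
  lin : ∀ (g : G) (z : V), (z = v ∨ z = w) → (g • z = v ∨ g • z = w) ∨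
    ∃ k : G, (k • w = g • z ∧ μ (k • v) < μ (g • z)) ∨ (k • v = g • z ∧ μ (k • w) < μ (g • z))

/-- The edge group. -/
def TD.C {G : Type u}  [Group G] {V : Type w} [MulAction G V] (D : TD G V) : Subgroup G :=
  MulAction.stabilizer G D.v ⊓ MulAction.stabilizer G D.w

end Pool.Agent.MP_f7db47_al
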