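import Pool.Agent.MP_f7db47_al.Defs

/-!
Working versions of the predicates, over arbitrary finite index types.
-/

namespace Pool.Agent.MP_f7db47_al

universe u v

variable (R : Type v) [Ring R] (G : Type u) [Group G]

/-- The submonoid generated by the generators. -/
noncomputable def HG (ι : Type) [Fintype ι] [DecidableEq ι] : Submonoid (Matrix ι ι (MonoidAlgebra R G)) :=
  Submonoid.closure {M | Gen R G ι M}

variable {R G} in
/-- Stably a product of generators. -/
def T {J : Type} [Fintype J] [DecidableEq J] (A : Matrix J J (MonoidAlgebra R G)) : Prop :=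
  ∃ (ι : Type) (_ : Fintype ι) (_ : DecidableEq ι),
    Matrix.fromBlocks A 0 0 (1 : Matrix ι ι (MonoidAlgebra R G)) ∈ HG R G (J ⊕ ι)

/-- Working form of `K1Onto`. -/
def G1 : Prop :=
  ∀ (J : Type) [Fintype J] [DecidableEq J] (A B : Matrix J J (MonoidAlgebra R G)),
    A * B = 1 → B * A = 1 → T A

variable {R G} in
/-- Stably induced idempotent. -/
def SI {J : Type} [Fintype J] [DecidableEq J] (p : Matrix J J (MonoidAlgebra R G)) : Prop :=
  ∃ (ι : Type) (_ : Fintype ι) (_ : DecidableEq ι) (κ : Type) (_ : Fintype κ) (_ : DecidableEq κ)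
    (e : Matrix κ κ R) (X : Matrix (J ⊕ ι) κ (MonoidAlgebra R G))
    (Y : Matrix κ (J ⊕ ι) (MonoidAlgebra R G)),
    e * e = e ∧ X * Y = Matrix.fromBlocks p 0 0 1 ∧ Y * X = e.map (MonoidAlgebra.single 1)

/-- Working form of `K0Onto`. -/
def G0 : Prop :=
  ∀ (J : Type) [Fintype J] [DecidableEq J] (p : Matrix J J (MonoidAlgebra R G)),
    p * p = p → SI p

/-- Unipotent matrices are trivial. -/
def Unip : Prop :=
  ∀ (J : Type) [Fintype J] [DecidableEq J] (ν : Matrix J J (MonoidAlgebra R G)),
    IsNilpotent ν → T (1 - ν)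

end Pool.Agent.MP_f7db47_al
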