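import Pool.Agent.MP_f7db47_al.Pr

/-!
The matrix form of the Bass-Heller-Swan / Farrell-Hsiang decomposition.
-/

set_option linter.unusedSectionVars false

namespace Pool.Agent.MP_f7db47_al

open Matrix

universe u v

variable {R : Type v} [Ring R] {G : Type u} [Group G]
variable {J : Type} [Fintype J] [DecidableEq J]

lemma T.isUnit {A : Matrix J J (MonoidAlgebra R G)} (hA : T A) : IsUnit A := by
  obtain ⟨B, -, h1, h2⟩ := T_unit hA
  exact ⟨⟨A, B, h1, h2⟩, rfl⟩

lemma isUnit_fromBlocks_diag {Λ : Type*} [Ring Λ] {K : Type} [Fintype K] [DecidableEq K]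
    {A : Matrix J J Λ} {D : Matrix K K Λ} (hA : IsUnit A) (hD : IsUnit D) :
    IsUnit (fromBlocks A 0 0 D) := by
  obtain ⟨u, rfl⟩ := hA
  obtain ⟨w, rfl⟩ := hD
  exact ⟨⟨fromBlocks u 0 0 w, fromBlocks (u⁻¹ : Units _).val 0 0 (w⁻¹ : Units _).val,
    by simp [fromBlocks_multiply], by simp [fromBlocks_multiply]⟩, rfl⟩

lemma G1_iff : G1 R G ↔ ∀ (J : Type) [Fintype J] [DecidableEq J]
    (A : Matrix J J (MonoidAlgebra R G)), IsUnit A → T A := by
  constructor
  · rintro h J _ _ A ⟨u, rfl⟩
    exact h J _ _ u.mul_inv u.inv_mul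
  · intro h J _ _ A B h1 h2
    exact h J A ⟨⟨A, B, h1, h2⟩, rfl⟩

lemma T_of_isUnit_msup (N : Subgroup G) (hN : G1 R N) {M : Matrix J J (MonoidAlgebra R G)}
    (hM : MSup (N : Set G) M) (hu : IsUnit M) : T M := by
  obtain ⟨u, rfl⟩ := hu
  have hr : Set.range N.subtype = (N : Set G) := by simp
  have h1 : mpr (N : Set G) (1 : Matrix J J (MonoidAlgebra R G)) = 1 :=
    (msup_one N.one_mem).mpr_eq
  refine T_of_msup N.subtype N.subtype_injective hN (B := mpr N (u⁻¹ : Units _).val)
    (hr ▸ hM) (hr ▸ msup_mpr _ _) ?_ ?_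
  · rw [← mpr_mul_left (S := N) _ hM fun k hk g => N.mul_mem_cancel_left hk, u.mul_inv, h1]
  · rw [← mpr_mul_right (S := N) _ hM fun g k hk => N.mul_mem_cancel_right hk, u.inv_mul, h1]

section Graded

variable (dg : G → ℤ) (hadd : ∀ a b, dg (a * b) = dg a + dg b)
include hadd

lemma dg_one : dg 1 = 0 := by have := hadd 1 1; rw [mul_one] at this; omega

lemma dg_inv (g : G) : dg g⁻¹ = -dg g := by
  have := hadd g g⁻¹; rw [mul_inv_cancel, dg_one dg hadd] at this; omega

lemma dg_pow (g : G) (n : ℕ) : dg (g ^ n) = n * dg g := by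
  induction n with
  | zero => simp [dg_one dg hadd]
  | succ n ih => rw [pow_succ, hadd, ih]; push_cast; ring

lemma exists_dg_bound {I K : Type} [Fintype I] [Fintype K]
    (A : Matrix I K (MonoidAlgebra R G)) :
    ∃ n : ℕ, MSup {g | -(n : ℤ) ≤ dg g ∧ dg g ≤ n} A := by
  obtain ⟨s, hs, -⟩ := exists_finset_msup A
  refine ⟨s.sup fun g => (dg g).natAbs, hs.mono fun g hg => ?_⟩
  have : (dg g).natAbs ≤ s.sup fun g => (dg g).natAbs :=
    Finset.le_sup (f := fun g => (dg g).natAbs) hg
  simp only [Set.mem_ofPred_eq]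
  omega

lemma isNilpotent_of_isUnit {ν : Matrix J J (MonoidAlgebra R G)} {d : ℤ} (hd : d ≠ 0)
    (hν : MSup {g | dg g = d} ν) (hu : IsUnit (1 - ν)) : IsNilpotent ν := by
  obtain ⟨u, hu⟩ := hu
  set X : Matrix J J (MonoidAlgebra R G) := (u⁻¹ : Units _).val with hX
  have hX1 : X = 1 + ν * X := by
    have := u.mul_inv
    rw [hu, sub_mul, one_mul] at this
    rw [← this]; abel
  obtain ⟨n, hn⟩ := exists_dg_bound dg hadd X
  let Xj : ℤ → Matrix J J (MonoidAlgebra R G) := fun j => mpr {g | dg g = j * d} X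
  have hrec : ∀ j : ℤ, Xj j = mpr {g | dg g = j * d} 1 + ν * Xj (j - 1) := by
    intro j
    simp only [Xj]
    conv_lhs => rw [hX1]
    rw [mpr_add, mpr_mul_left _ hν]
    intro k hk g
    simp only [Set.mem_ofPred_eq] at hk ⊢
    rw [hadd, hk, sub_mul, one_mul]
    constructor <;> intro h <;> omega
  have hone : ∀ j : ℤ, j ≠ 0 → mpr {g | dg g = j * d} (1 : Matrix J J (MonoidAlgebra R G)) = 0 := by
    intro j hj
    refine (msup_one (S := {1}) rfl).mpr_eq_zero ?_
    rintro g rfl h
    simp only [Set.mem_ofPred_eq, dg_one dg hadd] at h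
    exact mul_ne_zero hj hd h.symm
  have hbig : ∀ j : ℤ, (n : ℤ) < |j| → Xj j = 0 := by
    intro j hj
    refine hn.mpr_eq_zero fun g hg h => ?_
    simp only [Set.mem_ofPred_eq] at hg h
    have h1 : |j * d| ≤ n := by rw [← h]; exact abs_le.2 hg
    rw [abs_mul] at h1
    have h2 : 1 ≤ |d| := Int.one_le_abs hd
    nlinarith [abs_nonneg j]
  have hneg : ∀ m : ℕ, Xj (-1) = ν ^ m * Xj (-1 - m) := by
    intro m
    induction m with
    | zero => simp
    | succ m ih =>
      rw [ih, hrec, hone _ (by omega), zero_add, pow_succ, mul_assoc]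
      congr 3; push_cast; ring
  have hneg1 : Xj (-1) = 0 := by
    rw [hneg n, hbig, mul_zero]
    rw [abs_of_neg (by omega)]; omega
  have hpos : ∀ m : ℕ, Xj m = ν ^ m := by
    intro m
    induction m with
    | zero =>
      rw [hrec, Nat.cast_zero, zero_sub, hneg1, mul_zero, add_zero, pow_zero]
      exact (msup_one (by simp [dg_one dg hadd])).mpr_eq
    | succ m ih =>
      rw [hrec, hone _ (by omega), zero_add, pow_succ', ← ih]
      congr 2; push_cast; ring
  refine ⟨n + 1, ?_⟩
  rw [← hpos, hbig]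
  rw [abs_of_nonneg (by omega)]; omega

variable (N : Subgroup G) (hN : ∀ g, g ∈ N ↔ dg g = 0) (t : G) (ht : dg t = 1)
include hN ht

lemma T_split (h1 : G1 R N) (h0 : G0 R N) {a b ε : Matrix J J (MonoidAlgebra R G)}
    (ha : MSup {g | dg g = 0} a) (hb : MSup {g | dg g = 1} b) (hε : MSup {g | dg g = 0} ε)
    (hεε : ε * ε = ε) (hu : IsUnit ((1 - ε) * a + ε * b)) : T ((1 - ε) * a + ε * b) := by
  have hr : Set.range N.subtype = {g | dg g = 0} := by ext g; simp [hN]
  obtain ⟨ε', rfl⟩ := exists_map_of_msup N.subtype N.subtype_injective (hr ▸ hε)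
  have hinj : Function.Injective fun M : Matrix J J (MonoidAlgebra R N) =>
      M.map (MonoidAlgebra.mapDomainRingHom R N.subtype) :=
    Matrix.map_injective (mapDomain_inj _ N.subtype_injective)
  obtain ⟨ι, _, _, κ, _, _, e, X', Y', he, hXY, hYX⟩ :=
    h0 J ε' (hinj (by simpa [Matrix.map_mul] using hεε))
  set φ := MonoidAlgebra.mapDomainRingHom R N.subtype with hφ
  set ε := ε'.map φ with hεdef
  set X := X'.map φ with hXdef
  set Y := Y'.map φ with hYdef
  have hX : MSup {g | dg g = 0} X := fun i j => hr ▸ sup_mapDomain _ _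
  have hY : MSup {g | dg g = 0} Y := fun i j => hr ▸ sup_mapDomain _ _
  set ε1 : Matrix (J ⊕ ι) (J ⊕ ι) (MonoidAlgebra R G) := fromBlocks ε 0 0 1 with hε1
  have hXY' : X * Y = ε1 := by
    rw [hXdef, hYdef, ← Matrix.map_mul, hXY, fromBlocks_map, Matrix.map_zero _ (map_zero _),
      Matrix.map_zero _ (map_zero _), Matrix.map_one _ (map_zero _) (map_one _)]
  have hYX' : Y * X = e.map (MonoidAlgebra.single 1) := by
    rw [hXdef, hYdef, ← Matrix.map_mul, hYX]
    ext1 i j; simp [hφ]
  have hε11 : ε1 * ε1 = ε1 := by simp [hε1, fromBlocks_multiply, hεε]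
  set τ : Matrix ι ι (MonoidAlgebra R G) := (1 : Matrix ι ι R).map (MonoidAlgebra.single t)
  set V := (1 - ε) * a + ε * b with hV
  set a1 : Matrix (J ⊕ ι) (J ⊕ ι) (MonoidAlgebra R G) := fromBlocks a 0 0 0
  set b1 : Matrix (J ⊕ ι) (J ⊕ ι) (MonoidAlgebra R G) := fromBlocks b 0 0 τ
  have hV1 : fromBlocks V 0 0 τ = (1 - ε1) * a1 + ε1 * b1 := by
    rw [sub_mul, one_mul, sub_eq_add_neg]
    simp [a1, b1, hε1, fromBlocks_multiply, fromBlocks_add, fromBlocks_neg, hV,
      sub_eq_add_neg, add_mul]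
  set e1 : Matrix κ κ (MonoidAlgebra R G) := e.map (MonoidAlgebra.single 1)
  set eg : Matrix κ κ (MonoidAlgebra R G) := e.map (MonoidAlgebra.single t⁻¹)
  have heg : eg * e1 = eg := by simp only [eg, e1, map_single_mul, he, mul_one]
  have he1 : e1 * e1 = e1 := by simp only [e1, map_single_mul, he, mul_one]
  have hD : T (1 - X * ((e1 - eg) * Y)) := by
    apply T_one_sub_comm
    rw [Matrix.mul_assoc, hYX', sub_mul, he1, heg, ← sub_add]
    exact T_gen (Gen.idem e he _)
  have hD' : 1 - X * ((e1 - eg) * Y) = 1 - ε1 + X * eg * Y := by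
    rw [Matrix.sub_mul, Matrix.mul_sub, ← hYX', Matrix.mul_assoc Y, hXY', ← Matrix.mul_assoc X Y,
      hXY', hε11, Matrix.mul_assoc]
    abel
  have hz : X * eg * Y * (1 - ε1) = 0 := by
    rw [← heg, ← hYX']
    simp only [Matrix.mul_assoc]
    rw [← Matrix.mul_assoc X Y, hXY', mul_sub, mul_one, hε11, sub_self]
    simp
  have hprod : (1 - ε1 + X * eg * Y) * ((1 - ε1) * a1 + ε1 * b1) =
      (1 - ε1) * a1 + X * eg * Y * ε1 * b1 := by
    have h2 : (1 - ε1) * (1 - ε1) = 1 - ε1 := by
      rw [mul_sub, mul_one, sub_mul, one_mul, hε11, sub_self, sub_zero]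
    have h3 : (1 - ε1) * ε1 = 0 := by rw [sub_mul, one_mul, hε11, sub_self]
    rw [add_mul, mul_add, mul_add, ← mul_assoc, ← mul_assoc, ← mul_assoc, ← mul_assoc, h2, h3, hz]
    simp
  have hτ : T τ := T_scalar t
  have hVu : IsUnit (fromBlocks V 0 0 τ) := isUnit_fromBlocks_diag hu hτ.isUnit
  have h00 : (1 : G) ∈ {g | dg g = 0} := dg_one dg hadd
  have hε1s : MSup {g | dg g = 0} ε1 :=
    hε.fromBlocks (msup_zero _) (msup_zero _) (msup_one h00)
  have hmain : T ((1 - ε1) * a1 + X * eg * Y * ε1 * b1) := by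
    refine T_of_isUnit_msup N h1 ?_ ?_
    · have hNs : (N : Set G) = {g | dg g = 0} := by ext g; simp [hN]
      rw [hNs]
      refine MSup.add (((msup_one h00).sub hε1s).mul (S' := {g | dg g = 0})
        (ha.fromBlocks (msup_zero _) (msup_zero _) (msup_zero _)) ?_) ?_
      · intro x hx y hy
        simp only [Set.mem_ofPred_eq, hadd] at *; omega
      · refine MSup.mul (S := {g | dg g = -1}) (S' := {g | dg g = 1}) ?_
          (hb.fromBlocks (msup_zero _) (msup_zero _)
            (msup_map_single (S := {g | dg g = 1}) ht _)) ?_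
        · refine MSup.mul (S := {g | dg g = -1}) ?_ hε1s ?_
          · refine MSup.mul (S := {g | dg g = -1}) ?_ hY ?_
            · refine hX.mul (S' := {g | dg g = -1}) (msup_map_single ?_ _) ?_
              · show dg t⁻¹ = -1
                rw [dg_inv dg hadd, ht]
              · intro x hx y hy
                simp only [Set.mem_ofPred_eq, hadd] at *; omega
            · intro x hx y hy
              simp only [Set.mem_ofPred_eq, hadd] at *; omega
          · intro x hx y hy
            simp only [Set.mem_ofPred_eq, hadd] at *; omega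
        · intro x hx y hy
          simp only [Set.mem_ofPred_eq, hadd] at *; omega
    · rw [← hprod, ← hD', ← hV1]
      exact hD.isUnit.mul hVu
  rw [← hprod, ← hD', ← hV1] at hmain
  exact T_upper_block_left (T_cancel_left hD hmain) hτ

lemma T_linear (h1 : G1 R N) (h0 : G0 R N)
    (hnil : ∀ (ν : Matrix J J (MonoidAlgebra R G)) (d : ℤ), d = 1 ∨ d = -1 →
      MSup {g | dg g = d} ν → IsNilpotent ν → T (1 - ν))
    {A : Matrix J J (MonoidAlgebra R G)} (hA : MSup {g | 0 ≤ dg g ∧ dg g ≤ 1} A)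
    (hu : IsUnit A) : T A := by
  obtain ⟨u, hu⟩ := hu
  set C : Matrix J J (MonoidAlgebra R G) := (u⁻¹ : Units _).val with hC
  have hAC : A * C = 1 := by rw [← hu]; exact u.mul_inv
  have hCA : C * A = 1 := by rw [← hu]; exact u.inv_mul
  set a := mpr {g | dg g = 0} A with ha
  set b := mpr {g | dg g = 1} A with hb
  have hab : A = a + b := by
    conv_lhs => rw [← mpr_add_mpr_compl {g | dg g = 0} A]
    congr 1
    refine mpr_congr hA fun g hg => ?_
    simp only [Set.mem_ofPred_eq, Set.mem_compl_iff] at *; omega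
  have has : MSup {g | dg g = 0} a := msup_mpr _ _
  have hbs : MSup {g | dg g = 1} b := msup_mpr _ _
  set Cp := mpr {g | 0 ≤ dg g} C with hCp
  set Cm := mpr {g | dg g < 0} C with hCm
  set C0 := mpr {g | dg g = 0} C with hC0
  set C1 := mpr {g | dg g = -1} C with hC1
  have hCps : MSup {g | 0 ≤ dg g} Cp := msup_mpr _ _
  have hCms : MSup {g | dg g < 0} Cm := msup_mpr _ _
  have hC0s : MSup {g | dg g = 0} C0 := msup_mpr _ _
  have hC1s : MSup {g | dg g = -1} C1 := msup_mpr _ _
  have hCpm : C = Cp + Cm := by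
    conv_lhs => rw [← mpr_add_mpr_compl {g | 0 ≤ dg g} C]
    congr 2
    ext g; simp
  have h00 : dg 1 = 0 := dg_one dg hadd
  set ε := A * Cm with hε
  have hε' : A * Cp = 1 - ε := by rw [← hAC, hCpm, mul_add, hε]; abel
  have hεs : MSup {g | dg g = 0} ε := by
    have e1 : MSup {g | dg g ≤ 0} ε := hA.mul hCms fun x hx y hy => by
      simp only [Set.mem_ofPred_eq, hadd] at *; omega
    have e2 : MSup {g | 0 ≤ dg g} ε := by
      have : ε = 1 - A * Cp := by rw [hε']; abel
      rw [this]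
      exact (msup_one (by simp [h00])).sub (hA.mul hCps fun x hx y hy => by
        simp only [Set.mem_ofPred_eq, hadd] at *; omega)
    intro i j g hg
    exact le_antisymm (e1 i j g hg) (e2 i j g hg)
  have h1εs : MSup {g | dg g = 0} (1 - ε) := (msup_one (by simp [h00])).sub hεs
  have hεb : ε = b * C1 := by
    rw [← hεs.mpr_eq, hε, hab, add_mul, mpr_add,
      mpr_mul_left (S₁ := {g | dg g = 0}) _ has, mpr_mul_left (S₁ := {g | dg g = -1}) _ hbs,
      hCms.mpr_eq_zero, mul_zero, zero_add, hCm, mpr_mpr, hC1]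
    · congr 2; ext g; simp only [Set.mem_ofPred_eq, Set.mem_inter_iff]; omega
    · intro g hg; simp only [Set.mem_ofPred_eq] at *; omega
    · intro k hk g; simp only [Set.mem_ofPred_eq, hadd] at *; omega
    · intro k hk g; simp only [Set.mem_ofPred_eq, hadd] at *; omega
  have hεa : 1 - ε = a * C0 := by
    rw [← h1εs.mpr_eq, ← hε', hab, add_mul, mpr_add,
      mpr_mul_left (S₁ := {g | dg g = 0}) _ has, mpr_mul_left (S₁ := {g | dg g = -1}) _ hbs,
      hCps.mpr_eq_zero (S := {g | dg g = -1}), mul_zero, add_zero, hCp, mpr_mpr, hC0]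
    · congr 2; ext g; simp only [Set.mem_ofPred_eq, Set.mem_inter_iff]; omega
    · intro g hg; simp only [Set.mem_ofPred_eq] at *; omega
    · intro k hk g; simp only [Set.mem_ofPred_eq, hadd] at *; omega
    · intro k hk g; simp only [Set.mem_ofPred_eq, hadd] at *; omega
  have hCε : C * ε = Cm := by rw [hε, ← mul_assoc, hCA, one_mul]
  have hC1ε : C * (1 - ε) = Cp := by rw [← hε', ← mul_assoc, hCA, one_mul]
  have hCpε : Cp * ε = 0 := by
    refine MSup.eq_zero (S := {g | 0 ≤ dg g}) (S' := {g | dg g < 0})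
      (hCps.mul hεs fun x hx y hy => ?_) ?_ ?_
    · simp only [Set.mem_ofPred_eq, hadd] at *; omega
    · have : Cp * ε = Cm - Cm * ε := by
        rw [eq_sub_iff_add_eq, ← add_mul, ← hCpm, hCε]
      rw [this]
      exact hCms.sub (hCms.mul hεs fun x hx y hy => by
        simp only [Set.mem_ofPred_eq, hadd] at *; omega)
    · intro g hg; simp only [Set.mem_ofPred_eq] at *; omega
  have hCmε : Cm * ε = Cm := by
    conv_rhs => rw [← hCε, hCpm, add_mul, hCpε, zero_add]
  have hC0ε : C0 * ε = 0 := by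
    have := mpr_mul_right (S := {g | dg g = 0}) (S₁ := {g | dg g = 0}) Cp hεs
      fun g k hk => by simp only [Set.mem_ofPred_eq, hadd] at *; omega
    rw [hCpε, (msup_zero _).mpr_eq, hCp, mpr_mpr] at this
    rw [this, hC0]
    congr 2; ext g; simp only [Set.mem_ofPred_eq, Set.mem_inter_iff]; omega
  have hC1ε' : C1 * ε = C1 := by
    have := mpr_mul_right (S := {g | dg g = -1}) (S₁ := {g | dg g = -1}) Cm hεs
      fun g k hk => by simp only [Set.mem_ofPred_eq, hadd] at *; omega
    have e : mpr {g | dg g = -1} Cm = C1 := by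
      rw [hCm, mpr_mpr, hC1]
      congr 1; ext g; simp only [Set.mem_ofPred_eq, Set.mem_inter_iff]; omega
    rw [hCmε, e] at this
    exact this.symm
  have hεε : ε * ε = ε := by
    conv_lhs => rw [hε, mul_assoc, ← hε, hCmε]
  have hF4 : ε * (b * C0) = 0 := by
    have e1 : C * (b * C0) = C0 - Cp := by
      have : b * C0 = A * C0 - (1 - ε) := by rw [hεa, hab, add_mul]; abel
      rw [this, mul_sub, ← mul_assoc, hCA, one_mul, hC1ε]
    have e2 : MSup {g | 1 ≤ dg g} (C0 - Cp) := by
      have : Cp = C0 + mpr {g | 1 ≤ dg g} C := by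
        conv_lhs => rw [← mpr_add_mpr_compl {g | dg g = 0} Cp, hCp, mpr_mpr, mpr_mpr]
        congr 2
        · ext g; simp only [Set.mem_ofPred_eq, Set.mem_inter_iff]; omega
        · ext g; simp only [Set.mem_ofPred_eq, Set.mem_inter_iff, Set.mem_compl_iff]; omega
      rw [this, sub_add_cancel_left]
      exact (msup_mpr _ _).neg
    have hy : MSup {g | dg g = 1} (b * C0) := hbs.mul hC0s fun x hx y hy => by
      simp only [Set.mem_ofPred_eq, hadd] at *; omega
    have e3 : Cm * (b * C0) = 0 := by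
      refine MSup.eq_zero (S := {g | dg g ≤ 0}) (S' := {g | 1 ≤ dg g})
        (hCms.mul hy fun x hx y hy => ?_) ?_ ?_
      · simp only [Set.mem_ofPred_eq, hadd] at *; omega
      · have : Cm * (b * C0) = (C0 - Cp) - Cp * (b * C0) := by
          rw [eq_sub_iff_add_eq, ← add_mul, add_comm, ← hCpm, e1]
        rw [this]
        exact e2.sub (hCps.mul hy fun x hx y hy => by
          simp only [Set.mem_ofPred_eq, hadd] at *; omega)
      · intro g hg; simp only [Set.mem_ofPred_eq] at *; omega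
    rw [hε, mul_assoc, e3, mul_zero]
  have hF5 : (1 - ε) * (a * C1) = 0 := by
    have e1 : C * (a * C1) = C1 - Cm := by
      have : a * C1 = A * C1 - ε := by
        conv_rhs => rw [hεb, hab, add_mul]
        abel
      rw [this, mul_sub, ← mul_assoc, hCA, one_mul, hCε]
    have e2 : MSup {g | dg g ≤ -2} (C1 - Cm) := by
      have : Cm = C1 + mpr {g | dg g ≤ -2} C := by
        conv_lhs => rw [← mpr_add_mpr_compl {g | dg g = -1} Cm, hCm, mpr_mpr, mpr_mpr]
        congr 2
        · ext g; simp only [Set.mem_ofPred_eq, Set.mem_inter_iff]; omega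
        · ext g; simp only [Set.mem_ofPred_eq, Set.mem_inter_iff, Set.mem_compl_iff]; omega
      rw [this, sub_add_cancel_left]
      exact (msup_mpr _ _).neg
    have hy : MSup {g | dg g = -1} (a * C1) := has.mul hC1s fun x hx y hy => by
      simp only [Set.mem_ofPred_eq, hadd] at *; omega
    have e3 : Cp * (a * C1) = 0 := by
      refine MSup.eq_zero (S := {g | -1 ≤ dg g}) (S' := {g | dg g ≤ -2})
        (hCps.mul hy fun x hx y hy => ?_) ?_ ?_
      · simp only [Set.mem_ofPred_eq, hadd] at *; omega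
      · have : Cp * (a * C1) = (C1 - Cm) - Cm * (a * C1) := by
          rw [eq_sub_iff_add_eq, ← add_mul, ← hCpm, e1]
        rw [this]
        exact e2.sub (hCms.mul hy fun x hx y hy => by
          simp only [Set.mem_ofPred_eq, hadd] at *; omega)
      · intro g hg; simp only [Set.mem_ofPred_eq] at *; omega
    rw [← hε', mul_assoc, e3, mul_zero]
  have hF5' : ε * (a * C1) = a * C1 := by
    rw [sub_mul, one_mul, sub_eq_zero] at hF5; exact hF5.symm
  have h1ε1 : (1 - ε) * (1 - ε) = 1 - ε := by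
    rw [mul_sub, mul_one, sub_mul, one_mul, hεε, sub_self, sub_zero]
  clear_value ε
  have hUV : (C0 + C1) * ((1 - ε) * a + ε * b) = 1 := by
    have e1 : mpr {g | dg g = 0} (C * A) = C0 * a + C1 * b := by
      rw [hab, mul_add, mpr_add, mpr_mul_right (S₁ := {g | dg g = 0}) _ has,
        mpr_mul_right (S₁ := {g | dg g = -1}) _ hbs]
      · intro g k hk; simp only [Set.mem_ofPred_eq, hadd] at *; omega
      · intro g k hk; simp only [Set.mem_ofPred_eq, hadd] at *; omega
    rw [hCA, (msup_one (by simp [h00])).mpr_eq] at e1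
    conv_rhs => rw [e1]
    rw [add_mul, mul_add, mul_add, ← mul_assoc, ← mul_assoc, ← mul_assoc, ← mul_assoc,
      mul_sub, mul_sub, mul_one, mul_one, hC0ε, hC1ε']
    simp
  have hVU : ((1 - ε) * a + ε * b) * (C0 + C1) = 1 := by
    rw [add_mul, mul_add, mul_add, mul_assoc, mul_assoc, mul_assoc, mul_assoc, ← hεa, h1ε1, hF5,
      hF4, ← hεb, hεε]
    abel
  have hpm : (b * C0) * (a * C1) = 0 := by
    rw [← hF5', ← mul_assoc, mul_assoc b, hC0ε, mul_zero, zero_mul]
  have hmp : (a * C1) * (b * C0) = 0 := by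
    rw [← hC1ε', ← mul_assoc a, mul_assoc, hF4, mul_zero]
  have hAU : A * (C0 + C1) = 1 + b * C0 + a * C1 := by
    rw [hab, add_mul, mul_add, mul_add, ← hεa, ← hεb]; abel
  have hVu : IsUnit ((1 - ε) * a + ε * b) := ⟨⟨_, _, hVU, hUV⟩, rfl⟩
  have hUu : IsUnit (C0 + C1) := ⟨⟨_, _, hUV, hVU⟩, rfl⟩
  have e1 : (1 - -(b * C0)) * (1 - -(a * C1)) = A * (C0 + C1) := by
    rw [hAU, sub_neg_eq_add, sub_neg_eq_add, mul_add, add_mul, add_mul, hpm]; simp [add_assoc]
  have e2 : (1 - -(a * C1)) * (1 - -(b * C0)) = A * (C0 + C1) := by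
    rw [hAU, sub_neg_eq_add, sub_neg_eq_add, mul_add, add_mul, add_mul, hmp]
    simp only [mul_one, one_mul, add_zero]; abel
  have hcomm : Commute (1 - -(b * C0)) (1 - -(a * C1)) := e1.trans e2.symm
  have hAUu : IsUnit (A * (C0 + C1)) := (hu ▸ u.isUnit).mul hUu
  rw [← e1, hcomm.isUnit_mul_iff] at hAUu
  have hp : MSup {g | dg g = 1} (-(b * C0)) := (hbs.mul hC0s fun x hx y hy => by
    simp only [Set.mem_ofPred_eq, hadd] at *; omega).neg
  have hm : MSup {g | dg g = -1} (-(a * C1)) := (has.mul hC1s fun x hx y hy => by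
    simp only [Set.mem_ofPred_eq, hadd] at *; omega).neg
  have t1 := hnil _ 1 (Or.inl rfl) hp (isNilpotent_of_isUnit dg hadd one_ne_zero hp hAUu.1)
  have t2 := hnil _ (-1) (Or.inr rfl) hm
    (isNilpotent_of_isUnit dg hadd (by omega) hm hAUu.2)
  have t3 := T_split dg hadd N hN t ht h1 h0 has hbs hεs hεε hVu
  have := T_mul (T_mul t1 t2) t3
  rwa [e1, mul_assoc, hUV, mul_one] at this

lemma zext_core (h1 : G1 R N) (h0 : G0 R N)
    (hnil : ∀ (J : Type) [Fintype J] [DecidableEq J] (ν : Matrix J J (MonoidAlgebra R G)) (d : ℤ),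
      d = 1 ∨ d = -1 → MSup {g | dg g = d} ν → IsNilpotent ν → T (1 - ν)) : G1 R G := by
  have h00 : dg 1 = 0 := dg_one dg hadd
  have hlin : ∀ (n : ℕ) (J : Type) [Fintype J] [DecidableEq J]
      (A : Matrix J J (MonoidAlgebra R G)), MSup {g | 0 ≤ dg g ∧ dg g ≤ n + 1} A → IsUnit A →
      T A := by
    intro n
    induction n with
    | zero =>
      intro J _ _ A hA hu
      exact T_linear dg hadd N hN t ht h1 h0 (hnil J) (by simpa using hA) hu
    | succ n ih =>
      intro J _ _ A hA hu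
      set τ : Matrix J J (MonoidAlgebra R G) := (1 : Matrix J J R).map (MonoidAlgebra.single t)
      set τ' : Matrix J J (MonoidAlgebra R G) :=
        (1 : Matrix J J R).map (MonoidAlgebra.single t⁻¹)
      have hττ : τ' * τ = 1 := by
        simp only [τ, τ', map_single_mul, mul_one, inv_mul_cancel, map_single_one_one]
      set B := mpr {g | dg g = n + 2} A * τ' with hB
      have hprod : fromBlocks 1 (-B) 0 1 * fromBlocks A 0 0 1 * fromBlocks 1 0 τ 1 =
          fromBlocks (mpr {g | dg g = n + 2}ᶜ A) (-B) τ 1 := by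
        simp only [fromBlocks_multiply, fromBlocks_inj, Matrix.one_mul, Matrix.mul_one,
          Matrix.zero_mul, Matrix.mul_zero, add_zero, zero_add, and_true, Matrix.neg_mul]
        rw [hB, mul_assoc, hττ, mul_one]
        conv_lhs => rw [← mpr_add_mpr_compl {g | dg g = n + 2} A]
        rw [mpr_add_mpr_compl]
        nth_rewrite 1 [← mpr_add_mpr_compl {g | dg g = n + 2} A]
        abel
      have hsu : IsUnit (fromBlocks A 0 0 (1 : Matrix J J (MonoidAlgebra R G))) :=
        isUnit_fromBlocks_diag hu isUnit_one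
      have hT : T (fromBlocks (mpr {g | dg g = n + 2}ᶜ A) (-B) τ 1) := by
        refine ih _ _ (MSup.fromBlocks ?_ ?_ ?_ ?_) ?_
        · intro i j g hg
          have e1 := hA.mpr i j g hg
          have e2 := msup_mpr _ _ i j g hg
          simp only [Set.mem_ofPred_eq, Set.mem_compl_iff] at *
          push_cast at *; omega
        · refine ((msup_mpr _ _).mul (msup_map_single (S := {t⁻¹}) rfl _) ?_).neg
          rintro x hx y rfl
          simp only [Set.mem_ofPred_eq, hadd, dg_inv dg hadd] at *; omega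
        · exact msup_map_single (by simp only [Set.mem_ofPred_eq]; omega) _
        · exact msup_one (by simp only [Set.mem_ofPred_eq]; omega)
        · rw [← hprod]
          exact ((T_upper _).isUnit.mul hsu).mul (T_lower _).isUnit
      rw [← hprod] at hT
      exact T_of_stab (T_cancel_left (T_upper _) (T_cancel_right (T_lower _) hT))
  rw [G1_iff]
  intro J _ _ A hu
  obtain ⟨n, hn⟩ := exists_dg_bound dg hadd A
  have hτ : T ((1 : Matrix J J R).map (MonoidAlgebra.single (t ^ n))) := T_scalar _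
  refine T_cancel_left hτ (hlin (2 * n) J _ ?_ (hτ.isUnit.mul hu))
  refine (msup_map_single (S := {t ^ n}) rfl _).mul hn ?_
  rintro x rfl y hy
  simp only [Set.mem_ofPred_eq, hadd, dg_pow dg hadd, ht] at *
  push_cast; omega

end Graded

/-- The degree attached to a homomorphism to `ℤ`. -/
def dgOf (h : G →* Multiplicative ℤ) (g : G) : ℤ := (h g).toAdd

lemma dgOf_mul (h : G →* Multiplicative ℤ) (a b : G) : dgOf h (a * b) = dgOf h a + dgOf h b := by
  simp [dgOf]

lemma mem_ker_iff_dgOf (h : G →* Multiplicative ℤ) (g : G) : g ∈ h.ker ↔ dgOf h g = 0 := by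
  simp [dgOf, MonoidHom.mem_ker]

/-- The extension theorem: `G1` passes to extensions by a subgroup of `ℤ` once homogeneous
nilpotent matrices give trivial unipotent matrices. -/
theorem zext (h : G →* Multiplicative ℤ) (h1 : G1 R h.ker) (h0 : G0 R h.ker)
    (hnil : ∀ (J : Type) [Fintype J] [DecidableEq J] (ν : Matrix J J (MonoidAlgebra R G)) (d : ℤ),
      d ≠ 0 → MSup {g | dgOf h g = d} ν → IsNilpotent ν → T (1 - ν)) : G1 R G := by
  obtain ⟨d, hd⟩ := Int.subgroup_cyclic (Subgroup.toAddSubgroup' h.range)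
  have hmem : ∀ n : ℤ, (∃ g, dgOf h g = n) ↔ d ∣ n := by
    intro n
    have : n ∈ Subgroup.toAddSubgroup' h.range ↔ ∃ g, dgOf h g = n := by
      simp only [Subgroup.mem_toAddSubgroup', MonoidHom.mem_range, dgOf]
      exact exists_congr fun g => ⟨fun e => by rw [e]; rfl, fun e => by rw [← e]; rfl⟩
    rw [← this, hd, AddSubgroup.mem_closure_singleton]
    exact ⟨fun ⟨k, hk⟩ => ⟨k, by rw [← hk, smul_eq_mul, mul_comm]⟩,
      fun ⟨k, hk⟩ => ⟨k, by rw [hk, smul_eq_mul, mul_comm]⟩⟩
  by_cases hd0 : d = 0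
  · rw [G1_iff]
    intro J _ _ A hu
    refine T_of_isUnit_msup h.ker h1 (fun i j g _ => ?_) hu
    have := (hmem _).1 ⟨g, rfl⟩
    rw [hd0, zero_dvd_iff] at this
    exact (mem_ker_iff_dgOf h g).2 this
  · obtain ⟨t, ht⟩ := (hmem d).2 dvd_rfl
    have hdiv : ∀ g, dgOf h g = d * (dgOf h g / d) := fun g =>
      (Int.mul_ediv_cancel' ((hmem _).1 ⟨g, rfl⟩)).symm
    refine zext_core (fun g => dgOf h g / d) (fun a b => ?_) h.ker (fun g => ?_) t ?_ h1 h0 ?_
    · rw [dgOf_mul, Int.add_ediv_of_dvd_left ((hmem _).1 ⟨a, rfl⟩)]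
    · rw [mem_ker_iff_dgOf]
      constructor
      · intro e; simp [e]
      · intro e; rw [hdiv g, e, mul_zero]
    · simp only [ht]; exact Int.ediv_self hd0
    · intro J _ _ ν e he hν hn
      refine hnil J ν (d * e) (mul_ne_zero hd0 (by omega)) (hν.mono fun g hg => ?_) hn
      simp only [Set.mem_ofPred_eq] at hg ⊢
      rw [hdiv g, hg]

end Pool.Agent.MP_f7db47_al
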